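import Pool.Agent.H812R2.PI.Defs

namespace Pool.Agent.H812R2.PI

open scoped BigOperators

variable {d : ℕ}

theorem win_zero (x : ℤ → Fin d) (m : ℤ) : win x m 0 = [] := by simp [win]

theorem win_length (x : ℤ → Fin d) (m : ℤ) (n : ℕ) : (win x m n).length = n := by simp [win]

theorem win_getElem (x : ℤ → Fin d) (m : ℤ) (n k : ℕ) (h : k < (win x m n).length) :
    (win x m n)[k] = x (m + k) := by simp [win]

theorem win_succ' (x : ℤ → Fin d) (m : ℤ) (n : ℕ) :
    win x m (n+1) = x m :: win x (m+1) n := by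
  simp only [win, List.ofFn_succ]
  simp only [Fin.val_zero, Nat.cast_zero, add_zero, Fin.val_succ, Nat.cast_add, Nat.cast_one,
    List.cons.injEq, true_and]
  congr 1
  funext k
  congr 1; ring

theorem win_append (x : ℤ → Fin d) (m : ℤ) (n n' : ℕ) :
    win x m (n + n') = win x m n ++ win x (m + n) n' := by
  induction n generalizing m with
  | zero => simp [win_zero]
  | succ n ih =>
    have : n + 1 + n' = (n + n') + 1 := by ring
    rw [this, win_succ', ih, win_succ']
    simp only [List.cons_append, Nat.cast_add, Nat.cast_one]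
    congr 3; ring

theorem win_shZ (x : ℤ → Fin d) (k m : ℤ) (n : ℕ) : win (shZ k x) m n = win x (m + k) n := by
  unfold win shZ; congr 1; funext i; congr 1; ring

theorem sh_eq_shZ (x : ℤ → Fin d) : sh x = shZ 1 x := rfl

theorem shZ_zero (x : ℤ → Fin d) : shZ 0 x = x := by funext k; simp [shZ]

theorem shZ_add (x : ℤ → Fin d) (m n : ℤ) : shZ m (shZ n x) = shZ (m + n) x := by
  funext k; simp [shZ, add_assoc]

theorem shZ_mem {σ : Fin d → List (Fin d)} {x : ℤ → Fin d} (hx : x ∈ X σ) (k : ℤ) :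
    shZ k x ∈ X σ := by
  intro m n; rw [win_shZ]; exact hx _ _

theorem sh_mem {σ : Fin d → List (Fin d)} {x : ℤ → Fin d} (hx : x ∈ X σ) : sh x ∈ X σ :=
  shZ_mem hx 1

theorem psum_zero (x : ℤ → Fin d) : psum x 0 = 0 := by simp [psum, win_zero, ab_nil]

theorem ab_win_succ (x : ℤ → Fin d) (m : ℤ) (n : ℕ) :
    ab (win x m (n+1)) = ab (win x m n) + ev (x (m + n)) := by
  rw [win_append, ab_append]
  congr 1
  rw [win_succ', win_zero, ab_single]

theorem psum_succ (x : ℤ → Fin d) (k : ℤ) : psum x (k+1) = psum x k + ev (x k) := by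
  rcases lt_trichotomy k (-1) with h | h | h
  · obtain ⟨n, rfl⟩ : ∃ n : ℕ, k = -(n : ℤ) - 2 := ⟨(-k-2).toNat, by omega⟩
    have h1 : ¬ (0 ≤ -(n:ℤ) - 2 + 1) := by omega
    have h2 : ¬ (0 ≤ -(n:ℤ) - 2) := by omega
    simp only [psum, h1, h2, if_false]
    have e1 : (-(-(n:ℤ) - 2 + 1)).toNat = n + 1 := by omega
    have e2 : (-(-(n:ℤ) - 2)).toNat = (n + 1) + 1 := by omega
    rw [e1, e2, win_succ' x (-(n:ℤ)-2) (n+1), ab_cons]
    abel
  · subst h
    simp [psum]
    rw [win_succ', win_zero, win_zero, ab_single, ab_nil]; abel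
  · obtain ⟨n, rfl⟩ : ∃ n : ℕ, k = n := ⟨k.toNat, by omega⟩
    have h1 : (0:ℤ) ≤ (n:ℤ) + 1 := by omega
    have h2 : (0:ℤ) ≤ (n:ℤ) := by omega
    simp only [psum, h1, h2, if_true]
    have e1 : ((n:ℤ) + 1).toNat = n + 1 := by omega
    have e2 : ((n:ℤ)).toNat = n := by omega
    rw [e1, e2, ab_win_succ]; simp

theorem ab_win (x : ℤ → Fin d) (m : ℤ) (n : ℕ) :
    ab (win x m n) = psum x (m + n) - psum x m := by
  induction n with
  | zero => simp [win_zero, ab_nil]
  | succ n ih =>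
    rw [ab_win_succ, ih]
    push_cast
    rw [← add_assoc, psum_succ]; abel

theorem psum_shZ (x : ℤ → Fin d) (m k : ℤ) : psum (shZ m x) k = psum x (k + m) - psum x m := by
  induction k using Int.induction_on with
  | zero => simp [psum_zero]
  | succ n ih =>
    rw [psum_succ, ih]
    have : (n:ℤ) + 1 + m = (n + m) + 1 := by ring
    rw [this, psum_succ]; simp only [shZ]; abel
  | pred n ih =>
    have h1 := psum_succ (shZ m x) (-(n:ℤ) - 1)
    have h2 := psum_succ x (-(n:ℤ) - 1 + m)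
    have e1 : -(n:ℤ) - 1 + 1 = -n := by ring
    have e2 : -(n:ℤ) - 1 + m + 1 = -n + m := by ring
    rw [e1] at h1; rw [e2] at h2
    rw [ih, h2] at h1
    have : psum (shZ m x) (-(n:ℤ) - 1) = psum x (-(n:ℤ) - 1 + m) - psum x m
        + (ev (x (-(n:ℤ) - 1 + m)) - ev (shZ m x (-(n:ℤ)-1))) := by
      rw [show psum x (-(n:ℤ) - 1 + m) - psum x m
        + (ev (x (-(n:ℤ) - 1 + m)) - ev (shZ m x (-(n:ℤ)-1)))
        = (psum x (-(n:ℤ) - 1 + m) + ev (x (-(n:ℤ) - 1 + m)) - psum x m) - ev (shZ m x (-(n:ℤ)-1))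
        by abel, h1]; abel
    rw [this]; simp [shZ]

theorem psum_sum (x : ℤ → Fin d) (k : ℤ) : ∑ i, psum x k i = k := by
  induction k using Int.induction_on with
  | zero => simp [psum_zero]
  | succ n ih => rw [psum_succ]; simp [Finset.sum_add_distrib, ih, ev]
  | pred n ih =>
    have h1 := psum_succ x (-(n:ℤ) - 1)
    have e1 : -(n:ℤ) - 1 + 1 = -n := by ring
    rw [e1] at h1
    rw [h1] at ih
    simp [Finset.sum_add_distrib, ev] at ih
    linarith

/-- vertices of a desubstituted sequence -/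
theorem psum_desub {τ : Fin d → List (Fin d)} {x x' : ℤ → Fin d} {c : ℤ → ℤ}
    (h : IsDesub τ x x' c) (i : ℤ) :
    psum x (c i) = psum x (c 0) + (inc τ).mulVec (psum x' i) := by
  have step : ∀ i, psum x (c (i+1)) = psum x (c i) + (inc τ).mulVec (ev (x' i)) := by
    intro i
    have h1 := h.1 i
    have h2 := h.2.1 i
    have h3 := ab_win x (c i) (τ (x' i)).length
    rw [h2, ← h1, ab_subst] at h3
    rw [h3]; abel
  induction i using Int.induction_on with
  | zero => simp [psum_zero]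
  | succ n ih =>
    rw [step, ih, psum_succ, Matrix.mulVec_add]; abel
  | pred n ih =>
    have h1 := step (-(n:ℤ) - 1)
    have h2 := psum_succ x' (-(n:ℤ) - 1)
    have e1 : -(n:ℤ) - 1 + 1 = -n := by ring
    rw [e1] at h1 h2
    rw [h1, h2, Matrix.mulVec_add] at ih
    have := add_right_cancel (a := psum x (c (-(n:ℤ)-1))) (b := (inc τ).mulVec (ev (x' (-(n:ℤ)-1))))
      (c := psum x (c 0) + (inc τ).mulVec (psum x' (-(n:ℤ) - 1))) (by rw [ih]; abel)
    exact this

theorem pr_add {M : Matrix (Fin d) (Fin d) ℤ} (P : PD M) (x y : Fin d → ℝ) :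
    P.pr (x + y) = P.pr x + P.pr y := by
  funext i; simp [PD.pr, Finset.sum_add_distrib]; ring

theorem pr_neg {M : Matrix (Fin d) (Fin d) ℤ} (P : PD M) (x : Fin d → ℝ) :
    P.pr (-x) = - P.pr x := by
  funext i; simp [PD.pr]; ring

theorem pr_sub {M : Matrix (Fin d) (Fin d) ℤ} (P : PD M) (x y : Fin d → ℝ) :
    P.pr (x - y) = P.pr x - P.pr y := by
  rw [sub_eq_add_neg, pr_add, pr_neg, sub_eq_add_neg]

theorem pr_zero {M : Matrix (Fin d) (Fin d) ℤ} (P : PD M) : P.pr 0 = 0 := by
  funext i; simp [PD.pr]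

theorem pr_sum {M : Matrix (Fin d) (Fin d) ℤ} (P : PD M) (x : Fin d → ℝ) :
    ∑ i, P.pr x i = 0 := by
  simp [PD.pr, Finset.sum_sub_distrib, ← Finset.mul_sum, P.u_sum]

theorem N_zero {M : Matrix (Fin d) (Fin d) ℤ} (P : PD M) : P.N 0 = 0 := by
  have := P.N_le 0 0 (by intro i; simp)
  have h2 := P.N_nonneg 0
  linarith

theorem N_congr {M : Matrix (Fin d) (Fin d) ℤ} (P : PD M) (x y : Fin d → ℝ)
    (h : P.pr x = P.pr y) : P.N x = P.N y := by
  have key : ∀ x y : Fin d → ℝ, P.pr x = P.pr y → P.N x ≤ P.N y := by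
    intro x y h
    have h1 : P.N (x - y) ≤ P.c * 0 := by
      apply P.N_le
      intro i
      have := congrFun (pr_sub P x y) i
      rw [h] at this
      simp only [PD.pr, Pi.sub_apply] at this
      simp only [Pi.sub_apply]
      rw [this]; simp
    have h2 := P.N_add (x - y) y
    rw [sub_add_cancel] at h2
    linarith
  exact le_antisymm (key x y h) (key y x h.symm)

theorem N_pr {M : Matrix (Fin d) (Fin d) ℤ} (P : PD M) (x : Fin d → ℝ) : P.N (P.pr x) = P.N x := by
  apply N_congr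
  have h1 : P.pr (P.pr x) = P.pr (x - (fun i => (∑ j, x j) * P.u i)) := rfl
  have h2 : P.pr (fun i => (∑ j, x j) * P.u i) = 0 := by
    funext i; simp [PD.pr, ← Finset.mul_sum, P.u_sum]
  rw [h1, pr_sub, h2, sub_zero]

theorem N_sub {M : Matrix (Fin d) (Fin d) ℤ} (P : PD M) (x y : Fin d → ℝ) :
    P.N (x - y) ≤ P.N x + P.N y := by
  rw [sub_eq_add_neg, ← P.N_neg y]; exact P.N_add _ _

theorem act_add (M : Matrix (Fin d) (Fin d) ℤ) (x y : Fin d → ℝ) :
    act M (x + y) = act M x + act M y := by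
  funext i; simp [act, mul_add, Finset.sum_add_distrib]

theorem act_u {M : Matrix (Fin d) (Fin d) ℤ} (P : PD M) (t : ℝ) :
    act M (fun i => t * P.u i) = fun i => (t * P.lam) * P.u i := by
  funext i
  simp only [act]
  rw [mul_assoc, ← P.M_u i, Finset.mul_sum]
  apply Finset.sum_congr rfl; intro j _; ring

theorem rv_sub (v w : Fin d → ℤ) : rv (v - w) = rv v - rv w := by
  funext i; simp [rv]

/-- the cocycle relation extended to all shifts -/
theorem cocycle_shZ {σ : Fin d → List (Fin d)} {M : Matrix (Fin d) (Fin d) ℤ} (P : PD M)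
    (h : (ℤ → Fin d) → (Fin d → ℝ))
    (hh : ∀ x ∈ X σ, h (sh x) = h x + P.pr (rv (ev (x 0)))) :
    ∀ x ∈ X σ, ∀ k : ℤ, h (shZ k x) = h x + P.pr (rv (psum x k)) := by
  intro x hx k
  have step : ∀ k : ℤ, h (shZ (k+1) x) = h (shZ k x) + P.pr (rv (ev (x k))) := by
    intro k
    have h1 := hh (shZ k x) (shZ_mem hx k)
    rw [sh_eq_shZ, shZ_add, add_comm] at h1
    rw [h1]; simp [shZ]
  induction k using Int.induction_on with
  | zero => simp [psum_zero, rv_zero, pr_zero, shZ_zero]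
  | succ n ih =>
    rw [step, ih, psum_succ, rv_add, pr_add]; abel
  | pred n ih =>
    have h1 := step (-(n:ℤ) - 1)
    have h2 := psum_succ x (-(n:ℤ) - 1)
    have e1 : -(n:ℤ) - 1 + 1 = -n := by ring
    rw [e1] at h1 h2
    rw [h1, h2, rv_add, pr_add, ← add_assoc] at ih
    exact add_right_cancel ih

/-- lengths -/
theorem ht_ab_le {M : Matrix (Fin d) (Fin d) ℤ} (P : PD M) (c : ℝ) (hc : ∀ i, P.ell i ≤ c)
    (w : List (Fin d)) : P.ht (ab w) ≤ c * w.length := by
  induction w with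
  | nil => simp [ab_nil, ht_zero]
  | cons a w ih =>
    rw [ab_cons, ht_add, ht_ev]
    have := hc a
    push_cast [List.length_cons]
    nlinarith

theorem le_ht_ab {M : Matrix (Fin d) (Fin d) ℤ} (P : PD M) (c : ℝ) (hc : ∀ i, c ≤ P.ell i)
    (w : List (Fin d)) : c * w.length ≤ P.ht (ab w) := by
  induction w with
  | nil => simp [ab_nil, ht_zero]
  | cons a w ih =>
    rw [ab_cons, ht_add, ht_ev]
    have := hc a
    push_cast [List.length_cons]
    nlinarith

theorem ht_iter {σ : Fin d → List (Fin d)} (P : PD (inc σ)) (n : ℕ) (a : Fin d) :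
    P.ht (ab (iter σ n a)) = P.lam ^ n * P.ell a := by
  induction n with
  | zero => simp [iter_zero, ab_single, ht_ev]
  | succ n ih => rw [iter_succ, ab_ext, ht_mulVec, ih]; ring

theorem ht_pow_mulVec {M : Matrix (Fin d) (Fin d) ℤ} (P : PD M) (n : ℕ) (v : Fin d → ℤ) :
    P.ht ((M ^ n).mulVec v) = P.lam ^ n * P.ht v := by
  induction n with
  | zero => simp
  | succ n ih => rw [pow_succ', ← Matrix.mulVec_mulVec, ht_mulVec, ih]; ring

theorem N_pow_mulVec {M : Matrix (Fin d) (Fin d) ℤ} (P : PD M) (n : ℕ) (v : Fin d → ℤ) :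
    P.N (rv ((M ^ n).mulVec v)) ≤ P.rho ^ n * P.N (rv v) := by
  induction n with
  | zero => simp
  | succ n ih =>
    rw [pow_succ', ← Matrix.mulVec_mulVec, rv_mulVec]
    have h1 := P.N_act (rv ((M ^ n).mulVec v))
    have h2 := mul_le_mul_of_nonneg_left ih P.rho_nonneg
    calc _ ≤ _ := h1
      _ ≤ _ := h2
      _ = _ := by ring

theorem N_pow_act {M : Matrix (Fin d) (Fin d) ℤ} (P : PD M) (n : ℕ) (x : Fin d → ℝ) :
    P.N (act (M ^ n) x) ≤ P.rho ^ n * P.N x := by
  have hact : ∀ n, act (M ^ (n+1)) x = act M (act (M ^ n) x) := by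
    intro n; funext i
    simp only [act, pow_succ', Matrix.mul_apply, Int.cast_sum, Int.cast_mul, Finset.sum_mul,
      Finset.mul_sum]
    rw [Finset.sum_comm]
    apply Finset.sum_congr rfl; intro j _; apply Finset.sum_congr rfl; intro k _; ring
  induction n with
  | zero =>
    have : act ((M:Matrix (Fin d) (Fin d) ℤ) ^ 0) x = x := by
      funext i; simp [act, Matrix.one_apply]
    rw [this]; simp
  | succ n ih =>
    rw [hact]
    have h1 := P.N_act (act (M ^ n) x)
    have h2 := mul_le_mul_of_nonneg_left ih P.rho_nonneg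
    calc _ ≤ _ := h1
      _ ≤ _ := h2
      _ = _ := by ring

/-- powers -/
noncomputable def PD.pow {M : Matrix (Fin d) (Fin d) ℤ} (P : PD M) (n : ℕ) (hn : 1 ≤ n) :
    PD (M ^ n) where
  lam := P.lam ^ n
  ell := P.ell
  u := P.u
  N := P.N
  rho := P.rho ^ n
  c := P.c
  lam_gt := one_lt_pow₀ P.lam_gt (by omega)
  ell_pos := P.ell_pos
  u_pos := P.u_pos
  u_sum := P.u_sum
  ell_M := by
    intro j
    have h := ht_pow_mulVec P n (ev j)
    rw [ht_ev] at h
    rw [← h]
    simp only [PD.ht, Matrix.mulVec, dotProduct, ev]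
    apply Finset.sum_congr rfl; intro i _; simp
  M_u := by
    intro i
    have : ∀ n, ∀ i, ∑ j, ((M ^ n) i j : ℝ) * P.u j = P.lam ^ n * P.u i := by
      intro n; induction n with
      | zero => intro i; simp [Matrix.one_apply]
      | succ n ih =>
        intro i
        simp only [pow_succ', Matrix.mul_apply, Int.cast_sum, Int.cast_mul, Finset.sum_mul]
        rw [Finset.sum_comm]
        have : ∀ k, ∑ j, (M i k : ℝ) * ((M^n) k j : ℝ) * P.u j = (M i k : ℝ) * (P.lam ^ n * P.u k) := by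
          intro k; rw [← ih k, Finset.mul_sum]; apply Finset.sum_congr rfl; intro j _; ring
        simp only [this]
        calc ∑ k, (M i k : ℝ) * (P.lam ^ n * P.u k) = P.lam ^ n * ∑ k, (M i k : ℝ) * P.u k := by
              rw [Finset.mul_sum]; apply Finset.sum_congr rfl; intro k _; ring
          _ = _ := by rw [P.M_u]; ring
    exact this n i
  u_ind := P.u_ind
  ell_ind := P.ell_ind
  c_pos := P.c_pos
  rho_nonneg := pow_nonneg P.rho_nonneg n
  rho_lt := pow_lt_one₀ P.rho_nonneg P.rho_lt (by omega)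
  N_add := P.N_add
  N_neg := P.N_neg
  N_nonneg := P.N_nonneg
  N_act := fun x => N_pow_act P n x
  le_cN := P.le_cN
  N_le := P.N_le

end Pool.Agent.H812R2.PI
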