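import Pool.Agent.H812R2.PI.FDef

namespace Pool.Agent.H812R2.PI
open scoped BigOperators
variable {d : ℕ}

theorem FOff_act_mul (A B : Matrix (Fin d) (Fin d) ℤ) (x : Fin d → ℝ) :
    act (A * B) x = act A (act B x) := by
  funext i
  simp only [act, Matrix.mul_apply, Int.cast_sum, Int.cast_mul, Finset.sum_mul, Finset.mul_sum]
  rw [Finset.sum_comm]
  refine Finset.sum_congr rfl fun j _ => Finset.sum_congr rfl fun k _ => ?_
  ring

theorem FOff_act_one (x : Fin d → ℝ) : act (1 : Matrix (Fin d) (Fin d) ℤ) x = x := by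
  funext i
  simp [act, Matrix.one_apply]

theorem FOff_act_sub (A : Matrix (Fin d) (Fin d) ℤ) (x y : Fin d → ℝ) :
    act A (x - y) = act A x - act A y := by
  funext i
  simp [act, mul_sub, Finset.sum_sub_distrib]

theorem FOff_act_pow_u {M : Matrix (Fin d) (Fin d) ℤ} (P : PD M) (n : ℕ) (t : ℝ) :
    act (M ^ n) (fun i => t * P.u i) = fun i => (t * P.lam ^ n) * P.u i := by
  induction n with
  | zero => rw [pow_zero, FOff_act_one]; simp
  | succ n ih =>
    rw [pow_succ', FOff_act_mul, ih, act_u]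
    funext i
    ring

theorem FOff_pr_u {M : Matrix (Fin d) (Fin d) ℤ} (P : PD M) (s : ℝ) :
    P.pr (fun i => s * P.u i) = 0 := by
  funext i
  simp [PD.pr, ← Finset.mul_sum, P.u_sum]

theorem FOff_pr_of_sum {M : Matrix (Fin d) (Fin d) ℤ} (P : PD M) (x : Fin d → ℝ)
    (h : ∑ i, x i = 0) : P.pr x = x := by
  funext i
  simp [PD.pr, h]

/-- `pr x = 0` implies `x` is a multiple of `u` -/
theorem FOff_of_pr {M : Matrix (Fin d) (Fin d) ℤ} (P : PD M) (x : Fin d → ℝ)
    (h : P.pr x = 0) : x = fun i => (∑ j, x j) * P.u i := by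
  funext i
  have h1 := congrFun h i
  simp only [PD.pr, Pi.zero_apply] at h1
  linarith

theorem offset {σ : Fin d → List (Fin d)} (P : PD (inc σ)) (hdet : IsUnit (inc σ).det)
    (h : (ℤ → Fin d) → (Fin d → ℝ)) (hcont : ContinuousOn h (X σ))
    (hcoc : ∀ x ∈ X σ, h (sh x) = h x + P.pr (rv (ev (x 0))))
    (hsum : ∀ x ∈ X σ, ∑ i, h x i = 0) (m : ℕ)
    {x y x' y' : ℤ → Fin d} {c c' : ℤ → ℤ} (hx : x ∈ X σ) (hy : y ∈ X σ) (hx' : x' ∈ X σ)
    (hy' : y' ∈ X σ) (dx : IsDesub (iter σ m) x x' c) (dy : IsDesub (iter σ m) y y' c')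
    (v : Fin d → ℤ) (hv : P.pr (rv v) = h y - h x) :
    ∃ v' : Fin d → ℤ, ((inc σ) ^ m).mulVec v' = v + psum y (c' 0) - psum x (c 0) ∧
      P.pr (rv v') = h y' - h x' := by
  have hdef := defect_const P h hcont hcoc m hx hy hx' hy' dx dy
  set A : Matrix (Fin d) (Fin d) ℤ := (inc σ) ^ m with hA
  have hAdet : IsUnit A.det := by
    rw [hA, Matrix.det_pow]
    exact hdet.pow m
  set w : Fin d → ℤ := v + psum y (c' 0) - psum x (c 0) with hw
  have hAv : A.mulVec (A⁻¹.mulVec w) = w := by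
    rw [Matrix.mulVec_mulVec, Matrix.mul_nonsing_inv A hAdet, Matrix.one_mulVec]
  refine ⟨A⁻¹.mulVec w, hAv, ?_⟩
  set v' : Fin d → ℤ := A⁻¹.mulVec w with hv'
  set z : Fin d → ℝ := rv v' - (h y' - h x') with hz
  have h1 : act A z = rv w - (act A (h y') - act A (h x')) := by
    rw [hz, FOff_act_sub, FOff_act_sub, ← rv_mulVec, hAv]
  have h2 : P.pr (act A z) = 0 := by
    rw [h1, pr_sub, pr_sub, hw, rv_sub, rv_add, pr_sub, pr_add, hv]
    funext i
    have h3 := congrFun hdef i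
    simp only [Pi.sub_apply, Pi.add_apply, Pi.zero_apply] at h3 ⊢
    linarith
  have h3 := FOff_of_pr P _ h2
  set t : ℝ := ∑ j, act A z j with ht
  have hlam : P.lam ^ m ≠ 0 := by
    have := P.lam_gt
    positivity
  have h4 : act A (fun i => (t / P.lam ^ m) * P.u i) = act A z := by
    rw [hA, FOff_act_pow_u, ← hA, h3]
    funext i
    rw [div_mul_cancel₀ _ hlam]
  have h5 : z = fun i => (t / P.lam ^ m) * P.u i := by
    have h6 := congrArg (act A⁻¹) h4
    rw [← FOff_act_mul, ← FOff_act_mul, Matrix.nonsing_inv_mul A hAdet, FOff_act_one,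
      FOff_act_one] at h6
    exact h6.symm
  have h6 : P.pr z = 0 := by
    rw [h5]
    exact FOff_pr_u P _
  have h7 : P.pr (h y' - h x') = h y' - h x' := by
    refine FOff_pr_of_sum P _ ?_
    simp only [Pi.sub_apply, Finset.sum_sub_distrib]
    rw [hsum y' hy', hsum x' hx', sub_zero]
  rw [hz, pr_sub, h7, sub_eq_zero] at h6
  exact h6

end Pool.Agent.H812R2.PI
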