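import Pool.Agent.H812R2.PI.CCov
import Pool.Agent.H812R2.PI.FOff

namespace Pool.Agent.H812R2.PI
open scoped BigOperators
variable {d : ℕ}

/-- `x` and `y` have the same image in the torus -/
def SameFib {M : Matrix (Fin d) (Fin d) ℤ} (P : PD M) (h : (ℤ → Fin d) → (Fin d → ℝ))
    (x y : ℤ → Fin d) : Prop :=
  ∃ v : Fin d → ℤ, ∑ i, v i = 0 ∧ P.pr (rv v) = h y - h x

/-- finitely many lattice vectors in the window -/
theorem window_finite {M : Matrix (Fin d) (Fin d) ℤ} (P : PD M) (D R : ℝ) :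
    {v : Fin d → ℤ | P.N (rv v) ≤ D ∧ |P.ht v| ≤ R}.Finite := by
  have hne : (Finset.univ : Finset (Fin d)).Nonempty := by
    rw [Finset.nonempty_iff_ne_empty]
    intro h0
    have := P.u_sum
    rw [h0] at this
    simp at this
  have hlu : 0 < ∑ i, P.ell i * P.u i :=
    Finset.sum_pos (fun i _ => mul_pos (P.ell_pos i) (P.u_pos i)) hne
  set E : ℝ := ∑ i, P.ell i with hE
  set B : ℝ := (R + E * (P.c * D)) / ∑ i, P.ell i * P.u i with hB
  obtain ⟨K, hK⟩ := exists_nat_ge (P.c * D + |B|)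
  refine (Set.finite_Icc (fun _ : Fin d => -(K:ℤ)) (fun _ => (K:ℤ))).subset ?_
  rintro v ⟨h1, h2⟩
  set s : ℝ := ∑ j, rv v j with hs
  have h3 : ∀ i, |rv v i - s * P.u i| ≤ P.c * D := fun i =>
    (P.le_cN (rv v) i).trans (mul_le_mul_of_nonneg_left h1 P.c_pos.le)
  have h4 : P.ht v = ∑ i, P.ell i * (rv v i - s * P.u i) + s * ∑ i, P.ell i * P.u i := by
    rw [Finset.mul_sum, ← Finset.sum_add_distrib]
    unfold PD.ht
    refine Finset.sum_congr rfl fun i _ => ?_
    simp only [rv]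
    ring
  have h5 : |∑ i, P.ell i * (rv v i - s * P.u i)| ≤ E * (P.c * D) := by
    rw [hE, Finset.sum_mul]
    refine (Finset.abs_sum_le_sum_abs _ _).trans (Finset.sum_le_sum fun i _ => ?_)
    rw [abs_mul, abs_of_pos (P.ell_pos i)]
    exact mul_le_mul_of_nonneg_left (h3 i) (P.ell_pos i).le
  have h6 : |s| ≤ B := by
    rw [hB, le_div_iff₀ hlu]
    have e1 : |s| * ∑ i, P.ell i * P.u i = |s * ∑ i, P.ell i * P.u i| := by
      rw [abs_mul, abs_of_pos hlu]
    have e2 : s * ∑ i, P.ell i * P.u i = P.ht v - ∑ i, P.ell i * (rv v i - s * P.u i) := by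
      rw [h4]; ring
    rw [e1, e2]
    exact (abs_sub _ _).trans (add_le_add h2 h5)
  have h7 : ∀ i, |rv v i| ≤ K := by
    intro i
    have hu1 : P.u i ≤ 1 := by
      rw [← P.u_sum]
      exact Finset.single_le_sum (fun j _ => (P.u_pos j).le) (Finset.mem_univ i)
    have e1 : rv v i = (rv v i - s * P.u i) + s * P.u i := by ring
    rw [e1]
    refine (abs_add_le _ _).trans (le_trans ?_ hK)
    refine add_le_add (h3 i) ?_
    rw [abs_mul, abs_of_pos (P.u_pos i)]
    calc |s| * P.u i ≤ |s| * 1 := mul_le_mul_of_nonneg_left hu1 (abs_nonneg s)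
      _ = |s| := mul_one _
      _ ≤ B := h6
      _ ≤ |B| := le_abs_self B
  rw [Set.mem_Icc]
  constructor
  · intro i
    have := (abs_le.1 (h7 i)).1
    simp only [rv] at this
    exact_mod_cast this
  · intro i
    have := (abs_le.1 (h7 i)).2
    simp only [rv] at this
    exact_mod_cast this

theorem CBlk_OV_nonneg {M : Matrix (Fin d) (Fin d) ℤ} (P : PD M) (e f : (Fin d → ℤ) × Fin d) :
    0 ≤ P.OV e f := le_max_left _ _

theorem CBlk_OV_le {M : Matrix (Fin d) (Fin d) ℤ} (P : PD M) (e f : (Fin d → ℤ) × Fin d) :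
    P.OV e f ≤ P.ell e.2 := by
  unfold PD.OV ovl
  apply max_le (P.ell_pos _).le
  have h1 := min_le_left (P.ht e.1 + P.ell e.2) (P.ht f.1 + P.ell f.2)
  have h2 := le_max_left (P.ht e.1) (P.ht f.1)
  linarith

theorem CBlk_ht_le {M : Matrix (Fin d) (Fin d) ℤ} (P : PD M) {L : ℝ} (hL : ∀ i, P.ell i ≤ L)
    {a b : Fin d} {w : Fin d → ℤ} (h : 0 < P.OV (0, a) (w, b)) : |P.ht w| ≤ L := by
  unfold PD.OV ovl at h
  rw [lt_max_iff] at h
  rcases h with h | h
  · exact absurd h (lt_irrefl _)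
  · rw [sub_pos, lt_min_iff, max_lt_iff, max_lt_iff, ht_zero] at h
    simp only [zero_add] at h
    have h1 := hL a
    have h2 := hL b
    rw [abs_le]
    constructor <;> linarith [h.1.2, h.2.1]

theorem block_count {σ : Fin d → List (Fin d)} (P : PD (inc σ)) (hdet : IsUnit (inc σ).det)
    (D θ : ℝ) (hθ : 0 < θ)
    (hU : ∀ (m : ℕ) (a b : Fin d) (v : Fin d → ℤ), P.N (rv v) ≤ D →
        P.Unc 0 (iter σ m a) (((inc σ) ^ m).mulVec v) (iter σ m b)
          ≤ (θ * P.lam) ^ m * P.OV (0, a) (v, b))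
    (h : (ℤ → Fin d) → (Fin d → ℝ)) (hcont : ContinuousOn h (X σ))
    (hcoc : ∀ x ∈ X σ, h (sh x) = h x + P.pr (rv (ev (x 0))))
    (hsum : ∀ x ∈ X σ, ∑ i, h x i = 0)
    (hbd : ∀ x ∈ X σ, ∀ y ∈ X σ, ∀ v : Fin d → ℤ, P.pr (rv v) = h y - h x → P.N (rv v) ≤ D) :
    ∃ C : ℝ, 0 ≤ C ∧ ∀ (m : ℕ) (x x' : ℤ → Fin d) (c : ℤ → ℤ), x ∈ X σ → x' ∈ X σ →
      IsDesub (iter σ m) x x' c → ∀ i : ℤ,
      ({t : ℕ | t < (iter σ m (x' i)).length ∧ ∃ y ∈ X σ, SameFib P h x y ∧
        x (c i + t) ≠ y (c i + t)}.ncard : ℝ) ≤ C * (θ * P.lam) ^ m := by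
  classical
  have hne : (Finset.univ : Finset (Fin d)).Nonempty := by
    rw [Finset.nonempty_iff_ne_empty]
    intro h0
    have := P.u_sum
    rw [h0] at this
    simp at this
  obtain ⟨a0, -, ha0⟩ := Finset.exists_min_image Finset.univ P.ell hne
  set L : ℝ := ∑ i, P.ell i with hL
  have hLi : ∀ i, P.ell i ≤ L := fun i =>
    Finset.single_le_sum (fun j _ => (P.ell_pos j).le) (Finset.mem_univ i)
  have hL0 : 0 ≤ L := Finset.sum_nonneg fun j _ => (P.ell_pos j).le
  set V : Finset ((Fin d → ℤ) × Fin d) := (window_finite P D L).toFinset ×ˢ Finset.univ with hV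
  have hmemV : ∀ q : (Fin d → ℤ) × Fin d, q ∈ V ↔ P.N (rv q.1) ≤ D ∧ |P.ht q.1| ≤ L := by
    intro q
    rw [hV, Finset.mem_product, Set.Finite.mem_toFinset]
    simp
  have hl0 := P.ell_pos a0
  have hlam : 0 < P.lam := lt_trans one_pos P.lam_gt
  refine ⟨V.card * L / P.ell a0, by positivity, ?_⟩
  intro m x x' c hx hx' dx i
  set w := iter σ m (x' i) with hw
  -- the contribution of the pair `(q, t)`
  let S : ((Fin d → ℤ) × Fin d) → ((Fin d → ℤ) × Fin d) → ℝ := fun q e =>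
    ((edges (((inc σ) ^ m).mulVec q.1) (iter σ m q.2)).map
      (fun f => if e = f then 0 else P.OV e f)).sum
  have hS0 : ∀ q e, 0 ≤ S q e := by
    intro q e
    apply List.sum_nonneg
    intro r hr
    rw [List.mem_map] at hr
    obtain ⟨f, -, rfl⟩ := hr
    split_ifs
    · exact le_rfl
    · exact CBlk_OV_nonneg P _ _
  have hUnc : ∀ q, P.Unc 0 w (((inc σ) ^ m).mulVec q.1) (iter σ m q.2) =
      ∑ t : Fin (edges 0 w).length, S q (edges 0 w)[t.1] := by
    intro q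
    exact (Fin.sum_univ_fun_getElem (edges 0 w) (S q)).symm
  have hUle : ∀ q ∈ V, ∑ t : Fin (edges 0 w).length, S q (edges 0 w)[t.1] ≤
      (θ * P.lam) ^ m * L := by
    intro q hq
    rw [← hUnc]
    refine (hU m (x' i) q.2 q.1 ((hmemV q).1 hq).1).trans ?_
    apply mul_le_mul_of_nonneg_left _ (by positivity)
    exact (CBlk_OV_le P _ _).trans (hLi _)
  -- the bad set
  set T : Finset (Fin (edges 0 w).length) := Finset.univ.filter
    (fun t => ∃ y ∈ X σ, SameFib P h x y ∧ x (c i + (t.1:ℤ)) ≠ y (c i + (t.1:ℤ))) with hT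
  have hcard : {t : ℕ | t < w.length ∧ ∃ y ∈ X σ, SameFib P h x y ∧
        x (c i + t) ≠ y (c i + t)}.ncard = T.card := by
    have e1 : {t : ℕ | t < w.length ∧ ∃ y ∈ X σ, SameFib P h x y ∧
        x (c i + t) ≠ y (c i + t)} = ↑(T.image (fun t => t.1)) := by
      ext t
      simp only [Set.mem_setOf_eq, Finset.coe_image, Set.mem_image, Finset.mem_coe, hT,
        Finset.mem_filter, Finset.mem_univ, true_and]
      constructor
      · rintro ⟨h1, h2⟩
        exact ⟨⟨t, by rw [length_edges]; exact h1⟩, h2, rfl⟩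
      · rintro ⟨⟨s, hs⟩, h2, rfl⟩
        rw [length_edges] at hs
        exact ⟨hs, h2⟩
    rw [e1, Set.ncard_coe_finset, Finset.card_image_of_injective _ Fin.val_injective]
  rw [hcard]
  have hbad : ∀ t ∈ T, P.ell a0 ≤ ∑ q ∈ V, S q (edges 0 w)[t.1] := by
    intro t ht
    rw [hT, Finset.mem_filter] at ht
    obtain ⟨-, y, hy, ⟨v, hv0, hv⟩, hne'⟩ := ht
    obtain ⟨y', hy', c', dy⟩ := exists_desub P m y hy
    obtain ⟨v', hv1, hv2⟩ := offset P hdet h hcont hcoc hsum m hx hy hx' hy' dx dy v hv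
    have htl : t.1 < w.length := lt_of_lt_of_eq t.2 (length_edges 0 w)
    have hcov := cover P m dx dy v v' hv0 hv1 i t.1 htl hne' V (by
      intro j hj
      rw [hmemV]
      refine ⟨?_, CBlk_ht_le P hLi hj⟩
      apply hbd (shZ i x') (shZ_mem hx' i) (shZ j y') (shZ_mem hy' j)
      rw [cocycle_shZ P h hcoc x' hx' i, cocycle_shZ P h hcoc y' hy' j]
      simp only
      rw [rv_sub, rv_add, pr_sub, pr_add, hv2]
      abel)
    refine (ha0 (x (c i + (t.1:ℤ))) (Finset.mem_univ _)).trans (hcov.trans (le_of_eq ?_))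
    refine Finset.sum_congr rfl fun q _ => ?_
    have e2 : (edges 0 w)[t.1] = (ab (w.take t.1), w[t.1]) := by
      rw [getElem_edges, zero_add]
    rw [e2]
  have hfin : P.ell a0 * T.card ≤ V.card * L * (θ * P.lam) ^ m := by
    calc P.ell a0 * T.card = ∑ _t ∈ T, P.ell a0 := by
          rw [Finset.sum_const, nsmul_eq_mul, mul_comm]
      _ ≤ ∑ t ∈ T, ∑ q ∈ V, S q (edges 0 w)[t.1] := Finset.sum_le_sum hbad
      _ ≤ ∑ t : Fin (edges 0 w).length, ∑ q ∈ V, S q (edges 0 w)[t.1] := by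
          apply Finset.sum_le_sum_of_subset_of_nonneg (Finset.subset_univ T)
          intro t _ _
          exact Finset.sum_nonneg fun q _ => hS0 q _
      _ = ∑ q ∈ V, ∑ t : Fin (edges 0 w).length, S q (edges 0 w)[t.1] := Finset.sum_comm
      _ ≤ ∑ _q ∈ V, (θ * P.lam) ^ m * L := Finset.sum_le_sum hUle
      _ = V.card * L * (θ * P.lam) ^ m := by
          rw [Finset.sum_const, nsmul_eq_mul]
          ring
  rw [div_mul_eq_mul_div, le_div_iff₀ hl0]
  linarith

end Pool.Agent.H812R2.PI
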