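import Pool.Agent.H812R2.PI.UTot

namespace Pool.Agent.H812R2.PI
open scoped BigOperators
variable {d : ℕ}

theorem CCov_ovl_nonneg (a b c e : ℝ) : 0 ≤ ovl a b c e := le_max_left _ _

theorem CCov_take_win (x : ℤ → Fin d) (k : ℤ) (n t : ℕ) (h : t ≤ n) :
    (win x k n).take t = win x k t := by
  obtain ⟨r, rfl⟩ := Nat.exists_eq_add_of_le h
  rw [win_append]
  rw [List.take_append_of_le_length (by rw [win_length])]
  rw [List.take_of_length_le (by rw [win_length])]

/-- description of the edges of a supertile -/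
theorem CCov_edge {τ : Fin d → List (Fin d)} {x x' : ℤ → Fin d} {c : ℤ → ℤ}
    (h : IsDesub τ x x' c) (i : ℤ) (t : ℕ) (ht : t < (τ (x' i)).length) :
    ab ((τ (x' i)).take t) = psum x (c i + t) - psum x (c i) ∧ (τ (x' i))[t] = x (c i + t) := by
  have h2 := h.2.1 i
  constructor
  · have h3 : (τ (x' i)).take t = win x (c i) t := by
      conv_lhs => rw [← h2]
      exact CCov_take_win x (c i) _ t (le_of_lt ht)
    rw [h3, ab_win]
  · have h3 : ∀ (l l' : List (Fin d)) (he : l = l') (h1 : t < l.length) (h2 : t < l'.length),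
        l[t] = l'[t] := by
      intro l l' he h1 h2; subst he; rfl
    rw [h3 (τ (x' i)) (win x (c i) (τ (x' i)).length) h2.symm ht (by rw [win_length]; exact ht)]
    exact win_getElem x (c i) _ t _

theorem CCov_ht_nonneg {M : Matrix (Fin d) (Fin d) ℤ} (P : PD M) (w : List (Fin d)) :
    0 ≤ P.ht (ab w) := by
  have := le_ht_ab P 0 (fun i => (P.ell_pos i).le) w
  simpa using this

/-- telescoping of overlaps -/
theorem CCov_tel (a b : ℝ) (hab : a ≤ b) (H : ℤ → ℝ) (hH : ∀ j, H j ≤ H (j + 1)) (J : ℤ) (n : ℕ) :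
    ∑ k ∈ Finset.range n, ovl a b (H (J + k)) (H (J + k + 1)) = ovl a b (H J) (H (J + n)) ∧
      H J ≤ H (J + n) := by
  induction n with
  | zero =>
    constructor
    · simp only [Finset.range_zero, Finset.sum_empty, Nat.cast_zero, add_zero, ovl]
      symm
      apply max_eq_left
      have h1 := min_le_right b (H J)
      have h2 := le_max_right a (H J)
      linarith
    · simp
  | succ n ih =>
    have e : J + ((n + 1 : ℕ) : ℤ) = J + n + 1 := by push_cast; ring
    constructor
    · rw [Finset.sum_range_succ, ih.1, e]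
      exact (ovl_add a b (H J) (H (J + n)) (H (J + n + 1)) ih.2 (hH _) hab).symm
    · rw [e]; exact ih.2.trans (hH _)

/-- If `x` and `y` differ at the index `c i + t` then the `t`-th edge of the supertile `τ(x'_i)`
is overlapped, over its whole length, by edges different from it which belong to supertiles
`τ(b)` at relative position `A w`, `(w,b) ∈ V`. -/
theorem cover {σ : Fin d → List (Fin d)} (P : PD (inc σ)) (m : ℕ)
    {x y x' y' : ℤ → Fin d} {c c' : ℤ → ℤ} (dx : IsDesub (iter σ m) x x' c)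
    (dy : IsDesub (iter σ m) y y' c') (v v' : Fin d → ℤ) (hv : ∑ i, v i = 0)
    (hv' : ((inc σ) ^ m).mulVec v' = v + psum y (c' 0) - psum x (c 0))
    (i : ℤ) (t : ℕ) (ht : t < (iter σ m (x' i)).length) (hne : x (c i + t) ≠ y (c i + t))
    (V : Finset ((Fin d → ℤ) × Fin d))
    (hV : ∀ j : ℤ, 0 < P.OV (0, x' i) (v' + psum y' j - psum x' i, y' j) →
      (v' + psum y' j - psum x' i, y' j) ∈ V) :
    P.ell (x (c i + t)) ≤ ∑ q ∈ V, ((edges (((inc σ) ^ m).mulVec q.1) (iter σ m q.2)).map
      (fun f => if (ab ((iter σ m (x' i)).take t), (iter σ m (x' i))[t]) = f then 0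
        else P.OV (ab ((iter σ m (x' i)).take t), (iter σ m (x' i))[t]) f)).sum := by
  classical
  set τ := iter σ m with hτ
  have hA : (inc σ) ^ m = inc τ := (inc_iter σ m).symm
  obtain ⟨he1, he2⟩ := CCov_edge dx i t ht
  set e : (Fin d → ℤ) × Fin d := (ab ((τ (x' i)).take t), (τ (x' i))[t]) with he
  set w : ℤ → (Fin d → ℤ) := fun j => v' + psum y' j - psum x' i with hw
  have hAw : ∀ j, ((inc σ) ^ m).mulVec (w j) = v + psum y (c' j) - psum x (c i) := by
    intro j
    simp only [hw]
    rw [Matrix.mulVec_sub, Matrix.mulVec_add, hv', psum_desub dy j, psum_desub dx i, hA]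
    abel
  have hwsucc : ∀ j, w (j + 1) = w j + ev (y' j) := by
    intro j; simp only [hw]; rw [psum_succ]; abel
  -- (1)
  have hno : ∀ j, ∀ f ∈ edges (((inc σ) ^ m).mulVec (w j)) (τ (y' j)), e ≠ f := by
    intro j f hf hef
    rw [mem_edges] at hf
    obtain ⟨k, hk, rfl⟩ := hf
    obtain ⟨hk1, hk2⟩ := CCov_edge dy j k hk
    rw [hAw, hk1, hk2, he, he1, he2, Prod.mk.injEq] at hef
    obtain ⟨h1, h2⟩ := hef
    have h3 : psum x (c i + t) = v + psum y (c' j + k) := by
      have : psum x (c i + t) - psum x (c i) + psum x (c i) =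
        v + psum y (c' j) - psum x (c i) + (psum y (c' j + k) - psum y (c' j)) + psum x (c i) := by
        rw [h1]
      rw [sub_add_cancel] at this
      rw [this]; abel
    have h4 : (c i + t : ℤ) = c' j + k := by
      have h5 := psum_sum x (c i + t)
      rw [h3] at h5
      simp only [Pi.add_apply, Finset.sum_add_distrib, hv, psum_sum, zero_add] at h5
      exact h5.symm
    rw [← h4] at h2
    exact hne h2
  -- heights
  set H : ℤ → ℝ := fun j => P.ht (((inc σ) ^ m).mulVec (w j)) with hH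
  have hH1 : ∀ j, H j = P.lam ^ m * P.ht (w j) := fun j => ht_pow_mulVec P m (w j)
  have hL : 1 ≤ P.lam ^ m := one_le_pow₀ P.lam_gt.le
  have hL0 : 0 < P.lam ^ m := lt_of_lt_of_le one_pos hL
  have hH2 : ∀ j, H (j + 1) = H j + P.lam ^ m * P.ell (y' j) := by
    intro j; rw [hH1, hH1, hwsucc, ht_add, ht_ev]; ring
  have hH2' : ∀ j, H j ≤ H (j + 1) := by
    intro j; rw [hH2]
    have := mul_nonneg hL0.le (P.ell_pos (y' j)).le
    linarith
  obtain ⟨lmin, hlpos, hlmin⟩ : ∃ l : ℝ, 0 < l ∧ ∀ a, l ≤ P.ell a := by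
    have hd : Nonempty (Fin d) := ⟨x 0⟩
    obtain ⟨a0, ha0⟩ := Finite.exists_min P.ell
    exact ⟨P.ell a0, P.ell_pos a0, ha0⟩
  have hH3 : ∀ j, H j + lmin ≤ H (j + 1) := by
    intro j; rw [hH2]
    have h1 := hlmin (y' j)
    nlinarith [P.ell_pos (y' j)]
  have hup : ∀ (j : ℤ) (n : ℕ), H j + n * lmin ≤ H (j + n) := by
    intro j n
    induction n with
    | zero => simp
    | succ n ih =>
      have := hH3 (j + n)
      have e : j + ((n + 1 : ℕ) : ℤ) = j + n + 1 := by push_cast; ring
      rw [e]; push_cast; linarith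
  set a : ℝ := P.ht e.1 with ha
  set b : ℝ := P.ht e.1 + P.ell e.2 with hb
  have hab : a ≤ b := by rw [hb]; have := P.ell_pos e.2; linarith
  -- J1
  obtain ⟨n1, hn1⟩ : ∃ n : ℕ, H (-(n:ℤ)) ≤ a := by
    obtain ⟨n, hn⟩ := exists_nat_gt ((H 0 - a) / lmin)
    refine ⟨n, ?_⟩
    have h1 := hup (-(n:ℤ)) n
    rw [neg_add_cancel] at h1
    rw [div_lt_iff₀ hlpos] at hn
    linarith
  obtain ⟨n2, hn2⟩ : ∃ n : ℕ, b ≤ H (-(n1:ℤ) + n) := by
    obtain ⟨n, hn⟩ := exists_nat_gt ((b - H (-(n1:ℤ))) / lmin)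
    refine ⟨n, ?_⟩
    have h1 := hup (-(n1:ℤ)) n
    rw [div_lt_iff₀ hlpos] at hn
    linarith
  set J : ℤ := -(n1:ℤ) with hJ
  -- the sums
  let F : ℤ → ℝ := fun j => ((edges (((inc σ) ^ m).mulVec (w j)) (τ (y' j))).map
    (fun f => P.OV e f)).sum
  let G : (Fin d → ℤ) × Fin d → ℝ := fun q =>
    ((edges (((inc σ) ^ m).mulVec q.1) (τ q.2)).map
      (fun f => if e = f then 0 else P.OV e f)).sum
  have hFG : ∀ j, G (w j, y' j) = F j := by
    intro j
    simp only [F, G]
    congr 1
    apply List.map_congr_left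
    intro f hf
    rw [if_neg (hno j f hf)]
  have hF : ∀ j, F j = ovl a b (H j) (H (j + 1)) := by
    intro j
    simp only [F]
    have h1 := sum_ovl_edges P a b hab (((inc σ) ^ m).mulVec (w j)) (τ (y' j))
    have h2 : P.ht (((inc σ) ^ m).mulVec (w j)) + P.ht (ab (τ (y' j))) = H (j + 1) := by
      rw [hH2, hτ, ht_iter]
    rw [h2] at h1
    rw [← h1]
    rfl
  have hF0 : ∀ j, 0 ≤ F j := by
    intro j; rw [hF]; exact CCov_ovl_nonneg _ _ _ _
  have htot : ∑ k ∈ Finset.range n2, F (J + k) = P.ell (x (c i + t)) := by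
    have h1 := (CCov_tel a b hab H hH2' J n2).1
    simp only [hF]
    rw [h1]
    simp only [ovl]
    rw [min_eq_left hn2, max_eq_left hn1]
    have : b - a = P.ell (x (c i + t)) := by
      rw [hb, ha, add_sub_cancel_left, he, he2]
    rw [this]
    exact max_eq_right (P.ell_pos _).le
  have hG0 : ∀ q, 0 ≤ G q := by
    intro q
    apply List.sum_nonneg
    intro r hr
    rw [List.mem_map] at hr
    obtain ⟨f, _, rfl⟩ := hr
    split_ifs
    · exact le_refl _
    · exact CCov_ovl_nonneg _ _ _ _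
  -- (3)
  have ha0 : 0 ≤ a := by
    rw [ha, he]; exact CCov_ht_nonneg P _
  have hb0 : b ≤ P.lam ^ m * P.ell (x' i) := by
    have h1 : b = P.ht (ab ((τ (x' i)).take (t + 1))) := by
      rw [hb, he, List.take_succ_eq_append_getElem ht, ab_append, ht_add, ab_single, ht_ev]
    rw [h1, ← ht_iter P m (x' i), ← hτ]
    conv_rhs => rw [← List.take_append_drop (t + 1) (τ (x' i))]
    rw [ab_append, ht_add]
    have := CCov_ht_nonneg P ((τ (x' i)).drop (t + 1))
    linarith
  have hmem : ∀ j, F j ≠ 0 → (w j, y' j) ∈ V := by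
    intro j hj
    apply hV j
    have h1 : 0 < ovl a b (H j) (H (j + 1)) := by
      rw [← hF]; exact lt_of_le_of_ne (hF0 j) (Ne.symm hj)
    have h2 : max a (H j) < min b (H (j + 1)) := by
      simp only [ovl] at h1
      rcases lt_max_iff.mp h1 with h | h
      · exact absurd h (lt_irrefl _)
      · linarith
    have h3 : 0 < b := lt_of_le_of_lt (ha0.trans (le_max_left _ _)) (lt_of_lt_of_le h2 (min_le_left _ _))
    have h4 : a < H (j + 1) := lt_of_le_of_lt (le_max_left _ _) (lt_of_lt_of_le h2 (min_le_right _ _))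
    have h5 : H j < b := lt_of_le_of_lt (le_max_right _ _) (lt_of_lt_of_le h2 (min_le_left _ _))
    have h6 : P.ht (w j) < P.ell (x' i) := by
      have : P.lam ^ m * P.ht (w j) < P.lam ^ m * P.ell (x' i) := by
        rw [← hH1]; linarith
      exact lt_of_mul_lt_mul_left this hL0.le
    have h7 : 0 < P.ht (w j) + P.ell (y' j) := by
      have : P.lam ^ m * 0 < P.lam ^ m * (P.ht (w j) + P.ell (y' j)) := by
        rw [mul_zero, mul_add, ← hH1, ← hH2]; linarith
      exact lt_of_mul_lt_mul_left this hL0.le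
    simp only [PD.OV, ovl, ht_zero, zero_add]
    apply lt_max_of_lt_right
    rw [sub_pos]
    apply max_lt
    · exact lt_min (P.ell_pos _) h7
    · apply lt_min h6
      have := P.ell_pos (y' j)
      show P.ht (w j) < P.ht (w j) + P.ell (y' j)
      linarith
  -- final
  have hinj : ∀ j j', (w j, y' j) = (w j', y' j') → j = j' := by
    intro j j' h
    have h1 : w j = w j' := congrArg Prod.fst h
    have h2 : psum y' j = psum y' j' := by
      simp only [hw] at h1
      have h3 : v' + psum y' j = v' + psum y' j' := sub_left_injective h1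
      exact add_left_cancel h3
    have h4 := psum_sum y' j
    rw [h2, psum_sum] at h4
    exact h4.symm
  rw [← htot]
  set I := (Finset.range n2).filter (fun k : ℕ => F (J + k) ≠ 0) with hI
  have hs1 : ∑ k ∈ Finset.range n2, F (J + k) = ∑ k ∈ I, F (J + k) := by
    rw [hI, Finset.sum_filter_ne_zero]
  have hs2 : ∑ k ∈ I, F (J + k) = ∑ q ∈ I.image (fun k : ℕ => (w (J + k), y' (J + k))), G q := by
    rw [Finset.sum_image]
    · exact Finset.sum_congr rfl (fun k _ => (hFG _).symm)
    · intro k _ k' _ h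
      have := hinj _ _ h
      omega
  rw [hs1, hs2]
  apply Finset.sum_le_sum_of_subset_of_nonneg
  · intro q hq
    rw [Finset.mem_image] at hq
    obtain ⟨k, hk, rfl⟩ := hq
    rw [hI, Finset.mem_filter] at hk
    exact hmem _ hk.2
  · intro q _ _
    exact hG0 q

end Pool.Agent.H812R2.PI
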