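import Pool.Agent.H812R2.PI.CBlk

namespace Pool.Agent.H812R2.PI
open scoped BigOperators
variable {d : ℕ}

theorem uniform_count {σ : Fin d → List (Fin d)} (P : PD (inc σ))
    (h : (ℤ → Fin d) → (Fin d → ℝ)) (θ C : ℝ) (hθ0 : 0 < θ) (hθ1 : θ < 1) (hC : 0 ≤ C)
    (hblk : ∀ (m : ℕ) (x x' : ℤ → Fin d) (c : ℤ → ℤ), x ∈ X σ → x' ∈ X σ →
      IsDesub (iter σ m) x x' c → ∀ i : ℤ,
      ({t : ℕ | t < (iter σ m (x' i)).length ∧ ∃ y ∈ X σ, SameFib P h x y ∧
        x (c i + t) ≠ y (c i + t)}.ncard : ℝ) ≤ C * (θ * P.lam) ^ m) :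
    ∀ ε > 0, ∃ n₀ : ℕ, ∀ n ≥ n₀, ∀ x ∈ X σ,
      ({k : ℕ | k < n ∧ ∃ y ∈ X σ, SameFib P h x y ∧ x k ≠ y k}.ncard : ℝ) ≤ ε * n := by
  intro ε hε
  obtain ⟨c₀, C₁, hc₀, -, hlen⟩ := length_iter_bounds P
  have hlam := P.lam_gt
  -- choice of the level
  obtain ⟨m, hm⟩ : ∃ m : ℕ, C * θ ^ m ≤ c₀ * (ε / 2) := by
    obtain ⟨m, hm⟩ := exists_pow_lt_of_lt_one (show 0 < c₀ * (ε / 2) / (C + 1) by positivity) hθ1
    refine ⟨m, ?_⟩
    rw [lt_div_iff₀ (by linarith)] at hm
    have : 0 < θ ^ m := pow_pos hθ0 m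
    nlinarith
  set L : ℝ := c₀ * P.lam ^ m with hL
  set E : ℝ := C * (θ * P.lam) ^ m with hE
  have hLpos : 0 < L := by positivity
  have hEnn : 0 ≤ E := by positivity
  have hEL : E ≤ L * (ε / 2) := by
    rw [hE, hL, mul_pow]
    have : 0 < P.lam ^ m := by positivity
    nlinarith
  refine ⟨⌈4 * E / ε⌉₊, ?_⟩
  intro n hn x hx
  have hn' : 4 * E / ε ≤ n := le_trans (Nat.le_ceil _) (by exact_mod_cast hn)
  have hn2 : 2 * E ≤ (ε / 2) * n := by
    rw [div_le_iff₀ hε] at hn'; linarith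
  obtain ⟨x', hx', c, hdes⟩ := exists_desub P m x hx
  have hB := hblk m x x' c hx hx' hdes
  have hstep : ∀ i : ℤ, (c i : ℝ) + L ≤ c (i + 1) := by
    intro i
    rw [hdes.1 i]
    push_cast
    have := (hlen m (x' i)).1
    linarith
  have hgrow : ∀ i : ℕ, (i : ℝ) * L < c ((i : ℤ) + 1) := by
    intro i
    induction i with
    | zero =>
      have := hdes.2.2.2
      simpa using this
    | succ i ih =>
      have := hstep ((i : ℤ) + 1)
      push_cast
      linarith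
  have hfin : ∀ i : ℤ, {t : ℕ | t < (iter σ m (x' i)).length ∧ ∃ y ∈ X σ, SameFib P h x y ∧
        x (c i + t) ≠ y (c i + t)}.Finite := by
    intro i
    apply (Set.finite_lt_nat (iter σ m (x' i)).length).subset
    intro t ht; exact ht.1
  set J : ℕ := ⌈(n : ℝ) / L + 1⌉₊ with hJ
  classical
  set F : Finset ℕ := (Finset.range J).biUnion
    (fun i => ((hfin (i : ℤ)).toFinset).image (fun t : ℕ => (c (i : ℤ) + t).toNat)) with hF
  have hsub : {k : ℕ | k < n ∧ ∃ y ∈ X σ, SameFib P h x y ∧ x k ≠ y k} ⊆ (F : Set ℕ) := by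
    rintro k ⟨hkn, y, hy, hxy, hne⟩
    have hex : ∃ i : ℕ, (k : ℤ) < c ((i : ℤ) + 1) := by
      obtain ⟨i, hi⟩ := exists_nat_gt ((k : ℝ) / L)
      refine ⟨i, ?_⟩
      rw [div_lt_iff₀ hLpos] at hi
      have := hgrow i
      have h3 : ((k : ℤ) : ℝ) < ((c ((i : ℤ) + 1) : ℤ) : ℝ) := by
        push_cast; linarith
      exact_mod_cast h3
    set i := Nat.find hex with hi
    have hi1 : (k : ℤ) < c ((i : ℤ) + 1) := Nat.find_spec hex
    have hi0 : c (i : ℤ) ≤ k := by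
      rcases Nat.eq_zero_or_pos i with h0 | h0
      · rw [h0]
        have := hdes.2.2.1
        simp only [Nat.cast_zero]
        omega
      · obtain ⟨j, hj⟩ : ∃ j, i = j + 1 := ⟨i - 1, by omega⟩
        have := Nat.find_min hex (m := j) (by omega)
        rw [not_lt] at this
        rw [hj]; push_cast; exact this
    have hiJ : i < J := by
      rw [hJ, Nat.lt_ceil]
      rcases Nat.eq_zero_or_pos i with h0 | h0
      · rw [h0]; simp only [Nat.cast_zero]; positivity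
      · obtain ⟨j, hj⟩ : ∃ j, i = j + 1 := ⟨i - 1, by omega⟩
        have h1 := hgrow j
        have h2 : (c ((j : ℤ) + 1) : ℝ) ≤ k := by
          rw [hj] at hi0; push_cast at hi0
          exact_mod_cast hi0
        have h3 : (k : ℝ) < n := by exact_mod_cast hkn
        rw [hj]; push_cast
        have h4 : (j : ℝ) < n / L := by rw [lt_div_iff₀ hLpos]; linarith
        linarith
    obtain ⟨t, ht⟩ : ∃ t : ℕ, (k : ℤ) = c (i : ℤ) + t := ⟨(k - c (i : ℤ)).toNat, by omega⟩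
    rw [hF, Finset.coe_biUnion]
    simp only [Set.mem_iUnion]
    refine ⟨i, by simpa using hiJ, ?_⟩
    rw [Finset.coe_image]
    refine ⟨t, ?_, ?_⟩
    · rw [Set.Finite.coe_toFinset]
      refine ⟨?_, y, hy, hxy, ?_⟩
      · have h1 := hdes.1 (i : ℤ)
        omega
      · rw [← ht]; exact hne
    · simp only
      rw [← ht]; simp
  have hcard : ({k : ℕ | k < n ∧ ∃ y ∈ X σ, SameFib P h x y ∧ x k ≠ y k}.ncard : ℝ) ≤ J * E := by
    have h1 : {k : ℕ | k < n ∧ ∃ y ∈ X σ, SameFib P h x y ∧ x k ≠ y k}.ncard ≤ F.card := by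
      rw [← Set.ncard_coe_finset F]
      exact Set.ncard_le_ncard hsub (Finset.finite_toSet F)
    have h2 : (F.card : ℝ) ≤ ∑ i ∈ Finset.range J, (((hfin (i : ℤ)).toFinset.card : ℕ) : ℝ) := by
      rw [← Nat.cast_sum]
      apply Nat.cast_le.2
      refine le_trans Finset.card_biUnion_le (Finset.sum_le_sum ?_)
      intro i _
      exact Finset.card_image_le
    have h3 : ∑ i ∈ Finset.range J, (((hfin (i : ℤ)).toFinset.card : ℕ) : ℝ)
        ≤ ∑ i ∈ Finset.range J, E := by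
      apply Finset.sum_le_sum
      intro i _
      have := hB (i : ℤ)
      rw [Set.ncard_eq_toFinset_card _ (hfin (i : ℤ))] at this
      exact this
    rw [Finset.sum_const, Finset.card_range, nsmul_eq_mul] at h3
    have h1' : ({k : ℕ | k < n ∧ ∃ y ∈ X σ, SameFib P h x y ∧ x k ≠ y k}.ncard : ℝ) ≤ F.card := by
      exact_mod_cast h1
    linarith
  have hJle : (J : ℝ) ≤ n / L + 2 := by
    have h1 : (0:ℝ) ≤ (n : ℝ) / L + 1 := by positivity
    have h2 := Nat.ceil_lt_add_one h1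
    rw [← hJ] at h2
    linarith
  have hfinal : (J : ℝ) * E ≤ ε * n := by
    calc (J : ℝ) * E ≤ (n / L + 2) * E := mul_le_mul_of_nonneg_right hJle hEnn
      _ = n * (E / L) + 2 * E := by ring
      _ ≤ n * (ε / 2) + (ε / 2) * n := by
          apply add_le_add _ hn2
          apply mul_le_mul_of_nonneg_left _ (Nat.cast_nonneg n)
          rw [div_le_iff₀ hLpos]; linarith
      _ = ε * n := by ring
  linarith

end Pool.Agent.H812R2.PI
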