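import Pool.Agent.H812R2.PI.Basic

namespace Pool.Agent.H812R2.PI
open scoped BigOperators
variable {d : ℕ}

theorem DBd_take_ext (σ : Fin d → List (Fin d)) (v : List (Fin d)) :
    ∀ k, (ext σ v).take k = [] ∨ ∃ i j b, (ext σ v).take k = ext σ (v.take i) ++ (σ b).take j := by
  induction v with
  | nil => intro k; left; simp [ext]
  | cons a v ih =>
    intro k
    right
    rw [ext_cons]
    by_cases hk : k ≤ (σ a).length
    · refine ⟨0, k, a, ?_⟩
      rw [List.take_append_of_le_length hk]
      simp [ext]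
    · rw [List.take_append]
      have h1 : (σ a).take k = σ a := List.take_of_length_le (by omega)
      rw [h1]
      rcases ih (k - (σ a).length) with h | ⟨i, j, b, h⟩
      · refine ⟨0, (σ a).length, a, ?_⟩
        rw [h]; simp [ext]
      · refine ⟨i + 1, j, b, ?_⟩
        rw [h, List.take_succ_cons, ext_cons, List.append_assoc]

theorem DBd_prefix {σ : Fin d → List (Fin d)} (P : PD (inc σ)) (B : ℝ)
    (hB : ∀ a k, P.N (rv (ab ((σ a).take k))) ≤ B) (a : Fin d) :
    ∀ n k, P.N (rv (ab ((iter σ (n+1) a).take k))) ≤ B / (1 - P.rho) := by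
  have hB0 : 0 ≤ B := le_trans (P.N_nonneg _) (hB a 0)
  have hr : 0 < 1 - P.rho := by linarith [P.rho_lt]
  have hr1 : 1 - P.rho ≤ 1 := by linarith [P.rho_nonneg]
  have hBB : B ≤ B / (1 - P.rho) := by
    rw [le_div_iff₀ hr]; nlinarith
  have hC0 : 0 ≤ B / (1 - P.rho) := le_trans hB0 hBB
  intro n
  induction n with
  | zero =>
    intro k
    have : iter σ (0+1) a = σ a := by simp [iter_succ, iter_zero, ext]
    rw [this]
    exact le_trans (hB a k) hBB
  | succ n ih =>
    intro k
    rw [iter_succ]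
    rcases DBd_take_ext σ (iter σ (n+1) a) k with h | ⟨i, j, b, h⟩
    · rw [h, ab_nil, rv_zero, N_zero]; exact hC0
    · rw [h, ab_append, ab_ext, rv_add, rv_mulVec]
      have h1 := P.N_add (act (inc σ) (rv (ab ((iter σ (n+1) a).take i)))) (rv (ab ((σ b).take j)))
      have h2 := P.N_act (rv (ab ((iter σ (n+1) a).take i)))
      have h3 := mul_le_mul_of_nonneg_left (ih i) P.rho_nonneg
      have h4 := hB b j
      have h5 : P.rho * (B / (1 - P.rho)) + B = B / (1 - P.rho) := by
        field_simp; ring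
      linarith

theorem lang_N_le {σ : Fin d → List (Fin d)} (P : PD (inc σ)) (B : ℝ)
    (hB : ∀ a k, P.N (rv (ab ((σ a).take k))) ≤ B) :
    ∀ w ∈ lang σ, P.N (rv (ab w)) ≤ 2 * B / (1 - P.rho) := by
  rintro w ⟨n, hn, a, s, t, hst⟩
  obtain ⟨m, rfl⟩ : ∃ m, n = m + 1 := ⟨n - 1, by omega⟩
  have h1 := DBd_prefix P B hB a m s.length
  have h2 := DBd_prefix P B hB a m (s.length + w.length)
  have e1 : (iter σ (m+1) a).take s.length = s := by
    rw [← hst, List.append_assoc, List.take_left']; rfl
  have e2 : (iter σ (m+1) a).take (s.length + w.length) = s ++ w := by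
    rw [← hst, List.take_left']; simp
  rw [e1] at h1
  rw [e2, ab_append, rv_add] at h2
  have h3 := N_sub P (rv (ab s) + rv (ab w)) (rv (ab s))
  rw [add_sub_cancel_left] at h3
  have : 2 * B / (1 - P.rho) = B / (1 - P.rho) + B / (1 - P.rho) := by ring
  linarith

end Pool.Agent.H812R2.PI
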