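import Mathlib

/-! Definitions for the generic Pisot substitution project (MP_e732b0_an). -/

namespace Pool.Agent.H812R2.PI

open scoped BigOperators

variable {d : ℕ}

/-- abelianisation of a word -/
def ab (w : List (Fin d)) : Fin d → ℤ := fun i => (w.count i : ℤ)

/-- unit vector -/
def ev (a : Fin d) : Fin d → ℤ := fun i => if i = a then 1 else 0

/-- incidence matrix of a substitution: entry `(i,j)` is the number of `i` in `σ j` -/
def inc (σ : Fin d → List (Fin d)) : Matrix (Fin d) (Fin d) ℤ :=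
  fun i j => ((σ j).count i : ℤ)

/-- extension of a substitution to words -/
def ext (σ : Fin d → List (Fin d)) (w : List (Fin d)) : List (Fin d) := w.flatMap σ

/-- `σ^n(a)` -/
def iter (σ : Fin d → List (Fin d)) (n : ℕ) (a : Fin d) : List (Fin d) := (ext σ)^[n] [a]

/-- the language: factors of `σ^n(a)`, `n ≥ 1` -/
def lang (σ : Fin d → List (Fin d)) : Set (List (Fin d)) :=
  {w | ∃ n, 1 ≤ n ∧ ∃ a, w <:+: iter σ n a}

/-- the word `x_m x_{m+1} ... x_{m+n-1}` -/
def win (x : ℤ → Fin d) (m : ℤ) (n : ℕ) : List (Fin d) :=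
  List.ofFn (fun k : Fin n => x (m + (k : ℕ)))

/-- the substitution subshift -/
def X (σ : Fin d → List (Fin d)) : Set (ℤ → Fin d) := {x | ∀ m n, win x m n ∈ lang σ}

/-- left shift -/
def sh (x : ℤ → Fin d) : ℤ → Fin d := fun k => x (k + 1)

/-- shift by `m ∈ ℤ` -/
def shZ (m : ℤ) (x : ℤ → Fin d) : ℤ → Fin d := fun k => x (k + m)

/-- The torus `T^m = ℝ^m/ℤ^m`. -/
abbrev Torus (m : ℕ) := Fin m → UnitAddCircle

/-- The translation by `γ` is minimal: every orbit is dense. -/
def MinimalTranslation {m : ℕ} (γ : Torus m) : Prop :=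
  ∀ y : Torus m, Dense {z : Torus m | ∃ n : ℕ, z = y + n • γ}

/-- `(X_σ, S)` is semi-conjugate to some toral translation. -/
def SemiConjToral (σ : Fin d → List (Fin d)) : Prop :=
  ∃ (m : ℕ) (γ : Torus m), MinimalTranslation γ ∧
    ∃ π : (ℤ → Fin d) → Torus m, ContinuousOn π (X σ) ∧ π '' (X σ) = Set.univ ∧
      (∀ x ∈ X σ, π (sh x) = π x + γ) ∧
      ∃ N : Set (Torus m), MeasureTheory.volume N = 0 ∧
        ∀ y, y ∉ N → ∃! x, x ∈ X σ ∧ π x = y

/-- The matrix is unimodular, irreducible and Pisot (as in the problem file). -/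
def PisotMat (M : Matrix (Fin d) (Fin d) ℤ) : Prop :=
  Irreducible (M.map (Int.cast : ℤ → ℚ)).charpoly ∧ (M.det = 1 ∨ M.det = -1) ∧
  ∃ lam : ℝ, 1 < lam ∧ (M.map (Int.cast : ℤ → ℂ)).charpoly.IsRoot (lam : ℂ) ∧
    ∀ μ : ℂ, (M.map (Int.cast : ℤ → ℂ)).charpoly.IsRoot μ → μ ≠ (lam : ℂ) → 0 < ‖μ‖ ∧ ‖μ‖ < 1

/-- action of an integer matrix on real vectors -/
noncomputable def act (M : Matrix (Fin d) (Fin d) ℤ) (x : Fin d → ℝ) : Fin d → ℝ :=
  fun i => ∑ j, (M i j : ℝ) * x j

/-- integer vector as real vector -/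
def rv (v : Fin d → ℤ) : Fin d → ℝ := fun i => (v i : ℝ)

/-- Spectral data of a unimodular irreducible Pisot matrix: Perron eigenvectors and a norm
contracted on the stable direction. -/
structure PD (M : Matrix (Fin d) (Fin d) ℤ) where
  lam : ℝ
  ell : Fin d → ℝ
  u : Fin d → ℝ
  N : (Fin d → ℝ) → ℝ
  rho : ℝ
  c : ℝ
  lam_gt : 1 < lam
  ell_pos : ∀ i, 0 < ell i
  u_pos : ∀ i, 0 < u i
  u_sum : ∑ i, u i = 1
  ell_M : ∀ j, ∑ i, ell i * (M i j : ℝ) = lam * ell j
  M_u : ∀ i, ∑ j, (M i j : ℝ) * u j = lam * u i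
  u_ind : ∀ w : Fin d → ℤ, ∑ i, (w i : ℝ) * u i = 0 → w = 0
  ell_ind : ∀ v : Fin d → ℤ, ∑ i, ell i * (v i : ℝ) = 0 → v = 0
  c_pos : 0 < c
  rho_nonneg : 0 ≤ rho
  rho_lt : rho < 1
  N_add : ∀ x y, N (x + y) ≤ N x + N y
  N_neg : ∀ x, N (-x) = N x
  N_nonneg : ∀ x, 0 ≤ N x
  N_act : ∀ x, N (act M x) ≤ rho * N x
  le_cN : ∀ x i, |x i - (∑ j, x j) * u i| ≤ c * N x
  N_le : ∀ x (K : ℝ), (∀ i, |x i - (∑ j, x j) * u i| ≤ K) → N x ≤ c * K

/-- height -/
noncomputable def PD.ht {M : Matrix (Fin d) (Fin d) ℤ} (P : PD M) (v : Fin d → ℤ) : ℝ :=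
  ∑ i, P.ell i * (v i : ℝ)

/-- projection to the sum-zero hyperplane along `u` -/
noncomputable def PD.pr {M : Matrix (Fin d) (Fin d) ℤ} (P : PD M) (x : Fin d → ℝ) : Fin d → ℝ :=
  fun i => x i - (∑ j, x j) * P.u i

/-- `x` is desubstituted by `τ` to `x'` with cutting points `c`. -/
def IsDesub (τ : Fin d → List (Fin d)) (x x' : ℤ → Fin d) (c : ℤ → ℤ) : Prop :=
  (∀ i, c (i + 1) = c i + ((τ (x' i)).length : ℤ)) ∧
  (∀ i, win x (c i) (τ (x' i)).length = τ (x' i)) ∧ c 0 ≤ 0 ∧ 0 < c 1

/-- partial sums of a bi-infinite word: `psum x 0 = 0`, `psum x (k+1) = psum x k + ev (x k)`. -/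
def psum (x : ℤ → Fin d) (k : ℤ) : Fin d → ℤ :=
  if 0 ≤ k then ab (win x 0 k.toNat) else - ab (win x k (-k).toNat)

/-- edges of the path of the word `w` starting at the lattice point `z` -/
def edges (z : Fin d → ℤ) : List (Fin d) → List ((Fin d → ℤ) × Fin d)
  | [] => []
  | a :: w => (z, a) :: edges (z + ev a) w

/-- length of the intersection of `[a,b]` and `[c,e]` -/
noncomputable def ovl (a b c e : ℝ) : ℝ := max 0 (min b e - max a c)

/-- overlap length of two edges -/
noncomputable def PD.OV {M : Matrix (Fin d) (Fin d) ℤ} (P : PD M)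
    (e f : (Fin d → ℤ) × Fin d) : ℝ :=
  ovl (P.ht e.1) (P.ht e.1 + P.ell e.2) (P.ht f.1) (P.ht f.1 + P.ell f.2)

/-- total overlap length of pairs of distinct edges of two paths -/
noncomputable def PD.Unc {M : Matrix (Fin d) (Fin d) ℤ} (P : PD M)
    (z₁ : Fin d → ℤ) (w₁ : List (Fin d)) (z₂ : Fin d → ℤ) (w₂ : List (Fin d)) : ℝ :=
  ((edges z₁ w₁).map (fun e => ((edges z₂ w₂).map
    (fun f => if e = f then 0 else P.OV e f)).sum)).sum

/-- Uniform coincidence: every pair of overlapping edges whose distance in the stable direction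
is at most `D` has a common edge in its image under `σ`. -/
def PD.UC {M : Matrix (Fin d) (Fin d) ℤ} (P : PD M) (σ : Fin d → List (Fin d)) (D : ℝ) : Prop :=
  ∀ (a b : Fin d) (v : Fin d → ℤ), P.N (rv v) ≤ D → 0 < P.OV (0, a) (v, b) →
    ∃ e, e ∈ edges 0 (σ a) ∧ e ∈ edges (M.mulVec v) (σ b)

/-! ### basic lemmas -/

theorem ab_nil : ab ([] : List (Fin d)) = 0 := by
  funext i; simp [ab]

theorem ab_cons (a : Fin d) (w : List (Fin d)) : ab (a :: w) = ev a + ab w := by
  funext i
  simp only [ab, ev, Pi.add_apply, List.count_cons]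
  by_cases h : i = a
  · subst h; simp [add_comm]
  · have : ¬ (a == i) = true := by simp; exact fun h' => h h'.symm
    simp [h, this]

theorem ab_append (w w' : List (Fin d)) : ab (w ++ w') = ab w + ab w' := by
  funext i; simp [ab, List.count_append]

theorem ab_single (a : Fin d) : ab [a] = ev a := by
  rw [ab_cons, ab_nil, add_zero]

theorem ab_sum (w : List (Fin d)) : ∑ i, ab w i = (w.length : ℤ) := by
  induction w with
  | nil => simp [ab_nil]
  | cons a w ih =>
    rw [ab_cons]
    simp only [Pi.add_apply, Finset.sum_add_distrib, ih, ev, List.length_cons]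
    simp; ring

theorem ab_subst (σ : Fin d → List (Fin d)) (a : Fin d) : ab (σ a) = (inc σ).mulVec (ev a) := by
  funext i
  simp [ab, inc, Matrix.mulVec, dotProduct, ev]

theorem ab_ext (σ : Fin d → List (Fin d)) (w : List (Fin d)) :
    ab (ext σ w) = (inc σ).mulVec (ab w) := by
  induction w with
  | nil => simp [ext, ab_nil]
  | cons a w ih =>
    have : ext σ (a :: w) = σ a ++ ext σ w := by simp [ext]
    rw [this, ab_append, ih, ab_cons, Matrix.mulVec_add, ab_subst]

theorem ext_append (σ : Fin d → List (Fin d)) (w w' : List (Fin d)) :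
    ext σ (w ++ w') = ext σ w ++ ext σ w' := by simp [ext]

theorem ext_cons (σ : Fin d → List (Fin d)) (a : Fin d) (w : List (Fin d)) :
    ext σ (a :: w) = σ a ++ ext σ w := by simp [ext]

theorem iter_zero (σ : Fin d → List (Fin d)) (a : Fin d) : iter σ 0 a = [a] := rfl

theorem iter_succ (σ : Fin d → List (Fin d)) (n : ℕ) (a : Fin d) :
    iter σ (n+1) a = ext σ (iter σ n a) := by
  simp [iter, Function.iterate_succ_apply']

theorem iterate_ext_append (σ : Fin d → List (Fin d)) (n : ℕ) (w w' : List (Fin d)) :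
    (ext σ)^[n] (w ++ w') = (ext σ)^[n] w ++ (ext σ)^[n] w' := by
  induction n generalizing w w' with
  | zero => rfl
  | succ n ih => rw [Function.iterate_succ_apply, ext_append, ih]; simp

theorem iterate_ext_eq (σ : Fin d → List (Fin d)) (n : ℕ) (w : List (Fin d)) :
    (ext σ)^[n] w = ext (iter σ n) w := by
  induction w with
  | nil =>
    have : ∀ n, (ext σ)^[n] ([] : List (Fin d)) = [] := by
      intro n; induction n with
      | zero => rfl
      | succ n ih => rw [Function.iterate_succ_apply']; rw [ih]; simp [ext]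
    rw [this]; simp [ext]
  | cons a w ih =>
    have : a :: w = [a] ++ w := rfl
    rw [this, iterate_ext_append, ih, ext_append]
    congr 1
    simp [ext, iter]

theorem iter_add (σ : Fin d → List (Fin d)) (m n : ℕ) (a : Fin d) :
    iter σ (m + n) a = ext (iter σ m) (iter σ n a) := by
  rw [← iterate_ext_eq, iter, iter, Function.iterate_add_apply]

theorem inc_iter (σ : Fin d → List (Fin d)) (n : ℕ) : inc (iter σ n) = (inc σ) ^ n := by
  have key : ∀ n a, ab (iter σ n a) = ((inc σ)^n).mulVec (ev a) := by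
    intro n; induction n with
    | zero => intro a; simp [iter_zero, ab_single]
    | succ n ih =>
      intro a
      rw [iter_succ, ab_ext, ih, pow_succ', Matrix.mulVec_mulVec]
  ext i j
  have := congrFun (key n j) i
  simp only [ab] at this
  simp only [inc]
  rw [this]
  simp [Matrix.mulVec, dotProduct, ev]

theorem edges_append (z : Fin d → ℤ) (w w' : List (Fin d)) :
    edges z (w ++ w') = edges z w ++ edges (z + ab w) w' := by
  induction w generalizing z with
  | nil => simp [edges, ab_nil]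
  | cons a w ih => simp [edges, ih, ab_cons, add_assoc]

theorem edges_translate (z t : Fin d → ℤ) (w : List (Fin d)) :
    edges (z + t) w = (edges z w).map (fun e => (e.1 + t, e.2)) := by
  induction w generalizing z with
  | nil => simp [edges]
  | cons a w ih =>
    simp only [edges, List.map_cons, List.cons.injEq, true_and]
    rw [← ih]; congr 1; abel

theorem length_edges (z : Fin d → ℤ) (w : List (Fin d)) : (edges z w).length = w.length := by
  induction w generalizing z with
  | nil => simp [edges]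
  | cons a w ih => simp [edges, ih]

theorem getElem_edges (z : Fin d → ℤ) (w : List (Fin d)) (k : ℕ) (hk : k < (edges z w).length) :
    (edges z w)[k] = (z + ab (w.take k), w[k]'(by rwa [length_edges] at hk)) := by
  induction w generalizing z k with
  | nil => simp [edges] at hk
  | cons a w ih =>
    cases k with
    | zero => simp [edges, ab_nil]
    | succ k =>
      simp only [edges, List.getElem_cons_succ, List.take_succ_cons, ab_cons]
      rw [ih]
      simp [add_assoc]

theorem mem_edges {z : Fin d → ℤ} {w : List (Fin d)} {e : (Fin d → ℤ) × Fin d} :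
    e ∈ edges z w ↔ ∃ (k : ℕ) (hk : k < w.length), e = (z + ab (w.take k), w[k]) := by
  rw [List.mem_iff_getElem]
  constructor
  · rintro ⟨k, hk, rfl⟩
    exact ⟨k, by rwa [length_edges] at hk, getElem_edges _ _ _ _⟩
  · rintro ⟨k, hk, rfl⟩
    exact ⟨k, by rwa [length_edges], getElem_edges _ _ _ _⟩

theorem ht_add {M : Matrix (Fin d) (Fin d) ℤ} (P : PD M) (v w : Fin d → ℤ) :
    P.ht (v + w) = P.ht v + P.ht w := by
  simp [PD.ht, mul_add, Finset.sum_add_distrib]

theorem ht_ev {M : Matrix (Fin d) (Fin d) ℤ} (P : PD M) (a : Fin d) : P.ht (ev a) = P.ell a := by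
  simp [PD.ht, ev]

theorem ht_zero {M : Matrix (Fin d) (Fin d) ℤ} (P : PD M) : P.ht 0 = 0 := by simp [PD.ht]

theorem ht_mulVec {M : Matrix (Fin d) (Fin d) ℤ} (P : PD M) (v : Fin d → ℤ) :
    P.ht (M.mulVec v) = P.lam * P.ht v := by
  simp only [PD.ht, Matrix.mulVec, dotProduct, Finset.mul_sum, Int.cast_sum, Int.cast_mul]
  rw [Finset.sum_comm]
  apply Finset.sum_congr rfl
  intro j _
  have := P.ell_M j
  calc ∑ i, P.ell i * ((M i j : ℝ) * (v j : ℝ)) = (∑ i, P.ell i * (M i j : ℝ)) * v j := by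
        rw [Finset.sum_mul]; apply Finset.sum_congr rfl; intro i _; ring
    _ = P.lam * (P.ell j * v j) := by rw [this]; ring

theorem rv_mulVec {M : Matrix (Fin d) (Fin d) ℤ} (v : Fin d → ℤ) :
    rv (M.mulVec v) = act M (rv v) := by
  funext i; simp [rv, act, Matrix.mulVec, dotProduct]

theorem rv_add (v w : Fin d → ℤ) : rv (v + w) = rv v + rv w := by
  funext i; simp [rv]

theorem rv_neg (v : Fin d → ℤ) : rv (-v) = - rv v := by
  funext i; simp [rv]

theorem rv_zero : rv (0 : Fin d → ℤ) = 0 := by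
  funext i; simp [rv]

end Pool.Agent.H812R2.PI
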