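import Pool.Agent.H812R2.PI.SRec

namespace Pool.Agent.H812R2.PI
open scoped BigOperators
variable {d : ℕ}

theorem SDesub_win_congr {y y' : ℤ → Fin d} {m : ℤ} {n : ℕ}
    (h : ∀ j : ℤ, m ≤ j → j < m + n → y j = y' j) : win y m n = win y' m n := by
  unfold win
  congr 1
  funext k
  exact h _ (by omega) (by have := k.2; omega)

theorem SDesub_psum_congr {y y' : ℤ → Fin d} {B : ℤ} (h : ∀ j : ℤ, |j| ≤ B → y j = y' j)
    {i : ℤ} (hi : |i| ≤ B) : psum y i = psum y' i := by
  unfold psum
  split_ifs with h0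
  · rw [SDesub_win_congr (y' := y')]
    intro j hj hj'
    apply h
    rw [abs_le] at hi ⊢
    constructor <;> omega
  · rw [SDesub_win_congr (y' := y')]
    intro j hj hj'
    apply h
    rw [abs_le] at hi ⊢
    constructor <;> omega

/-- cutting points computed from the letters -/
def SDesub_cc (τ : Fin d → List (Fin d)) (y : ℤ → Fin d) (p : ℕ) (i : ℤ) : ℤ :=
  -(p : ℤ) + ∑ j, psum y i j * ((τ j).length : ℤ)

theorem SDesub_cc_zero (τ : Fin d → List (Fin d)) (y : ℤ → Fin d) (p : ℕ) :
    SDesub_cc τ y p 0 = -(p : ℤ) := by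
  simp [SDesub_cc, psum_zero]

theorem SDesub_cc_succ (τ : Fin d → List (Fin d)) (y : ℤ → Fin d) (p : ℕ) (i : ℤ) :
    SDesub_cc τ y p (i + 1) = SDesub_cc τ y p i + ((τ (y i)).length : ℤ) := by
  unfold SDesub_cc
  rw [psum_succ]
  simp only [Pi.add_apply, add_mul, Finset.sum_add_distrib, ev]
  simp
  ring

theorem SDesub_cc_congr (τ : Fin d → List (Fin d)) {y y' : ℤ → Fin d} (p : ℕ) {B : ℤ}
    (h : ∀ j : ℤ, |j| ≤ B → y j = y' j) {i : ℤ} (hi : |i| ≤ B) :
    SDesub_cc τ y p i = SDesub_cc τ y' p i := by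
  unfold SDesub_cc
  rw [SDesub_psum_congr h hi]

theorem SDesub_ext_split (τ : Fin d → List (Fin d)) (v : List (Fin d)) (k : ℕ)
    (hk : k < v.length) :
    ext τ v = ext τ (v.take k) ++ (τ v[k] ++ ext τ (v.drop (k+1))) := by
  conv_lhs => rw [← List.take_append_drop k v]
  rw [ext_append, List.drop_eq_getElem_cons hk, ext_cons]

/-- position of the `k`-th block -/
def SDesub_pos (τ : Fin d → List (Fin d)) (v : List (Fin d)) (k : ℕ) : ℕ :=
  (ext τ (v.take k)).length

theorem SDesub_pos_succ (τ : Fin d → List (Fin d)) (v : List (Fin d)) (k : ℕ)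
    (hk : k < v.length) :
    SDesub_pos τ v (k+1) = SDesub_pos τ v k + (τ v[k]).length := by
  unfold SDesub_pos
  rw [List.take_succ_eq_append_getElem hk, ext_append, List.length_append]
  simp [ext]

theorem SDesub_pos_le (τ : Fin d → List (Fin d)) (L : ℕ) (hL : ∀ a, (τ a).length ≤ L)
    (v : List (Fin d)) : (ext τ v).length ≤ v.length * L := by
  induction v with
  | nil => simp [ext]
  | cons a v ih =>
    rw [ext_cons, List.length_append, List.length_cons]
    have := hL a
    nlinarith

theorem SDesub_block (τ : Fin d → List (Fin d)) (v : List (Fin d)) (k : ℕ)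
    (hk : k < v.length) (t : ℕ) (ht : t < (τ v[k]).length) :
    (ext τ v)[SDesub_pos τ v k + t]? = some ((τ v[k])[t]) := by
  rw [SDesub_ext_split τ v k hk, SDesub_pos, List.getElem?_append_right (by omega)]
  rw [Nat.add_sub_cancel_left, List.getElem?_append_left ht]
  exact List.getElem?_eq_getElem ht

theorem SDesub_finite {σ : Fin d → List (Fin d)} (P : PD (inc σ)) (m : ℕ) (x : ℤ → Fin d)
    (hx : x ∈ X σ) (L : ℕ) (hL1 : 1 ≤ L) (hL : ∀ a, (iter σ m a).length ≤ L)
    (R : ℕ) :
    ∃ (y : ℤ → Fin d) (p : ℕ), p < (iter σ m (y 0)).length ∧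
      (∀ i : ℤ, |i| ≤ R → win x (SDesub_cc (iter σ m) y p i) (iter σ m (y i)).length
        = iter σ m (y i)) ∧
      (∀ (i : ℤ) (k : ℕ), -(R:ℤ) ≤ i → i + k ≤ R → win y i k ∈ lang σ) := by
  obtain ⟨c, C, hc, hC, hb⟩ := length_iter_bounds P
  -- choose n
  obtain ⟨K, hK⟩ := exists_nat_gt (C * P.lam ^ m)
  obtain ⟨n, hn⟩ : ∃ n : ℕ, n = (R + 3) * L + K := ⟨_, rfl⟩
  obtain ⟨r, hr1, a, hfac⟩ := hx (-(n:ℤ)) (2 * n + 1)
  have hrm : m < r := by
    by_contra hcon
    push Not at hcon
    have h1 : ((iter σ r a).length : ℝ) ≤ C * P.lam ^ m := by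
      refine (hb r a).2.trans ?_
      exact mul_le_mul_of_nonneg_left (pow_le_pow_right₀ P.lam_gt.le hcon) hC.le
    have h2 := hfac.length_le
    rw [win_length] at h2
    have h3 : ((2 * n + 1 : ℕ) : ℝ) ≤ ((iter σ r a).length : ℝ) := by exact_mod_cast h2
    have h4 : (K : ℝ) ≤ ((2 * n + 1 : ℕ) : ℝ) := by
      have : K ≤ 2 * n + 1 := by rw [hn]; nlinarith
      exact_mod_cast this
    linarith
  obtain ⟨s, hs⟩ : ∃ s, r = m + s := ⟨r - m, by omega⟩
  have hs1 : 1 ≤ s := by omega
  rw [hs, iter_add] at hfac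
  generalize iter σ m = τ at *
  obtain ⟨v, hv⟩ : ∃ v, v = iter σ s a := ⟨_, rfl⟩
  rw [← hv] at hfac
  obtain ⟨A, B, hAB⟩ := hfac
  have hget : ∀ j : ℤ, -(n:ℤ) ≤ j → j ≤ n →
      (ext τ v)[((A.length : ℤ) + n + j).toNat]? = some (x j) := by
    intro j hj1 hj2
    rw [← hAB, List.append_assoc]
    have e1 : ((A.length : ℤ) + n + j).toNat = A.length + (n + j).toNat := by omega
    rw [e1, List.getElem?_append_right (by omega), Nat.add_sub_cancel_left,
      List.getElem?_append_left (by rw [win_length]; omega),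
      List.getElem?_eq_getElem (by rw [win_length]; omega), win_getElem]
    congr 2
    omega
  have hlen : (ext τ v).length = A.length + (2 * n + 1) + B.length := by
    rw [← hAB, List.length_append, List.length_append, win_length]
  -- the block containing position 0
  obtain ⟨q, hq⟩ : ∃ q : ℕ, q = A.length + n := ⟨_, rfl⟩
  have hpos0 : SDesub_pos τ v 0 = 0 := by simp [SDesub_pos, ext]
  have hposl : SDesub_pos τ v v.length = (ext τ v).length := by simp [SDesub_pos]
  have hqlt : q < SDesub_pos τ v v.length := by rw [hposl, hlen]; omega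
  obtain ⟨k0, hk0, hk0a, hk0b⟩ : ∃ k0, k0 < v.length ∧ SDesub_pos τ v k0 ≤ q ∧
      q < SDesub_pos τ v (k0 + 1) := by
    have hex : ∃ k, q < SDesub_pos τ v k := ⟨_, hqlt⟩
    classical
    have hf := Nat.find_spec hex
    have hmin := fun k => Nat.find_min (H := hex) (m := k)
    set k1 := Nat.find hex with hk1
    have hk1pos : k1 ≠ 0 := by
      intro h0; rw [h0, hpos0] at hf; omega
    have hk1le : k1 ≤ v.length := Nat.find_min' hex hqlt
    refine ⟨k1 - 1, by omega, ?_, ?_⟩
    · have := hmin (k1 - 1) (by omega)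
      omega
    · have : k1 - 1 + 1 = k1 := by omega
      rw [this]; exact hf
  have hposs : ∀ k, (hk : k < v.length) →
      SDesub_pos τ v (k+1) = SDesub_pos τ v k + (τ v[k]).length := SDesub_pos_succ τ v
  obtain ⟨p, hp⟩ : ∃ p : ℕ, p = q - SDesub_pos τ v k0 := ⟨_, rfl⟩
  have hpL : p < (τ v[k0]).length := by
    have := hposs k0 hk0
    omega
  have hpL' : p < L := lt_of_lt_of_le hpL (hL _)
  -- k0 is large
  have hposle : ∀ k, SDesub_pos τ v k ≤ k * L := by
    intro k
    refine (SDesub_pos_le τ L hL _).trans ?_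
    exact Nat.mul_le_mul_right _ (by simp)
  have hk0R : R + 1 ≤ k0 := by
    by_contra hcon
    have h1 : k0 ≤ R := by omega
    have h2 := hposle k0
    have h3 : k0 * L ≤ R * L := Nat.mul_le_mul_right _ h1
    have h4 : n = (R + 3) * L + K := hn
    have h5 : (R + 3) * L = R * L + 3 * L := by ring
    omega
  have hdrop : (ext τ v).length = SDesub_pos τ v k0 + (ext τ (v.drop k0)).length := by
    conv_lhs => rw [← List.take_append_drop k0 v]
    rw [ext_append, List.length_append, SDesub_pos]
  have hk0R' : k0 + R + 1 < v.length := by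
    by_contra hcon
    have h1 : (v.drop k0).length ≤ R + 1 := by rw [List.length_drop]; omega
    have h2 := SDesub_pos_le τ L hL (v.drop k0)
    have h3 : (v.drop k0).length * L ≤ (R + 1) * L := Nat.mul_le_mul_right _ h1
    have h4 : n = (R + 3) * L + K := hn
    have h5 : (R + 3) * L = (R + 1) * L + 2 * L := by ring
    omega
  -- the sequence
  let y : ℤ → Fin d := fun i => if h : ((k0 : ℤ) + i).toNat < v.length then
    v[((k0 : ℤ) + i).toNat] else x 0
  have hy : ∀ i : ℤ, -(k0 : ℤ) ≤ i → ∀ h : ((k0 : ℤ) + i).toNat < v.length,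
      y i = v[((k0 : ℤ) + i).toNat] := by
    intro i _ h
    simp only [y, h, dif_pos]
  clear_value y
  have hy0 : y 0 = v[k0] := by
    have : ((k0 : ℤ) + 0).toNat = k0 := by omega
    rw [hy 0 (by omega) (by rw [this]; exact hk0)]
    simp
  -- cutting points
  have hccu : ∀ j : ℕ, j ≤ R + 1 →
      (q : ℤ) + SDesub_cc τ y p j = SDesub_pos τ v (k0 + j) ∧ SDesub_cc τ y p j ≤ j * L := by
    intro j
    induction j with
    | zero =>
      intro _
      simp only [Nat.cast_zero, add_zero]
      rw [SDesub_cc_zero]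
      constructor <;> omega
    | succ j ih =>
      intro hj
      have ih' := ih (by omega)
      have e : ((j + 1 : ℕ) : ℤ) = (j : ℤ) + 1 := by push_cast; ring
      rw [e, SDesub_cc_succ]
      have hyj : y j = v[k0 + j] := by
        have : ((k0 : ℤ) + j).toNat = k0 + j := by omega
        rw [hy j (by omega) (by rw [this]; omega)]
        simp [this]
      have h1 := hposs (k0 + j) (by omega)
      have h2 := hL (v[k0 + j])
      rw [hyj]
      constructor
      · rw [← add_assoc k0 j 1, h1]
        push_cast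
        linarith [ih'.1]
      · have h3 : ((τ v[k0+j]).length : ℤ) ≤ L := by exact_mod_cast h2
        have h4 := ih'.2
        nlinarith
  have hccd : ∀ j : ℕ, j ≤ R →
      (q : ℤ) + SDesub_cc τ y p (-(j:ℤ)) = SDesub_pos τ v (k0 - j) ∧
        -((j + 1 : ℕ) : ℤ) * L ≤ SDesub_cc τ y p (-(j:ℤ)) := by
    intro j
    induction j with
    | zero =>
      intro _
      simp only [Nat.cast_zero, neg_zero, tsub_zero]
      rw [SDesub_cc_zero]
      constructor
      · omega
      · push_cast; omega
    | succ j ih =>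
      intro hj
      have ih' := ih (by omega)
      have e : (-(j:ℤ)) = -((j + 1 : ℕ) : ℤ) + 1 := by push_cast; ring
      rw [e, SDesub_cc_succ] at ih'
      have hyj : y (-((j + 1 : ℕ) : ℤ)) = v[k0 - (j+1)] := by
        have : ((k0 : ℤ) + -((j + 1 : ℕ) : ℤ)).toNat = k0 - (j+1) := by omega
        rw [hy _ (by omega) (by rw [this]; omega)]
        simp only [this]
      have h1 := hposs (k0 - (j+1)) (by omega)
      have e2 : k0 - (j+1) + 1 = k0 - j := by omega
      rw [e2] at h1
      have h2 := hL (v[k0 - (j+1)])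
      rw [hyj] at ih'
      have h3 : ((τ v[k0-(j+1)]).length : ℤ) ≤ L := by exact_mod_cast h2
      constructor
      · have h4 := ih'.1
        rw [h1] at h4
        push_cast at h4 ⊢
        linarith
      · have h4 := ih'.2
        push_cast at h4 ⊢
        nlinarith
  have hkey : ∀ i : ℤ, |i| ≤ R → ∃ k : ℕ, ∃ hk : k < v.length, (k : ℤ) = k0 + i ∧ y i = v[k] ∧
      (q : ℤ) + SDesub_cc τ y p i = SDesub_pos τ v k ∧ -((R+1 : ℕ) : ℤ) * L ≤ SDesub_cc τ y p i ∧
        SDesub_cc τ y p i ≤ (R : ℤ) * L := by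
    intro i hi
    rw [abs_le] at hi
    have hL0 : (0 : ℤ) ≤ L := by positivity
    rcases le_total 0 i with h0 | h0
    · obtain ⟨j, rfl⟩ := Int.eq_ofNat_of_zero_le h0
      have hjR : j ≤ R := by omega
      have h1 := hccu j (by omega)
      refine ⟨k0 + j, by omega, by push_cast; ring, ?_, ?_, ?_, ?_⟩
      · have : ((k0 : ℤ) + j).toNat = k0 + j := by omega
        rw [hy j (by omega) (by rw [this]; omega)]
        simp [this]
      · exact h1.1
      · have h2 : (q : ℤ) - p = SDesub_pos τ v k0 := by omega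
        have h3 : SDesub_pos τ v k0 ≤ SDesub_pos τ v (k0 + j) := by
          have : ∀ j : ℕ, k0 + j < v.length → SDesub_pos τ v k0 ≤ SDesub_pos τ v (k0 + j) := by
            intro j
            induction j with
            | zero => intro _; simp
            | succ j ih =>
              intro hj
              have := hposs (k0 + j) (by omega)
              have := ih (by omega)
              rw [← add_assoc]; omega
          exact this j (by omega)
        have h4 : -(L : ℤ) ≤ SDesub_cc τ y p j := by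
          have := h1.1
          have h3' : (SDesub_pos τ v k0 : ℤ) ≤ SDesub_pos τ v (k0 + j) := by exact_mod_cast h3
          omega
        have h5 : -((R+1 : ℕ) : ℤ) * L ≤ -(L:ℤ) := by push_cast; nlinarith
        exact h5.trans h4
      · refine h1.2.trans ?_
        have : (j : ℤ) ≤ R := by exact_mod_cast hjR
        nlinarith
    · obtain ⟨j, hj⟩ := Int.eq_ofNat_of_zero_le (show 0 ≤ -i by omega)
      have hij : i = -(j : ℤ) := by omega
      subst hij
      have hjR : j ≤ R := by omega
      have h1 := hccd j hjR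
      refine ⟨k0 - j, by omega, by omega, ?_, ?_, ?_, ?_⟩
      · have : ((k0 : ℤ) + -(j:ℤ)).toNat = k0 - j := by omega
        rw [hy _ (by omega) (by rw [this]; omega)]
        simp only [this]
      · exact h1.1
      · refine le_trans ?_ h1.2
        have : (j : ℤ) ≤ R := by exact_mod_cast hjR
        push_cast
        nlinarith
      · have h3 : SDesub_pos τ v (k0 - j) ≤ SDesub_pos τ v k0 := by
          have : ∀ j : ℕ, j ≤ k0 → SDesub_pos τ v (k0 - j) ≤ SDesub_pos τ v k0 := by
            intro j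
            induction j with
            | zero => intro _; simp
            | succ j ih =>
              intro hj
              have h1 := hposs (k0 - (j+1)) (by omega)
              have e2 : k0 - (j+1) + 1 = k0 - j := by omega
              rw [e2] at h1
              have := ih (by omega)
              omega
          exact this j (by omega)
        have := h1.1
        have h3' : (SDesub_pos τ v (k0 - j) : ℤ) ≤ SDesub_pos τ v k0 := by exact_mod_cast h3
        have h4 : SDesub_cc τ y p (-(j:ℤ)) ≤ 0 := by omega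
        have h5 : (0 : ℤ) ≤ (R : ℤ) * L := by positivity
        omega
  refine ⟨y, p, ?_, ?_, ?_⟩
  · rw [hy0]; exact hpL
  · intro i hi
    obtain ⟨k, hk, hki, hyi, hcc, hlo, hup⟩ := hkey i hi
    rw [hyi]
    apply List.ext_getElem
    · rw [win_length]
    · intro t ht ht'
      rw [win_getElem]
      have h1 := SDesub_block τ v k hk t ht'
      have hLt : t < L := lt_of_lt_of_le ht' (hL _)
      have h4 : n = (R + 3) * L + K := hn
      have h4' : (n : ℤ) = (R : ℤ) * L + 3 * L + K := by rw [h4]; push_cast; ring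
      have h5 : -((R+1 : ℕ) : ℤ) * L = -((R:ℤ) * L) - L := by push_cast; ring
      rw [h5] at hlo
      have hLt' : (t : ℤ) < L := by exact_mod_cast hLt
      have h2 := hget (SDesub_cc τ y p i + t) (by omega) (by omega)
      have h3 : ((A.length : ℤ) + n + (SDesub_cc τ y p i + t)).toNat
          = SDesub_pos τ v k + t := by omega
      rw [h3, h1] at h2
      exact (Option.some_injective _ h2).symm
  · intro i k hi hik
    refine ⟨s, hs1, a, ?_⟩
    have e : win y i k = (v.drop ((k0 : ℤ) + i).toNat).take k := by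
      apply List.ext_getElem
      · rw [win_length, List.length_take, List.length_drop]
        omega
      · intro t ht ht'
        rw [win_length] at ht
        rw [win_getElem, List.getElem_take, List.getElem_drop]
        have e1 : ((k0 : ℤ) + (i + t)).toNat = ((k0 : ℤ) + i).toNat + t := by omega
        rw [hy (i + t) (by omega) (by rw [e1]; omega)]
        simp only [e1]
    rw [e, ← hv]
    exact (List.take_prefix _ _).isInfix.trans (List.drop_suffix _ _).isInfix

theorem exists_desub {σ : Fin d → List (Fin d)} (P : PD (inc σ)) (m : ℕ) (x : ℤ → Fin d)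
    (hx : x ∈ X σ) : ∃ x' ∈ X σ, ∃ c, IsDesub (iter σ m) x x' c := by
  classical
  obtain ⟨c, C, hc, hC, hb⟩ := length_iter_bounds P
  obtain ⟨L, hL1, hL⟩ : ∃ L : ℕ, 1 ≤ L ∧ ∀ a, (iter σ m a).length ≤ L := by
    refine ⟨1 + ∑ a, (iter σ m a).length, by omega, fun a => ?_⟩
    have := Finset.single_le_sum (f := fun a => (iter σ m a).length) (fun _ _ => Nat.zero_le _)
      (Finset.mem_univ a)
    omega
  have hfin := SDesub_finite P m x hx L hL1 hL
  choose y p hp hy1 hy2 using hfin
  have hpL : ∀ R, p R < L + 1 := fun R => by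
    have := hp R; have := hL (y R 0); omega
  let z : ℕ → (ℤ → Fin d) × Fin (L + 1) := fun R => (y R, ⟨p R, hpL R⟩)
  obtain ⟨⟨y', p'⟩, φ, hφ, hlim⟩ := CompactSpace.tendsto_subseq z
  rw [nhds_prod_eq] at hlim
  have hlim1 : Filter.Tendsto (fun n => y (φ n)) Filter.atTop (nhds y') :=
    (Filter.tendsto_fst.comp hlim)
  have hlim2 : Filter.Tendsto (fun n => (⟨p (φ n), hpL (φ n)⟩ : Fin (L+1))) Filter.atTop
      (nhds p') := (Filter.tendsto_snd.comp hlim)
  rw [tendsto_pi_nhds] at hlim1
  simp only [nhds_discrete, Filter.tendsto_pure] at hlim1 hlim2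
  -- approximation
  have happ : ∀ B : ℕ, ∃ R : ℕ, B ≤ R ∧ p R = p' ∧ ∀ j : ℤ, |j| ≤ B → y R j = y' j := by
    intro B
    have h1 : ∀ᶠ n in Filter.atTop, ∀ j ∈ Finset.Icc (-(B:ℤ)) B, y (φ n) j = y' j := by
      rw [Filter.eventually_all_finset]
      intro j _
      exact hlim1 j
    obtain ⟨n, hn1, hn2, hn3⟩ := (h1.and (hlim2.and (Filter.eventually_ge_atTop B))).exists
    refine ⟨φ n, hn3.trans (hφ.id_le n), ?_, ?_⟩
    · rw [← hn2]
    · intro j hj
      rw [abs_le] at hj
      exact hn1 j (Finset.mem_Icc.2 hj)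
  refine ⟨y', ?_, SDesub_cc (iter σ m) y' p', ?_, ?_, ?_, ?_⟩
  · intro i k
    obtain ⟨R, hR, hpR, hyR⟩ := happ (i.natAbs + k)
    have h1 : -(R:ℤ) ≤ i := by omega
    have h2 : i + k ≤ R := by omega
    have h3 := hy2 R i k h1 h2
    rw [SDesub_win_congr (y' := y R)]
    · exact h3
    · intro j hj1 hj2
      symm
      apply hyR
      rw [abs_le]
      constructor <;> omega
  · exact fun i => SDesub_cc_succ _ _ _ _
  · intro i
    obtain ⟨R, hR, hpR, hyR⟩ := happ (i.natAbs)
    have hi : |i| ≤ (i.natAbs : ℤ) := by simp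
    have hi' : |i| ≤ (R : ℤ) := hi.trans (by exact_mod_cast hR)
    have h1 := hy1 R i hi'
    rw [← SDesub_cc_congr (iter σ m) (p' : ℕ) hyR hi, ← hyR i hi, ← hpR]
    exact h1
  · rw [SDesub_cc_zero]; omega
  · obtain ⟨R, hR, hpR, hyR⟩ := happ 0
    have h1 := hp R
    have h2 := hyR 0 (by simp)
    have h3 := SDesub_cc_succ (iter σ m) y' p' 0
    rw [zero_add, SDesub_cc_zero] at h3
    rw [h3, ← h2, ← hpR]
    omega

end Pool.Agent.H812R2.PI
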