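import Pool.Agent.H812R2.PI.STop
import Pool.Agent.H812R2.PI.SDesub

namespace Pool.Agent.H812R2.PI
open scoped BigOperators
variable {d : ℕ}

/-- projection kills multiples of `u` after applying the matrix -/
theorem FDef_pr_act_pr {M : Matrix (Fin d) (Fin d) ℤ} (P : PD M) (w : Fin d → ℝ) :
    P.pr (act M (P.pr w)) = P.pr (act M w) := by
  have h1 : P.pr w = w + (fun i => (-(∑ j, w j)) * P.u i) := by
    funext i
    simp only [PD.pr, Pi.add_apply]
    ring
  rw [h1, act_add, act_u, pr_add]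
  have h2 : P.pr (fun i => (-(∑ j, w j) * P.lam) * P.u i) = 0 := by
    funext i
    simp [PD.pr, ← Finset.mul_sum, P.u_sum]
  rw [h2, add_zero]

/-- invariance of the defect under shifts -/
theorem FDef_shift {σ : Fin d → List (Fin d)} (P : PD (inc σ))
    (h : (ℤ → Fin d) → (Fin d → ℝ))
    (hcoc : ∀ x ∈ X σ, h (sh x) = h x + P.pr (rv (ev (x 0)))) (m : ℕ)
    {x x' : ℤ → Fin d} {c : ℤ → ℤ} (hx : x ∈ X σ) (hx' : x' ∈ X σ)
    (dx : IsDesub (iter σ m) x x' c) (i : ℤ) :
    h (shZ (c i) x) - P.pr (act ((inc σ) ^ m) (h (shZ i x'))) =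
    (h x + P.pr (rv (psum x (c 0)))) - P.pr (act ((inc σ) ^ m) (h x')) := by
  have h1 := cocycle_shZ P h hcoc x hx (c i)
  have h2 := cocycle_shZ P h hcoc x' hx' i
  have h3 := psum_desub dx i
  rw [inc_iter] at h3
  have key : P.pr (act ((inc σ) ^ m) (P.pr (rv (psum x' i)))) =
      P.pr (act ((inc σ) ^ m) (rv (psum x' i))) := by
    rcases Nat.eq_zero_or_pos m with h0 | h0
    · subst h0
      have hid : ∀ w : Fin d → ℝ, act ((inc σ) ^ 0) w = w := by
        intro w
        funext i
        simp [act, Matrix.one_apply]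
      rw [hid, hid]
      funext i
      simp only [PD.pr]
      simp [Finset.sum_sub_distrib, ← Finset.mul_sum, P.u_sum]
    · exact FDef_pr_act_pr (P.pow m h0) (rv (psum x' i))
  rw [h1, h2, h3, act_add, pr_add, key, rv_add, rv_mulVec, pr_add]
  abel

theorem FDef_iter_pos {σ : Fin d → List (Fin d)} (P : PD (inc σ)) (m : ℕ) (a : Fin d) :
    0 < (iter σ m a).length := by
  obtain ⟨c, C, hc, _, hb⟩ := length_iter_bounds P
  have h1 := (hb m a).1
  have h2 : 0 < c * P.lam ^ m := mul_pos hc (pow_pos (by linarith [P.lam_gt]) _)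
  exact_mod_cast lt_of_lt_of_le h2 h1

/-- every integer lies in a block -/
theorem FDef_block (c : ℤ → ℤ) (hc : ∀ i, c i < c (i + 1)) (j : ℤ) :
    ∃ t, c t ≤ j ∧ j < c (t + 1) := by
  have hm : StrictMono c := strictMono_int_of_lt_succ hc
  have hg : ∀ i k : ℤ, i ≤ k → k - i ≤ c k - c i := by
    intro i k hik
    induction k, hik using Int.leInduction with
    | base => simp
    | succ k _ ih =>
      have := hc k
      omega
  obtain ⟨t, ht1, ht2⟩ := Int.exists_greatest_of_bdd (P := fun t => c t ≤ j)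
    ⟨max 0 (j - c 0), fun z hz => by
      by_contra hcon
      push Not at hcon
      have h1 := hg 0 z (by omega)
      omega⟩
    ⟨min 0 (j - c 0), by
      have h1 := hg (min 0 (j - c 0)) 0 (by omega)
      omega⟩
  refine ⟨t, ht1, ?_⟩
  by_contra hcon
  push Not at hcon
  have := ht2 (t + 1) hcon
  omega

theorem FDef_cut {τ : Fin d → List (Fin d)} {x x' y y' : ℤ → Fin d} {c c' : ℤ → ℤ}
    (dx : IsDesub τ x x' c) (dy : IsDesub τ y y' c') (k : ℤ) (n : ℕ)
    (hk : ∀ t : ℤ, |t| ≤ n → x' (k + t) = y' t) (t : ℤ) (ht : |t| ≤ n) :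
    c (k + t) - c k = c' t - c' 0 := by
  have hup : ∀ s : ℕ, s ≤ n → c (k + s) - c k = c' s - c' 0 := by
    intro s
    induction s with
    | zero => intro _; simp
    | succ s ih =>
      intro hs
      have h1 := ih (by omega)
      have h2 := dx.1 (k + s)
      have h3 := dy.1 s
      have h4 := hk s (by rw [abs_of_nonneg (by omega)]; exact_mod_cast (by omega : s ≤ n))
      rw [h4] at h2
      push_cast
      rw [← add_assoc, h2, h3]
      omega
  have hdn : ∀ s : ℕ, s ≤ n → c (k - s) - c k = c' (-s) - c' 0 := by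
    intro s
    induction s with
    | zero => intro _; simp
    | succ s ih =>
      intro hs
      have h1 := ih (by omega)
      have h2 := dx.1 (k - (s + 1))
      have h3 := dy.1 (-(s + 1))
      have h4 := hk (-((s : ℤ) + 1)) (by
        rw [abs_neg, abs_of_nonneg (by omega)]; exact_mod_cast hs)
      have e1 : k + -((s : ℤ) + 1) = k - (s + 1) := by ring
      rw [e1] at h4
      rw [h4] at h2
      have e2 : k - ((s : ℤ) + 1) + 1 = k - s := by ring
      have e3 : -((s : ℤ) + 1) + 1 = -s := by ring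
      rw [e2] at h2
      rw [e3] at h3
      push_cast
      have e4 : -1 + -(s : ℤ) = -((s : ℤ) + 1) := by ring
      omega
  rcases le_total 0 t with h0 | h0
  · obtain ⟨s, rfl⟩ := Int.eq_ofNat_of_zero_le h0
    refine hup s ?_
    rw [abs_of_nonneg h0] at ht
    exact_mod_cast ht
  · obtain ⟨s, hs⟩ := Int.eq_ofNat_of_zero_le (neg_nonneg.2 h0)
    have e1 : t = -(s : ℤ) := by omega
    subst e1
    have := hdn s (by
      rw [abs_neg, abs_of_nonneg (by omega)] at ht
      exact_mod_cast ht)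
    rw [← sub_eq_add_neg]
    exact this

theorem FDef_letter {τ : Fin d → List (Fin d)} {x x' : ℤ → Fin d} {c : ℤ → ℤ}
    (dx : IsDesub τ x x' c) (i : ℤ) (s : ℕ) (hs : s < (τ (x' i)).length) :
    x (c i + s) = (τ (x' i))[s] := by
  have h1 := dx.2.1 i
  have h2 : (win x (c i) (τ (x' i)).length)[s]'(by rw [win_length]; exact hs) =
      (τ (x' i))[s] := by
    congr 1
  rw [← h2, win_getElem]

theorem defect_const {σ : Fin d → List (Fin d)} (P : PD (inc σ))
    (h : (ℤ → Fin d) → (Fin d → ℝ)) (hcont : ContinuousOn h (X σ))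
    (hcoc : ∀ x ∈ X σ, h (sh x) = h x + P.pr (rv (ev (x 0)))) (m : ℕ)
    {x y x' y' : ℤ → Fin d} {c c' : ℤ → ℤ} (hx : x ∈ X σ) (hy : y ∈ X σ) (hx' : x' ∈ X σ)
    (hy' : y' ∈ X σ) (dx : IsDesub (iter σ m) x x' c) (dy : IsDesub (iter σ m) y y' c') :
    (h x + P.pr (rv (psum x (c 0)))) - P.pr (act ((inc σ) ^ m) (h x')) =
    (h y + P.pr (rv (psum y (c' 0)))) - P.pr (act ((inc σ) ^ m) (h y')) := by
  choose k hk using fun n : ℕ => X_minimal P hx' hy' n
  have hc' : ∀ i, c' i < c' (i + 1) := by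
    intro i
    have h1 := dy.1 i
    have h2 := FDef_iter_pos P m (y' i)
    omega
  -- convergence of the desubstituted words
  have hz' : Filter.Tendsto (fun n : ℕ => shZ (k n) x') Filter.atTop (nhds y') := by
    rw [tendsto_pi_nhds]
    intro t
    refine tendsto_const_nhds.congr' ?_
    filter_upwards [Filter.eventually_ge_atTop t.natAbs] with n hn
    have h1 := hk n t (by rw [Int.abs_eq_natAbs]; omega)
    simp only [shZ]
    rw [add_comm, h1]
  have hz : Filter.Tendsto (fun n : ℕ => shZ (c (k n)) x) Filter.atTop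
      (nhds (shZ (c' 0) y)) := by
    rw [tendsto_pi_nhds]
    intro j
    refine tendsto_const_nhds.congr' ?_
    obtain ⟨t, ht1, ht2⟩ := FDef_block c' hc' (c' 0 + j)
    filter_upwards [Filter.eventually_ge_atTop t.natAbs] with n hn
    have h1 := hk n t (by rw [Int.abs_eq_natAbs]; omega)
    have h2 := FDef_cut dx dy (k n) n (hk n) t (by rw [Int.abs_eq_natAbs]; omega)
    obtain ⟨s, hs⟩ := Int.eq_ofNat_of_zero_le (sub_nonneg.2 ht1)
    have h3 := dy.1 t
    have hs2 : s < (iter σ m (y' t)).length := by omega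
    have h4 := FDef_letter dy t s hs2
    have hs3 : s < (iter σ m (x' (k n + t))).length := by rw [h1]; exact hs2
    have h5 := FDef_letter dx (k n + t) s hs3
    have e1 : j + c' 0 = c' t + s := by omega
    have e2 : j + c (k n) = c (k n + t) + s := by omega
    simp only [shZ]
    rw [e1, e2, h4, h5]
    congr 1
    rw [h1]
  have hmem : ∀ n, shZ (c (k n)) x ∈ X σ := fun n => shZ_mem hx _
  have hmem' : ∀ n, shZ (k n : ℤ) x' ∈ X σ := fun n => shZ_mem hx' _
  have l1 : Filter.Tendsto (fun n : ℕ => h (shZ (c (k n)) x)) Filter.atTop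
      (nhds (h (shZ (c' 0) y))) :=
    (hcont _ (shZ_mem hy _)).tendsto.comp (tendsto_nhdsWithin_iff.2
      ⟨hz, Filter.Eventually.of_forall hmem⟩)
  have l2 : Filter.Tendsto (fun n : ℕ => h (shZ (k n : ℤ) x')) Filter.atTop (nhds (h y')) :=
    (hcont _ hy').tendsto.comp (tendsto_nhdsWithin_iff.2
      ⟨hz', Filter.Eventually.of_forall hmem'⟩)
  have hcts : Continuous fun w : Fin d → ℝ => P.pr (act ((inc σ) ^ m) w) := by
    unfold PD.pr act
    fun_prop
  have l3 : Filter.Tendsto (fun n : ℕ => h (shZ (c (k n)) x) -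
      P.pr (act ((inc σ) ^ m) (h (shZ (k n : ℤ) x')))) Filter.atTop
      (nhds (h (shZ (c' 0) y) - P.pr (act ((inc σ) ^ m) (h y')))) :=
    l1.sub ((hcts.tendsto _).comp l2)
  have e1 : (fun n : ℕ => h (shZ (c (k n)) x) -
      P.pr (act ((inc σ) ^ m) (h (shZ (k n : ℤ) x')))) = fun _ =>
      (h x + P.pr (rv (psum x (c 0)))) - P.pr (act ((inc σ) ^ m) (h x')) := by
    funext n
    exact FDef_shift P h hcoc m hx hx' dx (k n)
  rw [e1] at l3
  have e2 := FDef_shift P h hcoc m hy hy' dy 0
  rw [shZ_zero] at e2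
  rw [← e2]
  exact tendsto_nhds_unique tendsto_const_nhds l3

end Pool.Agent.H812R2.PI
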