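import Mathlib

namespace Pool.Agent.H812R2.PI

open Classical in
theorem GInd_step {Ω : Type*} [Fintype Ω] (F : Finset Ω) (B : Ω → Prop) (κ : Ω → Ω → Prop)
    (hκ : Equivalence κ) (Q : ℕ) (hQ : ∀ ω, {ω' | κ ω ω'}.ncard ≤ Q)
    (hgood : ∀ ω, ∃ ω', κ ω ω' ∧ ¬ B ω') (hsat : ∀ ω ω', κ ω ω' → (ω ∈ F ↔ ω' ∈ F)) :
    ((F.filter B).card : ℝ) ≤ (1 - 1 / (Q : ℝ)) * F.card := by
  choose f hf1 hf2 using hgood
  have h1 : F.card ≤ Q * (F.filter (fun ω => ¬ B ω)).card := by
    have hmap : F.image f ⊆ F.filter (fun ω => ¬ B ω) := by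
      intro x hx
      rw [Finset.mem_image] at hx
      obtain ⟨ω, hω, rfl⟩ := hx
      rw [Finset.mem_filter]
      exact ⟨(hsat _ _ (hf1 ω)).1 hω, hf2 ω⟩
    have h2 : F.card ≤ Q * (F.image f).card := by
      apply Finset.card_le_mul_card_image
      intro b _
      have h5 : (F.filter (fun ω => f ω = b)).card ≤ {ω' | κ b ω'}.ncard := by
        rw [← Set.ncard_coe_finset]
        apply Set.ncard_le_ncard
        · intro ω hω
          simp only [Finset.coe_filter, Set.mem_setOf_eq] at hω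
          show κ b ω
          rw [← hω.2]
          exact hκ.symm (hf1 ω)
        · exact Set.toFinite _
      exact h5.trans (hQ b)
    exact h2.trans (Nat.mul_le_mul_left _ (Finset.card_le_card hmap))
  have h3 : (F.filter B).card + (F.filter (fun ω => ¬ B ω)).card = F.card :=
    Finset.card_filter_add_card_filter_not _
  rcases Nat.eq_zero_or_pos Q with hQ0 | hQ0
  · subst hQ0
    have h4 : F.card = 0 := by omega
    have h5 : (F.filter B).card = 0 := by omega
    rw [h4, h5]; simp
  · have hQr : (0 : ℝ) < Q := by exact_mod_cast hQ0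
    have h1' : (F.card : ℝ) ≤ Q * (F.filter (fun ω => ¬ B ω)).card := by exact_mod_cast h1
    have h3' : ((F.filter B).card : ℝ) + (F.filter (fun ω => ¬ B ω)).card = F.card := by
      exact_mod_cast h3
    have h6 : (F.card : ℝ) / Q ≤ (F.filter (fun ω => ¬ B ω)).card := by
      rw [div_le_iff₀ hQr]; linarith
    have h7 : (1 - 1 / (Q : ℝ)) * F.card = F.card - F.card / Q := by ring
    rw [h7]
    linarith

theorem count_indep {Ω : Type*} [Fintype Ω] (J : ℕ) (Bad : Fin J → Ω → Prop)
    (κ : Fin J → Ω → Ω → Prop) (hκ : ∀ j, Equivalence (κ j)) (Q : ℕ)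
    (hQ : ∀ j ω, {ω' | κ j ω ω'}.ncard ≤ Q)
    (hgood : ∀ j ω, ∃ ω', κ j ω ω' ∧ ¬ Bad j ω')
    (hsat : ∀ i j, i ≠ j → ∀ ω ω', κ j ω ω' → (Bad i ω ↔ Bad i ω')) :
    ({ω | ∀ j, Bad j ω}.ncard : ℝ) ≤ (1 - 1 / (Q : ℝ)) ^ J * Fintype.card Ω := by
  classical
  have key : ∀ S : Finset (Fin J), ((Finset.univ.filter fun ω => ∀ j ∈ S, Bad j ω).card : ℝ) ≤
      (1 - 1 / (Q : ℝ)) ^ S.card * Fintype.card Ω := by
    intro S
    induction S using Finset.induction_on with
    | empty => simp [Finset.card_univ]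
    | insert j S hj ih =>
      rcases isEmpty_or_nonempty Ω with hΩ | hΩ
      · simp
      have hQ1 : 1 ≤ Q := by
        obtain ⟨ω⟩ := hΩ
        refine le_trans ?_ (hQ j ω)
        rw [Nat.one_le_iff_ne_zero, ← Nat.pos_iff_ne_zero, Set.ncard_pos (Set.toFinite _)]
        exact ⟨ω, (hκ j).refl ω⟩
      have hQr : (1 : ℝ) ≤ Q := by exact_mod_cast hQ1
      have h0 : 0 ≤ 1 - 1 / (Q : ℝ) := by
        have : 1 / (Q : ℝ) ≤ 1 := by
          rw [div_le_one (by linarith)]; exact hQr
        linarith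
      have h1 := GInd_step (Finset.univ.filter fun ω => ∀ j ∈ S, Bad j ω) (Bad j) (κ j) (hκ j) Q
        (hQ j) (hgood j) (by
          intro ω ω' h
          simp only [Finset.mem_filter, Finset.mem_univ, true_and]
          constructor
          · intro h' i hi
            exact (hsat i j (by rintro rfl; exact hj hi) ω ω' h).1 (h' i hi)
          · intro h' i hi
            exact (hsat i j (by rintro rfl; exact hj hi) ω ω' h).2 (h' i hi))
      have h2 : (Finset.univ.filter fun ω => ∀ i ∈ insert j S, Bad i ω) =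
          (Finset.univ.filter fun ω => ∀ i ∈ S, Bad i ω).filter (Bad j) := by
        ext ω
        simp only [Finset.mem_filter, Finset.mem_univ, true_and, Finset.mem_insert, forall_eq_or_imp]
        tauto
      rw [h2, Finset.card_insert_of_notMem hj, pow_succ]
      calc _ ≤ (1 - 1 / (Q : ℝ)) * ((Finset.univ.filter fun ω => ∀ j ∈ S, Bad j ω).card : ℝ) := by
            convert h1
        _ ≤ (1 - 1 / (Q : ℝ)) * ((1 - 1 / (Q : ℝ)) ^ S.card * Fintype.card Ω) :=
            mul_le_mul_of_nonneg_left ih h0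
        _ = _ := by ring
  have h := key Finset.univ
  rw [Finset.card_univ, Fintype.card_fin] at h
  have h3 : {ω | ∀ j, Bad j ω}.ncard = (Finset.univ.filter fun ω => ∀ j ∈ Finset.univ, Bad j ω).card := by
    rw [← Set.ncard_coe_finset]
    congr 1
    ext ω
    simp
  rw [h3]
  exact h

end Pool.Agent.H812R2.PI
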