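import Pool.Agent.H812R2.PI.GDefs
import Pool.Agent.H812R2.PI.GInd

namespace Pool.Agent.H812R2.PI
open scoped BigOperators
variable {d : ℕ}

/-! ### auxiliary lemmas -/

theorem GBad_ev_inj {x y : Fin d} (h : ev x = ev y) : x = y := by
  have h1 := congrFun h x
  simp only [ev, if_true] at h1
  by_contra hne
  rw [if_neg hne] at h1
  exact one_ne_zero h1

theorem GBad_take_succ (l : List (Fin d)) (n : ℕ) (hn : n < l.length) :
    ab (l.take (n + 1)) = ab (l.take n) + ev (l[n]) := by
  rw [List.take_succ_eq_append_getElem hn, ab_append, ab_single]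

theorem GBad_length {σ : Fin d → List (Fin d)} {A : Matrix (Fin d) (Fin d) ℤ} (h : inc σ = A)
    (c : Fin d) : ((σ c).length : ℤ) = ∑ i, A i c := by
  rw [← ab_sum, ← h]
  rfl

/-- replacement of a piece of a word -/
def GBad_rep (l : List (Fin d)) (P : ℕ) (w : List (Fin d)) : List (Fin d) :=
  l.take P ++ w ++ l.drop (P + w.length)

theorem GBad_rep_le (l : List (Fin d)) (P : ℕ) (w : List (Fin d))
    (hP : P + w.length ≤ l.length) (m : ℕ) (hm : m ≤ P) :
    ab ((GBad_rep l P w).take m) = ab (l.take m) := by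
  unfold GBad_rep
  rw [List.append_assoc, List.take_append_of_le_length, List.take_take, min_eq_left hm]
  rw [List.length_take]; omega

theorem GBad_rep_mid (l : List (Fin d)) (P : ℕ) (w : List (Fin d))
    (hP : P + w.length ≤ l.length) (k : ℕ) (hk : k ≤ w.length) :
    ab ((GBad_rep l P w).take (P + k)) = ab (l.take P) + ab (w.take k) := by
  unfold GBad_rep
  have hl : (l.take P).length = P := by rw [List.length_take]; omega
  rw [List.append_assoc, List.take_append, hl, List.take_of_length_le (by omega),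
    Nat.add_sub_cancel_left, ab_append, List.take_append_of_le_length hk]

theorem GBad_rep_ge (l : List (Fin d)) (P : ℕ) (w : List (Fin d))
    (hP : P + w.length ≤ l.length) (h : ab (l.take P) + ab w = ab (l.take (P + w.length)))
    (m : ℕ) (hm : P + w.length ≤ m) :
    ab ((GBad_rep l P w).take m) = ab (l.take m) := by
  unfold GBad_rep
  have hl : (l.take P ++ w).length = P + w.length := by
    rw [List.length_append, List.length_take]; omega
  rw [List.take_append, hl, List.take_of_length_le (by omega), ab_append, ab_append, h,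
    ← ab_append]
  congr 1
  obtain ⟨r, rfl⟩ : ∃ r, m = (P + w.length) + r := ⟨m - (P + w.length), by omega⟩
  rw [Nat.add_sub_cancel_left]
  exact (List.take_add (l := l) (i := P + w.length) (j := r)).symm

theorem GBad_rep_ab (l : List (Fin d)) (P : ℕ) (w : List (Fin d))
    (hP : P + w.length ≤ l.length) (h : ab (l.take P) + ab w = ab (l.take (P + w.length))) :
    ab (GBad_rep l P w) = ab l := by
  have h1 := GBad_rep_ge l P w hP h ((GBad_rep l P w).length + l.length + P + w.length)
    (by omega)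
  rw [List.take_of_length_le (by omega), List.take_of_length_le (by omega)] at h1
  exact h1

/-- prefix sums of the updated substitution -/
theorem GBad_upd (σ : Fin d → List (Fin d)) (c₀ : Fin d) (P : ℕ) (w : List (Fin d))
    (hP : P + w.length ≤ (σ c₀).length)
    (h : ab ((σ c₀).take P) + ab w = ab ((σ c₀).take (P + w.length)))
    (c : Fin d) (m : ℕ) (hm : c = c₀ → m ≤ P ∨ P + w.length ≤ m) :
    ab ((Function.update σ c₀ (GBad_rep (σ c₀) P w) c).take m) = ab ((σ c).take m) := by
  by_cases hc : c = c₀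
  · subst hc
    rw [Function.update_self]
    rcases hm rfl with h1 | h1
    · exact GBad_rep_le _ _ _ hP m h1
    · exact GBad_rep_ge _ _ _ hP h m h1
  · rw [Function.update_of_ne hc]

theorem GBad_upd_mem {u : Fin d → ℝ} {A : Matrix (Fin d) (Fin d) ℤ} {B : ℝ}
    {σ : Fin d → List (Fin d)} (hσ : σ ∈ SubSet u A B) (c₀ : Fin d) (P : ℕ)
    (w : List (Fin d)) (hP : P + w.length ≤ (σ c₀).length)
    (h : ab ((σ c₀).take P) + ab w = ab ((σ c₀).take (P + w.length)))
    (hd : ∀ k, dis u (ab ((σ c₀).take P) + ab (w.take k)) ≤ B ^ 2) :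
    Function.update σ c₀ (GBad_rep (σ c₀) P w) ∈ SubSet u A B := by
  refine ⟨?_, ?_⟩
  · rw [← hσ.1]
    ext i j
    show ab (Function.update σ c₀ (GBad_rep (σ c₀) P w) j) i = ab (σ j) i
    by_cases hj : j = c₀
    · subst hj
      rw [Function.update_self, GBad_rep_ab _ _ _ hP h]
    · rw [Function.update_of_ne hj]
  · intro c m
    by_cases hmm : c = c₀ → m ≤ P ∨ P + w.length ≤ m
    · rw [GBad_upd σ c₀ P w hP h c m hmm]
      exact hσ.2 c m
    · push Not at hmm
      obtain ⟨hc, h1, h2⟩ := hmm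
      subst hc
      obtain ⟨k, rfl⟩ : ∃ k, m = P + k := ⟨m - P, by omega⟩
      rw [Function.update_self, GBad_rep_mid _ _ _ hP k (by omega)]
      exact hd k

theorem GBad_upd_length {u : Fin d → ℝ} {A : Matrix (Fin d) (Fin d) ℤ} {B : ℝ}
    {σ σ' : Fin d → List (Fin d)} (hσ : σ ∈ SubSet u A B) (hσ' : σ' ∈ SubSet u A B)
    (c : Fin d) : (σ c).length = (σ' c).length := by
  have h1 := GBad_length hσ.1 c
  have h2 := GBad_length hσ'.1 c
  have h3 : ((σ c).length : ℤ) = (σ' c).length := by rw [h1, h2]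
  exact_mod_cast h3

theorem subSet_finite (u : Fin d → ℝ) (A : Matrix (Fin d) (Fin d) ℤ) (B : ℝ) :
    (SubSet u A B).Finite := by
  have h1 : {σ : Fin d → List (Fin d) | ∀ c, σ c ∈
      {l : List (Fin d) | l.length = (∑ i, A i c).toNat}}.Finite :=
    Set.Finite.pi' (fun c => List.finite_length_eq _ _)
  refine h1.subset ?_
  intro σ hσ c
  have h2 := GBad_length hσ.1 c
  show (σ c).length = (∑ i, A i c).toNat
  omega

/-- positions that are not in the interior of the two parts -/
def GBad_NI (a b : Fin d) (K P P' : ℕ) (c : Fin d) (m : ℕ) : Prop :=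
  (c = a → m ≤ P ∨ P + K ≤ m) ∧ (c = b → m ≤ P' ∨ P' + K ≤ m)

def GBad_kap (a b : Fin d) (K P P' : ℕ) (σ σ' : Fin d → List (Fin d)) : Prop :=
  ∀ c m, GBad_NI a b K P P' c m → ab ((σ c).take m) = ab ((σ' c).take m)

def GBad_bad (a b : Fin d) (K P P' : ℕ) (s : Fin d → ℤ) (σ : Fin d → List (Fin d)) : Prop :=
  ¬ ∃ k, k < K ∧ ab ((σ a).take (P + k)) = s + ab ((σ b).take (P' + k)) ∧
    ab ((σ a).take (P + (k + 1))) = s + ab ((σ b).take (P' + (k + 1)))

theorem GBad_kap_equiv (a b : Fin d) (K P P' : ℕ) :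
    Equivalence (GBad_kap a b K P P') where
  refl := fun _ _ _ _ => rfl
  symm := fun h c m hm => (h c m hm).symm
  trans := fun h h' c m hm => (h c m hm).trans (h' c m hm)

/-- the good replacement -/
theorem GBad_good {u : Fin d → ℝ} {A : Matrix (Fin d) (Fin d) ℤ} {B : ℝ} {K : ℕ}
    (hsurg : SurgProp u B K) {a b : Fin d} {s : Fin d → ℤ} (hs : dis u s ≤ 1)
    (P P' : ℕ) (hPP : (P' : ℤ) + ∑ i, s i = P)
    (hdisj : a = b → P + K ≤ P' ∨ P' + K ≤ P)
    {σ : Fin d → List (Fin d)} (hσ : σ ∈ SubSet u A B)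
    (h1 : P + K ≤ (σ a).length) (h2 : P' + K ≤ (σ b).length) :
    ∃ σ', σ' ∈ SubSet u A B ∧ GBad_kap a b K P P' σ σ' ∧ ¬ GBad_bad a b K P P' s σ' := by
  have hsum : ∀ (l : List (Fin d)) (m : ℕ), m ≤ l.length → ∑ i, ab (l.take m) i = (m : ℤ) := by
    intro l m hm
    rw [ab_sum, List.length_take, min_eq_left hm]
  obtain ⟨w₁, w₂, hw₁, hw₂, e₁, e₂, d₁, d₂, k, hk₁, hk₂, ek, el⟩ :=
    hsurg (ab ((σ a).take P)) (ab ((σ a).take (P + K))) (ab ((σ b).take P'))
      (ab ((σ b).take (P' + K))) s (hσ.2 a _) (hσ.2 a _) (hσ.2 b _) (hσ.2 b _)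
      (by rw [hsum _ _ h1, hsum _ _ (by omega)]; push_cast; ring)
      (by rw [hsum _ _ h2, hsum _ _ (by omega)]; push_cast; ring)
      (by
        simp only [Pi.add_apply, Finset.sum_add_distrib]
        rw [hsum _ _ (by omega), hsum _ _ (by omega)]
        exact hPP) hs
  set σ₁ := Function.update σ a (GBad_rep (σ a) P w₁) with hσ₁
  have hP₁ : P + w₁.length ≤ (σ a).length := by omega
  have g₁ : ab ((σ a).take P) + ab w₁ = ab ((σ a).take (P + w₁.length)) := by rw [hw₁]; exact e₁
  have hm₁ : σ₁ ∈ SubSet u A B := GBad_upd_mem hσ a P w₁ hP₁ g₁ d₁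
  have hu₁ := GBad_upd σ a P w₁ hP₁ g₁
  rw [hw₁] at hu₁
  have hb0 : ab ((σ₁ b).take P') = ab ((σ b).take P') := by
    apply hu₁ b P'
    intro hba
    rcases hdisj hba.symm with h | h
    · right; exact h
    · left; omega
  have hbK : ab ((σ₁ b).take (P' + K)) = ab ((σ b).take (P' + K)) := by
    apply hu₁ b (P' + K)
    intro hba
    rcases hdisj hba.symm with h | h
    · right; omega
    · left; exact h
  set σ₂ := Function.update σ₁ b (GBad_rep (σ₁ b) P' w₂) with hσ₂
  have hlen : (σ₁ b).length = (σ b).length := GBad_upd_length hm₁ hσ b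
  have hP₂ : P' + w₂.length ≤ (σ₁ b).length := by omega
  have g₂ : ab ((σ₁ b).take P') + ab w₂ = ab ((σ₁ b).take (P' + w₂.length)) := by
    rw [hw₂, hb0, hbK]; exact e₂
  have hm₂ : σ₂ ∈ SubSet u A B :=
    GBad_upd_mem hm₁ b P' w₂ hP₂ g₂ (by intro k; rw [hb0]; exact d₂ k)
  have hu₂ := GBad_upd σ₁ b P' w₂ hP₂ g₂
  rw [hw₂] at hu₂
  refine ⟨σ₂, hm₂, ?_, ?_⟩
  · intro c m hm
    have q₂ := hu₂ c m hm.2
    have q₁ := hu₁ c m hm.1
    exact (q₂.trans q₁).symm
  · intro hbad
    apply hbad
    -- prefix sums of `σ₂`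
    have ha : ∀ k, k ≤ K → ab ((σ₂ a).take (P + k)) = ab ((σ a).take P) + ab (w₁.take k) := by
      intro k hk
      have q₂ := hu₂ a (P + k) (by
        intro hab
        rcases hdisj hab with h | h
        · left; omega
        · right; omega)
      have q₁ := GBad_rep_mid (σ a) P w₁ hP₁ k (by omega)
      have q₃ : σ₁ a = GBad_rep (σ a) P w₁ := by rw [hσ₁, Function.update_self]
      rw [← q₃] at q₁
      exact q₂.trans q₁
    have hb : ∀ k, k ≤ K → ab ((σ₂ b).take (P' + k)) = ab ((σ b).take P') + ab (w₂.take k) := by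
      intro k hk
      have q₁ := GBad_rep_mid (σ₁ b) P' w₂ hP₂ k (by omega)
      have q₃ : σ₂ b = GBad_rep (σ₁ b) P' w₂ := by rw [hσ₂, Function.update_self]
      rw [← q₃, hb0] at q₁
      exact q₁
    refine ⟨k, by omega, ?_, ?_⟩
    · rw [ha k (by omega), hb k (by omega), ek]; abel
    · rw [ha (k + 1) (by omega), hb (k + 1) (by omega), GBad_take_succ w₁ k hk₁,
        GBad_take_succ w₂ k hk₂, ← add_assoc, ek, el]
      abel

/-- the classes are small -/
theorem GBad_class {u : Fin d → ℝ} {A : Matrix (Fin d) (Fin d) ℤ} {B : ℝ} {K : ℕ}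
    (a b : Fin d) (P P' : ℕ) (ω : {σ // σ ∈ SubSet u A B}) :
    {ω' : {σ // σ ∈ SubSet u A B} | GBad_kap a b K P P' ω.1 ω'.1}.ncard ≤ d ^ (2 * K) := by
  set f : {σ // σ ∈ SubSet u A B} → (Fin K → Fin d) × (Fin K → Fin d) := fun ω' =>
    (fun k => (ω'.1 a).getD (P + k) a, fun k => (ω'.1 b).getD (P' + k) b) with hf
  have hinj : Set.InjOn f {ω' : {σ // σ ∈ SubSet u A B} | GBad_kap a b K P P' ω.1 ω'.1} := by
    intro x hx y hy hxy
    have hx' : GBad_kap a b K P P' ω.1 x.1 := hx
    have hy' : GBad_kap a b K P P' ω.1 y.1 := hy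
    have hxy' : GBad_kap a b K P P' x.1 y.1 :=
      (GBad_kap_equiv a b K P P').trans ((GBad_kap_equiv a b K P P').symm hx') hy'
    simp only [hf, Prod.mk.injEq] at hxy
    obtain ⟨f1, f2⟩ := hxy
    apply Subtype.ext
    funext c
    have hlen : (x.1 c).length = (y.1 c).length := GBad_upd_length x.2 y.2 c
    apply List.ext_getElem hlen
    intro n hn1 hn2
    by_cases hA : c = a ∧ P ≤ n ∧ n < P + K
    · obtain ⟨hc, hn3, hn4⟩ := hA
      subst hc
      have h1 := congrFun f1 ⟨n - P, by omega⟩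
      simp only at h1
      have h2 : P + (n - P) = n := by omega
      rw [h2, List.getD_eq_getElem _ _ hn1, List.getD_eq_getElem _ _ hn2] at h1
      exact h1
    · by_cases hB : c = b ∧ P' ≤ n ∧ n < P' + K
      · obtain ⟨hc, hn3, hn4⟩ := hB
        subst hc
        have h1 := congrFun f2 ⟨n - P', by omega⟩
        simp only at h1
        have h2 : P' + (n - P') = n := by omega
        rw [h2, List.getD_eq_getElem _ _ hn1, List.getD_eq_getElem _ _ hn2] at h1
        exact h1
      · have hN0 : GBad_NI a b K P P' c n := by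
          refine ⟨fun hc => ?_, fun hc => ?_⟩
          · by_contra hcon
            apply hA; refine ⟨hc, ?_, ?_⟩ <;> omega
          · by_contra hcon
            apply hB; refine ⟨hc, ?_, ?_⟩ <;> omega
        have hN1 : GBad_NI a b K P P' c (n + 1) := by
          refine ⟨fun hc => ?_, fun hc => ?_⟩
          · by_contra hcon
            apply hA; refine ⟨hc, ?_, ?_⟩ <;> omega
          · by_contra hcon
            apply hB; refine ⟨hc, ?_, ?_⟩ <;> omega
        have q0 := hxy' c n hN0
        have q1 := hxy' c (n + 1) hN1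
        rw [GBad_take_succ _ _ hn1, GBad_take_succ _ _ hn2, q0] at q1
        exact GBad_ev_inj (add_left_cancel q1)
  calc {ω' : {σ // σ ∈ SubSet u A B} | GBad_kap a b K P P' ω.1 ω'.1}.ncard
      ≤ (Set.univ : Set ((Fin K → Fin d) × (Fin K → Fin d))).ncard :=
        Set.ncard_le_ncard_of_injOn f (fun _ _ => Set.mem_univ _) hinj Set.finite_univ
    _ = d ^ (2 * K) := by
        rw [Set.ncard_univ, Nat.card_eq_fintype_card, Fintype.card_prod, Fintype.card_fun,
          Fintype.card_fin, Fintype.card_fin, two_mul, pow_add]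

theorem bad_count (u : Fin d → ℝ) (A : Matrix (Fin d) (Fin d) ℤ) (B : ℝ) (K : ℕ) (hK : 0 < K)
    (hsurg : SurgProp u B K) (a b : Fin d) (s : Fin d → ℤ) (hs : dis u s ≤ 1) (T : ℤ) (J : ℕ)
    (h1 : 0 ≤ T) (h2 : T + K * J ≤ ∑ i, A i a) (h3 : 0 ≤ T - ∑ i, s i)
    (h4 : T - ∑ i, s i + K * J ≤ ∑ i, A i b) (h5 : a = b → (K * J : ℤ) ≤ |∑ i, s i|) :
    ({σ | σ ∈ SubSet u A B ∧ ¬ ∃ e, e ∈ edges 0 (σ a) ∧ e ∈ edges s (σ b)}.ncard : ℝ) ≤
      (1 - 1 / ((d : ℝ) ^ (2 * K))) ^ J * ((SubSet u A B).ncard : ℝ) := by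
  classical
  obtain ⟨t, ht⟩ : ∃ t : ℕ, T = t := ⟨T.toNat, by omega⟩
  obtain ⟨t', ht'⟩ : ∃ t' : ℕ, T - ∑ i, s i = t' := ⟨(T - ∑ i, s i).toNat, by omega⟩
  -- block positions
  have hblock : ∀ j : Fin J, (j : ℕ) * K + K ≤ K * J := by
    intro j
    have := j.2
    calc (j : ℕ) * K + K = ((j : ℕ) + 1) * K := by ring
      _ ≤ J * K := Nat.mul_le_mul_right K this
      _ = K * J := by ring
  have hsep : a = b → (t + K * J ≤ t' ∨ t' + K * J ≤ t) := by
    intro hab
    have h6 := h5 hab
    have h7 : ∑ i, s i = (t : ℤ) - t' := by omega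
    rw [h7] at h6
    rcases le_abs.1 h6 with h8 | h8
    · right; zify; linarith
    · left; zify; linarith
  have hlt : ∀ i j : Fin J, (i : ℕ) < j → (i : ℕ) * K + K ≤ (j : ℕ) * K := by
    intro i j hij
    calc (i : ℕ) * K + K = ((i : ℕ) + 1) * K := by ring
      _ ≤ (j : ℕ) * K := Nat.mul_le_mul_right K hij
  have : Fintype {σ // σ ∈ SubSet u A B} := (subSet_finite u A B).fintype
  have hlenA : ∀ σ ∈ SubSet u A B, t + K * J ≤ (σ a).length := by
    intro σ hσ
    have := GBad_length hσ.1 a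
    zify; rw [this, ← ht]; exact h2
  have hlenB : ∀ σ ∈ SubSet u A B, t' + K * J ≤ (σ b).length := by
    intro σ hσ
    have := GBad_length hσ.1 b
    zify; rw [this, ← ht']; exact h4
  have key := count_indep (Ω := {σ // σ ∈ SubSet u A B}) J
    (fun j ω => GBad_bad a b K (t + j * K) (t' + j * K) s ω.1)
    (fun j ω ω' => GBad_kap a b K (t + j * K) (t' + j * K) ω.1 ω'.1)
    (fun j => ⟨fun ω => (GBad_kap_equiv a b K _ _).refl ω.1,
      fun h => (GBad_kap_equiv a b K _ _).symm h,
      fun h h' => (GBad_kap_equiv a b K _ _).trans h h'⟩)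
    (d ^ (2 * K))
    (fun j ω => GBad_class a b _ _ ω)
    (by
      intro j ω
      have hj := hblock j
      have hA := hlenA ω.1 ω.2
      have hB := hlenB ω.1 ω.2
      obtain ⟨σ', m1, m2, m3⟩ := GBad_good (P := t + j * K) (P' := t' + j * K) hsurg hs
        (by push_cast; omega)
        (by
          intro hab
          rcases hsep hab with h | h
          · left; omega
          · right; omega)
        ω.2 (by omega) (by omega)
      exact ⟨⟨σ', m1⟩, m2, m3⟩)
    (by
      intro i j hij ω ω' hκ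
      have hi := hblock i
      have hj := hblock j
      have hij' : (i : ℕ) * K + K ≤ (j : ℕ) * K ∨ (j : ℕ) * K + K ≤ (i : ℕ) * K := by
        rcases lt_or_gt_of_ne (fun h => hij (Fin.ext h) : (i : ℕ) ≠ j) with h | h
        · left; exact hlt i j h
        · right; exact hlt j i h
      have qa : ∀ k, k ≤ K → ab ((ω.1 a).take (t + i * K + k)) =
          ab ((ω'.1 a).take (t + i * K + k)) := by
        intro k hk
        apply hκ a
        refine ⟨fun _ => ?_, fun hab => ?_⟩
        · rcases hij' with h | h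
          · left; omega
          · right; omega
        · rcases hsep hab with h | h
          · left; omega
          · right; omega
      have qb : ∀ k, k ≤ K → ab ((ω.1 b).take (t' + i * K + k)) =
          ab ((ω'.1 b).take (t' + i * K + k)) := by
        intro k hk
        apply hκ b
        refine ⟨fun hba => ?_, fun _ => ?_⟩
        · rcases hsep hba.symm with h | h
          · right; omega
          · left; omega
        · rcases hij' with h | h
          · left; omega
          · right; omega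
      unfold GBad_bad
      apply not_congr
      apply exists_congr
      intro k
      constructor
      · rintro ⟨hk, e1, e2⟩
        refine ⟨hk, ?_, ?_⟩
        · rw [← qa k (by omega), ← qb k (by omega)]; exact e1
        · rw [← qa (k + 1) (by omega), ← qb (k + 1) (by omega)]; exact e2
      · rintro ⟨hk, e1, e2⟩
        refine ⟨hk, ?_, ?_⟩
        · rw [qa k (by omega), qb k (by omega)]; exact e1
        · rw [qa (k + 1) (by omega), qb (k + 1) (by omega)]; exact e2)
  have hcard : (Fintype.card {σ // σ ∈ SubSet u A B} : ℝ) = ((SubSet u A B).ncard : ℝ) := by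
    rw [← Nat.card_eq_fintype_card]
    exact_mod_cast Nat.card_coe_set_eq (SubSet u A B)
  rw [hcard] at key
  push_cast at key
  refine le_trans ?_ key
  have himg : {σ | σ ∈ SubSet u A B ∧ ¬ ∃ e, e ∈ edges 0 (σ a) ∧ e ∈ edges s (σ b)} ⊆
      Subtype.val '' {ω : {σ // σ ∈ SubSet u A B} |
        ∀ j : Fin J, GBad_bad a b K (t + j * K) (t' + j * K) s ω.1} := by
    rintro σ ⟨hσ, hno⟩
    refine ⟨⟨σ, hσ⟩, ?_, rfl⟩
    intro j
    rintro ⟨k, hk, e1, e2⟩
    apply hno
    have hj := hblock j
    have hA := hlenA σ hσ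
    have hB := hlenB σ hσ
    have hka : t + j * K + k < (σ a).length := by omega
    have hkb : t' + j * K + k < (σ b).length := by omega
    rw [← add_assoc, ← add_assoc, GBad_take_succ _ _ hka, GBad_take_succ _ _ hkb, e1,
      add_assoc] at e2
    have e3 := GBad_ev_inj (add_left_cancel (add_left_cancel e2))
    refine ⟨(0 + ab ((σ a).take (t + j * K + k)), (σ a)[t + j * K + k]), ?_, ?_⟩
    · exact mem_edges.2 ⟨_, hka, rfl⟩
    · refine mem_edges.2 ⟨_, hkb, ?_⟩
      rw [zero_add, e1, e3]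
  have hle := Set.ncard_le_ncard himg (Set.toFinite _)
  rw [Set.ncard_image_of_injective _ Subtype.val_injective] at hle
  exact_mod_cast hle

end Pool.Agent.H812R2.PI
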