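import Pool.Agent.H812R2.PI.Basic

namespace Pool.Agent.H812R2.PI
open scoped BigOperators
variable {d : ℕ}

/-- squared discrepancy of a lattice vector with respect to the direction `u` -/
noncomputable def dis (u : Fin d → ℝ) (x : Fin d → ℤ) : ℝ :=
  ∑ i, ((x i : ℝ) - (∑ j, (x j : ℝ)) * u i) ^ 2

/-- substitutions with incidence matrix `A` all of whose prefixes have discrepancy at most `B` -/
def SubSet (u : Fin d → ℝ) (A : Matrix (Fin d) (Fin d) ℤ) (B : ℝ) :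
    Set (Fin d → List (Fin d)) :=
  {σ | inc σ = A ∧ ∀ a k, dis u (ab ((σ a).take k)) ≤ B ^ 2}

/-- two pieces of paths of length `K` in the tube of radius `B` can be replaced by pieces with
the same end points which have a common edge -/
def SurgProp (u : Fin d → ℝ) (B : ℝ) (K : ℕ) : Prop :=
  ∀ p p' q q' s : Fin d → ℤ, dis u p ≤ B ^ 2 → dis u p' ≤ B ^ 2 → dis u q ≤ B ^ 2 →
    dis u q' ≤ B ^ 2 → ∑ i, p' i = ∑ i, p i + K → ∑ i, q' i = ∑ i, q i + K →
    ∑ i, (q + s) i = ∑ i, p i → dis u s ≤ 1 →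
    ∃ w₁ w₂ : List (Fin d), w₁.length = K ∧ w₂.length = K ∧ p + ab w₁ = p' ∧ q + ab w₂ = q' ∧
      (∀ k, dis u (p + ab (w₁.take k)) ≤ B ^ 2) ∧ (∀ k, dis u (q + ab (w₂.take k)) ≤ B ^ 2) ∧
      ∃ (k : ℕ) (h₁ : k < w₁.length) (h₂ : k < w₂.length),
        p + ab (w₁.take k) = q + s + ab (w₂.take k) ∧ w₁[k] = w₂[k]

end Pool.Agent.H812R2.PI
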