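import Pool.Agent.H812R2.PI.GDefs

namespace Pool.Agent.H812R2.PI
open scoped BigOperators
variable {d : ℕ}

theorem GGeom_rho {M : Matrix (Fin d) (Fin d) ℤ} (P : PD M) (C : ℝ) (ε : ℝ) (hε : 0 < ε) :
    ∃ n₀ : ℕ, ∀ n ≥ n₀, C * P.rho ^ n ≤ ε := by
  have h := tendsto_pow_atTop_nhds_zero_of_lt_one P.rho_nonneg P.rho_lt
  have h2 := h.const_mul C
  rw [mul_zero] at h2
  have h3 := h2.eventually (gt_mem_nhds hε)
  obtain ⟨n₀, hn⟩ := Filter.eventually_atTop.1 h3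
  exact ⟨n₀, fun n hn' => (hn n hn').le⟩

theorem GGeom_pr {M : Matrix (Fin d) (Fin d) ℤ} (P : PD M) (x : Fin d → ℤ) (n : ℕ) (i : Fin d) :
    |(((M ^ n).mulVec x i : ℤ) : ℝ) - (∑ j, (((M ^ n).mulVec x j : ℤ) : ℝ)) * P.u i| ≤
      (P.c * P.N (rv x)) * P.rho ^ n := by
  have h1 := P.le_cN (rv ((M ^ n).mulVec x)) i
  have h2 := N_pow_mulVec P n x
  have h3 : P.c * P.N (rv ((M ^ n).mulVec x)) ≤ P.c * (P.rho ^ n * P.N (rv x)) :=
    mul_le_mul_of_nonneg_left h2 P.c_pos.le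
  calc _ ≤ _ := h1
    _ ≤ _ := h3
    _ = _ := by ring

theorem GGeom_L {M : Matrix (Fin d) (Fin d) ℤ} (P : PD M) (a : Fin d) :
    0 < ∑ i, P.ell i * P.u i :=
  Finset.sum_pos (fun i _ => mul_pos (P.ell_pos i) (P.u_pos i)) ⟨a, Finset.mem_univ _⟩

theorem GGeom_sum {M : Matrix (Fin d) (Fin d) ℤ} (P : PD M) (a : Fin d) (x : Fin d → ℤ) (ε : ℝ)
    (hε : 0 < ε) :
    ∃ n₀ : ℕ, ∀ n ≥ n₀, |(∑ i, (((M ^ n).mulVec x i : ℤ) : ℝ)) -
      (∑ i, P.ell i * P.u i)⁻¹ * P.lam ^ n * P.ht x| ≤ ε := by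
  have hL := GGeom_L P a
  set L := ∑ i, P.ell i * P.u i with hLdef
  obtain ⟨n₀, hn₀⟩ := GGeom_rho P (L⁻¹ * ((∑ i, P.ell i) * (P.c * P.N (rv x)))) ε hε
  refine ⟨n₀, fun n hn => ?_⟩
  set S := ∑ i, (((M ^ n).mulVec x i : ℤ) : ℝ) with hS
  have h1 : P.lam ^ n * P.ht x = (∑ i, P.ell i * ((((M ^ n).mulVec x i : ℤ) : ℝ) - S * P.u i))
      + S * L := by
    rw [← ht_pow_mulVec P n x, PD.ht, hLdef, Finset.mul_sum, ← Finset.sum_add_distrib]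
    apply Finset.sum_congr rfl
    intro i _
    ring
  have h2 : S - L⁻¹ * P.lam ^ n * P.ht x =
      - (L⁻¹ * (∑ i, P.ell i * ((((M ^ n).mulVec x i : ℤ) : ℝ) - S * P.u i))) := by
    rw [mul_assoc, h1]
    field_simp
    ring
  rw [h2, abs_neg, abs_mul, abs_of_pos (inv_pos.2 hL)]
  have h3 : |∑ i, P.ell i * ((((M ^ n).mulVec x i : ℤ) : ℝ) - S * P.u i)| ≤
      (∑ i, P.ell i) * ((P.c * P.N (rv x)) * P.rho ^ n) := by
    rw [Finset.sum_mul]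
    refine (Finset.abs_sum_le_sum_abs _ _).trans (Finset.sum_le_sum fun i _ => ?_)
    rw [abs_mul, abs_of_pos (P.ell_pos i)]
    exact mul_le_mul_of_nonneg_left (GGeom_pr P x n i) (P.ell_pos i).le
  calc L⁻¹ * |∑ i, P.ell i * ((((M ^ n).mulVec x i : ℤ) : ℝ) - S * P.u i)|
      ≤ L⁻¹ * ((∑ i, P.ell i) * ((P.c * P.N (rv x)) * P.rho ^ n)) :=
        mul_le_mul_of_nonneg_left h3 (inv_pos.2 hL).le
    _ = (L⁻¹ * ((∑ i, P.ell i) * (P.c * P.N (rv x)))) * P.rho ^ n := by ring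
    _ ≤ ε := hn₀ n hn

theorem GGeom_dis {M : Matrix (Fin d) (Fin d) ℤ} (P : PD M) (v : Fin d → ℤ) :
    ∃ n₀ : ℕ, ∀ n ≥ n₀, dis P.u ((M ^ n).mulVec v) ≤ 1 := by
  obtain ⟨n₀, hn₀⟩ := GGeom_rho P (P.c * P.N (rv v)) (1 / ((d : ℝ) + 1)) (by positivity)
  refine ⟨n₀, fun n hn => ?_⟩
  unfold dis
  have h1 : ∀ i ∈ (Finset.univ : Finset (Fin d)),
      ((((M ^ n).mulVec v i : ℤ) : ℝ) - (∑ j, (((M ^ n).mulVec v j : ℤ) : ℝ)) * P.u i) ^ 2 ≤
      (1 / ((d : ℝ) + 1)) := by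
    intro i _
    have h2 := (GGeom_pr P v n i).trans (hn₀ n hn)
    have h3 : (1 / ((d : ℝ) + 1)) ≤ 1 := by
      rw [div_le_one (by positivity)]
      have : (0 : ℝ) ≤ d := Nat.cast_nonneg d
      linarith
    have h4 := abs_nonneg
      ((((M ^ n).mulVec v i : ℤ) : ℝ) - (∑ j, (((M ^ n).mulVec v j : ℤ) : ℝ)) * P.u i)
    rw [← sq_abs]
    nlinarith
  calc _ ≤ ∑ i : Fin d, (1 / ((d : ℝ) + 1)) := Finset.sum_le_sum h1
    _ = (d : ℝ) * (1 / ((d : ℝ) + 1)) := by simp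
    _ ≤ 1 := by
      rw [mul_one_div, div_le_one (by positivity)]
      linarith

theorem GGeom_col {M : Matrix (Fin d) (Fin d) ℤ} (n : ℕ) (a i : Fin d) :
    (M ^ n).mulVec (ev a) i = (M ^ n) i a := by
  simp [Matrix.mulVec, dotProduct, ev]

theorem geom {M : Matrix (Fin d) (Fin d) ℤ} (P : PD M) (a b : Fin d) (v : Fin d → ℤ)
    (hov : 0 < P.OV (0, a) (v, b)) (hne : ¬ (v = 0 ∧ a = b)) :
    ∃ c : ℝ, 0 < c ∧ ∃ n₀ : ℕ, ∀ n ≥ n₀, dis P.u ((M ^ n).mulVec v) ≤ 1 ∧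
      ∀ J : ℕ, (J : ℝ) ≤ c * P.lam ^ n →
      ∃ T : ℤ, 0 ≤ T ∧ T + J ≤ ∑ i, (M ^ n) i a ∧ 0 ≤ T - ∑ i, (M ^ n).mulVec v i ∧
        T - ∑ i, (M ^ n).mulVec v i + J ≤ ∑ i, (M ^ n) i b ∧
        (a = b → (J : ℤ) ≤ |∑ i, (M ^ n).mulVec v i|) := by
  have hL := GGeom_L P a
  set κ := (∑ i, P.ell i * P.u i)⁻¹ with hκ
  have hκ0 : 0 < κ := inv_pos.2 hL
  -- consequences of the overlap
  have ho : 0 < min (P.ell a) (P.ht v + P.ell b) - max 0 (P.ht v) := by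
    by_contra hcon
    unfold PD.OV ovl at hov
    simp only [ht_zero, zero_add] at hov
    rw [max_eq_left (not_lt.1 hcon)] at hov
    exact lt_irrefl _ hov
  have ha1 : P.ht v < P.ell a := by
    have h1 := min_le_left (P.ell a) (P.ht v + P.ell b)
    have h2 := le_max_right 0 (P.ht v)
    linarith
  have hb1 : 0 < P.ht v + P.ell b := by
    have h1 := min_le_right (P.ell a) (P.ht v + P.ell b)
    have h2 := le_max_left 0 (P.ht v)
    linarith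
  have ha0 := P.ell_pos a
  have hb0 := P.ell_pos b
  obtain ⟨w, hw0, hw⟩ : ∃ w : ℝ, 0 < w ∧ (a = b → w ≤ |P.ht v|) := by
    by_cases hab : a = b
    · have hv : v ≠ 0 := fun h => hne ⟨h, hab⟩
      have hht : P.ht v ≠ 0 := fun h => hv (P.ell_ind v h)
      exact ⟨|P.ht v|, abs_pos.2 hht, fun _ => le_rfl⟩
    · exact ⟨1, one_pos, fun h => absurd h hab⟩
  obtain ⟨δ, hδ0, hδa, hδb, hδa1, hδb1, hδw⟩ : ∃ δ : ℝ, 0 < δ ∧ δ ≤ P.ell a ∧ δ ≤ P.ell b ∧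
      δ ≤ P.ell a - P.ht v ∧ δ ≤ P.ht v + P.ell b ∧ δ ≤ w := by
    refine ⟨min (min (min (P.ell a) (P.ell b)) (min (P.ell a - P.ht v) (P.ht v + P.ell b))) w,
      ?_, ?_, ?_, ?_, ?_, ?_⟩
    · exact lt_min (lt_min (lt_min ha0 hb0) (lt_min (by linarith) hb1)) hw0
    · exact (min_le_left _ _).trans ((min_le_left _ _).trans (min_le_left _ _))
    · exact (min_le_left _ _).trans ((min_le_left _ _).trans (min_le_right _ _))
    · exact (min_le_left _ _).trans ((min_le_right _ _).trans (min_le_left _ _))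
    · exact (min_le_left _ _).trans ((min_le_right _ _).trans (min_le_right _ _))
    · exact min_le_right _ _
  obtain ⟨n₁, hn₁⟩ := GGeom_dis P v
  obtain ⟨n₂, hn₂⟩ := GGeom_sum P a v 1 one_pos
  obtain ⟨n₃, hn₃⟩ := GGeom_sum P a (ev a) 1 one_pos
  obtain ⟨n₄, hn₄⟩ := GGeom_sum P a (ev b) 1 one_pos
  obtain ⟨n₅, hn₅⟩ : ∃ n₅ : ℕ, ∀ n ≥ n₅, 2 ≤ κ * δ / 2 * P.lam ^ n := by
    have h := (tendsto_pow_atTop_atTop_of_one_lt P.lam_gt).const_mul_atTop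
      (show 0 < κ * δ / 2 by positivity)
    obtain ⟨n₅, hn⟩ := Filter.eventually_atTop.1 (h.eventually_ge_atTop 2)
    exact ⟨n₅, hn⟩
  refine ⟨κ * δ / 2, by positivity, max n₁ (max n₂ (max n₃ (max n₄ n₅))), fun n hn => ?_⟩
  have hl : 0 < P.lam ^ n := pow_pos (by linarith [P.lam_gt]) n
  simp only [ge_iff_le, max_le_iff] at hn
  obtain ⟨g1, g2, g3, g4, g5⟩ := hn
  refine ⟨hn₁ n g1, fun J hJ => ?_⟩
  have e2 := hn₂ n g2
  have e3 := hn₃ n g3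
  have e4 := hn₄ n g4
  have e5 := hn₅ n g5
  rw [← hκ] at e2 e3 e4
  simp only [GGeom_col] at e3 e4
  rw [ht_ev] at e3 e4
  set s : ℤ := ∑ i, (M ^ n).mulVec v i with hs
  set A : ℤ := ∑ i, (M ^ n) i a with hA
  set B : ℤ := ∑ i, (M ^ n) i b with hB
  have hs' : (∑ i, (((M ^ n).mulVec v i : ℤ) : ℝ)) = (s : ℝ) := by rw [hs]; push_cast; rfl
  have hA' : (∑ i, (((M ^ n) i a : ℤ) : ℝ)) = (A : ℝ) := by rw [hA]; push_cast; rfl
  have hB' : (∑ i, (((M ^ n) i b : ℤ) : ℝ)) = (B : ℝ) := by rw [hB]; push_cast; rfl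
  rw [hs'] at e2
  rw [hA'] at e3
  rw [hB'] at e4
  have hkl : 0 < κ * P.lam ^ n := mul_pos hκ0 hl
  set q := κ * P.lam ^ n with hq
  have e5' : 2 ≤ q * δ / 2 := by
    calc (2 : ℝ) ≤ κ * δ / 2 * P.lam ^ n := e5
      _ = q * δ / 2 := by rw [hq]; ring
  have hJ' : (J : ℝ) ≤ q * δ / 2 := by
    calc (J : ℝ) ≤ κ * δ / 2 * P.lam ^ n := hJ
      _ = q * δ / 2 := by rw [hq]; ring
  have ma := mul_le_mul_of_nonneg_left hδa hkl.le
  have mb := mul_le_mul_of_nonneg_left hδb hkl.le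
  have ma1 := mul_le_mul_of_nonneg_left hδa1 hkl.le
  have mb1 := mul_le_mul_of_nonneg_left hδb1 hkl.le
  have mw := mul_le_mul_of_nonneg_left hδw hkl.le
  rw [abs_le] at e2 e3 e4
  have r1 : (J : ℤ) ≤ A := by
    have : (J : ℝ) ≤ A := by nlinarith [e3.1]
    exact_mod_cast this
  have r2 : s + (J : ℤ) ≤ A := by
    have : (s : ℝ) + J ≤ A := by nlinarith [e3.1, e2.2]
    exact_mod_cast this
  have r3 : (J : ℤ) ≤ B := by
    have : (J : ℝ) ≤ B := by nlinarith [e4.1]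
    exact_mod_cast this
  have r4 : - s + (J : ℤ) ≤ B := by
    have : - (s : ℝ) + J ≤ B := by nlinarith [e4.1, e2.1]
    exact_mod_cast this
  refine ⟨max 0 s, le_max_left _ _, ?_, ?_, ?_, ?_⟩
  · rcases max_cases 0 s with ⟨h, _⟩ | ⟨h, _⟩ <;> rw [h] <;> linarith
  · have := le_max_right 0 s
    linarith
  · rcases max_cases 0 s with ⟨h, _⟩ | ⟨h, _⟩ <;> rw [h] <;> linarith
  · intro hab
    have hw' := hw hab
    have h6 : (J : ℝ) ≤ |(s : ℝ)| := by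
      have h7 : q * |P.ht v| - 1 ≤ |(s : ℝ)| := by
        have h8 : |q * P.ht v| = q * |P.ht v| := by rw [abs_mul, abs_of_pos hkl]
        have h9 : |q * P.ht v| ≤ |(s : ℝ)| + 1 := by
          have h10 : |q * P.ht v| ≤ |(s : ℝ)| + |q * P.ht v - s| := by
            have := abs_add_le (s : ℝ) (q * P.ht v - s)
            rwa [add_sub_cancel] at this
          have h11 : |q * P.ht v - s| ≤ 1 := by
            rw [abs_sub_comm]
            exact abs_le.2 e2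
          linarith
        linarith
      have h8 := mul_le_mul_of_nonneg_left hw' hkl.le
      linarith
    have h12 : ((J : ℤ) : ℝ) ≤ ((|s| : ℤ) : ℝ) := by
      rw [Int.cast_abs]
      exact_mod_cast h6
    exact_mod_cast h12

end Pool.Agent.H812R2.PI
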