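import Pool.Agent.H812R2.PI.Basic

namespace Pool.Agent.H812R2.PI
open scoped BigOperators
variable {d : ℕ}

/-- left eigenvectors of a complex matrix with separable characteristic polynomial -/
theorem LNorm_eig (A : Matrix (Fin d) (Fin d) ℂ) (hsep : A.charpoly.Separable) :
    ∃ w : ℂ → Fin d → ℂ, (∀ μ, A.charpoly.IsRoot μ → w μ ≠ 0 ∧ Matrix.vecMul (w μ) A = μ • w μ) ∧
      (∀ x : Fin d → ℂ, (∀ μ, A.charpoly.IsRoot μ → ∑ i, w μ i * x i = 0) → x = 0) := by
  classical
  have h1 : ∀ μ, A.charpoly.IsRoot μ → ∃ v : Fin d → ℂ, v ≠ 0 ∧ Matrix.vecMul v A = μ • v := by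
    intro μ hμ
    have h2 : ((Matrix.scalar (Fin d)) μ - A).det = 0 := by
      rw [← Matrix.eval_charpoly]; exact hμ
    obtain ⟨v, hv, hv2⟩ := Matrix.exists_vecMul_eq_zero_iff.mpr h2
    refine ⟨v, hv, ?_⟩
    rw [Matrix.vecMul_sub, sub_eq_zero] at hv2
    rw [← hv2]
    funext i
    simp [Matrix.vecMul, dotProduct, Matrix.diagonal_apply, mul_comm]
  choose! w hw using h1
  refine ⟨w, hw, ?_⟩
  intro x hx
  have hne : A.charpoly ≠ 0 := (Matrix.charpoly_monic A).ne_zero
  let ι := {μ // μ ∈ A.charpoly.roots.toFinset}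
  have hroot : ∀ i : ι, A.charpoly.IsRoot i.1 := by
    intro i
    have := i.2
    rw [Multiset.mem_toFinset, Polynomial.mem_roots hne] at this
    exact this
  have hli : LinearIndependent ℂ (fun i : ι => w i.1) := by
    apply Module.End.eigenvectors_linearIndependent' (Matrix.vecMulLinear A)
      (fun i : ι => i.1) Subtype.val_injective
    intro i
    rw [Module.End.hasEigenvector_iff, Module.End.mem_eigenspace_iff]
    exact ⟨(hw i.1 (hroot i)).2, (hw i.1 (hroot i)).1⟩
  have hcard : Fintype.card ι = Module.finrank ℂ (Fin d → ℂ) := by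
    rw [Fintype.card_coe, Multiset.toFinset_card_of_nodup (Polynomial.nodup_roots hsep),
      IsAlgClosed.card_roots_eq_natDegree, Matrix.charpoly_natDegree_eq_dim]
    simp
  have hspan := LinearIndependent.span_eq_top_of_card_eq_finrank' hli hcard
  have key : ∀ v : Fin d → ℂ, ∑ i, v i * x i = 0 := by
    intro v
    have hv : v ∈ Submodule.span ℂ (Set.range (fun i : ι => w i.1)) := by rw [hspan]; trivial
    induction hv using Submodule.span_induction with
    | mem y hy =>
      obtain ⟨i, rfl⟩ := hy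
      exact hx i.1 (hroot i)
    | zero => simp
    | add y z _ _ hy hz =>
      simp only [Pi.add_apply, add_mul, Finset.sum_add_distrib, hy, hz, add_zero]
    | smul a y _ hy =>
      simp only [Pi.smul_apply, smul_eq_mul, mul_assoc, ← Finset.mul_sum, hy, mul_zero]
  funext j
  have := key (Pi.single j 1)
  simpa [Pi.single_apply] using this

theorem exists_stable_norm (M : Matrix (Fin d) (Fin d) ℤ)
    (hirr : Irreducible (M.map (Int.cast : ℤ → ℚ)).charpoly) (lam : ℝ) (hlam : 1 < lam)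
    (hroot : (M.map (Int.cast : ℤ → ℂ)).charpoly.IsRoot (lam : ℂ))
    (hother : ∀ μ : ℂ, (M.map (Int.cast : ℤ → ℂ)).charpoly.IsRoot μ → μ ≠ (lam : ℂ) → ‖μ‖ < 1)
    (u : Fin d → ℝ) (hu : ∀ i, ∑ j, (M i j : ℝ) * u j = lam * u i) (husum : ∑ i, u i = 1) :
    ∃ (N : (Fin d → ℝ) → ℝ) (rho c : ℝ), 0 < c ∧ 0 ≤ rho ∧ rho < 1 ∧
      (∀ x y, N (x + y) ≤ N x + N y) ∧ (∀ x, N (-x) = N x) ∧ (∀ x, 0 ≤ N x) ∧
      (∀ x, N (act M x) ≤ rho * N x) ∧
      (∀ x i, |x i - (∑ j, x j) * u i| ≤ c * N x) ∧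
      (∀ x (K : ℝ), (∀ i, |x i - (∑ j, x j) * u i| ≤ K) → N x ≤ c * K) := by
  classical
  set A : Matrix (Fin d) (Fin d) ℂ := M.map (Int.cast : ℤ → ℂ) with hA
  have hmap : A.charpoly = (M.map (Int.cast : ℤ → ℚ)).charpoly.map (algebraMap ℚ ℂ) := by
    rw [← Matrix.charpoly_map]
    congr 1
  have hsep : A.charpoly.Separable := by
    rw [hmap]; exact hirr.separable.map
  have hne : A.charpoly ≠ 0 := (Matrix.charpoly_monic A).ne_zero
  obtain ⟨w, hw, hinj⟩ := LNorm_eig A hsep
  set S : Finset ℂ := A.charpoly.roots.toFinset.erase (lam : ℂ) with hS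
  have hSroot : ∀ μ ∈ S, A.charpoly.IsRoot μ ∧ μ ≠ (lam : ℂ) := by
    intro μ hμ
    rw [hS, Finset.mem_erase, Multiset.mem_toFinset, Polynomial.mem_roots hne] at hμ
    exact ⟨hμ.2, hμ.1⟩
  have hSroot' : ∀ μ, A.charpoly.IsRoot μ → μ ≠ (lam : ℂ) → μ ∈ S := by
    intro μ h1 h2
    rw [hS, Finset.mem_erase, Multiset.mem_toFinset, Polynomial.mem_roots hne]
    exact ⟨h2, h1⟩
  -- the functional w·x
  let D : ℂ → (Fin d → ℝ) → ℂ := fun μ x => ∑ i, w μ i * (x i : ℂ)
  have hD_add : ∀ μ x y, D μ (x + y) = D μ x + D μ y := by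
    intro μ x y
    simp only [D, Pi.add_apply, Complex.ofReal_add, mul_add, Finset.sum_add_distrib]
  have hD_smul : ∀ μ (a : ℝ) x, D μ (a • x) = (a : ℂ) * D μ x := by
    intro μ a x
    simp only [D, Pi.smul_apply, smul_eq_mul, Complex.ofReal_mul, Finset.mul_sum]
    refine Finset.sum_congr rfl (fun i _ => by ring)
  have hD_neg : ∀ μ x, D μ (-x) = - D μ x := by
    intro μ x
    simp only [D, Pi.neg_apply, Complex.ofReal_neg, mul_neg, Finset.sum_neg_distrib]
  have hD_act : ∀ μ, A.charpoly.IsRoot μ → ∀ x, D μ (act M x) = μ * D μ x := by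
    intro μ hμ x
    have h := (hw μ hμ).2
    have h' : ∀ j, ∑ i, w μ i * ((M i j : ℤ) : ℂ) = μ * w μ j := by
      intro j
      have := congrFun h j
      simpa [Matrix.vecMul, dotProduct, hA] using this
    simp only [D, act, Complex.ofReal_sum, Complex.ofReal_mul, Finset.mul_sum]
    rw [Finset.sum_comm]
    refine Finset.sum_congr rfl (fun j _ => ?_)
    rw [← mul_assoc, ← h' j, Finset.sum_mul]
    refine Finset.sum_congr rfl (fun i _ => ?_)
    push_cast
    ring
  have hDu : ∀ μ ∈ S, D μ u = 0 := by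
    intro μ hμ
    obtain ⟨h1, h2⟩ := hSroot μ hμ
    have h3 := hD_act μ h1 u
    have h4 : act M u = lam • u := by
      funext i; simp only [act, Pi.smul_apply, smul_eq_mul]; exact hu i
    rw [h4, hD_smul] at h3
    have h5 : ((lam : ℂ) - μ) * D μ u = 0 := by rw [sub_mul, h3, sub_self]
    rcases mul_eq_zero.mp h5 with h6 | h6
    · exact absurd (sub_eq_zero.mp h6).symm h2
    · exact h6
  have hlu : D lam u ≠ 0 := by
    intro h0
    have : (fun i => (u i : ℂ)) = 0 := by
      apply hinj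
      intro μ hμ
      by_cases h : μ = (lam : ℂ)
      · rw [h]; exact h0
      · exact hDu μ (hSroot' μ hμ h)
    have hu0 : ∀ i, u i = 0 := by
      intro i
      have := congrFun this i
      simpa using this
    simp [hu0] at husum
  -- projection
  let pr : (Fin d → ℝ) → (Fin d → ℝ) := fun x => x + (-(∑ j, x j)) • u
  have hpr : ∀ x i, pr x i = x i - (∑ j, x j) * u i := by
    intro x i; simp [pr, sub_eq_add_neg]
  have hprsum : ∀ x, ∑ i, pr x i = 0 := by
    intro x
    simp only [hpr, Finset.sum_sub_distrib, ← Finset.mul_sum, husum, mul_one, sub_self]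
  have hDpr : ∀ μ ∈ S, ∀ x, D μ (pr x) = D μ x := by
    intro μ hμ x
    simp only [pr]
    rw [hD_add, hD_smul, hDu μ hμ, mul_zero, add_zero]
  -- the linear map
  let T : (Fin d → ℝ) →ₗ[ℝ] (S → ℂ) × ℝ :=
    { toFun := fun x => (fun μ => D μ.1 x, ∑ i, x i)
      map_add' := by
        intro x y
        ext μ
        · simp only [hD_add, Prod.mk_add_mk, Pi.add_apply]
        · simp only [Pi.add_apply, Finset.sum_add_distrib, Prod.mk_add_mk]
      map_smul' := by
        intro a x
        ext μ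
        · simp only [hD_smul, RingHom.id_apply, Prod.smul_mk, Pi.smul_apply, Complex.real_smul]
        · simp only [Pi.smul_apply, smul_eq_mul, RingHom.id_apply, Prod.smul_mk, Finset.mul_sum] }
  have hT : LinearMap.ker T = ⊥ := by
    rw [LinearMap.ker_eq_bot']
    intro x hx
    have hx1 : ∀ μ ∈ S, D μ x = 0 := by
      intro μ hμ
      have := congrArg Prod.fst hx
      exact congrFun this ⟨μ, hμ⟩
    have hx2 : ∑ i, x i = 0 := congrArg Prod.snd hx
    set t : ℂ := D lam x / D lam u with ht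
    have h0 : (fun i => (x i : ℂ) - t * (u i : ℂ)) = 0 := by
      apply hinj
      intro μ hμ
      have e : ∑ i, w μ i * ((x i : ℂ) - t * (u i : ℂ)) = D μ x - t * D μ u := by
        simp only [D, mul_sub, Finset.sum_sub_distrib, Finset.mul_sum]
        congr 1
        refine Finset.sum_congr rfl (fun i _ => by ring)
      rw [e]
      by_cases h : μ = (lam : ℂ)
      · rw [h, ht, div_mul_cancel₀ _ hlu, sub_self]
      · rw [hx1 μ (hSroot' μ hμ h), hDu μ (hSroot' μ hμ h)]; simp
    have h1 : ∀ i, (x i : ℂ) = t * (u i : ℂ) := by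
      intro i
      have := congrFun h0 i
      exact sub_eq_zero.mp this
    have h2 : t = 0 := by
      have : ((∑ i, x i : ℝ) : ℂ) = t * ((∑ i, u i : ℝ) : ℂ) := by
        rw [Complex.ofReal_sum, Complex.ofReal_sum, Finset.mul_sum]
        exact Finset.sum_congr rfl (fun i _ => h1 i)
      rw [hx2, husum] at this
      simpa using this.symm
    funext i
    have := h1 i
    rw [h2, zero_mul] at this
    simpa using this
  obtain ⟨K, hK, hanti⟩ := LinearMap.exists_antilipschitzWith T hT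
  -- N
  let N : (Fin d → ℝ) → ℝ := fun x => ∑ μ ∈ S, ‖D μ x‖
  have hN0 : ∀ x, 0 ≤ N x := fun x => Finset.sum_nonneg (fun _ _ => norm_nonneg _)
  obtain ⟨rho, hr0, hr1, hr⟩ : ∃ rho : ℝ, 0 ≤ rho ∧ rho < 1 ∧ ∀ μ ∈ S, ‖μ‖ ≤ rho := by
    rcases S.eq_empty_or_nonempty with h | h
    · exact ⟨0, le_refl _, by norm_num, by rw [h]; simp⟩
    · obtain ⟨m, hm, hmax⟩ := S.exists_max_image (fun μ => ‖μ‖) h
      exact ⟨‖m‖, norm_nonneg _, hother m (hSroot m hm).1 (hSroot m hm).2, hmax⟩
  set C : ℝ := ∑ μ ∈ S, ∑ i, ‖w μ i‖ with hC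
  have hC0 : 0 ≤ C := Finset.sum_nonneg (fun _ _ => Finset.sum_nonneg (fun _ _ => norm_nonneg _))
  have hKC : 0 < (K : ℝ) + C := by
    have : (0:ℝ) < K := by exact_mod_cast hK
    linarith
  refine ⟨N, rho, K + C, hKC, hr0, hr1, ?_, ?_, hN0, ?_, ?_, ?_⟩
  · intro x y
    simp only [N]
    rw [← Finset.sum_add_distrib]
    refine Finset.sum_le_sum (fun μ _ => ?_)
    rw [hD_add]; exact norm_add_le _ _
  · intro x
    simp only [N, hD_neg, norm_neg]
  · intro x
    simp only [N]
    rw [Finset.mul_sum]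
    refine Finset.sum_le_sum (fun μ hμ => ?_)
    rw [hD_act μ (hSroot μ hμ).1, norm_mul]
    exact mul_le_mul_of_nonneg_right (hr μ hμ) (norm_nonneg _)
  · intro x i
    rw [← hpr]
    have h1 : ‖pr x‖ ≤ K * ‖T (pr x)‖ := by
      have := hanti.le_mul_dist (pr x) 0
      simpa using this
    have h2 : ‖T (pr x)‖ ≤ N x := by
      have e : T (pr x) = (fun μ => D μ.1 (pr x), ∑ i, pr x i) := rfl
      rw [e, hprsum, Prod.norm_mk, norm_zero]
      apply max_le _ (hN0 x)
      rw [pi_norm_le_iff_of_nonneg (hN0 x)]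
      intro μ
      rw [hDpr μ.1 μ.2]
      exact Finset.single_le_sum (f := fun μ => ‖D μ x‖) (fun _ _ => norm_nonneg _) μ.2
    calc |pr x i| = ‖pr x i‖ := rfl
      _ ≤ ‖pr x‖ := norm_le_pi_norm _ _
      _ ≤ K * ‖T (pr x)‖ := h1
      _ ≤ K * N x := mul_le_mul_of_nonneg_left h2 K.2
      _ ≤ (K + C) * N x := by
        apply mul_le_mul_of_nonneg_right _ (hN0 x); linarith
  · intro x K' hK'
    have hd : Nonempty (Fin d) := by
      by_contra h
      rw [not_nonempty_iff] at h
      simp at husum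
    have hK0 : 0 ≤ K' := le_trans (abs_nonneg _) (hK' (Classical.arbitrary _))
    have h1 : N x ≤ C * K' := by
      simp only [N]
      rw [hC, Finset.sum_mul]
      refine Finset.sum_le_sum (fun μ hμ => ?_)
      rw [← hDpr μ hμ x]
      simp only [D]
      refine (norm_sum_le _ _).trans ?_
      rw [Finset.sum_mul]
      refine Finset.sum_le_sum (fun i _ => ?_)
      rw [norm_mul]
      apply mul_le_mul_of_nonneg_left _ (norm_nonneg _)
      rw [hpr, Complex.norm_real]
      exact hK' i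
    refine h1.trans ?_
    apply mul_le_mul_of_nonneg_right _ hK0
    have : (0:ℝ) ≤ K := K.2
    linarith

end Pool.Agent.H812R2.PI
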