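import Pool.Agent.H812R2.PI.LInd
import Pool.Agent.H812R2.PI.LNorm

namespace Pool.Agent.H812R2.PI
open scoped BigOperators
variable {d : ℕ}

/-- a real number is a root of the complex characteristic polynomial iff the real
determinant vanishes -/
theorem LPD_root (M : Matrix (Fin d) (Fin d) ℤ) (lam : ℝ) :
    (M.map (Int.cast : ℤ → ℂ)).charpoly.IsRoot (lam : ℂ) ↔
      (Matrix.scalar (Fin d) lam - M.map (Int.cast : ℤ → ℝ)).det = 0 := by
  have h1 : (M.map (Int.cast : ℤ → ℂ)) = (M.map (Int.cast : ℤ → ℝ)).map (Complex.ofRealHom) := by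
    ext i j
    simp
  rw [h1, Matrix.charpoly_map, Polynomial.IsRoot.def, ← Matrix.eval_charpoly, Polynomial.eval_map]
  have h2 : Polynomial.eval₂ Complex.ofRealHom (lam : ℂ) (M.map (Int.cast : ℤ → ℝ)).charpoly =
      Complex.ofRealHom (Polynomial.eval lam (M.map (Int.cast : ℤ → ℝ)).charpoly) :=
    Polynomial.eval₂_at_apply Complex.ofRealHom lam
  rw [h2]
  exact Complex.ofReal_eq_zero

theorem LPD_right (M : Matrix (Fin d) (Fin d) ℤ) (lam : ℝ)
    (h : (Matrix.scalar (Fin d) lam - M.map (Int.cast : ℤ → ℝ)).det = 0) :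
    ∃ u : Fin d → ℝ, u ≠ 0 ∧ ∀ i, ∑ j, (M i j : ℝ) * u j = lam * u i := by
  obtain ⟨u, hu, h1⟩ := Matrix.exists_mulVec_eq_zero_iff.mpr h
  refine ⟨u, hu, fun i => ?_⟩
  have h2 := congrFun h1 i
  rw [Matrix.sub_mulVec, Pi.sub_apply, Pi.zero_apply, sub_eq_zero] at h2
  have h3 : (Matrix.scalar (Fin d) lam).mulVec u i = lam * u i := by
    simp [Matrix.mulVec, dotProduct, Matrix.diagonal_apply]
  rw [h3] at h2
  rw [h2]
  rfl

theorem LPD_left (M : Matrix (Fin d) (Fin d) ℤ) (lam : ℝ)
    (h : (Matrix.scalar (Fin d) lam - M.map (Int.cast : ℤ → ℝ)).det = 0) :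
    ∃ l : Fin d → ℝ, l ≠ 0 ∧ ∀ j, ∑ i, l i * (M i j : ℝ) = lam * l j := by
  obtain ⟨l, hl, h1⟩ := Matrix.exists_vecMul_eq_zero_iff.mpr h
  refine ⟨l, hl, fun j => ?_⟩
  have h2 := congrFun h1 j
  rw [Matrix.vecMul_sub, Pi.sub_apply, Pi.zero_apply, sub_eq_zero] at h2
  have h3 : Matrix.vecMul l (Matrix.scalar (Fin d) lam) j = lam * l j := by
    simp [Matrix.vecMul, dotProduct, Matrix.diagonal_apply, mul_comm]
  rw [h3] at h2
  rw [h2]
  rfl

/-- conversely an eigenvector gives a root -/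
theorem LPD_root_of (M : Matrix (Fin d) (Fin d) ℤ) (lam : ℝ) (u : Fin d → ℝ) (hu0 : u ≠ 0)
    (hu : ∀ i, ∑ j, (M i j : ℝ) * u j = lam * u i) :
    (Matrix.scalar (Fin d) lam - M.map (Int.cast : ℤ → ℝ)).det = 0 := by
  refine Matrix.exists_mulVec_eq_zero_iff.mp ⟨u, hu0, ?_⟩
  funext i
  rw [Matrix.sub_mulVec, Pi.sub_apply, Pi.zero_apply, sub_eq_zero]
  have h3 : (Matrix.scalar (Fin d) lam).mulVec u i = lam * u i := by
    simp [Matrix.mulVec, dotProduct, Matrix.diagonal_apply]
  rw [h3, ← hu i]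
  rfl

/-- existence of the normalised Perron eigenvector -/
theorem exists_u (M : Matrix (Fin d) (Fin d) ℤ) (hnn : ∀ i j, 0 ≤ M i j) (hM : PisotMat M) :
    ∃ (lam : ℝ) (u : Fin d → ℝ), 1 < lam ∧ (∀ i, ∑ j, (M i j : ℝ) * u j = lam * u i) ∧
      ∑ i, u i = 1 := by
  obtain ⟨hirr, -, lam, hlam, hroot, -⟩ := hM
  obtain ⟨u, hu0, hu⟩ := LPD_right M lam ((LPD_root M lam).mp hroot)
  have hs : ∑ i, u i ≠ 0 := by
    intro hs
    have h1 := right_eig_ind M hirr lam u hu0 hu (fun _ => 1) (by simpa using hs)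
    apply hu0
    funext i
    have := congrFun h1 i
    simp at this
  refine ⟨lam, fun i => (∑ i, u i)⁻¹ * u i, hlam, fun i => ?_, ?_⟩
  · have : ∑ j, (M i j : ℝ) * ((∑ i, u i)⁻¹ * u j) =
        (∑ i, u i)⁻¹ * ∑ j, (M i j : ℝ) * u j := by
      rw [Finset.mul_sum]
      exact Finset.sum_congr rfl fun j _ => by ring
    rw [this, hu i]
    ring
  · rw [← Finset.mul_sum, inv_mul_cancel₀ hs]

theorem LPD_dot_act (M : Matrix (Fin d) (Fin d) ℤ) (lam : ℝ) (l : Fin d → ℝ)
    (hl : ∀ j, ∑ i, l i * (M i j : ℝ) = lam * l j) (x : Fin d → ℝ) (k : ℕ) :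
    ∑ i, l i * (act M)^[k] x i = lam ^ k * ∑ i, l i * x i := by
  induction k generalizing x with
  | zero => simp
  | succ k ih =>
    rw [Function.iterate_succ_apply, ih, pow_succ, mul_assoc]
    congr 1
    simp only [act, Finset.mul_sum]
    rw [Finset.sum_comm]
    refine Finset.sum_congr rfl fun j _ => ?_
    rw [← mul_assoc, ← hl j, Finset.sum_mul]
    exact Finset.sum_congr rfl fun i _ => by ring

theorem LPD_nonneg (M : Matrix (Fin d) (Fin d) ℤ) (hnn : ∀ i j, 0 ≤ M i j) (x : Fin d → ℝ)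
    (hx : ∀ i, 0 ≤ x i) (k : ℕ) (i : Fin d) : 0 ≤ (act M)^[k] x i := by
  induction k generalizing x with
  | zero => exact hx i
  | succ k ih =>
    rw [Function.iterate_succ_apply]
    refine ih _ fun j => Finset.sum_nonneg fun j' _ => mul_nonneg ?_ (hx j')
    exact_mod_cast hnn j j'

/-- if `lam^k a` is bounded, `a = 0`; if it is bounded below, `0 ≤ a` -/
theorem LPD_lim {lam a K : ℝ} (hlam : 1 < lam) (h : ∀ k : ℕ, -K ≤ lam ^ k * a) : 0 ≤ a := by
  by_contra ha
  push Not at ha
  have h1 := (tendsto_pow_atTop_atTop_of_one_lt hlam).eventually_gt_atTop (K / (-a))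
  obtain ⟨k, hk⟩ := h1.exists
  rw [div_lt_iff₀ (by linarith)] at hk
  have := h k
  linarith

theorem exists_PD (M : Matrix (Fin d) (Fin d) ℤ) (hnn : ∀ i j, 0 ≤ M i j) (hM : PisotMat M)
    (lam : ℝ) (hlam : 1 < lam) (u : Fin d → ℝ)
    (hu : ∀ i, ∑ j, (M i j : ℝ) * u j = lam * u i) (husum : ∑ i, u i = 1) :
    ∃ P : PD M, P.u = u ∧ P.lam = lam := by
  obtain ⟨hirr, -, lam0, hlam0, hroot0, hoth0⟩ := hM
  have hu0 : u ≠ 0 := by
    rintro rfl
    simp at husum
  have hdet := LPD_root_of M lam u hu0 hu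
  have hroot := (LPD_root M lam).mpr hdet
  have heq : lam = lam0 := by
    by_contra hne
    have := (hoth0 (lam : ℂ) hroot (by exact_mod_cast hne)).2
    rw [Complex.norm_real, Real.norm_eq_abs, abs_of_pos (by linarith)] at this
    linarith
  subst heq
  obtain ⟨N, rho, c, hc, hrho, hrho1, hNadd, hNneg, hNnn, hNact, hcN, hNle⟩ :=
    exists_stable_norm M hirr lam hlam hroot (fun μ h1 h2 => (hoth0 μ h1 h2).2) u hu husum
  obtain ⟨l, hl0, hl⟩ := LPD_left M lam hdet
  have hiter : ∀ (x : Fin d → ℝ) (k : ℕ), N ((act M)^[k] x) ≤ N x := by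
    intro x k
    induction k with
    | zero => exact le_refl _
    | succ k ih =>
      rw [Function.iterate_succ_apply']
      refine (hNact _).trans (le_trans ?_ ih)
      have := hNnn ((act M)^[k] x)
      nlinarith
  have hbd : ∀ (x : Fin d → ℝ) (k : ℕ) (i : Fin d),
      |(act M)^[k] x i - (∑ j, (act M)^[k] x j) * u i| ≤ c * N x := fun x k i =>
    (hcN _ i).trans (mul_le_mul_of_nonneg_left (hiter x k) hc.le)
  have hdot : ∀ (l : Fin d → ℝ), (∀ j, ∑ i, l i * (M i j : ℝ) = lam * l j) →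
      ∀ (x : Fin d → ℝ) (k : ℕ),
      |lam ^ k * (∑ i, l i * x i) - (∑ j, (act M)^[k] x j) * ∑ i, l i * u i| ≤
        (∑ i, |l i|) * (c * N x) := by
    intro l hl x k
    rw [← LPD_dot_act M lam l hl x k, Finset.mul_sum, ← Finset.sum_sub_distrib, Finset.sum_mul]
    refine (Finset.abs_sum_le_sum_abs _ _).trans (Finset.sum_le_sum fun i _ => ?_)
    have : l i * (act M)^[k] x i - (∑ j, (act M)^[k] x j) * (l i * u i) =
        l i * ((act M)^[k] x i - (∑ j, (act M)^[k] x j) * u i) := by ring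
    rw [this, abs_mul]
    exact mul_le_mul_of_nonneg_left (hbd x k i) (abs_nonneg _)
  have hlu : ∑ i, l i * u i ≠ 0 := by
    intro h0
    apply hl0
    have key : ∀ x : Fin d → ℝ, ∑ i, l i * x i = 0 := by
      intro x
      have h1 : ∀ k : ℕ, |lam ^ k * (∑ i, l i * x i)| ≤ (∑ i, |l i|) * (c * N x) := by
        intro k
        have := hdot l hl x k
        rwa [h0, mul_zero, sub_zero] at this
      apply le_antisymm
      · have : 0 ≤ -(∑ i, l i * x i) := LPD_lim hlam (K := (∑ i, |l i|) * (c * N x)) fun k => by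
          have := (abs_le.mp (h1 k)).2
          linarith
        linarith
      · exact LPD_lim hlam (K := (∑ i, |l i|) * (c * N x)) fun k => (abs_le.mp (h1 k)).1
    funext j
    have := key (fun i => if i = j then 1 else 0)
    simpa using this
  -- normalise
  set ell : Fin d → ℝ := fun i => (∑ i, l i * u i)⁻¹ * l i with hell
  have hellM : ∀ j, ∑ i, ell i * (M i j : ℝ) = lam * ell j := by
    intro j
    have : ∑ i, ell i * (M i j : ℝ) = (∑ i, l i * u i)⁻¹ * ∑ i, l i * (M i j : ℝ) := by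
      rw [Finset.mul_sum]
      exact Finset.sum_congr rfl fun i _ => by rw [hell]; ring
    rw [this, hl j, hell]
    ring
  have hellu : ∑ i, ell i * u i = 1 := by
    have : ∑ i, ell i * u i = (∑ i, l i * u i)⁻¹ * ∑ i, l i * u i := by
      rw [Finset.mul_sum]
      exact Finset.sum_congr rfl fun i _ => by rw [hell]; ring
    rw [this, inv_mul_cancel₀ hlu]
  have hell0 : ell ≠ 0 := by
    intro h0
    rw [h0] at hellu
    simp at hellu
  have hind_l : ∀ v : Fin d → ℤ, ∑ i, ell i * (v i : ℝ) = 0 → v = 0 := fun v hv =>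
    left_eig_ind M hirr lam ell hell0 hellM v hv
  have hind_u : ∀ w : Fin d → ℤ, ∑ i, (w i : ℝ) * u i = 0 → w = 0 := fun w hw =>
    right_eig_ind M hirr lam u hu0 hu w hw
  have hev : ∀ j : Fin d, (fun i => if i = j then (1:ℤ) else 0) ≠ 0 := by
    intro j h
    have := congrFun h j
    simp at this
  have hdotj : ∀ (j : Fin d) (k : ℕ),
      |lam ^ k * ell j - ∑ i, (act M)^[k] (fun i => if i = j then (1:ℝ) else 0) i| ≤
        (∑ i, |ell i|) * (c * N (fun i => if i = j then (1:ℝ) else 0)) := by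
    intro j k
    have := hdot ell hellM (fun i => if i = j then (1:ℝ) else 0) k
    rw [hellu, mul_one] at this
    simpa using this
  have hej : ∀ (j i : Fin d), (0:ℝ) ≤ if i = j then (1:ℝ) else 0 := by
    intro j i
    split_ifs <;> norm_num
  have hpos : ∀ j, 0 < ell j := by
    intro j
    refine lt_of_le_of_ne ?_ ?_
    · refine LPD_lim hlam
        (K := (∑ i, |ell i|) * (c * N (fun i => if i = j then (1:ℝ) else 0))) fun k => ?_
      have h1 := (abs_le.mp (hdotj j k)).1
      have h2 : 0 ≤ ∑ i, (act M)^[k] (fun i => if i = j then (1:ℝ) else 0) i :=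
        Finset.sum_nonneg fun i _ => LPD_nonneg M hnn _ (hej j) k i
      linarith
    · intro h0
      refine hev j (hind_l _ ?_)
      simp [← h0]
  have hd : Nonempty (Fin d) := by
    by_contra hne
    rw [not_nonempty_iff] at hne
    simp at husum
  obtain ⟨j⟩ := hd
  have hupos : ∀ i, 0 < u i := by
    intro i
    refine lt_of_le_of_ne ?_ ?_
    · have h3 : 0 ≤ ell j * u i := by
        refine LPD_lim hlam
          (K := (∑ i, |ell i|) * (c * N (fun i => if i = j then (1:ℝ) else 0)) * |u i| +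
            c * N (fun i => if i = j then (1:ℝ) else 0)) fun k => ?_
        have h1 := hdotj j k
        have h2 := (abs_le.mp (hbd (fun i => if i = j then (1:ℝ) else 0) k i)).2
        have h4 := LPD_nonneg M hnn _ (hej j) k i
        have h5 : |(lam ^ k * ell j - ∑ i, (act M)^[k] (fun i => if i = j then (1:ℝ) else 0) i)
            * u i| ≤ (∑ i, |ell i|) * (c * N (fun i => if i = j then (1:ℝ) else 0)) * |u i| := by
          rw [abs_mul]
          exact mul_le_mul_of_nonneg_right h1 (abs_nonneg _)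
        have h6 := (abs_le.mp h5).1
        rw [sub_mul] at h6
        rw [← mul_assoc]
        linarith
      exact nonneg_of_mul_nonneg_right h3 (hpos j)
    · intro h0
      refine hev i (hind_u _ ?_)
      simp [← h0]
  exact ⟨{ lam := lam, ell := ell, u := u, N := N, rho := rho, c := c, lam_gt := hlam,
           ell_pos := hpos, u_pos := hupos, u_sum := husum, ell_M := hellM, M_u := hu,
           u_ind := hind_u, ell_ind := hind_l, c_pos := hc, rho_nonneg := hrho, rho_lt := hrho1,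
           N_add := hNadd, N_neg := hNneg, N_nonneg := hNnn, N_act := hNact, le_cN := hcN,
           N_le := hNle }, rfl, rfl⟩

end Pool.Agent.H812R2.PI
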