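import Pool.Agent.H812R2.PI.STop

namespace Pool.Agent.H812R2.PI
open scoped BigOperators
variable {d : ℕ}

/-! (proof by helper790) -/

/-- `D_k(x)_i` -/
noncomputable def HGH_D {M : Matrix (Fin d) (Fin d) ℤ} (P : PD M) (x : ℤ → Fin d) (k : ℤ)
    (i : Fin d) : ℝ := (psum x k i : ℝ) - k * P.u i

theorem HGH_D_eq {M : Matrix (Fin d) (Fin d) ℤ} (P : PD M) (x : ℤ → Fin d) (k : ℤ) (i : Fin d) :
    P.pr (rv (psum x k)) i = HGH_D P x k i := by
  have h : ∑ j, (psum x k j : ℝ) = (k : ℝ) := by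
    have := psum_sum x k
    exact_mod_cast this
  simp only [PD.pr, rv, HGH_D, h]

theorem HGH_cont_psum (k : ℤ) (i : Fin d) : Continuous fun x : ℤ → Fin d => psum x k i := by
  have hev : ∀ m : ℤ, Continuous fun x : ℤ → Fin d => ev (x m) i := fun m =>
    (continuous_of_discreteTopology (f := fun a : Fin d => ev a i)).comp (continuous_apply m)
  induction k using Int.induction_on with
  | zero =>
    have : (fun x : ℤ → Fin d => psum x 0 i) = fun _ => 0 := by
      funext x; rw [psum_zero]; rfl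
    rw [this]; exact continuous_const
  | succ n ih =>
    have : (fun x : ℤ → Fin d => psum x ((n : ℤ) + 1) i) = fun x => psum x n i + ev (x n) i := by
      funext x; rw [psum_succ]; rfl
    rw [this]; exact ih.add (hev _)
  | pred n ih =>
    have : (fun x : ℤ → Fin d => psum x (-(n : ℤ) - 1) i) =
        fun x => psum x (-(n : ℤ)) i - ev (x (-(n : ℤ) - 1)) i := by
      funext x
      have h2 := psum_succ x (-(n : ℤ) - 1)
      have e1 : -(n : ℤ) - 1 + 1 = -n := by ring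
      rw [e1] at h2
      rw [h2]
      simp
    rw [this]; exact ih.sub (hev _)

theorem HGH_cont_D {M : Matrix (Fin d) (Fin d) ℤ} (P : PD M) (k : ℤ) (i : Fin d) :
    Continuous fun x : ℤ → Fin d => HGH_D P x k i := by
  unfold HGH_D
  have h1 : Continuous fun x : ℤ → Fin d => ((psum x k i : ℤ) : ℝ) :=
    (continuous_of_discreteTopology (f := fun n : ℤ => (n : ℝ))).comp (HGH_cont_psum k i)
  exact h1.sub continuous_const

theorem HGH_bd {σ : Fin d → List (Fin d)} (P : PD (inc σ)) (K : ℝ)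
    (hK : ∀ w ∈ lang σ, ∀ i, |(ab w i : ℝ) - (w.length : ℝ) * P.u i| ≤ K)
    {x : ℤ → Fin d} (hx : x ∈ X σ) (k : ℤ) (i : Fin d) : |HGH_D P x k i| ≤ K := by
  unfold HGH_D psum
  by_cases hk : 0 ≤ k
  · rw [if_pos hk]
    have h := hK _ (hx 0 k.toNat) i
    rw [win_length] at h
    have e : ((k.toNat : ℕ) : ℝ) = (k : ℝ) := by
      have : ((k.toNat : ℕ) : ℤ) = k := Int.toNat_of_nonneg hk
      exact_mod_cast this
    rw [e] at h
    exact h
  · rw [if_neg hk]
    have h := hK _ (hx k (-k).toNat) i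
    rw [win_length] at h
    have e : (((-k).toNat : ℕ) : ℝ) = -(k : ℝ) := by
      have : (((-k).toNat : ℕ) : ℤ) = -k := Int.toNat_of_nonneg (by omega)
      exact_mod_cast this
    rw [e, ← abs_neg] at h
    have e2 : ((-ab (win x k (-k).toNat)) i : ℤ) = -(ab (win x k (-k).toNat) i) := rfl
    rw [e2]
    push_cast
    have e3 : -(ab (win x k (-k).toNat) i : ℝ) - (k : ℝ) * P.u i =
        -((ab (win x k (-k).toNat) i : ℝ) - -(k : ℝ) * P.u i) := by ring
    rw [e3]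
    exact h

theorem HGH_shift {M : Matrix (Fin d) (Fin d) ℤ} (P : PD M) (x : ℤ → Fin d) (k : ℤ) (i : Fin d) :
    HGH_D P (sh x) k i = HGH_D P x (k + 1) i - HGH_D P x 1 i := by
  unfold HGH_D
  rw [sh_eq_shZ, psum_shZ]
  simp only [Pi.sub_apply]
  push_cast
  ring

theorem HGH_D_zero {M : Matrix (Fin d) (Fin d) ℤ} (P : PD M) (x : ℤ → Fin d) (i : Fin d) :
    HGH_D P x 0 i = 0 := by
  unfold HGH_D
  rw [psum_zero]
  simp

theorem HGH_D_one {M : Matrix (Fin d) (Fin d) ℤ} (P : PD M) (x : ℤ → Fin d) (i : Fin d) :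
    HGH_D P x 1 i = P.pr (rv (ev (x 0))) i := by
  rw [← HGH_D_eq]
  have h : psum x 1 = ev (x 0) := by
    have := psum_succ x 0
    rw [zero_add, psum_zero, zero_add] at this
    exact this
  rw [h]

section sup

variable {σ : Fin d → List (Fin d)} (P : PD (inc σ)) (K : ℝ)
    (hK : ∀ w ∈ lang σ, ∀ i, |(ab w i : ℝ) - (w.length : ℝ) * P.u i| ≤ K)

include hK

theorem HGH_above {x : ℤ → Fin d} (hx : x ∈ X σ) (i : Fin d) :
    BddAbove (Set.range fun k : ℤ => HGH_D P x k i) := by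
  refine ⟨K, ?_⟩
  rintro _ ⟨k, rfl⟩
  exact (abs_le.1 (HGH_bd P K hK hx k i)).2

theorem HGH_below {x : ℤ → Fin d} (hx : x ∈ X σ) (i : Fin d) :
    BddBelow (Set.range fun k : ℤ => HGH_D P x k i) := by
  refine ⟨-K, ?_⟩
  rintro _ ⟨k, rfl⟩
  exact (abs_le.1 (HGH_bd P K hK hx k i)).1

theorem HGH_sup_shift {x : ℤ → Fin d} (hx : x ∈ X σ) (i : Fin d) :
    (⨆ k : ℤ, HGH_D P (sh x) k i) = (⨆ k : ℤ, HGH_D P x k i) - HGH_D P x 1 i := by
  apply le_antisymm
  · refine ciSup_le (fun k => ?_)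
    rw [HGH_shift]
    have := le_ciSup (HGH_above P K hK hx i) (k + 1)
    linarith
  · rw [sub_le_iff_le_add]
    refine ciSup_le (fun k => ?_)
    have h1 := le_ciSup (HGH_above P K hK (sh_mem hx) i) (k - 1)
    rw [HGH_shift, sub_add_cancel] at h1
    linarith

theorem HGH_inf_shift {x : ℤ → Fin d} (hx : x ∈ X σ) (i : Fin d) :
    (⨅ k : ℤ, HGH_D P (sh x) k i) = (⨅ k : ℤ, HGH_D P x k i) - HGH_D P x 1 i := by
  apply le_antisymm
  · rw [le_sub_iff_add_le]
    refine le_ciInf (fun k => ?_)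
    have h1 := ciInf_le (HGH_below P K hK (sh_mem hx) i) (k - 1)
    rw [HGH_shift, sub_add_cancel] at h1
    linarith
  · refine le_ciInf (fun k => ?_)
    rw [HGH_shift]
    have := ciInf_le (HGH_below P K hK hx i) (k + 1)
    linarith

theorem HGH_sup_cont (i : Fin d) :
    ContinuousOn (fun x : ℤ → Fin d => ⨆ k : ℤ, HGH_D P x k i) (X σ) := by
  obtain ⟨x0, hx0⟩ := X_nonempty P
  have hl : LowerSemicontinuousOn (fun x : ℤ → Fin d => ⨆ k : ℤ, HGH_D P x k i) (X σ) :=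
    lowerSemicontinuousOn_ciSup (fun x hx => HGH_above P K hK hx i)
      (fun k => (HGH_cont_D P k i).continuousOn.lowerSemicontinuousOn)
  have hu : UpperSemicontinuousOn (fun x : ℤ → Fin d => ⨅ k : ℤ, HGH_D P x k i) (X σ) :=
    upperSemicontinuousOn_ciInf (fun x hx => HGH_below P K hK hx i)
      (fun k => (HGH_cont_D P k i).continuousOn.upperSemicontinuousOn)
  have hnu : LowerSemicontinuousOn (fun x : ℤ → Fin d => -⨅ k : ℤ, HGH_D P x k i) (X σ) := by
    intro x hx y hy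
    have h1 : (⨅ k : ℤ, HGH_D P x k i) < -y := by
      have : y < -⨅ k : ℤ, HGH_D P x k i := hy
      linarith
    filter_upwards [hu x hx (-y) h1] with z hz
    have : (⨅ k : ℤ, HGH_D P z k i) < -y := hz
    show y < -⨅ k : ℤ, HGH_D P z k i
    linarith
  have hc := const_of_inv P (fun x => (⨆ k : ℤ, HGH_D P x k i) + -⨅ k : ℤ, HGH_D P x k i)
    (hl.add hnu) (fun x hx => by
      show (⨆ k : ℤ, HGH_D P (sh x) k i) + -(⨅ k : ℤ, HGH_D P (sh x) k i) =
        (⨆ k : ℤ, HGH_D P x k i) + -⨅ k : ℤ, HGH_D P x k i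
      rw [HGH_sup_shift P K hK hx, HGH_inf_shift P K hK hx]
      ring)
  rw [continuousOn_iff_lower_upperSemicontinuousOn]
  refine ⟨hl, ?_⟩
  intro x hx y hy
  have e : ∀ z ∈ X σ, (⨆ k : ℤ, HGH_D P z k i) = (⨅ k : ℤ, HGH_D P z k i) +
      ((⨆ k : ℤ, HGH_D P x0 k i) + -⨅ k : ℤ, HGH_D P x0 k i) := by
    intro z hz
    have := hc z hz x0 hx0
    linarith
  have h1 : (⨅ k : ℤ, HGH_D P x k i) <
      y - ((⨆ k : ℤ, HGH_D P x0 k i) + -⨅ k : ℤ, HGH_D P x0 k i) := by
    have h2 : (⨆ k : ℤ, HGH_D P x k i) < y := hy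
    rw [e x hx] at h2
    linarith
  filter_upwards [hu x hx _ h1, self_mem_nhdsWithin] with z hz hzX
  have h3 : (⨅ k : ℤ, HGH_D P z k i) <
      y - ((⨆ k : ℤ, HGH_D P x0 k i) + -⨅ k : ℤ, HGH_D P x0 k i) := hz
  show (⨆ k : ℤ, HGH_D P z k i) < y
  rw [e z hzX]
  linarith

end sup

theorem exists_h {σ : Fin d → List (Fin d)} (P : PD (inc σ)) (K : ℝ)
    (hK : ∀ w ∈ lang σ, ∀ i, |(ab w i : ℝ) - (w.length : ℝ) * P.u i| ≤ K) :
    ∃ h : (ℤ → Fin d) → (Fin d → ℝ), ContinuousOn h (X σ) ∧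
      (∀ x ∈ X σ, h (sh x) = h x + P.pr (rv (ev (x 0)))) ∧
      (∀ x ∈ X σ, ∑ i, h x i = 0) ∧ (∀ x ∈ X σ, ∀ i, |h x i| ≤ 2 * K) := by
  obtain ⟨x0, hx0⟩ := X_nonempty P
  have hd : 0 < d := lt_of_le_of_lt (Nat.zero_le _) (x0 0).2
  have hd' : (0 : ℝ) < d := by exact_mod_cast hd
  set s : (ℤ → Fin d) → Fin d → ℝ := fun x i => ⨆ k : ℤ, HGH_D P x k i with hs
  have s0 : ∀ x ∈ X σ, ∀ i, 0 ≤ s x i := by
    intro x hx i
    have h1 := le_ciSup (HGH_above P K hK hx i) 0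
    rw [HGH_D_zero] at h1
    exact h1
  have sK : ∀ x ∈ X σ, ∀ i, s x i ≤ K := fun x hx i =>
    ciSup_le (fun k => (abs_le.1 (HGH_bd P K hK hx k i)).2)
  have ssh : ∀ x ∈ X σ, ∀ i, s (sh x) i = s x i - P.pr (rv (ev (x 0))) i := by
    intro x hx i
    rw [← HGH_D_one]
    exact HGH_sup_shift P K hK hx i
  have scont : ∀ i, ContinuousOn (fun x => s x i) (X σ) := fun i => HGH_sup_cont P K hK i
  -- the sum
  have Scont : ContinuousOn (fun x => ∑ i, s x i) (X σ) :=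
    continuousOn_finsetSum _ (fun i _ => scont i)
  have hc := const_of_inv P (fun x => ∑ i, s x i) Scont.lowerSemicontinuousOn (fun x hx => by
    show ∑ i, s (sh x) i = ∑ i, s x i
    rw [Finset.sum_congr rfl (fun i _ => ssh x hx i), Finset.sum_sub_distrib, pr_sum, sub_zero])
  set κ : ℝ := ∑ i, s x0 i with hκ
  have κ0 : 0 ≤ κ := Finset.sum_nonneg (fun i _ => s0 x0 hx0 i)
  have κK : κ ≤ d * K := by
    have : κ ≤ ∑ _i : Fin d, K := Finset.sum_le_sum (fun i _ => sK x0 hx0 i)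
    simpa using this
  have κd : κ / d ≤ K := by
    rw [div_le_iff₀ hd']
    linarith
  have κd0 : 0 ≤ κ / d := div_nonneg κ0 hd'.le
  refine ⟨fun x i => κ / d - s x i, ?_, ?_, ?_, ?_⟩
  · rw [continuousOn_pi]
    exact fun i => continuousOn_const.sub (scont i)
  · intro x hx
    funext i
    show κ / d - s (sh x) i = κ / d - s x i + P.pr (rv (ev (x 0))) i
    rw [ssh x hx i]
    ring
  · intro x hx
    show ∑ i, (κ / d - s x i) = 0
    rw [Finset.sum_sub_distrib]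
    have h1 : ∑ i, s x i = κ := hc x hx x0 hx0
    rw [h1]
    simp only [Finset.sum_const, Finset.card_univ, Fintype.card_fin, nsmul_eq_mul]
    field_simp
    ring
  · intro x hx i
    show |κ / d - s x i| ≤ 2 * K
    have h1 := s0 x hx i
    have h2 := sK x hx i
    rw [abs_le]
    constructor <;> linarith

end Pool.Agent.H812R2.PI
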