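import Pool.Agent.H812R2.PI.Defs

namespace Pool.Agent.H812R2.PI
open scoped BigOperators

open MeasureTheory Filter Topology UnitAddTorus

theorem TKron_mul {m : ℕ} (k : Fin m → ℤ) (x y : Torus m) :
    mFourier k (x + y) = mFourier k x * mFourier k y := by
  simp only [mFourier, ContinuousMap.coe_mk, ← Finset.prod_mul_distrib, Pi.add_apply]
  apply Finset.prod_congr rfl
  intro i _
  simp only [fourier_apply, smul_add, AddCircle.toCircle_add, Circle.coe_mul]

theorem TKron_nsmul {m : ℕ} (k : Fin m → ℤ) (y γ : Torus m) (j : ℕ) :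
    mFourier k (y + j • γ) = mFourier k y * (mFourier k γ) ^ j := by
  induction j with
  | zero => simp
  | succ j ih =>
    rw [add_smul, one_smul, ← add_assoc, TKron_mul, ih, pow_succ, mul_assoc]

theorem TKron_norm {m : ℕ} (k : Fin m → ℤ) (x : Torus m) : ‖mFourier k x‖ = 1 := by
  simp only [mFourier, fourier_apply, ContinuousMap.coe_mk, norm_prod, Circle.norm_coe,
    Finset.prod_const_one]

/-- the frequencies are not annihilated -/
theorem TKron_ne {m : ℕ} (u : Fin (m+1) → ℝ)
    (hu : ∀ w : Fin (m+1) → ℤ, ∑ i, (w i : ℝ) * u i = 0 → w = 0) (hsum : ∑ i, u i = 1)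
    (k : Fin m → ℤ) (hk : k ≠ 0) :
    mFourier k (fun i : Fin m => (((-u i.succ : ℝ)) : UnitAddCircle)) ≠ 1 := by
  intro h
  have h1 : mFourier k (fun i : Fin m => (((-u i.succ : ℝ)) : UnitAddCircle)) =
      Complex.exp (2 * Real.pi * Complex.I * (((∑ i, (k i : ℝ) * (-u i.succ)) : ℝ) : ℂ)) := by
    simp only [mFourier, ContinuousMap.coe_mk]
    simp_rw [fourier_coe_apply]
    rw [← Complex.exp_sum]
    congr 1
    push_cast
    rw [Finset.mul_sum]
    apply Finset.sum_congr rfl
    intro i _
    ring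
  rw [h1, Complex.exp_eq_one_iff] at h
  obtain ⟨l, hl⟩ := h
  have h2 : (((∑ i, (k i : ℝ) * (-u i.succ)) : ℝ) : ℂ) = (l : ℂ) := by
    have h3 : (2 * Real.pi * Complex.I : ℂ) ≠ 0 := by
      simp [Real.pi_ne_zero]
    apply mul_left_cancel₀ h3
    rw [hl]; ring
  have h4 : (∑ i, (k i : ℝ) * (-u i.succ)) = (l : ℝ) := by exact_mod_cast h2
  have h5 := hu (Fin.cons l (fun i => l + k i)) (by
    rw [Fin.sum_univ_succ]
    simp only [Fin.cons_zero, Fin.cons_succ]
    rw [Fin.sum_univ_succ] at hsum
    push_cast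
    simp_rw [add_mul]
    rw [Finset.sum_add_distrib, ← Finset.mul_sum]
    simp only [mul_neg, Finset.sum_neg_distrib] at h4
    have h6 : ∑ i : Fin m, (k i : ℝ) * u i.succ = -l := by linarith
    rw [h6]
    have h7 : ∑ i : Fin m, u i.succ = 1 - u 0 := by linarith
    rw [h7]; ring)
  have h8 : l = 0 := by
    have := congrFun h5 0
    simpa using this
  apply hk
  ext i
  have := congrFun h5 i.succ
  simpa [h8] using this

theorem TKron_int {m : ℕ} (k : Fin m → ℤ) (γ : Torus m) (h : mFourier k γ ≠ 1) :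
    ∫ x : Torus m, mFourier k x = 0 := by
  have h1 : ∫ x : Torus m, mFourier k (x + γ) = ∫ x : Torus m, mFourier k x :=
    integral_add_right_eq_self (fun x : Torus m => mFourier k x) γ
  simp_rw [TKron_mul] at h1
  rw [integral_mul_const] at h1
  have h2 : (∫ x : Torus m, mFourier k x) * (mFourier k γ - 1) = 0 := by
    rw [mul_sub, h1]; ring
  rcases mul_eq_zero.1 h2 with h3 | h3
  · exact h3
  · exact absurd (sub_eq_zero.1 h3) h

theorem TKron_univ {m : ℕ} : (volume : Measure (Torus m)).real Set.univ = 1 := by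
  rw [measureReal_def, volume_pi, Measure.pi_univ]
  simp [UnitAddCircle.measure_univ]

/-- difference of the ergodic average and the integral -/
noncomputable def TKron_L {m : ℕ} (y γ : Torus m) (n : ℕ) (f : C(Torus m, ℂ)) : ℂ :=
  (∑ j ∈ Finset.range (n + 1), f (y + j • γ)) / (n + 1) - ∫ x, f x

theorem TKron_integrable {m : ℕ} (f : C(Torus m, ℂ)) : Integrable (fun x => f x) volume :=
  f.continuous.integrable_of_hasCompactSupport (HasCompactSupport.of_compactSpace _)

theorem TKron_L_sub {m : ℕ} (y γ : Torus m) (n : ℕ) (f g : C(Torus m, ℂ)) :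
    TKron_L y γ n (f - g) = TKron_L y γ n f - TKron_L y γ n g := by
  unfold TKron_L
  simp only [ContinuousMap.sub_apply]
  rw [Finset.sum_sub_distrib, integral_sub (TKron_integrable f) (TKron_integrable g)]
  ring

theorem TKron_L_norm {m : ℕ} (y γ : Torus m) (n : ℕ) (f : C(Torus m, ℂ)) :
    ‖TKron_L y γ n f‖ ≤ 2 * ‖f‖ := by
  unfold TKron_L
  have h1 : ‖(∑ j ∈ Finset.range (n + 1), f (y + j • γ)) / ((n : ℂ) + 1)‖ ≤ ‖f‖ := by
    rw [norm_div]
    have h2 : ‖(n : ℂ) + 1‖ = (n : ℝ) + 1 := by
      have : (n : ℂ) + 1 = ((n + 1 : ℕ) : ℂ) := by push_cast; ring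
      rw [this, Complex.norm_natCast]; push_cast; ring
    rw [h2, div_le_iff₀ (by positivity)]
    refine (norm_sum_le _ _).trans ?_
    refine (Finset.sum_le_sum fun j _ => f.norm_coe_le_norm _).trans ?_
    rw [Finset.sum_const, Finset.card_range, nsmul_eq_mul]
    push_cast
    linarith [mul_comm ((n : ℝ) + 1) ‖f‖]
  have h3 : ‖∫ x, f x‖ ≤ ‖f‖ := by
    have := norm_integral_le_of_norm_le_const (μ := (volume : Measure (Torus m)))
      (f := fun x => f x) (C := ‖f‖) (Filter.Eventually.of_forall fun x => f.norm_coe_le_norm x)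
    rwa [TKron_univ, mul_one] at this
  calc _ ≤ _ := norm_sub_le _ _
    _ ≤ 2 * ‖f‖ := by linarith

theorem TKron_tendsto_mFourier {m : ℕ} (y γ : Torus m) (h : ∀ k : Fin m → ℤ, k ≠ 0 →
    mFourier k γ ≠ 1) (k : Fin m → ℤ) :
    Tendsto (fun n => TKron_L y γ n (mFourier k)) atTop (𝓝 0) := by
  by_cases hk : k = 0
  · subst hk
    have : ∀ n, TKron_L y γ n (mFourier 0) = 0 := by
      intro n
      unfold TKron_L
      rw [mFourier_zero]
      simp only [ContinuousMap.one_apply, Finset.sum_const, Finset.card_range, nsmul_eq_mul,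
        mul_one, integral_const, TKron_univ, one_smul]
      push_cast
      rw [div_self, sub_self]
      exact_mod_cast Nat.succ_ne_zero n
    simp_rw [this]
    exact tendsto_const_nhds
  · have hz := h k hk
    have hI := TKron_int k γ hz
    have hz' : mFourier k γ - 1 ≠ 0 := sub_ne_zero.2 hz
    rw [tendsto_zero_iff_norm_tendsto_zero]
    have hb : ∀ n : ℕ, ‖TKron_L y γ n (mFourier k)‖ ≤
        2 / ‖mFourier k γ - 1‖ * (1 / ((n : ℝ) + 1)) := by
      intro n
      unfold TKron_L
      rw [hI, sub_zero]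
      simp_rw [TKron_nsmul]
      rw [← Finset.mul_sum, geom_sum_eq hz, norm_div, norm_mul, TKron_norm, one_mul, norm_div]
      have h2 : ‖(n : ℂ) + 1‖ = (n : ℝ) + 1 := by
        have : (n : ℂ) + 1 = ((n + 1 : ℕ) : ℂ) := by push_cast; ring
        rw [this, Complex.norm_natCast]; push_cast; ring
      rw [h2]
      have h3 : ‖mFourier k γ ^ (n + 1) - 1‖ ≤ 2 := by
        refine (norm_sub_le _ _).trans ?_
        rw [norm_pow, TKron_norm]; norm_num
      have h4 : 0 < ‖mFourier k γ - 1‖ := norm_pos_iff.2 hz'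
      have h5 : (0 : ℝ) < (n : ℝ) + 1 := by positivity
      rw [mul_one_div]
      gcongr
    refine squeeze_zero (fun n => norm_nonneg _) hb ?_
    have := tendsto_one_div_add_atTop_nhds_zero_nat (𝕜 := ℝ)
    simpa using this.const_mul (2 / ‖mFourier k γ - 1‖)

theorem TKron_tendsto {m : ℕ} (y γ : Torus m) (h : ∀ k : Fin m → ℤ, k ≠ 0 →
    mFourier k γ ≠ 1) (f : C(Torus m, ℂ)) :
    Tendsto (fun n => TKron_L y γ n f) atTop (𝓝 0) := by
  -- the submodule of the functions for which the averages converge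
  let S : Submodule ℂ C(Torus m, ℂ) :=
    { carrier := {g | Tendsto (fun n => TKron_L y γ n g) atTop (𝓝 0)}
      zero_mem' := by
        show Tendsto _ _ _
        have : ∀ n, TKron_L y γ n 0 = 0 := by intro n; simp [TKron_L]
        simp_rw [this]; exact tendsto_const_nhds
      add_mem' := by
        intro a b ha hb
        show Tendsto _ _ _
        have : ∀ n, TKron_L y γ n (a + b) = TKron_L y γ n a + TKron_L y γ n b := by
          intro n
          unfold TKron_L
          simp only [ContinuousMap.add_apply]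
          rw [Finset.sum_add_distrib, integral_add (TKron_integrable a) (TKron_integrable b)]
          ring
        simp_rw [this]
        simpa using Tendsto.add ha hb
      smul_mem' := by
        intro c a ha
        show Tendsto _ _ _
        have : ∀ n, TKron_L y γ n (c • a) = c * TKron_L y γ n a := by
          intro n
          unfold TKron_L
          simp only [ContinuousMap.smul_apply, smul_eq_mul]
          rw [← Finset.mul_sum, integral_const_mul]
          ring
        simp_rw [this]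
        simpa using Tendsto.const_mul c ha }
  have hspan : Submodule.span ℂ (Set.range (mFourier (d := Fin m))) ≤ S := by
    rw [Submodule.span_le]
    rintro _ ⟨k, rfl⟩
    exact TKron_tendsto_mFourier y γ h k
  have hf : f ∈ (Submodule.span ℂ (Set.range (mFourier (d := Fin m)))).topologicalClosure := by
    rw [span_mFourier_closure_eq_top]; trivial
  rw [Metric.tendsto_atTop]
  intro ε hε
  have hf' : f ∈ closure ((Submodule.span ℂ (Set.range (mFourier (d := Fin m)))) :
      Set C(Torus m, ℂ)) := hf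
  rw [Metric.mem_closure_iff] at hf'
  obtain ⟨g, hg, hfg⟩ := hf' (ε / 4) (by linarith)
  have hgS : Tendsto (fun n => TKron_L y γ n g) atTop (𝓝 0) := hspan hg
  rw [Metric.tendsto_atTop] at hgS
  obtain ⟨N, hN⟩ := hgS (ε / 2) (by linarith)
  refine ⟨N, fun n hn => ?_⟩
  have h1 := hN n hn
  rw [dist_zero_right] at h1 ⊢
  have h2 : TKron_L y γ n f = TKron_L y γ n (f - g) + TKron_L y γ n g := by
    rw [TKron_L_sub]; ring
  rw [h2]
  have h3 := TKron_L_norm y γ n (f - g)
  rw [dist_eq_norm] at hfg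
  calc _ ≤ ‖TKron_L y γ n (f - g)‖ + ‖TKron_L y γ n g‖ := norm_add_le _ _
    _ < ε := by linarith

theorem minimal_rot {m : ℕ} (u : Fin (m+1) → ℝ)
    (hu : ∀ w : Fin (m+1) → ℤ, ∑ i, (w i : ℝ) * u i = 0 → w = 0) (hsum : ∑ i, u i = 1) :
    MinimalTranslation (fun i : Fin m => (((-u i.succ : ℝ)) : UnitAddCircle)) := by
  intro y
  set γ : Torus m := fun i : Fin m => (((-u i.succ : ℝ)) : UnitAddCircle) with hγ
  rw [dense_iff_inter_open]
  rintro U hU ⟨z₀, hz₀⟩
  by_contra hcon
  rw [Set.not_nonempty_iff_eq_empty] at hcon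
  have hout : ∀ n : ℕ, y + n • γ ∉ U := by
    intro n hn
    have : y + n • γ ∈ U ∩ {z : Torus m | ∃ n : ℕ, z = y + n • γ} := ⟨hn, n, rfl⟩
    rw [hcon] at this
    exact this
  obtain ⟨f, hf0, hf1, hf2⟩ := exists_continuous_zero_one_of_isClosed (s := Uᶜ) (t := {z₀})
    hU.isClosed_compl isClosed_singleton (by
      rw [Set.disjoint_singleton_right]
      simpa using hz₀)
  let F : C(Torus m, ℂ) := ⟨fun x => ((f x : ℝ) : ℂ), by fun_prop⟩
  have hT := TKron_tendsto y γ (fun k hk => TKron_ne u hu hsum k hk) F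
  have hL : ∀ n, TKron_L y γ n F = - ((∫ x, f x : ℝ) : ℂ) := by
    intro n
    unfold TKron_L
    have h1 : ∀ j ∈ Finset.range (n + 1), F (y + j • γ) = 0 := by
      intro j _
      show ((f (y + j • γ) : ℝ) : ℂ) = 0
      rw [hf0 (hout j)]
      simp
    rw [Finset.sum_eq_zero h1]
    have h2 : ∫ x, F x = ((∫ x, f x : ℝ) : ℂ) := integral_ofReal
    rw [h2]
    simp
  simp_rw [hL] at hT
  have h3 : - ((∫ x, f x : ℝ) : ℂ) = 0 := tendsto_nhds_unique tendsto_const_nhds hT
  have h4 : (∫ x, f x : ℝ) = 0 := by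
    have := neg_eq_zero.1 h3
    exact_mod_cast this
  have h5 : 0 < ∫ x, f x := by
    apply f.continuous.integral_pos_of_hasCompactSupport_nonneg_nonzero
      (HasCompactSupport.of_compactSpace _) (fun x => (hf2 x).1) (x := z₀)
    rw [hf1 rfl]
    simp
  linarith

end Pool.Agent.H812R2.PI
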