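import Pool.Agent.H812R2.PI.UTot

namespace Pool.Agent.H812R2.PI
open scoped BigOperators
variable {d : ℕ}

theorem UDec_swap {α β : Type*} (l1 : List α) (l2 : List β) (f : α → β → ℝ) :
    (l1.map (fun a => (l2.map (fun b => f a b)).sum)).sum =
      (l2.map (fun b => (l1.map (fun a => f a b)).sum)).sum := by
  induction l1 with
  | nil => simp
  | cons a l ih => simp only [List.map_cons, List.sum_cons, ih, List.sum_map_add]

theorem UDec_flatMap {α β : Type*} (l : List α) (F : α → List β) (f : β → ℝ) :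
    ((l.flatMap F).map f).sum = (l.map (fun a => ((F a).map f).sum)).sum := by
  induction l with
  | nil => simp
  | cons a l ih =>
    rw [List.flatMap_cons, List.map_append, List.sum_append, ih, List.map_cons, List.sum_cons]

theorem UDec_Unc_ext {M : Matrix (Fin d) (Fin d) ℤ} (P : PD M) (τ : Fin d → List (Fin d))
    (z₁ z₂ : Fin d → ℤ) (w₁ w₂ : List (Fin d)) :
    P.Unc ((inc τ).mulVec z₁) (ext τ w₁) ((inc τ).mulVec z₂) (ext τ w₂) =
      ((edges z₁ w₁).map (fun e => ((edges z₂ w₂).map (fun f =>
        P.Unc ((inc τ).mulVec e.1) (τ e.2) ((inc τ).mulVec f.1) (τ f.2))).sum)).sum := by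
  unfold PD.Unc
  rw [edges_ext, edges_ext, UDec_flatMap]
  congr 1
  apply List.map_congr_left
  intro e _
  simp only [UDec_flatMap]
  rw [UDec_swap]

theorem UDec_ovl_nonneg (a b c e : ℝ) : 0 ≤ ovl a b c e := le_max_left _ _

theorem UDec_OV_nonneg {M : Matrix (Fin d) (Fin d) ℤ} (P : PD M) (e f : (Fin d → ℤ) × Fin d) :
    0 ≤ P.OV e f := UDec_ovl_nonneg _ _ _ _

theorem UDec_Unc_self {M : Matrix (Fin d) (Fin d) ℤ} (P : PD M) (z : Fin d → ℤ)
    (w : List (Fin d)) : P.Unc z w z w = 0 := by
  unfold PD.Unc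
  apply List.sum_eq_zero
  intro x hx
  rw [List.mem_map] at hx
  obtain ⟨e, he, rfl⟩ := hx
  apply List.sum_eq_zero
  intro y hy
  rw [List.mem_map] at hy
  obtain ⟨f, hf, rfl⟩ := hy
  split_ifs with h
  · rfl
  · exact OV_same_path P z w he hf h

theorem UDec_ovl_shift (a b c e t : ℝ) : ovl (a + t) (b + t) (c + t) (e + t) = ovl a b c e := by
  unfold ovl
  rw [min_add_add_right, max_add_add_right]
  congr 1
  ring

theorem UDec_ovl_mul (a b c e t : ℝ) (ht : 0 ≤ t) :
    ovl (t * a) (t * b) (t * c) (t * e) = t * ovl a b c e := by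
  unfold ovl
  rw [← mul_min_of_nonneg _ _ ht, ← mul_max_of_nonneg _ _ ht, ← mul_sub, mul_max_of_nonneg _ _ ht,
    mul_zero]

theorem UDec_OV_translate {M : Matrix (Fin d) (Fin d) ℤ} (P : PD M)
    (e f : (Fin d → ℤ) × Fin d) : P.OV (0, e.2) (f.1 - e.1, f.2) = P.OV e f := by
  unfold PD.OV
  have h1 : P.ht (f.1 - e.1) = P.ht f.1 - P.ht e.1 := by
    have := ht_add P (f.1 - e.1) e.1
    rw [sub_add_cancel] at this
    linarith
  rw [← UDec_ovl_shift _ _ _ _ (P.ht e.1)]
  simp only [ht_zero, h1]
  congr 1 <;> ring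

/-- lower and upper bounds of the tile lengths -/
theorem UDec_bounds {M : Matrix (Fin d) (Fin d) ℤ} (P : PD M) :
    ∃ lmin lmax : ℝ, 0 < lmin ∧ lmin ≤ lmax ∧ ∀ i, lmin ≤ P.ell i ∧ P.ell i ≤ lmax := by
  rcases isEmpty_or_nonempty (Fin d) with h | h
  · exact ⟨1, 1, one_pos, le_rfl, fun i => (h.false i).elim⟩
  · obtain ⟨i0, h0⟩ := Finite.exists_min P.ell
    obtain ⟨i1, h1⟩ := Finite.exists_max P.ell
    exact ⟨P.ell i0, P.ell i1, P.ell_pos i0, h0 i1, fun i => ⟨h0 i, h1 i⟩⟩

theorem UDec_step {σ : Fin d → List (Fin d)} (P : PD (inc σ)) (D lmin lmax : ℝ)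
    (h0 : 0 < lmin) (h1 : lmin ≤ lmax) (hl : ∀ i, lmin ≤ P.ell i ∧ P.ell i ≤ lmax)
    (hUC : P.UC σ D) (a b : Fin d) (v : Fin d → ℤ) (hv : P.N (rv v) ≤ D) :
    P.Unc 0 (σ a) ((inc σ).mulVec v) (σ b) ≤
      ((1 - lmin / (P.lam * lmax)) * P.lam) * P.OV (0, a) (v, b) := by
  have hlam : 0 < P.lam := lt_trans one_pos P.lam_gt
  have hlmax : 0 < lmax := lt_of_lt_of_le h0 h1
  set L1 := edges (0 : Fin d → ℤ) (σ a) with hL1
  set L2 := edges ((inc σ).mulVec v) (σ b) with hL2
  have hsplit : (L1.map (fun e => (L2.map (fun f => P.OV e f)).sum)).sum =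
      P.Unc 0 (σ a) ((inc σ).mulVec v) (σ b) +
      (L1.map (fun e => (L2.map (fun f => if e = f then P.OV e f else 0)).sum)).sum := by
    unfold PD.Unc
    rw [← List.sum_map_add]
    congr 1
    apply List.map_congr_left
    intro e _
    rw [← List.sum_map_add]
    congr 1
    apply List.map_congr_left
    intro f _
    split_ifs <;> simp
  have hta : ∀ a : Fin d, P.ht (ab (σ a)) = P.lam * P.ell a := by
    intro a
    rw [ab_subst, ht_mulVec, ht_ev]
  have hT : (L1.map (fun e => (L2.map (fun f => P.OV e f)).sum)).sum =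
      P.lam * P.OV (0, a) (v, b) := by
    rw [hL1, hL2, sum_OV_edges]
    unfold PD.OV
    rw [hta, hta, ht_mulVec, ← UDec_ovl_mul _ _ _ _ _ hlam.le]
    simp only [ht_zero]
    congr 1 <;> ring
  have hR0 : 0 ≤ (L1.map (fun e => (L2.map (fun f => if e = f then P.OV e f else 0)).sum)).sum := by
    apply List.sum_nonneg
    intro x hx
    rw [List.mem_map] at hx
    obtain ⟨e, he, rfl⟩ := hx
    apply List.sum_nonneg
    intro y hy
    rw [List.mem_map] at hy
    obtain ⟨f, hf, rfl⟩ := hy
    split_ifs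
    · exact UDec_OV_nonneg P e f
    · exact le_rfl
  rcases (UDec_OV_nonneg P (0, a) (v, b)).eq_or_lt with hz | hpos
  · rw [← hz] at hT ⊢
    rw [hsplit] at hT
    linarith
  · obtain ⟨g, hg1, hg2⟩ := hUC a b v hv hpos
    have hgg : P.OV g g = P.ell g.2 := by
      unfold PD.OV ovl
      rw [min_self, max_self]
      have := P.ell_pos g.2
      rw [max_eq_right (by linarith)]
      ring
    have hR : P.OV g g ≤
        (L1.map (fun e => (L2.map (fun f => if e = f then P.OV e f else 0)).sum)).sum := by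
      have a1 : P.OV g g ≤ (L2.map (fun f => if g = f then P.OV g f else 0)).sum := by
        have := List.single_le_sum (l := L2.map (fun f => if g = f then P.OV g f else 0))
          (by
            intro y hy
            rw [List.mem_map] at hy
            obtain ⟨f, hf, rfl⟩ := hy
            split_ifs
            · exact UDec_OV_nonneg P g f
            · exact le_rfl) (P.OV g g) (by
            rw [List.mem_map]
            exact ⟨g, hg2, by simp⟩)
        exact this
      have a2 : (L2.map (fun f => if g = f then P.OV g f else 0)).sum ≤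
          (L1.map (fun e => (L2.map (fun f => if e = f then P.OV e f else 0)).sum)).sum := by
        apply List.single_le_sum
        · intro x hx
          rw [List.mem_map] at hx
          obtain ⟨e, he, rfl⟩ := hx
          apply List.sum_nonneg
          intro y hy
          rw [List.mem_map] at hy
          obtain ⟨f, hf, rfl⟩ := hy
          split_ifs
          · exact UDec_OV_nonneg P e f
          · exact le_rfl
        · rw [List.mem_map]
          exact ⟨g, hg1, rfl⟩
      exact a1.trans a2
    have hOV : P.OV (0, a) (v, b) ≤ lmax := by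
      unfold PD.OV ovl
      simp only [ht_zero, zero_add]
      apply max_le hlmax.le
      have b1 : min (P.ell a) (P.ht v + P.ell b) ≤ P.ell a := min_le_left _ _
      have b2 : 0 ≤ max 0 (P.ht v) := le_max_left _ _
      have := (hl a).2
      linarith
    have h5 := (hl g.2).1
    have h6 : lmin / lmax * P.OV (0, a) (v, b) ≤ lmin := by
      rw [div_mul_eq_mul_div, div_le_iff₀ hlmax]
      exact mul_le_mul_of_nonneg_left hOV h0.le
    have h7 : ((1 - lmin / (P.lam * lmax)) * P.lam) * P.OV (0, a) (v, b) =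
        P.lam * P.OV (0, a) (v, b) - lmin / lmax * P.OV (0, a) (v, b) := by
      field_simp
    rw [h7]
    rw [hsplit] at hT
    linarith

theorem unc_le {σ : Fin d → List (Fin d)} (P : PD (inc σ)) (B D : ℝ)
    (hB : ∀ a k, P.N (rv (ab ((σ a).take k))) ≤ B) (hD : 2 * B ≤ (1 - P.rho) * D)
    (hUC : P.UC σ D) : ∃ θ : ℝ, 0 < θ ∧ θ < 1 ∧
      ∀ (m : ℕ) (a b : Fin d) (v : Fin d → ℤ), P.N (rv v) ≤ D →
        P.Unc 0 (iter σ m a) (((inc σ) ^ m).mulVec v) (iter σ m b)
          ≤ (θ * P.lam) ^ m * P.OV (0, a) (v, b) := by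
  obtain ⟨lmin, lmax, h0, h1, hl⟩ := UDec_bounds P
  have hlam : 0 < P.lam := lt_trans one_pos P.lam_gt
  have hlmax : 0 < lmax := lt_of_lt_of_le h0 h1
  have hθ1 : lmin / (P.lam * lmax) < 1 := by
    rw [div_lt_one (by positivity)]
    nlinarith [P.lam_gt]
  have hθ0 : 0 < lmin / (P.lam * lmax) := by positivity
  refine ⟨1 - lmin / (P.lam * lmax), by linarith, by linarith, ?_⟩
  set θ : ℝ := 1 - lmin / (P.lam * lmax) with hθ
  have hθpos : 0 < θ := by linarith
  intro m
  induction m with
  | zero =>
    intro a b v _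
    rw [iter_zero, iter_zero, pow_zero, pow_zero, one_mul, Matrix.one_mulVec]
    unfold PD.Unc
    simp only [edges, List.map_cons, List.map_nil, List.sum_cons, List.sum_nil, add_zero]
    split_ifs
    · exact UDec_OV_nonneg P _ _
    · exact le_rfl
  | succ m ih =>
    intro a b v hv
    have e1 : ∀ a : Fin d, iter σ (m + 1) a = ext (iter σ m) (σ a) := by
      intro a
      rw [iter_add, iter_succ, iter_zero]
      simp [ext]
    have e2 : ((inc σ) ^ (m + 1)).mulVec v = (inc (iter σ m)).mulVec ((inc σ).mulVec v) := by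
      rw [inc_iter, pow_succ, Matrix.mulVec_mulVec]
    have e3 : (0 : Fin d → ℤ) = (inc (iter σ m)).mulVec 0 := by rw [Matrix.mulVec_zero]
    rw [e1, e1, e2]
    conv_lhs => rw [e3]
    rw [UDec_Unc_ext]
    have hpair : ∀ e ∈ edges (0 : Fin d → ℤ) (σ a), ∀ f ∈ edges ((inc σ).mulVec v) (σ b),
        P.Unc ((inc (iter σ m)).mulVec e.1) (iter σ m e.2) ((inc (iter σ m)).mulVec f.1)
          (iter σ m f.2) ≤ (θ * P.lam) ^ m * (if e = f then 0 else P.OV e f) := by
      intro e he f hf
      split_ifs with hef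
      · subst hef
        rw [UDec_Unc_self, mul_zero]
      · have hN : P.N (rv (f.1 - e.1)) ≤ D := by
          obtain ⟨k, hk, rfl⟩ := mem_edges.1 he
          obtain ⟨k', hk', rfl⟩ := mem_edges.1 hf
          simp only [zero_add]
          rw [rv_sub, rv_add, rv_mulVec]
          have c1 := N_sub P (act (inc σ) (rv v) + rv (ab ((σ b).take k'))) (rv (ab ((σ a).take k)))
          have c2 := P.N_add (act (inc σ) (rv v)) (rv (ab ((σ b).take k')))
          have c3 := P.N_act (rv v)
          have c4 := hB a k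
          have c5 := hB b k'
          have c6 := mul_le_mul_of_nonneg_left hv P.rho_nonneg
          linarith
        have h9 := ih e.2 f.2 (f.1 - e.1) hN
        rw [UDec_OV_translate] at h9
        refine le_trans (le_of_eq ?_) h9
        have h10 := Unc_translate P ((inc (iter σ m)).mulVec e.1) 0
          ((inc (iter σ m)).mulVec (f.1 - e.1)) (iter σ m e.2) (iter σ m f.2)
        rw [← inc_iter, ← h10, zero_add, ← Matrix.mulVec_add, sub_add_cancel]
    calc _ ≤ ((edges (0 : Fin d → ℤ) (σ a)).map (fun e =>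
          ((edges ((inc σ).mulVec v) (σ b)).map (fun f =>
            (θ * P.lam) ^ m * (if e = f then 0 else P.OV e f))).sum)).sum := by
          apply List.sum_le_sum
          intro e he
          apply List.sum_le_sum
          intro f hf
          exact hpair e he f hf
      _ = (θ * P.lam) ^ m * P.Unc 0 (σ a) ((inc σ).mulVec v) (σ b) := by
          unfold PD.Unc
          rw [← List.sum_map_mul_left]
          congr 1
          apply List.map_congr_left
          intro e _
          rw [← List.sum_map_mul_left]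
      _ ≤ (θ * P.lam) ^ m * ((θ * P.lam) * P.OV (0, a) (v, b)) := by
          apply mul_le_mul_of_nonneg_left _ (by positivity)
          exact UDec_step P D lmin lmax h0 h1 hl hUC a b v hv
      _ = _ := by ring

end Pool.Agent.H812R2.PI
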