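import Pool.Agent.H812R2.PI.CUni
import Pool.Agent.H812R2.PI.TKron
import Pool.Agent.H812R2.PI.HGH
import Pool.Agent.H812R2.PI.DBd
import Pool.Agent.H812R2.PI.UDec

namespace Pool.Agent.H812R2.PI
open scoped BigOperators
open MeasureTheory

/-- the projection to the torus -/
noncomputable def ZSemi_pi {m : ℕ} (h : (ℤ → Fin (m+1)) → (Fin (m+1) → ℝ))
    (x : ℤ → Fin (m+1)) : Torus m := fun i => ((h x i.succ : ℝ) : UnitAddCircle)

/-- the translation vector -/
noncomputable def ZSemi_ga {m : ℕ} (u : Fin (m+1) → ℝ) : Torus m :=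
  fun i => ((-u i.succ : ℝ) : UnitAddCircle)

theorem ZSemi_coe_int (n : ℤ) : (((n : ℝ)) : UnitAddCircle) = 0 := by
  rw [AddCircle.coe_eq_zero_iff]
  exact ⟨n, by simp⟩

theorem ZSemi_shZ {m : ℕ} {σ : Fin (m+1) → List (Fin (m+1))} (P : PD (inc σ))
    (h : (ℤ → Fin (m+1)) → (Fin (m+1) → ℝ))
    (hcoc : ∀ x ∈ X σ, h (sh x) = h x + P.pr (rv (ev (x 0)))) (x : ℤ → Fin (m+1))
    (hx : x ∈ X σ) (k : ℤ) :
    ZSemi_pi h (shZ k x) = ZSemi_pi h x + k • ZSemi_ga P.u := by
  have h1 := cocycle_shZ P h hcoc x hx k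
  funext i
  have h2 := congrFun h1 i.succ
  have h3 : P.pr (rv (psum x k)) i.succ = (psum x k i.succ : ℝ) - (k : ℝ) * P.u i.succ := by
    have : ∑ j, rv (psum x k) j = (k : ℝ) := by
      have := psum_sum x k
      simp only [rv]
      exact_mod_cast this
    simp only [PD.pr, this]
    rfl
  simp only [Pi.add_apply, h3] at h2
  simp only [ZSemi_pi, ZSemi_ga, Pi.add_apply, Pi.smul_apply, h2]
  rw [AddCircle.coe_add, AddCircle.coe_sub, ZSemi_coe_int, zero_sub]
  congr 1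
  have : -((k : ℝ) * P.u i.succ) = k • (-P.u i.succ) := by
    rw [zsmul_eq_mul]
    ring
  rw [← AddCircle.coe_neg, this, AddCircle.coe_zsmul]

theorem ZSemi_same {m : ℕ} {σ : Fin (m+1) → List (Fin (m+1))} (P : PD (inc σ))
    (h : (ℤ → Fin (m+1)) → (Fin (m+1) → ℝ)) 
    (hsum : ∀ x ∈ X σ, ∑ i, h x i = 0) (x y : ℤ → Fin (m+1)) (hx : x ∈ X σ) (hy : y ∈ X σ)
    (he : ZSemi_pi h x = ZSemi_pi h y) : SameFib P h x y := by
  have h1 : ∀ i : Fin m, ∃ n : ℤ, (n : ℝ) = h y i.succ - h x i.succ := by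
    intro i
    have h2 := congrFun he i
    simp only [ZSemi_pi] at h2
    have h3 : ((h y i.succ - h x i.succ : ℝ) : UnitAddCircle) = 0 := by
      rw [AddCircle.coe_sub, h2, sub_self]
    rw [AddCircle.coe_eq_zero_iff] at h3
    obtain ⟨n, hn⟩ := h3
    exact ⟨n, by simpa using hn⟩
  choose n hn using h1
  refine ⟨Fin.cons (-∑ i, n i) n, ?_, ?_⟩
  · rw [Fin.sum_univ_succ]
    simp
  · have hs : ∑ j, rv (Fin.cons (-∑ i, n i) n : Fin (m+1) → ℤ) j = 0 := by
      rw [Fin.sum_univ_succ]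
      simp [rv]
    funext i
    simp only [PD.pr, hs, zero_mul, sub_zero, Pi.sub_apply]
    refine Fin.cases ?_ (fun i => ?_) i
    · have e1 := hsum x hx
      have e2 := hsum y hy
      rw [Fin.sum_univ_succ] at e1 e2
      simp only [rv, Fin.cons_zero, Int.cast_neg, Int.cast_sum, hn, Finset.sum_sub_distrib]
      linarith
    · simp only [rv, Fin.cons_succ, hn]

/-- measure-theoretic conclusion -/
theorem semiconj_of_count {m : ℕ} {σ : Fin (m+1) → List (Fin (m+1))} (P : PD (inc σ))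
    (h : (ℤ → Fin (m+1)) → (Fin (m+1) → ℝ)) (hcont : ContinuousOn h (X σ))
    (hcoc : ∀ x ∈ X σ, h (sh x) = h x + P.pr (rv (ev (x 0))))
    (hsum : ∀ x ∈ X σ, ∑ i, h x i = 0)
    (hcnt : ∀ ε > 0, ∃ n₀ : ℕ, ∀ n ≥ n₀, ∀ x ∈ X σ,
      ({k : ℕ | k < n ∧ ∃ y ∈ X σ, SameFib P h x y ∧ x k ≠ y k}.ncard : ℝ) ≤ ε * n) :
    SemiConjToral σ := by
  set π : (ℤ → Fin (m+1)) → Torus m := ZSemi_pi h with hπ
  set γ : Torus m := ZSemi_ga P.u with hγ
  have hmin : MinimalTranslation γ := minimal_rot P.u P.u_ind P.u_sum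
  have hπc : ContinuousOn π (X σ) := by
    rw [continuousOn_pi]
    intro i
    have h1 : ContinuousOn (fun x => h x i.succ) (X σ) := (continuousOn_pi.1 hcont) i.succ
    exact (AddCircle.continuous_mk' (1 : ℝ)).comp_continuousOn h1
  have hshZ : ∀ x ∈ X σ, ∀ k : ℤ, π (shZ k x) = π x + k • γ :=
    fun x hx k => ZSemi_shZ P h hcoc x hx k
  have hXc : IsCompact (X σ) := X_compact σ
  have hXcl : IsClosed (X σ) := X_closed σ
  have hsurj : π '' (X σ) = Set.univ := by
    obtain ⟨x₀, hx₀⟩ := X_nonempty P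
    have hcl : IsClosed (π '' (X σ)) := (hXc.image_of_continuousOn hπc).isClosed
    have hsub : {z : Torus m | ∃ n : ℕ, z = π x₀ + n • γ} ⊆ π '' (X σ) := by
      rintro z ⟨n, rfl⟩
      refine ⟨shZ n x₀, shZ_mem hx₀ n, ?_⟩
      rw [hshZ x₀ hx₀ n]
      simp
    have := closure_minimal hsub hcl
    rw [(hmin (π x₀)).closure_eq] at this
    exact Set.eq_univ_of_univ_subset this
  set Ex : Set (Torus m) := {t | ∃ x ∈ X σ, ∃ y ∈ X σ, π x = t ∧ π y = t ∧ x 0 ≠ y 0} with hEx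
  have hExc : IsClosed Ex := by
    have hK1 : IsClosed ((X σ ×ˢ X σ) ∩ (fun p : (ℤ → Fin (m+1)) × (ℤ → Fin (m+1)) =>
        π p.1 - π p.2) ⁻¹' {0}) := by
      have hc : ContinuousOn (fun p : (ℤ → Fin (m+1)) × (ℤ → Fin (m+1)) =>
          π p.1 - π p.2) (X σ ×ˢ X σ) :=
        (hπc.comp continuousOn_fst fun p hp => hp.1).sub
          (hπc.comp continuousOn_snd fun p hp => hp.2)
      exact hc.preimage_isClosed_of_isClosed (hXcl.prod hXcl) isClosed_singleton
    have hK2 : IsClosed {p : (ℤ → Fin (m+1)) × (ℤ → Fin (m+1)) | p.1 0 ≠ p.2 0} := by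
      have : Continuous fun p : (ℤ → Fin (m+1)) × (ℤ → Fin (m+1)) => (p.1 0, p.2 0) := by
        fun_prop
      have h2 : IsClosed {q : Fin (m+1) × Fin (m+1) | q.1 ≠ q.2} := isClosed_discrete _
      exact h2.preimage this
    have hK : IsCompact (((X σ ×ˢ X σ) ∩ (fun p : (ℤ → Fin (m+1)) × (ℤ → Fin (m+1)) =>
        π p.1 - π p.2) ⁻¹' {0}) ∩ {p | p.1 0 ≠ p.2 0}) := by
      refine (hXc.prod hXc).of_isClosed_subset (hK1.inter hK2) ?_
      intro p hp
      exact hp.1.1
    have himg : Ex = (fun p : (ℤ → Fin (m+1)) × (ℤ → Fin (m+1)) => π p.1) ''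
        (((X σ ×ˢ X σ) ∩ (fun p : (ℤ → Fin (m+1)) × (ℤ → Fin (m+1)) =>
        π p.1 - π p.2) ⁻¹' {0}) ∩ {p | p.1 0 ≠ p.2 0}) := by
      ext t
      constructor
      · rintro ⟨x, hx, y, hy, h1, h2, h3⟩
        refine ⟨(x, y), ⟨⟨⟨hx, hy⟩, ?_⟩, h3⟩, h1⟩
        simp [h1, h2]
      · rintro ⟨⟨x, y⟩, ⟨⟨⟨hx, hy⟩, h2⟩, h3⟩, h1⟩
        refine ⟨x, hx, y, hy, h1, ?_, h3⟩
        simp only [Set.mem_preimage, Set.mem_singleton_iff, sub_eq_zero] at h2
        rw [← h2]
        exact h1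
    rw [himg]
    exact (hK.image_of_continuousOn (hπc.comp continuousOn_fst fun p hp => hp.1.1.1)).isClosed
  have hExm : MeasurableSet Ex := hExc.measurableSet
  have hcount : ∀ ε > 0, ∃ n₀ : ℕ, ∀ n ≥ n₀, ∀ t : Torus m,
      ({k : ℕ | k < n ∧ t + k • γ ∈ Ex}.ncard : ℝ) ≤ ε * n := by
    intro ε hε
    obtain ⟨n₀, hn₀⟩ := hcnt ε hε
    refine ⟨n₀, fun n hn t => ?_⟩
    obtain ⟨z, hz, hzt⟩ : t ∈ π '' (X σ) := by
      rw [hsurj]
      trivial
    refine le_trans ?_ (hn₀ n hn z hz)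
    norm_cast
    refine Set.ncard_le_ncard ?_ ((Set.finite_Iio n).subset fun k hk => hk.1)
    rintro k ⟨hk, x1, hx1, y1, hy1, e1, e2, hne⟩
    refine ⟨hk, ?_⟩
    have hback : ∀ w ∈ X σ, π w = t + k • γ → π (shZ (-(k : ℤ)) w) = t := by
      intro w hw e
      rw [hshZ w hw, e]
      simp
    have hval : ∀ w : ℤ → Fin (m+1), shZ (-(k : ℤ)) w k = w 0 := by
      intro w
      simp [shZ]
    by_cases hzx : z k = shZ (-(k : ℤ)) x1 k
    · refine ⟨shZ (-(k : ℤ)) y1, shZ_mem hy1 _, ?_, ?_⟩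
      · refine ZSemi_same P h hsum z _ hz (shZ_mem hy1 _) ?_
        rw [← hπ, hzt, hback y1 hy1 e2]
      · rw [hzx, hval, hval]
        exact hne
    · refine ⟨shZ (-(k : ℤ)) x1, shZ_mem hx1 _, ?_, hzx⟩
      refine ZSemi_same P h hsum z _ hz (shZ_mem hx1 _) ?_
      rw [← hπ, hzt, hback x1 hx1 e1]
  have hpre : ∀ g : Torus m, volume ((fun t => t + g) ⁻¹' Ex) = volume Ex :=
    fun g => measure_preimage_add_right volume g Ex
  have hmeas : ∀ k : ℕ, MeasurableSet ((fun t : Torus m => t + k • γ) ⁻¹' Ex) :=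
    fun k => (measurable_add_const _) hExm
  have hnull : volume Ex = 0 := by
    have hprob : (volume : Measure (Torus m)) Set.univ = 1 := by
      rw [← Set.pi_univ Set.univ, volume_pi_pi]
      simp
    have hn : ∀ n : ℕ, (n : ENNReal) * volume Ex = ∫⁻ t : Torus m, ∑ k ∈ Finset.range n,
        ((fun t : Torus m => t + k • γ) ⁻¹' Ex).indicator 1 t := by
      intro n
      rw [lintegral_finsetSum]
      · have h1 : ∀ k : ℕ, ∫⁻ t : Torus m, ((fun t : Torus m => t + k • γ) ⁻¹' Ex).indicator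
            (1 : Torus m → ENNReal) t = volume Ex := by
          intro k
          rw [lintegral_indicator_one (hmeas k), hpre]
        simp [h1]
      · intro k _
        exact measurable_one.indicator (hmeas k)
    have hle : ∀ ε : ℝ, 0 < ε → volume Ex ≤ ENNReal.ofReal ε := by
      intro ε hε
      obtain ⟨n₀, hn₀⟩ := hcount ε hε
      have h1 : ((n₀ + 1 : ℕ) : ENNReal) * volume Ex ≤
          ((n₀ + 1 : ℕ) : ENNReal) * ENNReal.ofReal ε := by
        rw [hn]
        calc _ ≤ ∫⁻ _t : Torus m, ((n₀ + 1 : ℕ) : ENNReal) * ENNReal.ofReal ε := by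
              refine lintegral_mono fun t => ?_
              have h2 := hn₀ (n₀ + 1) (by omega) t
              classical
              have h3 : ∑ k ∈ Finset.range (n₀ + 1),
                  ((fun t : Torus m => t + k • γ) ⁻¹' Ex).indicator (1 : Torus m → ENNReal) t =
                  (({k : ℕ | k < n₀ + 1 ∧ t + k • γ ∈ Ex}.ncard : ℕ) : ENNReal) := by
                have h4 : {k : ℕ | k < n₀ + 1 ∧ t + k • γ ∈ Ex} =
                    ((Finset.range (n₀ + 1)).filter fun k => t + k • γ ∈ Ex : Finset ℕ) := by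
                  ext k
                  simp
                rw [h4, Set.ncard_coe_finset, Finset.card_filter]
                push_cast
                refine Finset.sum_congr rfl fun k _ => ?_
                by_cases hk : t + k • γ ∈ Ex
                · rw [Set.indicator_of_mem (by exact hk), if_pos hk]
                  rfl
                · rw [Set.indicator_of_notMem (by exact hk), if_neg hk]
              rw [h3]
              have h5 : (({k : ℕ | k < n₀ + 1 ∧ t + k • γ ∈ Ex}.ncard : ℕ) : ENNReal) =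
                  ENNReal.ofReal ({k : ℕ | k < n₀ + 1 ∧ t + k • γ ∈ Ex}.ncard : ℝ) := by
                rw [ENNReal.ofReal_natCast]
              have h6 : ((n₀ + 1 : ℕ) : ENNReal) * ENNReal.ofReal ε =
                  ENNReal.ofReal (ε * (n₀ + 1 : ℕ)) := by
                rw [ENNReal.ofReal_mul hε.le, ENNReal.ofReal_natCast, mul_comm]
              rw [h5, h6]
              exact ENNReal.ofReal_le_ofReal h2
          _ = _ := by
              rw [lintegral_const, hprob, mul_one]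
      have h7 : ((n₀ + 1 : ℕ) : ENNReal) ≠ 0 := by simp
      have h8 : ((n₀ + 1 : ℕ) : ENNReal) ≠ ⊤ := ENNReal.natCast_ne_top _
      exact (ENNReal.mul_le_mul_iff_right h7 h8).1 h1
    by_contra hne
    have hpos : 0 < volume Ex := pos_iff_ne_zero.2 hne
    have hfin : volume Ex ≠ ⊤ := (lt_of_le_of_lt (hle 1 one_pos) (by simp)).ne
    have h9 := hle ((volume Ex).toReal / 2) (half_pos (ENNReal.toReal_pos hne hfin))
    have h10 : volume Ex = ENNReal.ofReal (volume Ex).toReal := (ENNReal.ofReal_toReal hfin).symm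
    rw [h10] at h9
    have h11 := (ENNReal.ofReal_le_ofReal_iff (by positivity)).1 h9
    rw [ENNReal.toReal_ofReal ENNReal.toReal_nonneg] at h11
    linarith [ENNReal.toReal_pos hne hfin]
  refine ⟨m, γ, hmin, π, hπc, hsurj, ?_, ⋃ k : ℤ, (fun t : Torus m => t + k • γ) ⁻¹' Ex, ?_, ?_⟩
  · intro x hx
    have := hshZ x hx 1
    rwa [one_zsmul] at this
  · refine measure_iUnion_null fun k => ?_
    rw [hpre, hnull]
  · intro t ht
    obtain ⟨x, hx, hxt⟩ : t ∈ π '' (X σ) := by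
      rw [hsurj]
      trivial
    refine ⟨x, ⟨hx, hxt⟩, ?_⟩
    rintro y ⟨hy, hyt⟩
    by_contra hne
    obtain ⟨k, hk⟩ := Function.ne_iff.1 hne
    apply ht
    rw [Set.mem_iUnion]
    refine ⟨k, shZ k y, shZ_mem hy k, shZ k x, shZ_mem hx k, ?_, ?_, ?_⟩
    · rw [hshZ y hy, hyt]
    · rw [hshZ x hx, hxt]
    · simpa [shZ] using hk

theorem semiconj_of_UC {m : ℕ} {σ : Fin (m+1) → List (Fin (m+1))} (P : PD (inc σ))
    (hdet : IsUnit (inc σ).det) (B D : ℝ)
    (hB : ∀ a k, P.N (rv (ab ((σ a).take k))) ≤ B)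
    (hD1 : 2 * B ≤ (1 - P.rho) * D) (hD2 : 8 * P.c ^ 2 * B ≤ (1 - P.rho) * D)
    (hUC : P.UC σ D) : SemiConjToral σ := by
  have hr : 0 < 1 - P.rho := by linarith [P.rho_lt]
  set K : ℝ := P.c * (2 * B / (1 - P.rho)) with hK
  have hlang : ∀ w ∈ lang σ, ∀ i, |(ab w i : ℝ) - (w.length : ℝ) * P.u i| ≤ K := by
    intro w hw i
    have h1 := P.le_cN (rv (ab w)) i
    have h2 : ∑ j, rv (ab w) j = (w.length : ℝ) := by
      have := ab_sum w
      simp only [rv]
      exact_mod_cast this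
    rw [h2] at h1
    refine h1.trans ?_
    exact mul_le_mul_of_nonneg_left (lang_N_le P B hB w hw) P.c_pos.le
  obtain ⟨h, hcont, hcoc, hsum, hhb⟩ := exists_h P K hlang
  obtain ⟨θ, hθ0, hθ1, hU⟩ := unc_le P B D hB hD1 hUC
  have hbd : ∀ x ∈ X σ, ∀ y ∈ X σ, ∀ v : Fin (m+1) → ℤ, P.pr (rv v) = h y - h x →
      P.N (rv v) ≤ D := by
    intro x hx y hy v hv
    have h1 : P.N (rv v) ≤ P.c * (4 * K) := by
      refine P.N_le _ _ fun i => ?_
      have h2 := congrFun hv i
      simp only [PD.pr, Pi.sub_apply] at h2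
      rw [h2]
      have h3 := hhb x hx i
      have h4 := hhb y hy i
      have h5 := abs_sub (h y i) (h x i)
      linarith
    refine h1.trans ?_
    have h6 : P.c * (4 * K) = (8 * P.c ^ 2 * B) / (1 - P.rho) := by
      rw [hK]
      field_simp
      ring
    rw [h6, div_le_iff₀ hr]
    linarith
  obtain ⟨C, hC, hblk⟩ := block_count P hdet D θ hθ0 hU h hcont hcoc hsum hbd
  exact semiconj_of_count P h hcont hcoc hsum (uniform_count P h θ C hθ0 hθ1 hC hblk)

end Pool.Agent.H812R2.PI
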