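import Pool.Agent.H812R2.PI.GSurg
import Pool.Agent.H812R2.PI.GBad
import Pool.Agent.H812R2.PI.GGeom
import Pool.Agent.H812R2.PI.ZSemi
import Pool.Agent.H812R2.PI.LPD

namespace Pool.Agent.H812R2.PI
open scoped BigOperators

/-- a finite sum of exponentially small sequences -/
theorem GFin_sum {ι : Type*} (s : Finset ι) (f : ι → ℕ → ℝ) (x : ℕ → ℝ)
    (hx : Filter.Tendsto x Filter.atTop Filter.atTop)
    (h : ∀ t ∈ s, ∃ c : ℝ, 0 < c ∧ ∀ᶠ n in Filter.atTop, f t n ≤ Real.exp (-(c * x n))) :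
    ∃ c : ℝ, 0 < c ∧ ∀ᶠ n in Filter.atTop, ∑ t ∈ s, f t n ≤ Real.exp (-(c * x n)) := by
  classical
  induction s using Finset.induction_on with
  | empty =>
    refine ⟨1, one_pos, Filter.Eventually.of_forall fun n => ?_⟩
    simp [Real.exp_nonneg]
  | insert a s ha ih =>
    obtain ⟨c1, hc1, h1⟩ := h a (Finset.mem_insert_self _ _)
    obtain ⟨c2, hc2, h2⟩ := ih (fun t ht => h t (Finset.mem_insert_of_mem ht))
    set c := min c1 c2 with hc
    have hcpos : 0 < c := lt_min hc1 hc2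
    refine ⟨c / 2, by positivity, ?_⟩
    have h3 : ∀ᶠ n in Filter.atTop, 2 * Real.log 2 / c ≤ x n := hx.eventually_ge_atTop _
    filter_upwards [h1, h2, h3, hx.eventually_ge_atTop 0] with n e1 e2 e3 e4
    rw [Finset.sum_insert ha]
    have a1 : Real.exp (-(c1 * x n)) ≤ Real.exp (-(c * x n)) := by
      apply Real.exp_le_exp.mpr
      have : c ≤ c1 := min_le_left _ _
      nlinarith
    have a2 : Real.exp (-(c2 * x n)) ≤ Real.exp (-(c * x n)) := by
      apply Real.exp_le_exp.mpr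
      have : c ≤ c2 := min_le_right _ _
      nlinarith
    have a3 : 2 * Real.exp (-(c * x n)) ≤ Real.exp (-(c / 2 * x n)) := by
      have : (2:ℝ) = Real.exp (Real.log 2) := (Real.exp_log (by norm_num)).symm
      calc 2 * Real.exp (-(c * x n)) = Real.exp (Real.log 2) * Real.exp (-(c * x n)) := by
            rw [← this]
        _ = Real.exp (Real.log 2 + -(c * x n)) := (Real.exp_add _ _).symm
        _ ≤ _ := by
            apply Real.exp_le_exp.mpr
            rw [div_le_iff₀ hcpos] at e3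
            nlinarith
    linarith

theorem GFin_pow_nonneg {d : ℕ} (M : Matrix (Fin d) (Fin d) ℤ) (hnn : ∀ i j, 0 ≤ M i j) (n : ℕ) :
    ∀ i j, 0 ≤ (M ^ n) i j := by
  induction n with
  | zero =>
    intro i j; rw [pow_zero, Matrix.one_apply]; split_ifs <;> norm_num
  | succ n ih =>
    intro i j
    rw [pow_succ, Matrix.mul_apply]
    exact Finset.sum_nonneg fun k _ => mul_nonneg (ih i k) (hnn k j)

theorem GFin_dis_N {d : ℕ} {M : Matrix (Fin d) (Fin d) ℤ} (P : PD M) (B : ℝ) (hB : 0 ≤ B)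
    (x : Fin d → ℤ) (h : dis P.u x ≤ B ^ 2) : P.N (rv x) ≤ P.c * B := by
  apply P.N_le
  intro i
  have h1 : ((x i : ℝ) - (∑ j, (x j : ℝ)) * P.u i) ^ 2 ≤ B ^ 2 := by
    refine le_trans ?_ h
    unfold dis
    exact Finset.single_le_sum (f := fun i => ((x i : ℝ) - (∑ j, (x j : ℝ)) * P.u i) ^ 2)
      (fun i _ => sq_nonneg _) (Finset.mem_univ i)
  have := abs_le_of_sq_le_sq h1 hB
  simpa [rv] using this

theorem GFin_N_dis {d : ℕ} {M : Matrix (Fin d) (Fin d) ℤ} (P : PD M) 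
    (x : Fin d → ℤ) : dis P.u x ≤ d * (P.c * P.N (rv x)) ^ 2 := by
  unfold dis
  calc ∑ i, ((x i : ℝ) - (∑ j, (x j : ℝ)) * P.u i) ^ 2 ≤ ∑ _i : Fin d, (P.c * P.N (rv x)) ^ 2 := by
        apply Finset.sum_le_sum
        intro i _
        have h := P.le_cN (rv x) i
        simp only [rv] at h
        rw [← sq_abs]
        exact pow_le_pow_left₀ (abs_nonneg _) h 2
    _ = _ := by simp

/-- the set of substitutions for which the pair `(0,a)`, `(v,b)` has no coincidence -/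
def BadSet {d : ℕ} {M : Matrix (Fin d) (Fin d) ℤ} (P : PD M) (B : ℝ) (n : ℕ) (a b : Fin d)
    (v : Fin d → ℤ) : Set (Fin d → List (Fin d)) :=
  {σ | (0 < P.OV (0, a) (v, b) ∧ ¬ (v = 0 ∧ a = b)) ∧ σ ∈ SubSet P.u (M ^ n) B ∧
    ¬ ∃ e, e ∈ edges 0 (σ a) ∧ e ∈ edges ((M ^ n).mulVec v) (σ b)}

theorem GFin_sum_col {d : ℕ} {M : Matrix (Fin d) (Fin d) ℤ} (P : PD M)
    (hnn : ∀ i j, 0 ≤ M i j) : ∃ C : ℝ, 0 < C ∧ ∀ n : ℕ,
      ∑ i, ∑ j, ((M ^ n) i j : ℝ) ≤ C * P.lam ^ n := by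
  have hne : (Finset.univ : Finset (Fin d)).Nonempty := by
    by_contra h
    rw [Finset.not_nonempty_iff_eq_empty] at h
    have := P.u_sum
    rw [h] at this; simp at this
  obtain ⟨i0, -, hi0⟩ := Finset.exists_min_image Finset.univ P.ell hne
  have hpos := P.ell_pos i0
  refine ⟨(∑ j, P.ell j) / P.ell i0, div_pos (Finset.sum_pos (fun j _ => P.ell_pos j) hne) hpos, ?_⟩
  intro n
  rw [Finset.sum_comm]
  have key : ∀ j, P.ell i0 * ∑ i, ((M ^ n) i j : ℝ) ≤ P.lam ^ n * P.ell j := by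
    intro j
    have h1 := ht_pow_mulVec P n (ev j)
    rw [ht_ev] at h1
    rw [← h1, Finset.mul_sum]
    unfold PD.ht
    apply Finset.sum_le_sum
    intro i _
    have h2 : (M ^ n).mulVec (ev j) i = (M ^ n) i j := by
      simp [Matrix.mulVec, dotProduct, ev]
    rw [h2]
    have h3 : (0:ℝ) ≤ ((M ^ n) i j : ℝ) := by exact_mod_cast GFin_pow_nonneg M hnn n i j
    exact mul_le_mul_of_nonneg_right (hi0 i (Finset.mem_univ i)) h3
  have h4 : P.ell i0 * ∑ j, ∑ i, ((M ^ n) i j : ℝ) ≤ P.lam ^ n * ∑ j, P.ell j := by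
    rw [Finset.mul_sum, Finset.mul_sum]
    exact Finset.sum_le_sum fun j _ => key j
  rw [div_mul_eq_mul_div, le_div_iff₀ hpos]
  linarith

theorem GFin_bad {d : ℕ} {M : Matrix (Fin d) (Fin d) ℤ} (P : PD M) (B : ℝ) (K : ℕ) (hK : 0 < K)
    (hsurg : SurgProp P.u B K) (a b : Fin d) (v : Fin d → ℤ) :
    ∃ c : ℝ, 0 < c ∧ ∀ᶠ n in Filter.atTop,
      ((BadSet P B n a b v).ncard : ℝ) / ((SubSet P.u (M ^ n) B).ncard : ℝ) ≤
        Real.exp (-(c * P.lam ^ n)) := by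
  by_cases hcond : 0 < P.OV (0, a) (v, b) ∧ ¬ (v = 0 ∧ a = b)
  swap
  · refine ⟨1, one_pos, Filter.Eventually.of_forall fun n => ?_⟩
    have : BadSet P B n a b v = ∅ := by
      ext σ; simp only [BadSet, Set.mem_ofPred_eq, Set.mem_empty_iff_false, iff_false]
      exact fun h => hcond h.1
    rw [this]; simp [Real.exp_nonneg]
  obtain ⟨c, hc, n0, hgeo⟩ := geom P a b v hcond.1 hcond.2
  have hd : 0 < d := Fin.pos a
  set q : ℝ := 1 / ((d : ℝ) ^ (2 * K)) with hq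
  have hd1 : (1:ℝ) ≤ (d : ℝ) ^ (2 * K) := one_le_pow₀ (by exact_mod_cast hd)
  have hq0 : 0 < q := by rw [hq]; positivity
  have hq1 : q ≤ 1 := by rw [hq]; exact (div_le_one (by positivity)).mpr hd1
  have hKr : (0:ℝ) < K := by exact_mod_cast hK
  have hlam : Filter.Tendsto (fun n : ℕ => P.lam ^ n) Filter.atTop Filter.atTop :=
    tendsto_pow_atTop_atTop_of_one_lt P.lam_gt
  refine ⟨q * c / (2 * K), by positivity, ?_⟩
  filter_upwards [Filter.eventually_ge_atTop n0, hlam.eventually_ge_atTop (2 * K / c)]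
    with n hn hbig
  obtain ⟨hdis, hJ⟩ := hgeo n hn
  set x : ℝ := P.lam ^ n with hx
  have hxpos : 0 < x := pow_pos (lt_trans one_pos P.lam_gt) n
  set J : ℕ := ⌊c * x / K⌋₊ with hJdef
  have hJ1 : (J : ℝ) ≤ c * x / K := Nat.floor_le (by positivity)
  have hJ2 : c * x / K < J + 1 := Nat.lt_floor_add_one _
  have hKJ : ((K * J : ℕ) : ℝ) ≤ c * x := by
    push_cast
    rw [le_div_iff₀ hKr] at hJ1
    linarith
  obtain ⟨T, t1, t2, t3, t4, t5⟩ := hJ (K * J) hKJ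
  have hbc := bad_count P.u (M ^ n) B K hK hsurg a b ((M ^ n).mulVec v) hdis T J t1
    (by push_cast at t2; exact t2) t3 (by push_cast at t4; exact t4)
    (by intro hab; have := t5 hab; push_cast at this; exact this)
  have hsub : BadSet P B n a b v ⊆ {σ | σ ∈ SubSet P.u (M ^ n) B ∧
      ¬ ∃ e, e ∈ edges 0 (σ a) ∧ e ∈ edges ((M ^ n).mulVec v) (σ b)} := fun σ h => h.2
  have hfin : ({σ | σ ∈ SubSet P.u (M ^ n) B ∧
      ¬ ∃ e, e ∈ edges 0 (σ a) ∧ e ∈ edges ((M ^ n).mulVec v) (σ b)} :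
        Set (Fin d → List (Fin d))).Finite :=
    (subSet_finite P.u (M ^ n) B).subset fun σ h => h.1
  have hcard : ((BadSet P B n a b v).ncard : ℝ) ≤ (1 - q) ^ J * ((SubSet P.u (M ^ n) B).ncard : ℝ) := by
    refine le_trans ?_ hbc
    exact_mod_cast Set.ncard_le_ncard hsub hfin
  have h1q : (1 - q) ^ J ≤ Real.exp (-(q * c / (2 * K) * x)) := by
    have e1 : 1 - q ≤ Real.exp (-q) := by
      have := Real.add_one_le_exp (-q); linarith
    calc (1 - q) ^ J ≤ (Real.exp (-q)) ^ J := pow_le_pow_left₀ (by linarith) e1 J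
      _ = Real.exp (-(q * J)) := by rw [← Real.exp_nat_mul]; ring_nf
      _ ≤ _ := by
        apply Real.exp_le_exp.mpr
        have h5 : c * x / K / 2 ≤ J := by
          have : 2 ≤ c * x / K := by
            rw [le_div_iff₀ hKr]
            rw [div_le_iff₀ hc] at hbig
            linarith
          linarith
        have h6 : q * (c * x / K / 2) ≤ q * J := mul_le_mul_of_nonneg_left h5 hq0.le
        have h7 : q * c / (2 * K) * x = q * (c * x / K / 2) := by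
          field_simp
        rw [h7]; linarith
  rcases Nat.eq_zero_or_pos (SubSet P.u (M ^ n) B).ncard with h0 | h0
  · rw [h0]; simp [Real.exp_nonneg]
  · have h0' : (0:ℝ) < ((SubSet P.u (M ^ n) B).ncard : ℝ) := by exact_mod_cast h0
    rw [div_le_iff₀ h0']
    refine le_trans hcard ?_
    exact mul_le_mul_of_nonneg_right h1q h0'.le

theorem GFin_nonempty {d : ℕ} {M : Matrix (Fin d) (Fin d) ℤ} (P : PD M)
    (hnn : ∀ i j, 0 ≤ M i j) (B : ℝ) (L : ℕ)
    (hL : ∀ z : Fin d → ℤ, dis P.u z ≤ 1 → (L : ℤ) ≤ ∑ i, z i →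
      ∃ w : List (Fin d), ab w = z ∧ ∀ k, dis P.u (ab (w.take k)) ≤ B ^ 2) :
    ∀ᶠ n in Filter.atTop, (SubSet P.u (M ^ n) B).Nonempty := by
  have key : ∀ a : Fin d, ∀ᶠ n in Filter.atTop, dis P.u ((M ^ n).mulVec (ev a)) ≤ 1 ∧
      (L : ℤ) ≤ ∑ i, (M ^ n).mulVec (ev a) i := by
    intro a
    have hrho : Filter.Tendsto (fun n : ℕ => (d:ℝ) * (P.c * (P.rho ^ n * P.N (rv (ev a)))) ^ 2)
        Filter.atTop (nhds ((d:ℝ) * (P.c * (0 * P.N (rv (ev a)))) ^ 2)) := by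
      have := tendsto_pow_atTop_nhds_zero_of_lt_one P.rho_nonneg P.rho_lt
      exact (((this.mul_const _).const_mul _).pow 2).const_mul _
    have h0 : (d:ℝ) * (P.c * (0 * P.N (rv (ev a)))) ^ 2 = 0 := by simp
    rw [h0] at hrho
    have h1 := hrho.eventually (gt_mem_nhds (show (0:ℝ) < 1 by norm_num))
    -- maximum of ell
    obtain ⟨C, hC⟩ : ∃ C : ℝ, ∀ i, P.ell i ≤ C := ⟨∑ j, P.ell j, fun i =>
      Finset.single_le_sum (f := P.ell) (fun j _ => (P.ell_pos j).le) (Finset.mem_univ i)⟩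
    have hCpos : 0 < C := lt_of_lt_of_le (P.ell_pos a) (hC a)
    have hlam : Filter.Tendsto (fun n : ℕ => P.lam ^ n * P.ell a) Filter.atTop Filter.atTop :=
      (tendsto_pow_atTop_atTop_of_one_lt P.lam_gt).atTop_mul_const (P.ell_pos a)
    filter_upwards [h1, hlam.eventually_ge_atTop (C * L)] with n e1 e2
    constructor
    · refine le_trans (GFin_N_dis P _) (le_trans ?_ e1.le)
      apply mul_le_mul_of_nonneg_left _ (Nat.cast_nonneg d)
      apply pow_le_pow_left₀ (mul_nonneg P.c_pos.le (P.N_nonneg _))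
      exact mul_le_mul_of_nonneg_left (N_pow_mulVec P n (ev a)) P.c_pos.le
    · have h3 := ht_pow_mulVec P n (ev a)
      rw [ht_ev] at h3
      have h4 : P.ht ((M ^ n).mulVec (ev a)) ≤ C * ∑ i, ((M ^ n).mulVec (ev a) i : ℝ) := by
        unfold PD.ht
        rw [Finset.mul_sum]
        apply Finset.sum_le_sum
        intro i _
        have h2 : (M ^ n).mulVec (ev a) i = (M ^ n) i a := by
          simp [Matrix.mulVec, dotProduct, ev]
        rw [h2]
        exact mul_le_mul_of_nonneg_right (hC i) (by exact_mod_cast GFin_pow_nonneg M hnn n i a)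
      have h5 : C * (L:ℝ) ≤ C * ∑ i, ((M ^ n).mulVec (ev a) i : ℝ) := by linarith
      have h6 := le_of_mul_le_mul_left h5 hCpos
      exact_mod_cast h6
  have hall : ∀ᶠ n in Filter.atTop, ∀ a : Fin d, dis P.u ((M ^ n).mulVec (ev a)) ≤ 1 ∧
      (L : ℤ) ≤ ∑ i, (M ^ n).mulVec (ev a) i := Filter.eventually_all.mpr key
  filter_upwards [hall] with n hn
  choose w hw1 hw2 using fun a => hL _ (hn a).1 (hn a).2
  refine ⟨w, ?_, fun a k => hw2 a k⟩
  ext i j
  have := congrFun (hw1 j) i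
  simp only [ab] at this
  simp only [inc, this]
  simp [Matrix.mulVec, dotProduct, ev]

/-- lack of uniform coincidence puts the substitution in one of finitely many bad sets -/
theorem GFin_coverUC {d : ℕ} {M : Matrix (Fin d) (Fin d) ℤ} (P : PD M)
    (B D : ℝ) (n : ℕ) (hn : 1 ≤ n)
    (σ : Fin d → List (Fin d)) (hσ : σ ∈ SubSet P.u (M ^ n) B)
    (hbad : ¬ (P.pow n hn).UC σ D) :
    ∃ (a b : Fin d) (v : Fin d → ℤ),
      P.N (rv v) ≤ D ∧ |P.ht v| ≤ ∑ j, P.ell j ∧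
      σ ∈ BadSet P B n a b v := by
  have hinc : inc σ = M ^ n := hσ.1
  obtain ⟨a, b, v, h1, h2, h3⟩ : ∃ (a b : Fin d) (v : Fin d → ℤ), P.N (rv v) ≤ D ∧
      0 < P.OV (0, a) (v, b) ∧ ¬ ∃ e, e ∈ edges 0 (σ a) ∧ e ∈ edges ((M ^ n).mulVec v) (σ b) := by
    by_contra hcon
    apply hbad
    intro a b v hv hov
    by_contra hno
    exact hcon ⟨a, b, v, hv, hov, hno⟩
  have hov : 0 < P.OV (0, a) (v, b) := h2
  refine ⟨a, b, v, h1, ?_, ⟨⟨hov, ?_⟩, hσ, h3⟩⟩
  · -- height bound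
    unfold PD.OV ovl at hov
    have h4 : 0 < min (P.ht 0 + P.ell a) (P.ht v + P.ell b) - max (P.ht 0) (P.ht v) := by
      by_contra h
      push Not at h
      rw [max_eq_left h] at hov
      exact lt_irrefl _ hov
    rw [ht_zero] at h4
    have h5 : max 0 (P.ht v) < min (0 + P.ell a) (P.ht v + P.ell b) := by linarith
    have h6 : P.ht v < P.ell a := by
      have := lt_of_le_of_lt (le_max_right _ _) (lt_of_lt_of_le h5 (min_le_left _ _)); linarith
    have h7 : 0 < P.ht v + P.ell b :=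
      lt_of_le_of_lt (le_max_left _ _) (lt_of_lt_of_le h5 (min_le_right _ _))
    have h8 : ∀ i, P.ell i ≤ ∑ j, P.ell j := fun i =>
      Finset.single_le_sum (f := P.ell) (fun j _ => (P.ell_pos j).le) (Finset.mem_univ i)
    rw [abs_le]; constructor
    · have := h8 b; linarith
    · have := h8 a; linarith
  · rintro ⟨rfl, rfl⟩
    apply h3
    rw [Matrix.mulVec_zero]
    have hne : σ a ≠ [] := by
      intro hnil
      have h9 := (P.pow n hn).ell_M a
      have : ∀ i, (M ^ n) i a = 0 := by intro i; rw [← hinc]; simp [inc, hnil]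
      simp only [this] at h9
      have h10 : P.lam ^ n * P.ell a = 0 := by
        simp only [Int.cast_zero, mul_zero, Finset.sum_const_zero] at h9
        exact h9.symm
      rcases mul_eq_zero.mp h10 with h9 | h9
      · exact absurd h9 (ne_of_gt (pow_pos (lt_trans one_pos P.lam_gt) n))
      · exact absurd h9 (ne_of_gt (P.ell_pos a))
    obtain ⟨x, l, hxl⟩ := List.exists_cons_of_ne_nil hne
    exact ⟨(0, x), by rw [hxl]; simp [edges], by rw [hxl]; simp [edges]⟩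

/-- uniform coincidence implies the toral translation model -/
theorem GFin_semi {m : ℕ} {M : Matrix (Fin (m+1)) (Fin (m+1)) ℤ} (P : PD M)
    (hdet : IsUnit M.det) (B D : ℝ) (hB : 0 ≤ B) (hD : (16 * P.c ^ 2 + 4) * (P.c * B) ≤ D)
    (n : ℕ) (hn : 1 ≤ n) (hrho : P.rho ^ n ≤ 1 / 2)
    (σ : Fin (m+1) → List (Fin (m+1))) (hσ : σ ∈ SubSet P.u (M ^ n) B)
    (hUC : (P.pow n hn).UC σ D) : SemiConjToral σ := by
  have hinc : inc σ = M ^ n := hσ.1
  have hcB : 0 ≤ P.c * B := mul_nonneg P.c_pos.le hB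
  have hD0 : 0 ≤ D := le_trans (by positivity) hD
  have key : ∀ (A : Matrix (Fin (m+1)) (Fin (m+1)) ℤ) (hA : inc σ = A) (Q : PD A),
      IsUnit A.det → (∀ a k, Q.N (rv (ab ((σ a).take k))) ≤ P.c * B) →
      2 * (P.c * B) ≤ (1 - Q.rho) * D → 8 * Q.c ^ 2 * (P.c * B) ≤ (1 - Q.rho) * D →
      Q.UC σ D → SemiConjToral σ := by
    intro A hA Q hdA h1 h2 h3 h4
    subst hA
    exact semiconj_of_UC Q hdA (P.c * B) D h1 h2 h3 h4
  have h12 : (1/2 : ℝ) * D ≤ (1 - P.rho ^ n) * D :=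
    mul_le_mul_of_nonneg_right (by linarith) hD0
  exact key (M ^ n) hinc (P.pow n hn) (by rw [Matrix.det_pow]; exact hdet.pow n)
    (fun a k => GFin_dis_N P B hB _ (hσ.2 a k))
    (by
      change 2 * (P.c * B) ≤ (1 - P.rho ^ n) * D
      refine le_trans ?_ h12
      nlinarith [sq_nonneg P.c, mul_nonneg (sq_nonneg P.c) hcB])
    (by
      change 8 * P.c ^ 2 * (P.c * B) ≤ (1 - P.rho ^ n) * D
      refine le_trans ?_ h12
      nlinarith [sq_nonneg P.c, mul_nonneg (sq_nonneg P.c) hcB]) hUC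

/-- almost all substitutions with incidence matrix `M^n` and bounded discrepancy have uniform
coincidences -/
theorem generic_UC {d : ℕ} (M : Matrix (Fin d) (Fin d) ℤ)
    (hnn : ∀ i j, 0 ≤ M i j) (P : PD M) :
    ∃ B₀ : ℝ, ∀ B ≥ B₀, ∀ D : ℝ, ∃ c : ℝ, 0 < c ∧ ∃ n₀ : ℕ, 1 ≤ n₀ ∧ ∀ n ≥ n₀, ∀ hn : 1 ≤ n,
      (SubSet P.u (M ^ n) B).Finite ∧ (SubSet P.u (M ^ n) B).Nonempty ∧
      ({σ | σ ∈ SubSet P.u (M ^ n) B ∧ ¬ (P.pow n hn).UC σ D}.ncard : ℝ) ≤
        Real.exp (-(c * ∑ i, ∑ j, ((M ^ n) i j : ℝ))) * ((SubSet P.u (M ^ n) B).ncard : ℝ) := by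
  obtain ⟨B1, hB1⟩ := surgery P.u P.u_pos P.u_sum
  obtain ⟨B2, hB2⟩ := exists_path P.u P.u_pos P.u_sum
  refine ⟨max B1 B2, fun B hB D => ?_⟩
  have hBB1 : B ≥ B1 := le_trans (le_max_left _ _) hB
  have hBB2 : B ≥ B2 := le_trans (le_max_right _ _) hB
  obtain ⟨K, hK, hS⟩ := hB1 B hBB1
  obtain ⟨L, hL⟩ := hB2 B hBB2
  have hWfin := window_finite P D (∑ j, P.ell j)
  set W := hWfin.toFinset with hW
  set S : Finset (Fin d × Fin d × (Fin d → ℤ)) :=
    Finset.univ ×ˢ (Finset.univ ×ˢ W) with hSdef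
  have hlamt : Filter.Tendsto (fun n : ℕ => P.lam ^ n) Filter.atTop Filter.atTop :=
    tendsto_pow_atTop_atTop_of_one_lt P.lam_gt
  obtain ⟨c1, hc1, hsum⟩ := GFin_sum S (fun t n =>
    ((BadSet P B n t.1 t.2.1 t.2.2).ncard : ℝ) / ((SubSet P.u (M ^ n) B).ncard : ℝ))
    (fun n => P.lam ^ n) hlamt (fun t _ => GFin_bad P B K hK hS t.1 t.2.1 t.2.2)
  obtain ⟨C, hC, hcol⟩ := GFin_sum_col P hnn
  refine ⟨c1 / C, by positivity, ?_⟩
  have hev := (hsum.and (GFin_nonempty P hnn B L hL))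
  obtain ⟨n0, hn0⟩ := Filter.eventually_atTop.mp hev
  refine ⟨max n0 1, le_max_right _ _, fun n hn hn1 => ?_⟩
  obtain ⟨e1, e3⟩ := hn0 n (le_trans (le_max_left _ _) hn)
  have hfin := subSet_finite P.u (M ^ n) B
  refine ⟨hfin, e3, ?_⟩
  have hcardpos : (0:ℝ) < ((SubSet P.u (M ^ n) B).ncard : ℝ) := by
    exact_mod_cast (Set.ncard_pos hfin).mpr e3
  -- covering
  have hcov : {σ | σ ∈ SubSet P.u (M ^ n) B ∧ ¬ (P.pow n hn1).UC σ D} ⊆
      ⋃ t ∈ S, BadSet P B n t.1 t.2.1 t.2.2 := by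
    intro σ hσ
    obtain ⟨a, b, v, h1, h2, h3⟩ := GFin_coverUC P B D n hn1 σ hσ.1 hσ.2
    simp only [Set.mem_iUnion]
    refine ⟨(a, b, v), ?_, h3⟩
    simp only [hSdef, Finset.mem_product, Finset.mem_univ, true_and, hW, Set.Finite.mem_toFinset,
      Set.mem_ofPred_eq]
    exact ⟨h1, h2⟩
  have hbfin : ∀ t ∈ S, (BadSet P B n t.1 t.2.1 t.2.2).Finite := fun t _ =>
    hfin.subset fun σ h => h.2.1
  have hcard : ({σ | σ ∈ SubSet P.u (M ^ n) B ∧ ¬ (P.pow n hn1).UC σ D}.ncard : ℝ) ≤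
      ∑ t ∈ S, ((BadSet P B n t.1 t.2.1 t.2.2).ncard : ℝ) := by
    have h1 : {σ | σ ∈ SubSet P.u (M ^ n) B ∧ ¬ (P.pow n hn1).UC σ D}.ncard ≤
        (⋃ t ∈ S, BadSet P B n t.1 t.2.1 t.2.2).ncard :=
      Set.ncard_le_ncard hcov (Set.Finite.biUnion S.finite_toSet hbfin)
    have h2 : (⋃ t ∈ S, BadSet P B n t.1 t.2.1 t.2.2).ncard ≤
        ∑ t ∈ S, (BadSet P B n t.1 t.2.1 t.2.2).ncard := by
      classical
      have : ∀ S' : Finset (Fin d × Fin d × (Fin d → ℤ)),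
          (⋃ t ∈ S', BadSet P B n t.1 t.2.1 t.2.2).ncard ≤
            ∑ t ∈ S', (BadSet P B n t.1 t.2.1 t.2.2).ncard := by
        intro S'
        induction S' using Finset.induction_on with
        | empty => simp
        | insert a s ha ih =>
          rw [Finset.sum_insert ha, Finset.set_biUnion_insert]
          exact le_trans (Set.ncard_union_le _ _) (Nat.add_le_add_left ih _)
      exact this S
    exact_mod_cast le_trans h1 h2
  have hfinal : ∑ t ∈ S, ((BadSet P B n t.1 t.2.1 t.2.2).ncard : ℝ) ≤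
      Real.exp (-(c1 * P.lam ^ n)) * ((SubSet P.u (M ^ n) B).ncard : ℝ) := by
    have h1 : ∑ t ∈ S, ((BadSet P B n t.1 t.2.1 t.2.2).ncard : ℝ) =
        (∑ t ∈ S, ((BadSet P B n t.1 t.2.1 t.2.2).ncard : ℝ) /
          ((SubSet P.u (M ^ n) B).ncard : ℝ)) * ((SubSet P.u (M ^ n) B).ncard : ℝ) := by
      rw [Finset.sum_mul]
      apply Finset.sum_congr rfl
      intro t _
      rw [div_mul_cancel₀ _ hcardpos.ne']
    rw [h1]
    exact mul_le_mul_of_nonneg_right e1 hcardpos.le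
  refine le_trans hcard (le_trans hfinal ?_)
  apply mul_le_mul_of_nonneg_right _ hcardpos.le
  apply Real.exp_le_exp.mpr
  have h9 := hcol n
  have h10 : c1 / C * ∑ i, ∑ j, ((M ^ n) i j : ℝ) ≤ c1 / C * (C * P.lam ^ n) :=
    mul_le_mul_of_nonneg_left h9 (by positivity)
  have h11 : c1 / C * (C * P.lam ^ n) = c1 * P.lam ^ n := by field_simp
  linarith

/-- almost all substitutions with incidence matrix `M^n` and bounded discrepancy satisfy the
Pisot substitution conjecture -/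
theorem generic {m : ℕ} (M : Matrix (Fin (m+1)) (Fin (m+1)) ℤ)
    (hnn : ∀ i j, 0 ≤ M i j) (hM : PisotMat M) (lam : ℝ) (hlam : 1 < lam)
    (u : Fin (m+1) → ℝ) (hu : ∀ i, ∑ j, (M i j : ℝ) * u j = lam * u i)
    (husum : ∑ i, u i = 1) :
    ∃ B₀ : ℝ, ∀ B ≥ B₀, ∃ c : ℝ, 0 < c ∧ ∃ n₀ : ℕ, ∀ n ≥ n₀,
      (SubSet u (M ^ n) B).Finite ∧ (SubSet u (M ^ n) B).Nonempty ∧
      ({σ | σ ∈ SubSet u (M ^ n) B ∧ ¬ SemiConjToral σ}.ncard : ℝ) ≤
        Real.exp (-(c * ∑ i, ∑ j, ((M ^ n) i j : ℝ))) * ((SubSet u (M ^ n) B).ncard : ℝ) := by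
  obtain ⟨P, rfl, hPlam⟩ := exists_PD M hnn hM lam hlam u hu husum
  have hdet : IsUnit M.det := by
    rcases hM.2.1 with h | h <;> rw [h] <;> simp
  obtain ⟨B1, hB1⟩ := generic_UC M hnn P
  refine ⟨max B1 0, fun B hB => ?_⟩
  have hB0 : 0 ≤ B := le_trans (le_max_right _ _) hB
  obtain ⟨c, hc, n0, hn0, hgen⟩ := hB1 B (le_trans (le_max_left _ _) hB)
    ((16 * P.c ^ 2 + 4) * (P.c * B))
  have hrho : ∀ᶠ n : ℕ in Filter.atTop, P.rho ^ n ≤ 1 / 2 := by
    have h := tendsto_pow_atTop_nhds_zero_of_lt_one P.rho_nonneg P.rho_lt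
    exact (h.eventually (gt_mem_nhds (show (0:ℝ) < 1/2 by norm_num))).mono fun n hn => hn.le
  obtain ⟨n1, hn1⟩ := Filter.eventually_atTop.mp hrho
  refine ⟨c, hc, max n0 n1, fun n hn => ?_⟩
  have h1n : 1 ≤ n := le_trans hn0 (le_trans (le_max_left _ _) hn)
  obtain ⟨hfin, hne, hcard⟩ := hgen n (le_trans (le_max_left _ _) hn) h1n
  refine ⟨hfin, hne, le_trans ?_ hcard⟩
  have hsub : {σ | σ ∈ SubSet P.u (M ^ n) B ∧ ¬ SemiConjToral σ} ⊆
      {σ | σ ∈ SubSet P.u (M ^ n) B ∧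
        ¬ (P.pow n h1n).UC σ ((16 * P.c ^ 2 + 4) * (P.c * B))} := by
    intro σ hσ
    refine ⟨hσ.1, fun hUC => hσ.2 ?_⟩
    exact GFin_semi P hdet B _ hB0 le_rfl n h1n (hn1 n (le_trans (le_max_right _ _) hn)) σ
      hσ.1 hUC
  exact_mod_cast Set.ncard_le_ncard hsub (hfin.subset fun σ h => h.1)

end Pool.Agent.H812R2.PI
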