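import Pool.Agent.H812R2.PI.GDefs

namespace Pool.Agent.H812R2.PI
open scoped BigOperators
variable {d : ℕ}

theorem GGreedy_dis_neg (u : Fin d → ℝ) (x : Fin d → ℤ) : dis u (-x) = dis u x := by
  unfold dis
  apply Finset.sum_congr rfl
  intro i _
  simp only [Pi.neg_apply, Int.cast_neg, Finset.sum_neg_distrib]
  ring

theorem GGreedy_sq (u : Fin d → ℝ) (hu : ∀ i, 0 < u i) (hs : ∑ i, u i = 1) (i : Fin d) :
    ∑ j, ((if j = i then (1:ℝ) else 0) - u j) ^ 2 ≤ 2 := by
  have h1 : ∀ j, u j ≤ 1 := by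
    intro j; rw [← hs]
    exact Finset.single_le_sum (f := u) (fun k _ => (hu k).le) (Finset.mem_univ j)
  have h2 : ∀ j, ((if j = i then (1:ℝ) else 0) - u j) ^ 2 ≤ (if j = i then (1:ℝ) else 0) + u j := by
    intro j
    have := hu j
    have := h1 j
    split_ifs <;> nlinarith
  calc ∑ j, ((if j = i then (1:ℝ) else 0) - u j) ^ 2
      ≤ ∑ j, ((if j = i then (1:ℝ) else 0) + u j) := Finset.sum_le_sum fun j _ => h2 j
    _ = 2 := by rw [Finset.sum_add_distrib, hs]; simp; norm_num

theorem GGreedy_dis_add (u : Fin d → ℝ) (hu : ∀ i, 0 < u i) (hs : ∑ i, u i = 1)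
    (x : Fin d → ℤ) (i : Fin d) :
    dis u (x + ev i) ≤ dis u x + 2 * (((x i : ℝ) - (∑ j, (x j : ℝ)) * u i)
      - ∑ k, u k * ((x k : ℝ) - (∑ j, (x j : ℝ)) * u k)) + 2 := by
  have h1 := GGreedy_sq u hu hs i
  set S : ℝ := ∑ j, (x j : ℝ) with hS
  have h2 : dis u (x + ev i) = ∑ j, (((x j : ℝ) - S * u j) +
      ((if j = i then (1:ℝ) else 0) - u j)) ^ 2 := by
    unfold dis
    apply Finset.sum_congr rfl
    intro j _
    have : ∑ k, (((x + ev i) k : ℤ) : ℝ) = S + 1 := by
      simp only [Pi.add_apply, Int.cast_add, Finset.sum_add_distrib, ev]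
      simp [hS]
    rw [this]
    simp only [Pi.add_apply, Int.cast_add, ev]
    congr 1
    split_ifs <;> push_cast <;> ring
  have h3 : ∑ j, (((x j : ℝ) - S * u j) + ((if j = i then (1:ℝ) else 0) - u j)) ^ 2
      = dis u x + 2 * (((x i : ℝ) - S * u i) - ∑ k, u k * ((x k : ℝ) - S * u k))
        + ∑ j, ((if j = i then (1:ℝ) else 0) - u j) ^ 2 := by
    have e1 : ((x i : ℝ) - S * u i) = ∑ j, (if j = i then (1:ℝ) else 0) * ((x j : ℝ) - S * u j) := by
      simp
    rw [e1]
    unfold dis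
    rw [← hS, ← Finset.sum_sub_distrib, Finset.mul_sum, ← Finset.sum_add_distrib,
      ← Finset.sum_add_distrib]
    apply Finset.sum_congr rfl
    intro j _
    ring
  rw [h2, h3]
  linarith

theorem GGreedy_step (u : Fin d → ℝ) (hu : ∀ i, 0 < u i) (hs : ∑ i, u i = 1) :
    ∃ C : ℝ, 0 ≤ C ∧ ∀ x : Fin d → ℤ, ∃ i, dis u (x + ev i) ≤ max (dis u x - 1) C := by
  have hne : Nonempty (Fin d) := by
    by_contra h
    rw [not_nonempty_iff] at h
    rw [Finset.univ_eq_empty, Finset.sum_empty] at hs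
    norm_num at hs
  set c : ℝ := ∑ j, 1 / u j with hc
  have hcj : ∀ j, 1 / u j ≤ c := by
    intro j
    exact Finset.single_le_sum (f := fun j => 1 / u j)
      (fun k _ => (by have := hu k; positivity)) (Finset.mem_univ j)
  have hc0 : 0 ≤ c := Finset.sum_nonneg fun k _ => (by have := hu k; positivity)
  have hc1 : 1 ≤ c := by
    obtain ⟨j⟩ := hne
    refine le_trans ?_ (hcj j)
    have h1 : u j ≤ 1 := by
      rw [← hs]
      exact Finset.single_le_sum (f := u) (fun k _ => (hu k).le) (Finset.mem_univ j)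
    rw [le_div_iff₀ (hu j)]; linarith
  refine ⟨d * (3/2 * c) ^ 2 + 2, by positivity, ?_⟩
  intro x
  set S : ℝ := ∑ j, (x j : ℝ) with hS
  set y : Fin d → ℝ := fun j => (x j : ℝ) - S * u j with hy
  obtain ⟨i, hi⟩ := Finite.exists_min y
  refine ⟨i, ?_⟩
  have hadd := GGreedy_dis_add u hu hs x i
  rw [← hS] at hadd
  set t : ℝ := ∑ k, u k * y k with ht
  have hadd' : dis u (x + ev i) ≤ dis u x + 2 * (y i - t) + 2 := hadd
  have hsumy : ∑ j, y j = 0 := by
    simp only [hy, Finset.sum_sub_distrib, ← Finset.mul_sum, hs]; rw [← hS]; ring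
  have hδ : 0 ≤ t - y i := by
    have : y i = ∑ k, u k * y i := by rw [← Finset.sum_mul, hs, one_mul]
    rw [ht, this, ← Finset.sum_sub_distrib]
    apply Finset.sum_nonneg
    intro k _
    rw [← mul_sub]
    exact mul_nonneg (hu k).le (by linarith [hi k])
  have hupper : ∀ j, y j - t ≤ (t - y i) * c := by
    intro j
    have h0 : ∑ k, u k * (y k - t) = 0 := by
      simp only [mul_sub, Finset.sum_sub_distrib, ← Finset.sum_mul, hs]; rw [← ht]; ring
    have h1 : u j * (y j - t) ≤ t - y i := by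
      rw [← Finset.add_sum_erase _ _ (Finset.mem_univ j)] at h0
      have h2 : - (t - y i) ≤ ∑ k ∈ Finset.univ.erase j, u k * (y k - t) := by
        calc -(t - y i) ≤ (∑ k ∈ Finset.univ.erase j, u k) * (-(t - y i)) := by
              have h3 : ∑ k ∈ Finset.univ.erase j, u k ≤ 1 := by
                rw [← hs, ← Finset.add_sum_erase _ _ (Finset.mem_univ j)]
                linarith [hu j]
              have h4 : 0 ≤ ∑ k ∈ Finset.univ.erase j, u k :=
                Finset.sum_nonneg fun k _ => (hu k).le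
              nlinarith
          _ = ∑ k ∈ Finset.univ.erase j, u k * (-(t - y i)) := by rw [Finset.sum_mul]
          _ ≤ ∑ k ∈ Finset.univ.erase j, u k * (y k - t) := by
              apply Finset.sum_le_sum
              intro k _
              apply mul_le_mul_of_nonneg_left _ (hu k).le
              linarith [hi k]
      linarith
    have h5 : y j - t = (u j * (y j - t)) * (1 / u j) := by
      have := (hu j).ne'
      field_simp
    rw [h5]
    calc (u j * (y j - t)) * (1 / u j) ≤ (t - y i) * (1 / u j) := by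
          apply mul_le_mul_of_nonneg_right h1
          have := hu j; positivity
      _ ≤ (t - y i) * c := mul_le_mul_of_nonneg_left (hcj j) hδ
  have habs : ∀ j, (y j - t) ^ 2 ≤ ((t - y i) * c) ^ 2 := by
    intro j
    apply sq_le_sq'
    · have := hi j
      nlinarith
    · exact hupper j
  have hdis : dis u x ≤ d * ((t - y i) * c) ^ 2 := by
    have e1 : dis u x = ∑ j, y j ^ 2 := rfl
    have e2 : ∑ j, (y j - t) ^ 2 = ∑ j, y j ^ 2 + d * t ^ 2 := by
      have : ∀ j, (y j - t) ^ 2 = y j ^ 2 - 2 * t * y j + t ^ 2 := fun j => by ring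
      simp only [this, Finset.sum_add_distrib, Finset.sum_sub_distrib, ← Finset.mul_sum, hsumy]
      simp
    have e3 : ∑ j, (y j - t) ^ 2 ≤ ∑ j : Fin d, ((t - y i) * c) ^ 2 :=
      Finset.sum_le_sum fun j _ => habs j
    rw [Finset.sum_const, Finset.card_univ, Fintype.card_fin, nsmul_eq_mul] at e3
    have : 0 ≤ (d:ℝ) * t ^ 2 := by positivity
    rw [e1]; linarith
  by_cases hcase : 3/2 ≤ t - y i
  · apply le_max_of_le_left; linarith
  · apply le_max_of_le_right
    push Not at hcase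
    have h1 : ((t - y i) * c) ^ 2 ≤ (3/2 * c) ^ 2 := by
      apply pow_le_pow_left₀ (mul_nonneg hδ hc0)
      exact mul_le_mul_of_nonneg_right hcase.le hc0
    have h2 : (d:ℝ) * ((t - y i) * c) ^ 2 ≤ d * (3/2 * c) ^ 2 :=
      mul_le_mul_of_nonneg_left h1 (Nat.cast_nonneg d)
    linarith

theorem greedy_fwd (u : Fin d → ℝ) (hu : ∀ i, 0 < u i) (hs : ∑ i, u i = 1) :
    ∃ C : ℝ, 0 ≤ C ∧ ∀ (K : ℕ) (x : Fin d → ℤ), ∃ w : List (Fin d), w.length = K ∧
      (∀ k, dis u (x + ab (w.take k)) ≤ max (dis u x) C) ∧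
      dis u (x + ab w) ≤ max (dis u x - K) C := by
  obtain ⟨C, hC0, hC⟩ := GGreedy_step u hu hs
  refine ⟨C, hC0, ?_⟩
  intro K
  induction K with
  | zero =>
    intro x
    refine ⟨[], rfl, ?_, ?_⟩
    · intro k; simp [ab_nil]
    · simp [ab_nil]
  | succ K ih =>
    intro x
    obtain ⟨i, hi⟩ := hC x
    obtain ⟨w, hw, h1, h2⟩ := ih (x + ev i)
    refine ⟨i :: w, by simp [hw], ?_, ?_⟩
    · intro k
      cases k with
      | zero => simp [ab_nil]
      | succ k =>
        rw [List.take_succ_cons, ab_cons, ← add_assoc]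
        refine le_trans (h1 k) (max_le (le_trans hi ?_) (le_max_right _ _))
        exact max_le_max (by linarith) le_rfl
    · rw [ab_cons, ← add_assoc]
      refine le_trans h2 (max_le ?_ (le_max_right _ _))
      push_cast
      rcases le_max_iff.1 hi with h | h
      · apply le_max_of_le_left; linarith
      · apply le_max_of_le_right
        have : (0:ℝ) ≤ K := Nat.cast_nonneg K
        linarith

theorem GGreedy_ab_reverse (w : List (Fin d)) : ab w.reverse = ab w := by
  funext i; simp [ab]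

theorem greedy_bwd (u : Fin d → ℝ) (hu : ∀ i, 0 < u i) (hs : ∑ i, u i = 1) :
    ∃ C : ℝ, 0 ≤ C ∧ ∀ (K : ℕ) (x : Fin d → ℤ), ∃ w : List (Fin d), w.length = K ∧
      (∀ k, dis u (x - ab (w.drop k)) ≤ max (dis u x) C) ∧
      dis u (x - ab w) ≤ max (dis u x - K) C := by
  obtain ⟨C, hC0, hC⟩ := greedy_fwd u hu hs
  refine ⟨C, hC0, ?_⟩
  intro K x
  obtain ⟨w, hw, h1, h2⟩ := hC K (-x)
  have key : ∀ v : List (Fin d), dis u (x - ab v) = dis u (-x + ab v) := by
    intro v
    rw [← GGreedy_dis_neg]; congr 1; abel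
  refine ⟨w.reverse, by simp [hw], ?_, ?_⟩
  · intro k
    rw [List.drop_reverse, GGreedy_ab_reverse, key, ← GGreedy_dis_neg u x]
    exact h1 _
  · rw [GGreedy_ab_reverse, key, ← GGreedy_dis_neg u x]
    exact h2

end Pool.Agent.H812R2.PI
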