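import Pool.Agent.H812R2.PI.GGreedy

namespace Pool.Agent.H812R2.PI
open scoped BigOperators
variable {d : ℕ}

/-- the discrepancy vector -/
noncomputable def GSurg_D (u : Fin d → ℝ) (x : Fin d → ℤ) (i : Fin d) : ℝ :=
  (x i : ℝ) - (∑ j, (x j : ℝ)) * u i

theorem GSurg_dis_eq (u : Fin d → ℝ) (x : Fin d → ℤ) :
    dis u x = ∑ i, (GSurg_D u x i) ^ 2 := rfl

theorem GSurg_D_add (u : Fin d → ℝ) (x y : Fin d → ℤ) (i : Fin d) :
    GSurg_D u (x + y) i = GSurg_D u x i + GSurg_D u y i := by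
  simp only [GSurg_D, Pi.add_apply, Int.cast_add, Finset.sum_add_distrib]
  ring

theorem GSurg_D_neg (u : Fin d → ℝ) (x : Fin d → ℤ) (i : Fin d) :
    GSurg_D u (-x) i = - GSurg_D u x i := by
  simp only [GSurg_D, Pi.neg_apply, Int.cast_neg, Finset.sum_neg_distrib]
  ring

theorem GSurg_D_sub (u : Fin d → ℝ) (x y : Fin d → ℤ) (i : Fin d) :
    GSurg_D u (x - y) i = GSurg_D u x i - GSurg_D u y i := by
  rw [sub_eq_add_neg, GSurg_D_add, GSurg_D_neg]
  ring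

theorem GSurg_dis_add (u : Fin d → ℝ) (x y : Fin d → ℤ) :
    dis u (x + y) ≤ 2 * dis u x + 2 * dis u y := by
  rw [GSurg_dis_eq, GSurg_dis_eq, GSurg_dis_eq, Finset.mul_sum, Finset.mul_sum,
    ← Finset.sum_add_distrib]
  apply Finset.sum_le_sum
  intro i _
  rw [GSurg_D_add]
  nlinarith [sq_nonneg (GSurg_D u x i - GSurg_D u y i)]

theorem GSurg_dis_neg (u : Fin d → ℝ) (x : Fin d → ℤ) : dis u (-x) = dis u x := by
  rw [GSurg_dis_eq, GSurg_dis_eq]
  apply Finset.sum_congr rfl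
  intro i _
  rw [GSurg_D_neg, neg_sq]

theorem GSurg_dis_sub (u : Fin d → ℝ) (x y : Fin d → ℤ) :
    dis u (x - y) ≤ 2 * dis u x + 2 * dis u y := by
  rw [sub_eq_add_neg]
  refine (GSurg_dis_add u x (-y)).trans ?_
  rw [GSurg_dis_neg]

theorem GSurg_dis_zero (u : Fin d → ℝ) : dis u 0 = 0 := by
  simp [dis]

theorem GSurg_u_le {u : Fin d → ℝ} (hu : ∀ i, 0 < u i) (hs : ∑ i, u i = 1) (i : Fin d) :
    u i ≤ 1 := by
  rw [← hs]
  exact Finset.single_le_sum (fun j _ => (hu j).le) (Finset.mem_univ i)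

theorem GSurg_D_ab {u : Fin d → ℝ} (hu : ∀ i, 0 < u i) (hs : ∑ i, u i = 1)
    (w : List (Fin d)) (i : Fin d) : |GSurg_D u (ab w) i| ≤ w.length := by
  have h1 : (∑ j, (ab w j : ℝ)) = w.length := by
    have := ab_sum w
    exact_mod_cast this
  have h2 : (ab w i : ℝ) ≤ w.length := by
    have : w.count i ≤ w.length := List.count_le_length
    simp only [ab, Int.cast_natCast]
    exact_mod_cast this
  have h3 : (0 : ℝ) ≤ ab w i := by
    simp only [ab, Int.cast_natCast]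
    positivity
  have h4 := GSurg_u_le hu hs i
  have h5 := (hu i).le
  have h6 : (0 : ℝ) ≤ w.length := by positivity
  unfold GSurg_D
  rw [h1, abs_le]
  constructor
  · nlinarith
  · nlinarith [mul_nonneg h6 h5]

theorem GSurg_dis_ab {u : Fin d → ℝ} (hu : ∀ i, 0 < u i) (hs : ∑ i, u i = 1)
    (w : List (Fin d)) (n : ℕ) (hw : w.length ≤ n) : dis u (ab w) ≤ d * (n : ℝ) ^ 2 := by
  rw [GSurg_dis_eq]
  have h1 : ∀ i ∈ (Finset.univ : Finset (Fin d)), (GSurg_D u (ab w) i) ^ 2 ≤ (n : ℝ) ^ 2 := by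
    intro i _
    have h2 := GSurg_D_ab hu hs w i
    have h3 : (w.length : ℝ) ≤ n := by exact_mod_cast hw
    rw [← sq_abs]
    exact pow_le_pow_left₀ (abs_nonneg _) (h2.trans h3) 2
  refine (Finset.sum_le_sum h1).trans ?_
  simp

theorem GSurg_abs {u : Fin d → ℝ} {x : Fin d → ℤ} {R : ℝ} (hR : 0 ≤ R) (h : dis u x ≤ R ^ 2)
    (i : Fin d) : |GSurg_D u x i| ≤ R := by
  apply abs_le_of_sq_le_sq _ hR
  refine le_trans ?_ h
  rw [GSurg_dis_eq]
  exact Finset.single_le_sum (f := fun i => (GSurg_D u x i) ^ 2) (fun j _ => sq_nonneg _)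
    (Finset.mem_univ i)

theorem GSurg_word (n : ℕ) : ∀ r : Fin d → ℤ, (∀ i, 0 ≤ r i) → ∑ i, r i = n →
    ∃ w : List (Fin d), ab w = r := by
  induction n with
  | zero =>
    intro r hr hs
    refine ⟨[], ?_⟩
    rw [ab_nil]
    funext i
    have := (Finset.sum_eq_zero_iff_of_nonneg (fun i _ => hr i)).1 (by simpa using hs) i
      (Finset.mem_univ i)
    simpa using this.symm
  | succ n ih =>
    intro r hr hs
    obtain ⟨i, hi⟩ : ∃ i, 0 < r i := by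
      by_contra h
      push Not at h
      have : ∑ i, r i ≤ 0 := Finset.sum_nonpos fun i _ => h i
      push_cast at hs
      omega
    obtain ⟨w, hw⟩ := ih (r - ev i) (by
      intro j
      simp only [Pi.sub_apply, ev]
      split_ifs with h
      · subst h
        omega
      · have := hr j
        omega) (by
      simp only [Pi.sub_apply, Finset.sum_sub_distrib, ev]
      rw [hs]
      simp)
    exact ⟨i :: w, by rw [ab_cons, hw]; abel⟩

theorem GSurg_piece (u : Fin d → ℝ) (x y : Fin d → ℤ) (n : ℕ) (h : ∑ i, y i = ∑ i, x i + n)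
    (hD : ∀ i, |GSurg_D u y i - GSurg_D u x i| ≤ n * u i) :
    ∃ w : List (Fin d), x + ab w = y ∧ w.length = n := by
  have hsum : ∑ i, (y - x) i = n := by
    simp only [Pi.sub_apply, Finset.sum_sub_distrib]
    omega
  obtain ⟨w, hw⟩ := GSurg_word n (y - x) (by
    intro i
    have h1 := hD i
    rw [← GSurg_D_sub] at h1
    have h2 : (∑ j, ((y - x) j : ℝ)) = n := by exact_mod_cast hsum
    unfold GSurg_D at h1
    rw [h2, abs_le] at h1
    have h3 : (0 : ℝ) ≤ ((y - x) i : ℤ) := by linarith [h1.1]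
    exact_mod_cast h3) hsum
  refine ⟨w, by rw [hw]; abel, ?_⟩
  have h4 := ab_sum w
  rw [hw, hsum] at h4
  exact_mod_cast h4.symm

/-- a path from `x` to `y` with small discrepancies -/
def GSurg_T (u : Fin d → ℝ) (R : ℝ) (x : Fin d → ℤ) (w : List (Fin d)) (y : Fin d → ℤ) : Prop :=
  x + ab w = y ∧ ∀ k, dis u (x + ab (w.take k)) ≤ R

theorem GSurg_T_append {u : Fin d → ℝ} {R : ℝ} {x y z : Fin d → ℤ} {w w' : List (Fin d)}
    (h : GSurg_T u R x w y) (h' : GSurg_T u R y w' z) : GSurg_T u R x (w ++ w') z := by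
  refine ⟨by rw [ab_append, ← add_assoc, h.1, h'.1], fun k => ?_⟩
  rw [List.take_append, ab_append]
  rcases le_total k w.length with hk | hk
  · have : k - w.length = 0 := by omega
    rw [this, List.take_zero, ab_nil, add_zero]
    exact h.2 k
  · rw [List.take_of_length_le hk, ← add_assoc, h.1]
    exact h'.2 _

theorem GSurg_T_free {u : Fin d → ℝ} (hu : ∀ i, 0 < u i) (hs : ∑ i, u i = 1) {R C : ℝ}
    {x y : Fin d → ℤ} {w : List (Fin d)} (n : ℕ) (hw : w.length ≤ n) (hx : dis u x ≤ C)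
    (hR : 2 * C + 2 * (d * (n : ℝ) ^ 2) ≤ R) (hy : x + ab w = y) : GSurg_T u R x w y := by
  refine ⟨hy, fun k => ?_⟩
  refine (GSurg_dis_add u _ _).trans ?_
  have h1 := GSurg_dis_ab hu hs (w.take k) n ((List.length_take_le' k w).trans hw)
  linarith

theorem GSurg_T_bwd {u : Fin d → ℝ} {R : ℝ} {x : Fin d → ℤ} {w : List (Fin d)}
    (h : ∀ k, dis u (x - ab (w.drop k)) ≤ R) : GSurg_T u R (x - ab w) w x := by
  refine ⟨by abel, fun k => ?_⟩
  have h1 : x - ab w + ab (w.take k) = x - ab (w.drop k) := by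
    have h2 : ab w = ab (w.take k) + ab (w.drop k) := by
      rw [← ab_append, List.take_append_drop]
    rw [h2]
    abel
  rw [h1]
  exact h k

theorem GSurg_K (u : Fin d → ℝ) (hu : ∀ i, 0 < u i) (c : ℝ) : ∃ K : ℕ, ∀ i, c ≤ K * u i := by
  have h1 : ∀ i, ∃ k : ℕ, c / u i ≤ k := fun i => exists_nat_ge _
  choose f hf using h1
  refine ⟨Finset.univ.sup f, fun i => ?_⟩
  have h2 : f i ≤ Finset.univ.sup f := Finset.le_sup (Finset.mem_univ i)
  have h3 : (f i : ℝ) ≤ (Finset.univ.sup f : ℕ) := by exact_mod_cast h2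
  have h4 := (hf i).trans h3
  rwa [div_le_iff₀ (hu i)] at h4

theorem surgery (u : Fin d → ℝ) (hu : ∀ i, 0 < u i) (hs : ∑ i, u i = 1) :
    ∃ B₀ : ℝ, ∀ B ≥ B₀, ∃ K : ℕ, 0 < K ∧ SurgProp u B K := by
  obtain ⟨C₁, hC₁, hf⟩ := greedy_fwd u hu hs
  obtain ⟨C₂, hC₂, hb⟩ := greedy_bwd u hu hs
  set C := max C₁ C₂ with hC
  have hC0 : 0 ≤ C := hC₁.trans (le_max_left _ _)
  set r := Real.sqrt C with hr
  have hr0 : 0 ≤ r := Real.sqrt_nonneg C
  have hr2 : r ^ 2 = C := Real.sq_sqrt hC0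
  obtain ⟨K₂, hK₂⟩ := GSurg_K u hu (2 * r + 2)
  set R₀ : ℝ := 4 * C + 4 + 2 * (d * ((K₂ + 1 : ℕ) : ℝ) ^ 2) with hR₀
  have hd : 0 < d := by
    rcases Nat.eq_zero_or_pos d with h | h
    · subst h
      simp at hs
    · exact h
  have hR₀1 : 1 ≤ R₀ := by
    have : (0 : ℝ) ≤ 2 * (d * ((K₂ + 1 : ℕ) : ℝ) ^ 2) := by positivity
    linarith
  refine ⟨R₀, fun B hB => ?_⟩
  have hB1 : 1 ≤ B := hR₀1.trans hB
  have hBR : R₀ ≤ B ^ 2 := by nlinarith
  have hpos2 : (0 : ℝ) ≤ 2 * (d * ((K₂ + 1 : ℕ) : ℝ) ^ 2) := by positivity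
  have hCB : C ≤ B ^ 2 := by linarith
  obtain ⟨m, hm⟩ := exists_nat_ge (B ^ 2)
  refine ⟨m + (K₂ + (1 + (K₂ + m))), by omega, ?_⟩
  intro p p' q q' s hp hp' hq hq' hpp' hqq' hqs hs1
  let c : Fin d := ⟨0, hd⟩
  -- consequences of the greedy lemmas
  have fwd : ∀ x : Fin d → ℤ, dis u x ≤ B ^ 2 → ∃ w : List (Fin d), w.length = m ∧
      GSurg_T u (B ^ 2) x w (x + ab w) ∧ dis u (x + ab w) ≤ C := by
    intro x hx
    obtain ⟨w, hw1, hw2, hw3⟩ := hf m x
    refine ⟨w, hw1, ⟨rfl, fun k => ?_⟩, ?_⟩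
    · refine (hw2 k).trans (max_le hx ((le_max_left _ _).trans hCB))
    · refine hw3.trans (max_le (by linarith) (le_max_left _ _))
  have bwd : ∀ x : Fin d → ℤ, dis u x ≤ B ^ 2 → ∃ w : List (Fin d), w.length = m ∧
      GSurg_T u (B ^ 2) (x - ab w) w x ∧ dis u (x - ab w) ≤ C := by
    intro x hx
    obtain ⟨w, hw1, hw2, hw3⟩ := hb m x
    refine ⟨w, hw1, GSurg_T_bwd fun k => ?_, ?_⟩
    · refine (hw2 k).trans (max_le hx ((le_max_right _ _).trans hCB))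
    · refine hw3.trans (max_le (by linarith) (le_max_right _ _))
  have sumab : ∀ (x : Fin d → ℤ) (w : List (Fin d)),
      ∑ i, (x + ab w) i = ∑ i, x i + (w.length : ℤ) := by
    intro x w
    simp only [Pi.add_apply, Finset.sum_add_distrib, ab_sum]
  have sumab' : ∀ (x : Fin d → ℤ) (w : List (Fin d)),
      ∑ i, (x - ab w) i = ∑ i, x i - (w.length : ℤ) := by
    intro x w
    simp only [Pi.sub_apply, Finset.sum_sub_distrib, ab_sum]
  have sumev : ∀ (x : Fin d → ℤ), ∑ i, (x + ev c) i = ∑ i, x i + 1 := by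
    intro x
    rw [← ab_single, sumab]
    simp
  have Dev : ∀ i, |GSurg_D u (ev c) i| ≤ 1 := by
    intro i
    rw [← ab_single]
    simpa using GSurg_D_ab hu hs [c] i
  -- path 1
  obtain ⟨a₁, ha₁l, ha₁, hW⟩ := fwd p hp
  set W := p + ab a₁ with hWdef
  obtain ⟨a₂, ha₂l, ha₂, ha₂'⟩ := hf K₂ W
  have ha₂T : GSurg_T u (B ^ 2) W a₂ (W + ab a₂) :=
    ⟨rfl, fun k => (ha₂ k).trans (max_le (hW.trans hCB) ((le_max_left _ _).trans hCB))⟩
  set z := W + ab a₂ with hz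
  have hzC : dis u z ≤ C := ha₂'.trans (max_le (by
    have : (0 : ℝ) ≤ K₂ := by positivity
    linarith) (le_max_left _ _))
  obtain ⟨a₄, ha₄l, ha₄, hW'⟩ := bwd p' hp'
  set W' := p' - ab a₄ with hW'def
  have e1 : ∑ i, W i = ∑ i, p i + m := by rw [hWdef, sumab, ha₁l]
  have e2 : ∑ i, z i = ∑ i, p i + m + K₂ := by rw [hz, sumab, ha₂l, e1]
  have e3 : ∑ i, W' i = ∑ i, p' i - m := by rw [hW'def, sumab', ha₄l]
  push_cast at hpp' hqq'
  have Dz := GSurg_abs hr0 (hzC.trans hr2.ge)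
  have DW' := GSurg_abs hr0 (hW'.trans hr2.ge)
  obtain ⟨a₃, ha₃, ha₃l⟩ := GSurg_piece u (z + ev c) W' K₂ (by rw [sumev, e2, e3, hpp']; ring)
    (by
      intro i
      rw [GSurg_D_add]
      have h1 := abs_le.1 (Dz i)
      have h2 := abs_le.1 (DW' i)
      have h3 := abs_le.1 (Dev i)
      have h4 := hK₂ i
      rw [abs_le]
      constructor <;> linarith [h1.1, h1.2, h2.1, h2.2, h3.1, h3.2])
  have hmid1 : GSurg_T u (B ^ 2) z (c :: a₃) W' := by
    refine GSurg_T_free hu hs (K₂ + 1) (by simp [ha₃l]) hzC (by linarith) ?_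
    rw [ab_cons, ← add_assoc, ha₃]
  -- path 2
  obtain ⟨b₁, hb₁l, hb₁, hV⟩ := fwd q hq
  set V := q + ab b₁ with hVdef
  obtain ⟨b₄, hb₄l, hb₄, hV'⟩ := bwd q' hq'
  set V' := q' - ab b₄ with hV'def
  have e4 : ∑ i, V i = ∑ i, q i + m := by rw [hVdef, sumab, hb₁l]
  have e5 : ∑ i, V' i = ∑ i, q' i - m := by rw [hV'def, sumab', hb₄l]
  have e6 : ∑ i, (z - s) i = ∑ i, q i + m + K₂ := by
    have h1 : ∑ i, (z - s) i = ∑ i, z i - ∑ i, s i := by
      simp only [Pi.sub_apply, Finset.sum_sub_distrib]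
    have h2 : ∑ i, q i + ∑ i, s i = ∑ i, p i := by
      rw [← hqs]
      simp only [Pi.add_apply, Finset.sum_add_distrib]
    rw [h1, e2, ← h2]
    ring
  have DV := GSurg_abs hr0 (hV.trans hr2.ge)
  have DV' := GSurg_abs hr0 (hV'.trans hr2.ge)
  have Ds : ∀ i, |GSurg_D u s i| ≤ 1 := GSurg_abs zero_le_one (by simpa using hs1)
  obtain ⟨b₂, hb₂, hb₂l⟩ := GSurg_piece u V (z - s) K₂ (by rw [e6, e4])
    (by
      intro i
      rw [GSurg_D_sub u z s]
      have h1 := abs_le.1 (Dz i)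
      have h2 := abs_le.1 (DV i)
      have h3 := abs_le.1 (Ds i)
      have h4 := hK₂ i
      rw [abs_le]
      constructor <;> linarith [h1.1, h1.2, h2.1, h2.2, h3.1, h3.2])
  have hb₂T : GSurg_T u (B ^ 2) V b₂ (z - s) :=
    GSurg_T_free hu hs (K₂ + 1) (by omega) hV (by linarith) hb₂
  have hzs : dis u (z - s) ≤ 2 * C + 2 := by
    have := GSurg_dis_sub u z s
    linarith
  obtain ⟨b₃, hb₃, hb₃l⟩ := GSurg_piece u (z - s + ev c) V' K₂
    (by rw [sumev, e6, e5, hqq']; ring)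
    (by
      intro i
      rw [GSurg_D_add, GSurg_D_sub u z s]
      have h1 := abs_le.1 (Dz i)
      have h2 := abs_le.1 (DV' i)
      have h3 := abs_le.1 (Ds i)
      have h4 := hK₂ i
      have h5 := abs_le.1 (Dev i)
      rw [abs_le]
      constructor <;> linarith [h1.1, h1.2, h2.1, h2.2, h3.1, h3.2, h5.1, h5.2])
  have hmid2 : GSurg_T u (B ^ 2) (z - s) (c :: b₃) V' := by
    refine GSurg_T_free hu hs (K₂ + 1) (by simp [hb₃l]) hzs (by linarith) ?_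
    rw [ab_cons, ← add_assoc, hb₃]
  -- assembly
  have T₁ := GSurg_T_append ha₁ (GSurg_T_append ha₂T (GSurg_T_append hmid1 ha₄))
  have T₂ := GSurg_T_append hb₁ (GSurg_T_append hb₂T (GSurg_T_append hmid2 hb₄))
  refine ⟨_, _, ?_, ?_, T₁.1, T₂.1, T₁.2, T₂.2, m + K₂, ?_, ?_, ?_, ?_⟩
  · simp only [List.length_append, List.length_cons, ha₁l, ha₂l, ha₃l, ha₄l]
    omega
  · simp only [List.length_append, List.length_cons, hb₁l, hb₂l, hb₃l, hb₄l]
    omega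
  · simp only [List.length_append, List.length_cons, ha₁l, ha₂l, ha₃l, ha₄l]
    omega
  · simp only [List.length_append, List.length_cons, hb₁l, hb₂l, hb₃l, hb₄l]
    omega
  · have h1 : (a₁ ++ (a₂ ++ (c :: a₃ ++ a₄))).take (m + K₂) = a₁ ++ a₂ := by
      rw [← List.append_assoc]
      exact List.take_left' (by simp [ha₁l, ha₂l])
    have h2 : (b₁ ++ (b₂ ++ (c :: b₃ ++ b₄))).take (m + K₂) = b₁ ++ b₂ := by
      rw [← List.append_assoc]
      exact List.take_left' (by simp [hb₁l, hb₂l])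
    rw [h1, h2, ab_append, ab_append, ← add_assoc, ← hWdef, ← hz]
    have h3 : q + s + (ab b₁ + ab b₂) = (q + ab b₁ + ab b₂) + s := by abel
    rw [h3, ← hVdef, hb₂]
    abel
  · have h1 : (a₁ ++ (a₂ ++ (c :: a₃ ++ a₄)))[m + K₂]? = some c := by
      rw [← List.append_assoc, List.getElem?_append_right (by simp [ha₁l, ha₂l])]
      simp [ha₁l, ha₂l]
    have h2 : (b₁ ++ (b₂ ++ (c :: b₃ ++ b₄)))[m + K₂]? = some c := by
      rw [← List.append_assoc, List.getElem?_append_right (by simp [hb₁l, hb₂l])]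
      simp [hb₁l, hb₂l]
    rw [List.getElem?_eq_some_iff] at h1 h2
    obtain ⟨h1, h1'⟩ := h1
    obtain ⟨h2, h2'⟩ := h2
    rw [h1', h2']

theorem exists_path (u : Fin d → ℝ) (hu : ∀ i, 0 < u i) (hs : ∑ i, u i = 1) :
    ∃ B₀ : ℝ, ∀ B ≥ B₀, ∃ L : ℕ, ∀ z : Fin d → ℤ, dis u z ≤ 1 → (L : ℤ) ≤ ∑ i, z i →
      ∃ w : List (Fin d), ab w = z ∧ ∀ k, dis u (ab (w.take k)) ≤ B ^ 2 := by
  obtain ⟨C, hC0, hf⟩ := greedy_fwd u hu hs
  set r := Real.sqrt C with hr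
  have hr0 : 0 ≤ r := Real.sqrt_nonneg C
  have hr2 : r ^ 2 = C := Real.sq_sqrt hC0
  obtain ⟨K₂, hK₂⟩ := GSurg_K u hu (2 * r + 2)
  set R₀ : ℝ := 4 * C + 4 + 2 * (d * (K₂ : ℝ) ^ 2) with hR₀
  have hpos2 : (0 : ℝ) ≤ 2 * (d * (K₂ : ℝ) ^ 2) := by positivity
  have hR₀1 : 1 ≤ R₀ := by linarith
  refine ⟨R₀, fun B hB => ⟨K₂, fun z hz hL => ?_⟩⟩
  have hB1 : 1 ≤ B := hR₀1.trans hB
  have hBR : R₀ ≤ B ^ 2 := by nlinarith
  have hCB : C ≤ B ^ 2 := by linarith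
  obtain ⟨m, hm⟩ : ∃ m : ℕ, ∑ i, z i = (m : ℤ) + K₂ :=
    ⟨(∑ i, z i - K₂).toNat, by omega⟩
  obtain ⟨a₁, ha₁l, ha₁, ha₁'⟩ := hf m 0
  rw [GSurg_dis_zero] at ha₁ ha₁'
  have T₁ : GSurg_T u (B ^ 2) 0 a₁ (0 + ab a₁) :=
    ⟨rfl, fun k => (ha₁ k).trans (max_le (by positivity) hCB)⟩
  set W := (0 : Fin d → ℤ) + ab a₁ with hWdef
  have hW : dis u W ≤ C := ha₁'.trans (max_le (by
    have : (0 : ℝ) ≤ m := by positivity
    linarith) le_rfl)
  have e1 : ∑ i, W i = m := by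
    rw [hWdef, zero_add, ab_sum, ha₁l]
  have DW := GSurg_abs hr0 (hW.trans hr2.ge)
  have Dz : ∀ i, |GSurg_D u z i| ≤ 1 := GSurg_abs zero_le_one (by simpa using hz)
  obtain ⟨a₂, ha₂, ha₂l⟩ := GSurg_piece u W z K₂ (by rw [hm, e1])
    (by
      intro i
      have h1 := abs_le.1 (Dz i)
      have h2 := abs_le.1 (DW i)
      have h4 := hK₂ i
      rw [abs_le]
      constructor <;> linarith [h1.1, h1.2, h2.1, h2.2])
  have T₂ : GSurg_T u (B ^ 2) W a₂ z :=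
    GSurg_T_free hu hs K₂ (by omega) hW (by linarith) ha₂
  have T := GSurg_T_append T₁ T₂
  refine ⟨_, by simpa using T.1, fun k => ?_⟩
  simpa using T.2 k

end Pool.Agent.H812R2.PI
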