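import Mathlib

namespace Pool.Agent.H812R2.PI

/-- sequences without `K` consecutive copies of `x` -/
def JCnt_bad {α : Type*} (x : α) (K k : ℕ) : Set (Fin k → α) :=
  {f : Fin k → α | ¬ ∃ l₁ l₂ : List α, List.ofFn f = l₁ ++ List.replicate K x ++ l₂}

theorem JCnt_ofFn_add {α : Type*} (k K : ℕ) (f : Fin (k + K) → α) :
    List.ofFn f = (List.ofFn fun i => f (Fin.castAdd K i)) ++
      List.ofFn (fun j => f (Fin.natAdd k j)) := by
  rw [List.ofFn_add]
  rfl

theorem JCnt_step {α : Type*} [Fintype α] [DecidableEq α] (x : α) (K k : ℕ) :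
    (JCnt_bad x K (k + K)).ncard ≤ (JCnt_bad x K k).ncard * (Fintype.card α ^ K - 1) := by
  classical
  have h1 : ((Set.univ \ {fun _ => x} : Set (Fin K → α))).ncard = Fintype.card α ^ K - 1 := by
    rw [Set.ncard_sdiff_singleton_of_mem (Set.mem_univ _), Set.ncard_univ]
    simp [Nat.card_eq_fintype_card]
  rw [← h1, ← Set.ncard_prod]
  refine Set.ncard_le_ncard_of_injOn
    (fun f => ((fun i => f (Fin.castAdd K i)), (fun j => f (Fin.natAdd k j)))) ?_ ?_
    (Set.toFinite _)
  · intro f hf
    refine ⟨?_, Set.mem_univ _, ?_⟩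
    · rintro ⟨l₁, l₂, h⟩
      refine hf ⟨l₁, l₂ ++ List.ofFn (fun j => f (Fin.natAdd k j)), ?_⟩
      have h' : (List.ofFn fun i => f (Fin.castAdd K i)) = l₁ ++ List.replicate K x ++ l₂ := h
      rw [JCnt_ofFn_add, h']
      simp [List.append_assoc]
    · intro h
      simp only [Set.mem_singleton_iff] at h
      refine hf ⟨List.ofFn (fun i => f (Fin.castAdd K i)), [], ?_⟩
      rw [JCnt_ofFn_add, h, List.ofFn_const, List.append_nil]
  · intro f _ g _ h
    simp only [Prod.mk.injEq] at h
    funext i
    refine Fin.addCases (fun j => ?_) (fun j => ?_) i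
    · exact congrFun h.1 j
    · exact congrFun h.2 j

theorem JCnt_le {α : Type*} [Fintype α] [DecidableEq α] (x : α) (K k : ℕ) :
    (JCnt_bad x K k).ncard ≤ Fintype.card α ^ k := by
  refine (Set.ncard_le_ncard (Set.subset_univ _) (Set.toFinite _)).trans ?_
  rw [Set.ncard_univ]
  simp [Nat.card_eq_fintype_card]

/-- most sequences contain `K` consecutive copies of a given letter -/
theorem count_no_block {α : Type*} [Fintype α] [DecidableEq α] (x : α) (K : ℕ) :
    ∃ C c : ℝ, 0 ≤ C ∧ 0 < c ∧ ∀ k : ℕ,
      ({f : Fin k → α | ¬ ∃ l₁ l₂ : List α,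
        List.ofFn f = l₁ ++ List.replicate K x ++ l₂}.ncard : ℝ) ≤
        C * Real.exp (-(c * k)) * (Fintype.card α : ℝ) ^ k := by
  rcases Nat.eq_zero_or_pos K with hK | hK
  · subst hK
    refine ⟨0, 1, le_rfl, one_pos, fun k => ?_⟩
    have : {f : Fin k → α | ¬ ∃ l₁ l₂ : List α,
        List.ofFn f = l₁ ++ List.replicate 0 x ++ l₂} = ∅ := by
      ext f
      simp only [Set.mem_ofPred_eq, Set.mem_empty_iff_false, iff_false, not_not]
      exact ⟨List.ofFn f, [], by simp⟩
    rw [this]
    simp
  · have hq : 0 < Fintype.card α := Fintype.card_pos_iff.2 ⟨x⟩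
    set q : ℝ := (Fintype.card α : ℝ) with hqdef
    have hq1 : (1:ℝ) ≤ q := by rw [hqdef]; exact_mod_cast hq
    have hqK : 0 < q ^ K := by positivity
    have hK' : (0:ℝ) < K := by exact_mod_cast hK
    set c : ℝ := (1 / q ^ K) / K with hc
    have hcpos : 0 < c := by positivity
    have hcK : c * K = 1 / q ^ K := by rw [hc]; field_simp
    have key : ∀ k : ℕ, ((JCnt_bad x K k).ncard : ℝ) ≤
        Real.exp (c * K) * Real.exp (-(c * k)) * q ^ k := by
      intro k
      induction k using Nat.strong_induction_on with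
      | _ k ih =>
        rcases lt_or_ge k K with h | h
        · have h1 : ((JCnt_bad x K k).ncard : ℝ) ≤ q ^ k := by
            rw [hqdef]; exact_mod_cast JCnt_le x K k
          refine h1.trans ?_
          have h2 : (1:ℝ) ≤ Real.exp (c * K) * Real.exp (-(c * k)) := by
            rw [← Real.exp_add]
            apply Real.one_le_exp
            have : (k:ℝ) ≤ K := by exact_mod_cast h.le
            nlinarith
          have h3 : (0:ℝ) ≤ q ^ k := by positivity
          nlinarith
        · obtain ⟨j, rfl⟩ : ∃ j, k = j + K := ⟨k - K, by omega⟩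
          have h1 : ((JCnt_bad x K (j + K)).ncard : ℝ) ≤
              ((JCnt_bad x K j).ncard : ℝ) * (q ^ K - 1) := by
            have h0 : 1 ≤ Fintype.card α ^ K := Nat.one_le_pow _ _ hq
            have := JCnt_step x K j
            have h2 : (((Fintype.card α ^ K - 1 : ℕ)) : ℝ) = q ^ K - 1 := by
              rw [Nat.cast_sub h0]; push_cast; rfl
            rw [← h2]
            exact_mod_cast this
          have h2 : q ^ K - 1 ≤ Real.exp (-(c * K)) * q ^ K := by
            have h3 : 1 - 1 / q ^ K ≤ Real.exp (-(c * K)) := by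
              rw [hcK]
              have := Real.add_one_le_exp (-(1 / q ^ K))
              linarith
            calc q ^ K - 1 = (1 - 1 / q ^ K) * q ^ K := by field_simp
              _ ≤ _ := mul_le_mul_of_nonneg_right h3 hqK.le
          have h4 : (0:ℝ) ≤ ((JCnt_bad x K j).ncard : ℝ) := by positivity
          calc ((JCnt_bad x K (j + K)).ncard : ℝ)
              ≤ ((JCnt_bad x K j).ncard : ℝ) * (q ^ K - 1) := h1
            _ ≤ ((JCnt_bad x K j).ncard : ℝ) * (Real.exp (-(c * K)) * q ^ K) :=
                mul_le_mul_of_nonneg_left h2 h4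
            _ ≤ (Real.exp (c * K) * Real.exp (-(c * j)) * q ^ j) *
                (Real.exp (-(c * K)) * q ^ K) :=
                mul_le_mul_of_nonneg_right (ih j (by omega)) (by positivity)
            _ = _ := by
                have e : -(c * ((j + K : ℕ) : ℝ)) = -(c * j) + -(c * K) := by push_cast; ring
                rw [e, Real.exp_add, pow_add]
                ring
    exact ⟨Real.exp (c * K), c, (Real.exp_pos _).le, hcpos, fun k => key k⟩

end Pool.Agent.H812R2.PI
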