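import Pool.Agent.H812R2.PI.JDefs

namespace Pool.Agent.H812R2.PI
open scoped BigOperators
variable {d : ℕ}

theorem JComp_exists_pos {α : Type*} (l : List α) (f : α → ℝ) (h : 0 < (l.map f).sum) :
    ∃ x ∈ l, 0 < f x := by
  induction l with
  | nil => simp at h
  | cons a l ih =>
    rw [List.map_cons, List.sum_cons] at h
    by_cases ha : 0 < f a
    · exact ⟨a, List.mem_cons_self .., ha⟩
    · obtain ⟨x, hx, hx'⟩ := ih (by linarith)
      exact ⟨x, List.mem_cons_of_mem _ hx, hx'⟩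

theorem JComp_OV_translate {M : Matrix (Fin d) (Fin d) ℤ} (P : PD M)
    (e f : (Fin d → ℤ) × Fin d) : P.OV (0, e.2) (f.1 - e.1, f.2) = P.OV e f := by
  have h := UTot_OV_translate P e.1 (0, e.2) (f.1 - e.1, f.2)
  simp only [zero_add, sub_add_cancel] at h
  exact h.symm

theorem JComp_ovl_mul (a b c e t : ℝ) (ht : 0 ≤ t) :
    ovl (t * a) (t * b) (t * c) (t * e) = t * ovl a b c e := by
  unfold ovl
  rw [← mul_min_of_nonneg _ _ ht, ← mul_max_of_nonneg _ _ ht, ← mul_sub, mul_max_of_nonneg _ _ ht,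
    mul_zero]

/-- one substitution with prefix bound `B` -/
theorem ovTo_base {A : Matrix (Fin d) (Fin d) ℤ} (P : PD A) (τ : Fin d → List (Fin d))
    (hτ : inc τ = A) (B D : ℝ) (hB : ∀ a k, P.N (rv (ab ((τ a).take k))) ≤ B) :
    P.OvTo τ D (P.rho * D + 2 * B) := by
  subst hτ
  intro a b v hv hO
  have hlam : 0 < P.lam := lt_trans one_pos P.lam_gt
  have hsum := sum_OV_edges P 0 ((inc τ).mulVec v) (τ a) (τ b)
  rw [ht_zero, ht_mulVec, ab_subst, ab_subst, ht_mulVec, ht_mulVec, ht_ev, ht_ev] at hsum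
  have hpos : 0 < ovl 0 (0 + P.lam * P.ell a) (P.lam * P.ht v)
      (P.lam * P.ht v + P.lam * P.ell b) := by
    have h1 := JComp_ovl_mul 0 (0 + P.ell a) (P.ht v) (P.ht v + P.ell b) P.lam hlam.le
    have h2 : P.OV (0, a) (v, b) = ovl 0 (0 + P.ell a) (P.ht v) (P.ht v + P.ell b) := by
      unfold PD.OV
      simp only [ht_zero]
    rw [show P.lam * 0 = 0 by ring, show P.lam * (0 + P.ell a) = 0 + P.lam * P.ell a by ring,
      show P.lam * (P.ht v + P.ell b) = P.lam * P.ht v + P.lam * P.ell b by ring] at h1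
    rw [h1, ← h2]
    exact mul_pos hlam hO
  rw [← hsum] at hpos
  obtain ⟨e, he, hpos⟩ := JComp_exists_pos _ _ hpos
  obtain ⟨f, hf, hpos⟩ := JComp_exists_pos _ _ hpos
  refine ⟨e, he, f, hf, hpos, ?_⟩
  obtain ⟨k, hk, rfl⟩ := mem_edges.1 he
  obtain ⟨l, hl, rfl⟩ := mem_edges.1 hf
  simp only
  rw [zero_add, add_sub_assoc, rv_add, rv_mulVec, rv_sub]
  have h1 := P.N_add (act (inc τ) (rv v)) (rv (ab ((τ b).take l)) - rv (ab ((τ a).take k)))
  have h2 := N_sub P (rv (ab ((τ b).take l))) (rv (ab ((τ a).take k)))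
  have h3 := P.N_act (rv v)
  have h4 := mul_le_mul_of_nonneg_left hv P.rho_nonneg
  have h5 := hB a k
  have h6 := hB b l
  linarith

theorem ovTo_mono {A : Matrix (Fin d) (Fin d) ℤ} (P : PD A) (S : Fin d → List (Fin d))
    (D D' D'' : ℝ) (h : P.OvTo S D D') (hD : D' ≤ D'') : P.OvTo S D D'' := by
  intro a b v hv hO
  obtain ⟨e, he, f, hf, h1, h2⟩ := h a b v hv hO
  exact ⟨e, he, f, hf, h1, h2.trans hD⟩

theorem JComp_inc_id : inc (fun a : Fin d => [a]) = 1 := by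
  ext i j
  simp only [inc, Matrix.one_apply]
  by_cases hij : i = j
  · subst hij; simp
  · have : ¬ (j = i) := fun h => hij h.symm
    simp [hij, this]

theorem ovTo_id {A : Matrix (Fin d) (Fin d) ℤ} (P : PD A) (D : ℝ) :
    P.OvTo (fun a => [a]) D D := by
  intro a b v hv hO
  refine ⟨(0, a), by simp [edges], (v, b), ?_, hO, ?_⟩
  · rw [JComp_inc_id, Matrix.one_mulVec]
    simp [edges]
  · simpa using hv

theorem JComp_mem {S : Fin d → List (Fin d)} {z : Fin d → ℤ} {w : List (Fin d)}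
    {g : (Fin d → ℤ) × Fin d} (hg : g ∈ edges z w) {h : (Fin d → ℤ) × Fin d}
    (hh : h ∈ edges ((inc S).mulVec g.1) (S g.2)) :
    h ∈ edges ((inc S).mulVec z) (ext S w) := by
  rw [edges_ext]
  exact List.mem_flatMap.2 ⟨g, hg, hh⟩

theorem JComp_mem_translate {t z : Fin d → ℤ} {w : List (Fin d)}
    {g : (Fin d → ℤ) × Fin d} (hg : g ∈ edges z w) : (g.1 + t, g.2) ∈ edges (z + t) w := by
  rw [edges_translate]
  exact List.mem_map.2 ⟨g, hg, rfl⟩

theorem JComp_mem0 {S T : Fin d → List (Fin d)} {a : Fin d}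
    {g : (Fin d → ℤ) × Fin d} (hg : g ∈ edges 0 (T a)) {h : (Fin d → ℤ) × Fin d}
    (hh : h ∈ edges 0 (S g.2)) :
    (h.1 + (inc S).mulVec g.1, h.2) ∈ edges 0 (comp S T a) := by
  have h1 := JComp_mem_translate (t := (inc S).mulVec g.1) hh
  rw [zero_add] at h1
  have h2 := JComp_mem (S := S) hg h1
  rw [Matrix.mulVec_zero] at h2
  exact h2

theorem JComp_mem1 {S T : Fin d → List (Fin d)} {b : Fin d} {v : Fin d → ℤ}
    {g f : (Fin d → ℤ) × Fin d} (hf : f ∈ edges ((inc T).mulVec v) (T b))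
    {h : (Fin d → ℤ) × Fin d}
    (hh : h ∈ edges ((inc S).mulVec (f.1 - g.1)) (S f.2)) :
    (h.1 + (inc S).mulVec g.1, h.2) ∈ edges ((inc (comp S T)).mulVec v) (comp S T b) := by
  have h1 := JComp_mem_translate (t := (inc S).mulVec g.1) hh
  rw [← Matrix.mulVec_add, sub_add_cancel] at h1
  have h2 := JComp_mem (S := S) hf h1
  rw [Matrix.mulVec_mulVec, ← inc_comp] at h2
  exact h2

theorem ovTo_comp {A : Matrix (Fin d) (Fin d) ℤ} (P : PD A) (S T : Fin d → List (Fin d))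
    (D D' D'' : ℝ) (h1 : P.OvTo T D D') (h2 : P.OvTo S D' D'') :
    P.OvTo (comp S T) D D'' := by
  intro a b v hv hO
  obtain ⟨e, he, f, hf, hef, hN⟩ := h1 a b v hv hO
  obtain ⟨e', he', f', hf', hef', hN'⟩ := h2 e.2 f.2 (f.1 - e.1) hN
    (by rw [JComp_OV_translate]; exact hef)
  refine ⟨_, JComp_mem0 he he', _, JComp_mem1 hf hf', ?_, ?_⟩
  · rw [UTot_OV_translate]; exact hef'
  · simp only [add_sub_add_right_eq_sub]
    exact hN'

theorem hit_comp_left {A : Matrix (Fin d) (Fin d) ℤ} (P : PD A) (S T : Fin d → List (Fin d))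
    (D D' : ℝ) (h1 : P.OvTo T D D') (h2 : P.Hit S D') : P.Hit (comp S T) D := by
  intro a b v hv hO
  obtain ⟨e, he, f, hf, hef, hN⟩ := h1 a b v hv hO
  obtain ⟨g, hg1, hg2⟩ := h2 e.2 f.2 (f.1 - e.1) hN (by rw [JComp_OV_translate]; exact hef)
  exact ⟨_, JComp_mem0 he hg1, JComp_mem1 hf hg2⟩

theorem hit_comp_right {A : Matrix (Fin d) (Fin d) ℤ} (P : PD A) (S T : Fin d → List (Fin d))
    (hS : ∀ a, S a ≠ []) (D : ℝ) (h1 : P.Hit T D) : P.Hit (comp S T) D := by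
  intro a b v hv hO
  obtain ⟨e, he1, he2⟩ := h1 a b v hv hO
  obtain ⟨c, w, hcw⟩ := List.exists_cons_of_ne_nil (hS e.2)
  have hh : ((inc S).mulVec e.1, c) ∈ edges ((inc S).mulVec e.1) (S e.2) := by
    rw [hcw]
    simp [edges]
  refine ⟨((inc S).mulVec e.1, c), ?_, ?_⟩
  · have h2 := JComp_mem (S := S) he1 hh
    rw [Matrix.mulVec_zero] at h2
    exact h2
  · have h2 := JComp_mem (S := S) he2 hh
    rw [Matrix.mulVec_mulVec, ← inc_comp] at h2
    exact h2

end Pool.Agent.H812R2.PI
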