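import Pool.Agent.H812R2.PI.UTot

namespace Pool.Agent.H812R2.PI
open scoped BigOperators
variable {d : ℕ}

/-- composition `σ ∘ τ` of substitutions (first `τ`, then `σ`) -/
def comp (σ τ : Fin d → List (Fin d)) : Fin d → List (Fin d) := fun a => ext σ (τ a)

/-- `τ₁ ∘ τ₂ ∘ ... ∘ τ_k` for a list `[τ₁, ..., τ_k]` -/
def compList : List (Fin d → List (Fin d)) → (Fin d → List (Fin d))
  | [] => fun a => [a]
  | τ :: l => comp τ (compList l)

/-- Every overlapping pair of edges at distance at most `D` contains in its image under `Σ` an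
overlapping pair of edges at distance at most `D'` (or a common edge). -/
def PD.OvTo {M : Matrix (Fin d) (Fin d) ℤ} (P : PD M) (S : Fin d → List (Fin d))
    (D D' : ℝ) : Prop :=
  ∀ (a b : Fin d) (v : Fin d → ℤ), P.N (rv v) ≤ D → 0 < P.OV (0, a) (v, b) →
    ∃ e ∈ edges 0 (S a), ∃ f ∈ edges ((inc S).mulVec v) (S b),
      0 < P.OV e f ∧ P.N (rv (f.1 - e.1)) ≤ D'

/-- Every overlapping pair of edges at distance at most `D` has a common edge in its image. -/
def PD.Hit {M : Matrix (Fin d) (Fin d) ℤ} (P : PD M) (S : Fin d → List (Fin d)) (D : ℝ) : Prop :=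
  ∀ (a b : Fin d) (v : Fin d → ℤ), P.N (rv v) ≤ D → 0 < P.OV (0, a) (v, b) →
    ∃ e, e ∈ edges 0 (S a) ∧ e ∈ edges ((inc S).mulVec v) (S b)

theorem ext_comp (σ τ : Fin d → List (Fin d)) (w : List (Fin d)) :
    ext (comp σ τ) w = ext σ (ext τ w) := by
  induction w with
  | nil => simp [ext]
  | cons a w ih => rw [ext_cons, ih, ext_cons, ext_append]; rfl

theorem comp_assoc (σ τ ρ : Fin d → List (Fin d)) : comp (comp σ τ) ρ = comp σ (comp τ ρ) := by
  funext a; unfold comp; exact ext_comp σ τ (ρ a)

theorem inc_comp (σ τ : Fin d → List (Fin d)) : inc (comp σ τ) = inc σ * inc τ := by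
  ext i j
  have := congrFun (ab_ext σ (τ j)) i
  simp only [ab] at this
  simp only [inc, comp]
  rw [this, Matrix.mul_apply]
  rfl

theorem inc_compList (A : Matrix (Fin d) (Fin d) ℤ) (l : List (Fin d → List (Fin d)))
    (h : ∀ τ ∈ l, inc τ = A) : inc (compList l) = A ^ l.length := by
  induction l with
  | nil =>
    ext i j
    simp only [compList, inc, List.length_nil, pow_zero, Matrix.one_apply]
    by_cases hij : i = j
    · subst hij; simp
    · have : ¬ (j = i) := fun h => hij h.symm
      simp [hij, this]
  | cons τ l ih =>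
    have h1 := h τ (List.mem_cons_self ..)
    have h2 := ih (fun τ' h' => h τ' (List.mem_cons_of_mem _ h'))
    simp only [compList, List.length_cons]
    rw [inc_comp, h1, h2, pow_succ']

theorem compList_append (l l' : List (Fin d → List (Fin d))) :
    compList (l ++ l') = comp (compList l) (compList l') := by
  induction l with
  | nil => funext a; simp [compList, comp, ext]
  | cons τ l ih => simp only [List.cons_append, compList]; rw [ih, comp_assoc]

end Pool.Agent.H812R2.PI
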