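import Pool.Agent.H812R2.PI.JList
import Pool.Agent.H812R2.PI.JCnt
import Pool.Agent.H812R2.PI.GFin

namespace Pool.Agent.H812R2.PI
open scoped BigOperators

/-- the substitutions with a given incidence matrix form a finite set -/
theorem JFin_finite {d : ℕ} (A : Matrix (Fin d) (Fin d) ℤ) :
    ({τ : Fin d → List (Fin d) | inc τ = A}).Finite := by
  have h1 : {σ : Fin d → List (Fin d) | ∀ c, σ c ∈
      {l : List (Fin d) | l.length = (∑ i, A i c).toNat}}.Finite :=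
    Set.Finite.pi' (fun c => List.finite_length_eq _ _)
  refine h1.subset ?_
  intro σ hσ c
  have h2 := GBad_length hσ c
  show (σ c).length = (∑ i, A i c).toNat
  omega

theorem JFin_N_word {d : ℕ} {M : Matrix (Fin d) (Fin d) ℤ} (P : PD M) (w : List (Fin d)) :
    P.N (rv (ab w)) ≤ P.c * w.length := by
  apply P.N_le
  intro i
  have h1 : ∑ j, rv (ab w) j = (w.length : ℝ) := by
    have := ab_sum w
    simp only [rv]
    exact_mod_cast this
  rw [h1]
  have h2 : rv (ab w) i ≤ w.length := by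
    simp only [rv, ab]
    exact_mod_cast List.count_le_length
  have h3 : 0 ≤ rv (ab w) i := by
    simp only [rv, ab]
    positivity
  have h4 : P.u i ≤ 1 := by
    rw [← P.u_sum]
    exact Finset.single_le_sum (f := P.u) (fun j _ => (P.u_pos j).le) (Finset.mem_univ i)
  have h5 := P.u_pos i
  have h6 : (0 : ℝ) ≤ w.length := Nat.cast_nonneg _
  rw [abs_le]
  constructor <;> nlinarith

theorem JFin_BT {d : ℕ} {M : Matrix (Fin d) (Fin d) ℤ} (P : PD M) (hnn : ∀ i j, 0 ≤ M i j)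
    (τ : Fin d → List (Fin d)) (hτ : inc τ = M) (a : Fin d) (k : ℕ) :
    P.N (rv (ab ((τ a).take k))) ≤ P.c * ∑ i, ∑ j, (M i j : ℝ) := by
  refine (JFin_N_word P _).trans (mul_le_mul_of_nonneg_left ?_ P.c_pos.le)
  have h1 : ((τ a).length : ℤ) = ∑ i, M i a := GBad_length hτ a
  have h2 : ((τ a).take k).length ≤ (τ a).length := by simp
  have h3 : (((τ a).take k).length : ℤ) ≤ ∑ i, ∑ j, M i j := by
    calc (((τ a).take k).length : ℤ) ≤ (τ a).length := by exact_mod_cast h2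
      _ = ∑ i, M i a := h1
      _ ≤ _ := Finset.sum_le_sum fun i _ =>
        Finset.single_le_sum (f := fun j => M i j) (fun j _ => hnn i j) (Finset.mem_univ a)
  exact_mod_cast h3

theorem JFin_sum_pos {d : ℕ} {M : Matrix (Fin (d+1)) (Fin (d+1)) ℤ} (P : PD M)
    (hnn : ∀ i j, 0 ≤ M i j) : 0 < ∑ i, ∑ j, (M i j : ℝ) := by
  have hnn' : ∀ i j, (0 : ℝ) ≤ (M i j : ℝ) := fun i j => by exact_mod_cast hnn i j
  have h0 : 0 ≤ ∑ i, ∑ j, (M i j : ℝ) :=
    Finset.sum_nonneg fun i _ => Finset.sum_nonneg fun j _ => hnn' i j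
  rcases h0.lt_or_eq with h | h
  · exact h
  · exfalso
    have h1 := (Finset.sum_eq_zero_iff_of_nonneg
      (fun i _ => Finset.sum_nonneg fun j _ => hnn' i j)).1 h.symm
    have h2 : ∀ i, (M i 0 : ℝ) = 0 := fun i =>
      (Finset.sum_eq_zero_iff_of_nonneg (fun j _ => hnn' i j)).1 (h1 i (Finset.mem_univ i)) 0
        (Finset.mem_univ 0)
    have h3 := P.ell_M 0
    simp only [h2, mul_zero, Finset.sum_const_zero] at h3
    have h4 := P.ell_pos 0
    have h5 := P.lam_gt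
    nlinarith

/-- a composition with incidence matrix a power of `A` and a coincidence property -/
theorem JFin_semi {m : ℕ} {A : Matrix (Fin (m+1)) (Fin (m+1)) ℤ} (Q : PD A)
    (hdet : IsUnit A.det) (BS D : ℝ) (hBS : 0 ≤ BS) (hD : (16 * Q.c ^ 2 + 4) * BS ≤ D)
    (hrho : Q.rho ≤ 1 / 2) (k : ℕ) (hk : 1 ≤ k) (S : Fin (m+1) → List (Fin (m+1)))
    (hS : inc S = A ^ k) (hpre : ∀ a j, Q.N (rv (ab ((S a).take j))) ≤ BS) (hhit : Q.Hit S D) :
    SemiConjToral S := by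
  have hD0 : 0 ≤ D := le_trans (by positivity) hD
  have key : ∀ (A' : Matrix (Fin (m+1)) (Fin (m+1)) ℤ) (_ : inc S = A') (Q' : PD A'),
      IsUnit A'.det → (∀ a k, Q'.N (rv (ab ((S a).take k))) ≤ BS) →
      2 * BS ≤ (1 - Q'.rho) * D → 8 * Q'.c ^ 2 * BS ≤ (1 - Q'.rho) * D →
      Q'.UC S D → SemiConjToral S := by
    intro A' hA Q' hdA h1 h2 h3 h4
    subst hA
    exact semiconj_of_UC Q' hdA BS D h1 h2 h3 h4
  have hr : Q.rho ^ k ≤ 1 / 2 :=
    (pow_le_of_le_one Q.rho_nonneg Q.rho_lt.le (by omega)).trans hrho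
  have h12 : (1/2 : ℝ) * D ≤ (1 - Q.rho ^ k) * D :=
    mul_le_mul_of_nonneg_right (by linarith) hD0
  have hc2 : 0 ≤ Q.c ^ 2 * BS := mul_nonneg (sq_nonneg _) hBS
  refine key (A ^ k) hS (Q.pow k hk) (by rw [Matrix.det_pow]; exact hdet.pow k) hpre ?_ ?_ ?_
  · change 2 * BS ≤ (1 - Q.rho ^ k) * D
    refine le_trans ?_ h12
    nlinarith
  · change 8 * Q.c ^ 2 * BS ≤ (1 - Q.rho ^ k) * D
    refine le_trans ?_ h12
    nlinarith
  · intro a b v hv hov
    have := hhit a b v hv hov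
    rw [hS] at this
    exact this

/-- Random compositions: for `n` large the compositions of `k` substitutions with incidence
matrix `M^n` satisfy the Pisot conjecture up to an exponentially small proportion. -/
theorem random_composition {m : ℕ} (M : Matrix (Fin (m+1)) (Fin (m+1)) ℤ)
    (hnn : ∀ i j, 0 ≤ M i j) (hM : PisotMat M) :
    ∃ n₀ : ℕ, ∀ n ≥ n₀, ({τ : Fin (m+1) → List (Fin (m+1)) | inc τ = M ^ n}).Finite ∧
      ∃ C c : ℝ, 0 < c ∧ ∀ k : ℕ,
      ({f : Fin k → (Fin (m+1) → List (Fin (m+1))) | (∀ i, inc (f i) = M ^ n) ∧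
        ¬ SemiConjToral (compList (List.ofFn f))}.ncard : ℝ) ≤
      C * Real.exp (-(c * k)) *
        ({τ : Fin (m+1) → List (Fin (m+1)) | inc τ = M ^ n}.ncard : ℝ) ^ k := by
  classical
  obtain ⟨lam, u, hlam, hu, husum⟩ := exists_u M hnn hM
  obtain ⟨P, -, -⟩ := exists_PD M hnn hM lam hlam u hu husum
  have hdet : IsUnit M.det := by
    rcases hM.2.1 with h | h <;> rw [h] <;> simp
  obtain ⟨B1, hB1⟩ := generic_UC M hnn P
  obtain ⟨B, hB⟩ : ∃ B : ℝ, B = max B1 0 := ⟨_, rfl⟩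
  have hB0 : 0 ≤ B := by rw [hB]; exact le_max_right _ _
  have hBB1 : B ≥ B1 := by rw [hB]; exact le_max_left _ _
  obtain ⟨c, hc, n0, hn0, hgen⟩ := hB1 B hBB1 (4 * (P.c * B) + 1)
  have hrho : ∀ᶠ n : ℕ in Filter.atTop, P.rho ^ n ≤ 1 / 2 := by
    have h := tendsto_pow_atTop_nhds_zero_of_lt_one P.rho_nonneg P.rho_lt
    exact (h.eventually (gt_mem_nhds (show (0:ℝ) < 1/2 by norm_num))).mono fun n hn => hn.le
  obtain ⟨n1, hn1⟩ := Filter.eventually_atTop.mp hrho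
  refine ⟨max n0 n1, fun n hn => ?_⟩
  have h1n : 1 ≤ n := le_trans hn0 (le_trans (le_max_left _ _) hn)
  have hrn : P.rho ^ n ≤ 1 / 2 := hn1 n (le_trans (le_max_right _ _) hn)
  obtain ⟨hfin, hne, hcard⟩ := hgen n (le_trans (le_max_left _ _) hn) h1n
  obtain ⟨Q, hQ⟩ : ∃ Q : PD (M ^ n), Q = P.pow n h1n := ⟨_, rfl⟩
  have hQrho : Q.rho = P.rho ^ n := by rw [hQ]; rfl
  have hQc : Q.c = P.c := by rw [hQ]; rfl
  have hQN : Q.N = P.N := by rw [hQ]; rfl
  have hnnn : ∀ i j, 0 ≤ (M ^ n) i j := GFin_pow_nonneg M hnn n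
  have hSpos := JFin_sum_pos Q hnnn
  -- a good substitution
  obtain ⟨s0, hs0, hs0UC⟩ : ∃ s0, s0 ∈ SubSet P.u (M ^ n) B ∧
      (P.pow n h1n).UC s0 (4 * (P.c * B) + 1) := by
    by_contra hcon
    push Not at hcon
    have h1 : {σ | σ ∈ SubSet P.u (M ^ n) B ∧
        ¬ (P.pow n h1n).UC σ (4 * (P.c * B) + 1)} = SubSet P.u (M ^ n) B := by
      ext σ
      exact ⟨fun h => h.1, fun h => ⟨h, hcon σ h⟩⟩
    rw [h1] at hcard
    have h2 : (0:ℝ) < ((SubSet P.u (M ^ n) B).ncard : ℝ) := by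
      exact_mod_cast (Set.ncard_pos hfin).mpr hne
    have h3 : Real.exp (-(c * ∑ i, ∑ j, ((M ^ n) i j : ℝ))) < 1 := by
      rw [Real.exp_lt_one_iff]
      have := mul_pos hc hSpos
      linarith
    nlinarith
  have hs0inc : inc s0 = M ^ n := hs0.1
  have hs0pre : ∀ a k, Q.N (rv (ab ((s0 a).take k))) ≤ P.c * B := by
    intro a k
    rw [hQN]
    exact GFin_dis_N P B hB0 _ (hs0.2 a k)
  have hs0hit : Q.Hit s0 (4 * (P.c * B) + 1) := by
    rw [← hQ] at hs0UC
    intro a b v hv hov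
    have := hs0UC a b v hv hov
    rw [hs0inc]
    exact this
  have hcB : 0 ≤ P.c * B := mul_nonneg P.c_pos.le hB0
  have hD0' : 2 * (P.c * B) < (1 - Q.rho) * (4 * (P.c * B) + 1) := by
    rw [hQrho]
    nlinarith
  -- bounds
  obtain ⟨BT, hBT⟩ : ∃ BT : ℝ, BT = Q.c * ∑ i, ∑ j, ((M ^ n) i j : ℝ) := ⟨_, rfl⟩
  have hBT0 : 0 ≤ BT := by rw [hBT]; exact mul_nonneg Q.c_pos.le hSpos.le
  have hr1 : 0 < 1 - Q.rho := by linarith [Q.rho_lt]
  have hrh : 1 / 2 ≤ 1 - Q.rho := by rw [hQrho]; linarith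
  obtain ⟨BS, hBS⟩ : ∃ BS : ℝ, BS = BT / (1 - Q.rho) + ∑ a, Q.N (rv (ev a)) := ⟨_, rfl⟩
  have hBS0 : 0 ≤ BS := by
    rw [hBS]
    exact add_nonneg (div_nonneg hBT0 hr1.le) (Finset.sum_nonneg fun a _ => Q.N_nonneg _)
  obtain ⟨D, hD⟩ : ∃ D : ℝ, D = (16 * Q.c ^ 2 + 4) * BS + 4 * BT := ⟨_, rfl⟩
  have hc2 : 0 ≤ Q.c ^ 2 * BS := mul_nonneg (sq_nonneg _) hBS0
  have hDBS : (16 * Q.c ^ 2 + 4) * BS ≤ D := by rw [hD]; linarith
  have hDBT : 2 * BT ≤ (1 - Q.rho) * D := by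
    have h1 : 4 * BT ≤ D := by
      rw [hD]
      nlinarith
    nlinarith
  have hTT : ∀ τ : Fin (m+1) → List (Fin (m+1)), inc τ = M ^ n →
      inc τ = M ^ n ∧ ∀ a k, Q.N (rv (ab ((τ a).take k))) ≤ BT := by
    intro τ hτ
    refine ⟨hτ, fun a k => ?_⟩
    rw [hBT]
    exact JFin_BT Q hnnn τ hτ a k
  obtain ⟨K, hK⟩ := hit_of_block Q s0 hs0inc (P.c * B) (4 * (P.c * B) + 1) hs0pre hD0' hs0hit BT D
    hDBT
  -- counting
  have hTfin := JFin_finite (M ^ n)
  refine ⟨hTfin, ?_⟩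
  obtain ⟨TT, hTTdef⟩ : ∃ TT : Set (Fin (m+1) → List (Fin (m+1))),
      TT = {τ | inc τ = M ^ n} := ⟨_, rfl⟩
  rw [← hTTdef] at hTfin
  rw [← hTTdef]
  have hmem : ∀ τ, τ ∈ TT ↔ inc τ = M ^ n := by
    intro τ
    rw [hTTdef]
    rfl
  let inst : Fintype TT := hTfin.fintype
  have hcardT : Fintype.card TT = TT.ncard := by
    rw [← Nat.card_eq_fintype_card, Nat.card_coe_set_eq]
  obtain ⟨C, c', hC, hc', hcount⟩ := count_no_block (⟨s0, (hmem s0).2 hs0inc⟩ : TT) K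
  refine ⟨C + 1, c', hc', fun k => ?_⟩
  rcases Nat.eq_zero_or_pos k with rfl | hk
  · have h1 : ({f : Fin 0 → (Fin (m+1) → List (Fin (m+1))) | (∀ i, inc (f i) = M ^ n) ∧
        ¬ SemiConjToral (compList (List.ofFn f))}.ncard : ℝ) ≤ 1 := by
      have : {f : Fin 0 → (Fin (m+1) → List (Fin (m+1))) | (∀ i, inc (f i) = M ^ n) ∧
        ¬ SemiConjToral (compList (List.ofFn f))}.ncard ≤ 1 := by
        rw [Set.ncard_le_one_iff_subsingleton]
        exact Set.subsingleton_of_subsingleton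
      exact_mod_cast this
    simp only [Nat.cast_zero, mul_zero, neg_zero, Real.exp_zero, mul_one, pow_zero]
    linarith
  · have hsub : {f : Fin k → (Fin (m+1) → List (Fin (m+1))) | (∀ i, inc (f i) = M ^ n) ∧
        ¬ SemiConjToral (compList (List.ofFn f))} ⊆
        (fun (g : Fin k → TT) (i : Fin k) => (g i).1) '' {f : Fin k → TT | ¬ ∃ l₁ l₂ : List TT,
          List.ofFn f = l₁ ++ List.replicate K (⟨s0, (hmem s0).2 hs0inc⟩ : TT) ++ l₂} := by
      rintro f ⟨hf1, hf2⟩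
      refine ⟨fun i => ⟨f i, (hmem _).2 (hf1 i)⟩, ?_, rfl⟩
      rintro ⟨l₁, l₂, hl⟩
      apply hf2
      have hf3 : List.ofFn f = l₁.map Subtype.val ++ List.replicate K s0 ++
          l₂.map Subtype.val := by
        have h1 := congrArg (List.map Subtype.val) hl
        rw [List.map_ofFn, List.map_append, List.map_append, List.map_replicate] at h1
        exact h1
      have hall : ∀ τ ∈ List.ofFn f, inc τ = M ^ n := by
        intro τ hτ
        rw [List.mem_ofFn] at hτ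
        obtain ⟨i, rfl⟩ := hτ
        exact hf1 i
      have hinc := inc_compList (M ^ n) (List.ofFn f) hall
      rw [List.length_ofFn] at hinc
      have hhit : Q.Hit (compList (List.ofFn f)) D := by
        rw [hf3]
        apply hK
        · intro τ hτ
          rw [List.mem_map] at hτ
          obtain ⟨t, _, rfl⟩ := hτ
          exact hTT _ ((hmem _).1 t.2)
        · intro τ hτ
          rw [List.mem_map] at hτ
          obtain ⟨t, _, rfl⟩ := hτ
          exact hTT _ ((hmem _).1 t.2)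
      have hpre : ∀ a j, Q.N (rv (ab ((compList (List.ofFn f) a).take j))) ≤ BS := by
        intro a j
        refine (compList_prefix Q (List.ofFn f) BT hBT0 (fun τ hτ => hTT τ (hall τ hτ)) a j).trans ?_
        rw [hBS]
        have := Finset.single_le_sum (f := fun a => Q.N (rv (ev a)))
          (fun a _ => Q.N_nonneg _) (Finset.mem_univ a)
        linarith
      exact JFin_semi Q (by rw [Matrix.det_pow]; exact hdet.pow n) BS D hBS0 hDBS
        (by rw [hQrho]; exact hrn) k hk _ hinc hpre hhit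
    have hfin2 : ({f : Fin k → TT | ¬ ∃ l₁ l₂ : List TT,
          List.ofFn f = l₁ ++ List.replicate K (⟨s0, (hmem s0).2 hs0inc⟩ : TT) ++ l₂}).Finite :=
      Set.toFinite _
    have h1 := (Set.ncard_le_ncard hsub (hfin2.image _)).trans (Set.ncard_image_le hfin2)
    have h2 := hcount k
    rw [hcardT] at h2
    have h3 : (0 : ℝ) ≤ Real.exp (-(c' * k)) * (TT.ncard : ℝ) ^ k := by positivity
    calc ({f : Fin k → (Fin (m+1) → List (Fin (m+1))) | (∀ i, inc (f i) = M ^ n) ∧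
        ¬ SemiConjToral (compList (List.ofFn f))}.ncard : ℝ) ≤
        (({f : Fin k → TT | ¬ ∃ l₁ l₂ : List TT,
          List.ofFn f = l₁ ++ List.replicate K (⟨s0, (hmem s0).2 hs0inc⟩ : TT) ++ l₂}).ncard : ℝ) := by
          exact_mod_cast h1
      _ ≤ _ := h2
      _ ≤ _ := by nlinarith

end Pool.Agent.H812R2.PI
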