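import Pool.Agent.H812R2.PI.JComp
import Pool.Agent.H812R2.PI.DBd

namespace Pool.Agent.H812R2.PI
open scoped BigOperators
variable {d : ℕ}

/-- prefix bound for compositions -/
theorem compList_prefix {A : Matrix (Fin d) (Fin d) ℤ} (P : PD A)
    (l : List (Fin d → List (Fin d))) (B : ℝ) (hB0 : 0 ≤ B)
    (hl : ∀ τ ∈ l, inc τ = A ∧ ∀ a k, P.N (rv (ab ((τ a).take k))) ≤ B) :
    ∀ a k, P.N (rv (ab ((compList l a).take k))) ≤ B / (1 - P.rho) + P.N (rv (ev a)) := by
  intro a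
  have hr : 0 < 1 - P.rho := by linarith [P.rho_lt]
  have hBr : 0 ≤ B / (1 - P.rho) := div_nonneg hB0 hr.le
  have hNe := P.N_nonneg (rv (ev a))
  induction l with
  | nil =>
    intro k
    simp only [compList]
    cases k with
    | zero => simp only [List.take_zero, ab_nil, rv_zero, N_zero]; positivity
    | succ k => simp only [List.take_succ_cons, List.take_nil, ab_single]; linarith
  | cons τ l ih =>
    have ih' := ih (fun τ' h => hl τ' (List.mem_cons_of_mem _ h))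
    obtain ⟨h1, h2⟩ := hl τ (List.mem_cons_self ..)
    intro k
    simp only [compList, comp]
    rcases DBd_take_ext τ (compList l a) k with h | ⟨i, j, b, h⟩
    · rw [h, ab_nil, rv_zero, N_zero]; positivity
    · rw [h, ab_append, ab_ext, rv_add, rv_mulVec, h1]
      have h3 := P.N_add (act A (rv (ab ((compList l a).take i)))) (rv (ab ((τ b).take j)))
      have h4 := P.N_act (rv (ab ((compList l a).take i)))
      have h5 := mul_le_mul_of_nonneg_left (ih' i) P.rho_nonneg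
      have h6 := h2 b j
      have h7 : P.rho * (B / (1 - P.rho)) + B = B / (1 - P.rho) := by
        field_simp; ring
      have h8 : P.rho * P.N (rv (ev a)) ≤ P.N (rv (ev a)) := by
        nlinarith [P.rho_lt]
      linarith

theorem JList_ne_nil {A : Matrix (Fin d) (Fin d) ℤ} (P : PD A) (τ : Fin d → List (Fin d))
    (hτ : inc τ = A) (b : Fin d) : τ b ≠ [] := by
  subst hτ
  intro h
  have h1 := P.ell_M b
  have h2 : ∀ i, inc τ i b = 0 := by intro i; simp [inc, h]
  simp only [h2, Int.cast_zero, mul_zero, Finset.sum_const_zero] at h1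
  have h3 : 0 < P.lam * P.ell b := mul_pos (lt_trans one_pos P.lam_gt) (P.ell_pos b)
  linarith

theorem JList_comp_ne_nil {A : Matrix (Fin d) (Fin d) ℤ} (P : PD A)
    (l : List (Fin d → List (Fin d))) (hl : ∀ τ ∈ l, inc τ = A) (a : Fin d) :
    compList l a ≠ [] := by
  induction l with
  | nil => simp [compList]
  | cons τ l ih =>
    have ih' := ih (fun τ' h => hl τ' (List.mem_cons_of_mem _ h))
    obtain ⟨c, w, hcw⟩ := List.exists_cons_of_ne_nil ih'
    simp only [compList, comp]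
    rw [hcw, ext_cons]
    intro h
    exact JList_ne_nil P τ (hl τ (List.mem_cons_self ..)) c (List.append_eq_nil_iff.1 h).1

theorem JList_ovTo {A : Matrix (Fin d) (Fin d) ℤ} (P : PD A)
    (l : List (Fin d → List (Fin d))) (B D : ℝ)
    (hl : ∀ τ ∈ l, inc τ = A ∧ ∀ a k, P.N (rv (ab ((τ a).take k))) ≤ B)
    (hD : 2 * B ≤ (1 - P.rho) * D) : P.OvTo (compList l) D D := by
  induction l with
  | nil => exact ovTo_id P D
  | cons τ l ih =>
    have ih' := ih (fun τ' h => hl τ' (List.mem_cons_of_mem _ h))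
    obtain ⟨h1, h2⟩ := hl τ (List.mem_cons_self ..)
    have h3 := ovTo_mono P τ D _ D (ovTo_base P τ h1 B D h2) (by linarith)
    exact ovTo_comp P τ (compList l) D D D ih' h3

theorem JList_rep {A : Matrix (Fin d) (Fin d) ℤ} (P : PD A) (σ₀ : Fin d → List (Fin d))
    (hσ : inc σ₀ = A) (B₀ D : ℝ) (hB0 : 0 ≤ B₀)
    (hB₀ : ∀ a k, P.N (rv (ab ((σ₀ a).take k))) ≤ B₀) (j : ℕ) :
    P.OvTo (compList (List.replicate j σ₀)) D (P.rho ^ j * D + 2 * B₀ / (1 - P.rho)) := by
  have hr : 0 < 1 - P.rho := by linarith [P.rho_lt]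
  induction j with
  | zero =>
    refine ovTo_mono P _ D D _ (ovTo_id P D) ?_
    have : 0 ≤ 2 * B₀ / (1 - P.rho) := by positivity
    simp only [pow_zero, one_mul]
    linarith
  | succ j ih =>
    have h1 := ovTo_base P σ₀ hσ B₀ (P.rho ^ j * D + 2 * B₀ / (1 - P.rho)) hB₀
    have h2 := ovTo_comp P σ₀ (compList (List.replicate j σ₀)) D _ _ ih h1
    rw [List.replicate_succ]
    refine ovTo_mono P _ D _ _ h2 (le_of_eq ?_)
    field_simp
    ring

/-- a composition which contains `K` consecutive copies of a good substitution is good -/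
theorem hit_of_block {A : Matrix (Fin d) (Fin d) ℤ} (P : PD A) (σ₀ : Fin d → List (Fin d))
    (hσ : inc σ₀ = A) (B₀ D₀ : ℝ) (hB₀ : ∀ a k, P.N (rv (ab ((σ₀ a).take k))) ≤ B₀)
    (hD₀ : 2 * B₀ < (1 - P.rho) * D₀) (hhit : P.Hit σ₀ D₀) (B D : ℝ)
    (hD : 2 * B ≤ (1 - P.rho) * D) :
    ∃ K : ℕ, ∀ l₁ l₂ : List (Fin d → List (Fin d)),
      (∀ τ ∈ l₁, inc τ = A ∧ ∀ a k, P.N (rv (ab ((τ a).take k))) ≤ B) →
      (∀ τ ∈ l₂, inc τ = A ∧ ∀ a k, P.N (rv (ab ((τ a).take k))) ≤ B) →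
      P.Hit (compList (l₁ ++ List.replicate K σ₀ ++ l₂)) D := by
  rcases isEmpty_or_nonempty (Fin d) with hd | ⟨⟨a0⟩⟩
  · exact ⟨0, fun l₁ l₂ _ _ a => (hd.false a).elim⟩
  have hB0 : 0 ≤ B₀ := le_trans (P.N_nonneg _) (hB₀ a0 0)
  have hr : 0 < 1 - P.rho := by linarith [P.rho_lt]
  have hgap : 0 < D₀ - 2 * B₀ / (1 - P.rho) := by
    have : 2 * B₀ / (1 - P.rho) < D₀ := by
      rw [div_lt_iff₀ hr]; linarith
    linarith
  obtain ⟨j, hj⟩ := exists_pow_lt_of_lt_one (div_pos hgap (by positivity : (0:ℝ) < |D| + 1)) P.rho_lt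
  have hjD : P.rho ^ j * D + 2 * B₀ / (1 - P.rho) ≤ D₀ := by
    have h1 : P.rho ^ j * (|D| + 1) ≤ D₀ - 2 * B₀ / (1 - P.rho) := by
      rw [lt_div_iff₀ (by positivity)] at hj
      exact hj.le
    have h2 : P.rho ^ j * D ≤ P.rho ^ j * (|D| + 1) :=
      mul_le_mul_of_nonneg_left (by linarith [le_abs_self D]) (pow_nonneg P.rho_nonneg j)
    linarith
  refine ⟨j + 1, fun l₁ l₂ h1 h2 => ?_⟩
  rw [compList_append, compList_append, comp_assoc]
  refine hit_comp_right P _ _ (JList_comp_ne_nil P l₁ fun τ h => (h1 τ h).1) D ?_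
  refine hit_comp_left P _ _ D D (JList_ovTo P l₂ B D h2 hD) ?_
  rw [List.replicate_succ]
  exact hit_comp_left P σ₀ (compList (List.replicate j σ₀)) D D₀
    (ovTo_mono P _ D _ D₀ (JList_rep P σ₀ hσ B₀ D hB0 hB₀ j) hjD) hhit

end Pool.Agent.H812R2.PI
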