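import Pool.Agent.H812R2.PI.Basic

namespace Pool.Agent.H812R2.PI
open scoped BigOperators
variable {d : ℕ}

/-- the functional `x ↦ ∑ ell_i x_i` on rational vectors -/
noncomputable def LInd_L (ell : Fin d → ℝ) : (Fin d → ℚ) →ₗ[ℚ] ℝ where
  toFun x := ∑ i, ell i * (x i : ℝ)
  map_add' x y := by
    simp [mul_add, Finset.sum_add_distrib]
  map_smul' c x := by
    simp only [Pi.smul_apply, smul_eq_mul, RingHom.id_apply, Rat.cast_mul, Finset.smul_sum,
      Rat.smul_def]
    refine Finset.sum_congr rfl fun i _ => ?_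
    ring

theorem LInd_L_apply (ell : Fin d → ℝ) (x : Fin d → ℚ) :
    LInd_L ell x = ∑ i, ell i * (x i : ℝ) := rfl

theorem LInd_step (A : Matrix (Fin d) (Fin d) ℚ) (lam : ℝ) (ell : Fin d → ℝ)
    (h : ∀ j, ∑ i, ell i * (A i j : ℝ) = lam * ell j) (x : Fin d → ℚ) :
    LInd_L ell (A.mulVec x) = lam * LInd_L ell x := by
  rw [LInd_L_apply, LInd_L_apply]
  have h1 : ∀ i, ell i * ((A.mulVec x i : ℚ) : ℝ) = ∑ j, ell i * (A i j : ℝ) * (x j : ℝ) := by
    intro i
    rw [Matrix.mulVec, dotProduct]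
    push_cast
    rw [Finset.mul_sum]
    refine Finset.sum_congr rfl fun j _ => ?_
    ring
  simp only [h1]
  rw [Finset.sum_comm, Finset.mul_sum]
  refine Finset.sum_congr rfl fun j _ => ?_
  rw [← Finset.sum_mul, h j]
  ring

theorem LInd_pow (A : Matrix (Fin d) (Fin d) ℚ) (lam : ℝ) (ell : Fin d → ℝ)
    (h : ∀ j, ∑ i, ell i * (A i j : ℝ) = lam * ell j) (n : ℕ) (x : Fin d → ℚ) :
    LInd_L ell ((A ^ n).mulVec x) = lam ^ n * LInd_L ell x := by
  induction n with
  | zero => simp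
  | succ n ih =>
    rw [pow_succ', ← Matrix.mulVec_mulVec, LInd_step A lam ell h, ih]
    ring

theorem LInd_poly (A : Matrix (Fin d) (Fin d) ℚ) (lam : ℝ) (ell : Fin d → ℝ)
    (h : ∀ j, ∑ i, ell i * (A i j : ℝ) = lam * ell j) (q : Polynomial ℚ) (x : Fin d → ℚ)
    (hx : LInd_L ell x = 0) : LInd_L ell ((Polynomial.aeval A q).mulVec x) = 0 := by
  induction q using Polynomial.induction_on' with
  | add p q hp hq =>
    rw [map_add, Matrix.add_mulVec, map_add, hp, hq, add_zero]
  | monomial n a =>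
    rw [Polynomial.aeval_monomial, ← Algebra.smul_def, Matrix.smul_mulVec, map_smul,
      LInd_pow A lam ell h, hx, mul_zero, smul_zero]

theorem left_eig_ind (M : Matrix (Fin d) (Fin d) ℤ)
    (hirr : Irreducible (M.map (Int.cast : ℤ → ℚ)).charpoly) (lam : ℝ) (ell : Fin d → ℝ)
    (h0 : ell ≠ 0) (h : ∀ j, ∑ i, ell i * (M i j : ℝ) = lam * ell j)
    (v : Fin d → ℤ) (hv : ∑ i, ell i * (v i : ℝ) = 0) : v = 0 := by
  by_contra hne
  obtain ⟨A, hA⟩ : ∃ A : Matrix (Fin d) (Fin d) ℚ, A = M.map (Int.cast : ℤ → ℚ) := ⟨_, rfl⟩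
  rw [← hA] at hirr
  have hA' : ∀ j, ∑ i, ell i * (A i j : ℝ) = lam * ell j := by
    intro j
    rw [← h j]
    refine Finset.sum_congr rfl fun i _ => ?_
    rw [hA]
    simp
  obtain ⟨x, hx⟩ : ∃ x : Fin d → ℚ, x = fun i => (v i : ℚ) := ⟨_, rfl⟩
  have hx0 : x ≠ 0 := by
    intro h1
    apply hne
    funext i
    have := congrFun h1 i
    rw [hx] at this
    simpa using this
  have hLx : LInd_L ell x = 0 := by
    rw [LInd_L_apply, ← hv]
    refine Finset.sum_congr rfl fun i _ => ?_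
    rw [hx]
    simp
  -- the map from polynomials of degree `< d`
  let Φ : Polynomial.degreeLT ℚ d →ₗ[ℚ] (Fin d → ℚ) :=
    { toFun := fun q => (Polynomial.aeval A q.1).mulVec x
      map_add' := fun p q => by
        simp [Matrix.add_mulVec]
      map_smul' := fun c q => by
        simp [Matrix.smul_mulVec] }
  have hinj : Function.Injective Φ := by
    rw [← LinearMap.ker_eq_bot, LinearMap.ker_eq_bot']
    intro q hq
    by_contra hq0
    have hq1 : q.1 ≠ 0 := fun h1 => hq0 (Subtype.ext h1)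
    have hdeg : q.1.degree < d := Polynomial.mem_degreeLT.mp q.2
    have hnd : ¬ A.charpoly ∣ q.1 := by
      intro hd
      have h1 := Polynomial.degree_le_of_dvd hd hq1
      rw [Matrix.charpoly_degree_eq_dim, Fintype.card_fin] at h1
      exact absurd (lt_of_le_of_lt h1 hdeg) (lt_irrefl _)
    obtain ⟨a, b, hab⟩ := (hirr.coprime_iff_not_dvd).mpr hnd
    have h1 := congrArg (fun p : Polynomial ℚ => (Polynomial.aeval A p).mulVec x) hab
    simp only [map_add, map_mul, Matrix.aeval_self_charpoly, mul_zero, zero_add, map_one,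
      Matrix.one_mulVec] at h1
    have hq' : (Polynomial.aeval A q.1).mulVec x = 0 := hq
    rw [← Matrix.mulVec_mulVec, hq', Matrix.mulVec_zero] at h1
    exact hx0 h1.symm
  have hfr : Module.finrank ℚ (Polynomial.degreeLT ℚ d) = Module.finrank ℚ (Fin d → ℚ) :=
    (Polynomial.degreeLTEquiv ℚ d).finrank_eq
  haveI : FiniteDimensional ℚ (Polynomial.degreeLT ℚ d) :=
    Module.Finite.equiv (Polynomial.degreeLTEquiv ℚ d).symm
  have hsurj : Function.Surjective Φ :=
    (LinearMap.injective_iff_surjective_of_finrank_eq_finrank hfr).mp hinj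
  apply h0
  funext j
  obtain ⟨q, hq⟩ := hsurj (Pi.single j 1)
  have h1 : LInd_L ell (Φ q) = 0 := LInd_poly A lam ell hA' q.1 x hLx
  rw [hq, LInd_L_apply] at h1
  rw [Finset.sum_eq_single j] at h1
  · simpa using h1
  · intro i _ hij
    simp [Pi.single_eq_of_ne hij]
  · intro hj
    exact absurd (Finset.mem_univ j) hj

theorem right_eig_ind (M : Matrix (Fin d) (Fin d) ℤ)
    (hirr : Irreducible (M.map (Int.cast : ℤ → ℚ)).charpoly) (lam : ℝ) (u : Fin d → ℝ)
    (h0 : u ≠ 0) (h : ∀ i, ∑ j, (M i j : ℝ) * u j = lam * u i)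
    (w : Fin d → ℤ) (hw : ∑ i, (w i : ℝ) * u i = 0) : w = 0 := by
  refine left_eig_ind M.transpose ?_ lam u h0 ?_ w ?_
  · have : (M.transpose.map (Int.cast : ℤ → ℚ)) = (M.map (Int.cast : ℤ → ℚ)).transpose := rfl
    rw [this, Matrix.charpoly_transpose]
    exact hirr
  · intro j
    rw [← h j]
    refine Finset.sum_congr rfl fun i _ => ?_
    rw [Matrix.transpose_apply]
    ring
  · rw [← hw]
    refine Finset.sum_congr rfl fun i _ => ?_
    ring

end Pool.Agent.H812R2.PI
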