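import Pool.Agent.H812R2.PI.GBad

namespace Pool.Agent.H812R2.PI
open scoped BigOperators
variable {d : ℕ}

/-- substitutions in `SubSet u A B` which agree with `σ₀` at all positions outside `S` -/
def SubPos (u : Fin d → ℝ) (A : Matrix (Fin d) (Fin d) ℤ) (B : ℝ)
    (σ₀ : Fin d → List (Fin d)) (S : Set (Fin d × ℕ)) : Set (Fin d → List (Fin d)) :=
  {σ | σ ∈ SubSet u A B ∧ ∀ c t, (c, t) ∉ S → (σ c)[t]? = (σ₀ c)[t]?}

theorem PBad_sub {u : Fin d → ℝ} {A : Matrix (Fin d) (Fin d) ℤ} {B : ℝ}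
    {σ₀ : Fin d → List (Fin d)} {S : Set (Fin d × ℕ)} {σ : Fin d → List (Fin d)}
    (h : σ ∈ SubPos u A B σ₀ S) : σ ∈ SubSet u A B := h.1

theorem PBad_letter {a b : Fin d} {K P P' : ℕ} {σ σ' : Fin d → List (Fin d)}
    (h : GBad_kap a b K P P' σ σ') (c : Fin d) (n : ℕ) (hlen : (σ c).length = (σ' c).length)
    (hA : ¬ (c = a ∧ P ≤ n ∧ n < P + K)) (hB : ¬ (c = b ∧ P' ≤ n ∧ n < P' + K)) :
    (σ c)[n]? = (σ' c)[n]? := by
  by_cases hn1 : n < (σ c).length
  · have hn2 : n < (σ' c).length := by omega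
    have hN0 : GBad_NI a b K P P' c n := by
      refine ⟨fun hc => ?_, fun hc => ?_⟩
      · by_contra hcon
        apply hA; refine ⟨hc, ?_, ?_⟩ <;> omega
      · by_contra hcon
        apply hB; refine ⟨hc, ?_, ?_⟩ <;> omega
    have hN1 : GBad_NI a b K P P' c (n + 1) := by
      refine ⟨fun hc => ?_, fun hc => ?_⟩
      · by_contra hcon
        apply hA; refine ⟨hc, ?_, ?_⟩ <;> omega
      · by_contra hcon
        apply hB; refine ⟨hc, ?_, ?_⟩ <;> omega
    have q0 := h c n hN0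
    have q1 := h c (n + 1) hN1
    rw [GBad_take_succ _ _ hn1, GBad_take_succ _ _ hn2, q0] at q1
    rw [List.getElem?_eq_getElem hn1, List.getElem?_eq_getElem hn2,
      GBad_ev_inj (add_left_cancel q1)]
  · rw [List.getElem?_eq_none (by omega), List.getElem?_eq_none (by omega)]

theorem PBad_class {u : Fin d → ℝ} {A : Matrix (Fin d) (Fin d) ℤ} {B : ℝ}
    {σ₀ : Fin d → List (Fin d)} {S : Set (Fin d × ℕ)} {K : ℕ}
    (a b : Fin d) (P P' : ℕ) (ω : {σ // σ ∈ SubPos u A B σ₀ S}) :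
    {ω' : {σ // σ ∈ SubPos u A B σ₀ S} | GBad_kap a b K P P' ω.1 ω'.1}.ncard ≤ d ^ (2 * K) := by
  have hfin : Finite {σ // σ ∈ SubSet u A B} := (subSet_finite u A B).to_subtype
  refine le_trans ?_ (GBad_class (K := K) a b P P' ⟨ω.1, PBad_sub ω.2⟩)
  refine Set.ncard_le_ncard_of_injOn
    (fun ω' => (⟨ω'.1, PBad_sub ω'.2⟩ : {σ // σ ∈ SubSet u A B})) ?_ ?_ (Set.toFinite _)
  · intro ω' h
    exact h
  · intro x _ y _ hxy
    have := congrArg Subtype.val hxy
    exact Subtype.ext this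

theorem bad_count_pos (u : Fin d → ℝ) (A : Matrix (Fin d) (Fin d) ℤ) (B : ℝ) (K : ℕ) (hK : 0 < K)
    (hsurg : SurgProp u B K) (σ₀ : Fin d → List (Fin d)) (S : Set (Fin d × ℕ))
    (a b : Fin d) (s : Fin d → ℤ) (hs : dis u s ≤ 1) (T : ℤ) (J : ℕ)
    (h1 : 0 ≤ T) (h2 : T + K * J ≤ ∑ i, A i a) (h3 : 0 ≤ T - ∑ i, s i)
    (h4 : T - ∑ i, s i + K * J ≤ ∑ i, A i b) (h5 : a = b → (K * J : ℤ) ≤ |∑ i, s i|)
    (hS1 : ∀ t : ℕ, T ≤ t → (t : ℤ) < T + K * J → (a, t) ∈ S)
    (hS2 : ∀ t : ℕ, T - ∑ i, s i ≤ t → (t : ℤ) < T - ∑ i, s i + K * J → (b, t) ∈ S) :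
    ({σ | σ ∈ SubPos u A B σ₀ S ∧ ¬ ∃ e, e ∈ edges 0 (σ a) ∧ e ∈ edges s (σ b)}.ncard : ℝ) ≤
      (1 - 1 / ((d : ℝ) ^ (2 * K))) ^ J * ((SubPos u A B σ₀ S).ncard : ℝ) := by
  classical
  obtain ⟨t, ht⟩ : ∃ t : ℕ, T = t := ⟨T.toNat, by omega⟩
  obtain ⟨t', ht'⟩ : ∃ t' : ℕ, T - ∑ i, s i = t' := ⟨(T - ∑ i, s i).toNat, by omega⟩
  -- block positions
  have hblock : ∀ j : Fin J, (j : ℕ) * K + K ≤ K * J := by
    intro j
    have := j.2
    calc (j : ℕ) * K + K = ((j : ℕ) + 1) * K := by ring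
      _ ≤ J * K := Nat.mul_le_mul_right K this
      _ = K * J := by ring
  have hsep : a = b → (t + K * J ≤ t' ∨ t' + K * J ≤ t) := by
    intro hab
    have h6 := h5 hab
    have h7 : ∑ i, s i = (t : ℤ) - t' := by omega
    rw [h7] at h6
    rcases le_abs.1 h6 with h8 | h8
    · right; zify; linarith
    · left; zify; linarith
  have hlt : ∀ i j : Fin J, (i : ℕ) < j → (i : ℕ) * K + K ≤ (j : ℕ) * K := by
    intro i j hij
    calc (i : ℕ) * K + K = ((i : ℕ) + 1) * K := by ring
      _ ≤ (j : ℕ) * K := Nat.mul_le_mul_right K hij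
  have hfinP : (SubPos u A B σ₀ S).Finite := (subSet_finite u A B).subset (fun _ h => h.1)
  have : Fintype {σ // σ ∈ SubPos u A B σ₀ S} := hfinP.fintype
  have hlenA : ∀ σ ∈ SubSet u A B, t + K * J ≤ (σ a).length := by
    intro σ hσ
    have := GBad_length hσ.1 a
    zify; rw [this, ← ht]; exact h2
  have hlenB : ∀ σ ∈ SubSet u A B, t' + K * J ≤ (σ b).length := by
    intro σ hσ
    have := GBad_length hσ.1 b
    zify; rw [this, ← ht']; exact h4
  have key := count_indep (Ω := {σ // σ ∈ SubPos u A B σ₀ S}) J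
    (fun j ω => GBad_bad a b K (t + j * K) (t' + j * K) s ω.1)
    (fun j ω ω' => GBad_kap a b K (t + j * K) (t' + j * K) ω.1 ω'.1)
    (fun j => ⟨fun ω => (GBad_kap_equiv a b K _ _).refl ω.1,
      fun h => (GBad_kap_equiv a b K _ _).symm h,
      fun h h' => (GBad_kap_equiv a b K _ _).trans h h'⟩)
    (d ^ (2 * K))
    (fun j ω => PBad_class a b _ _ ω)
    (by
      intro j ω
      have hj := hblock j
      have hA := hlenA ω.1 ω.2.1
      have hB := hlenB ω.1 ω.2.1
      obtain ⟨σ', m1, m2, m3⟩ := GBad_good (P := t + j * K) (P' := t' + j * K) hsurg hs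
        (by push_cast; omega)
        (by
          intro hab
          rcases hsep hab with h | h
          · left; omega
          · right; omega)
        ω.2.1 (by omega) (by omega)
      refine ⟨⟨σ', m1, ?_⟩, m2, m3⟩
      intro c n hcn
      rw [← ω.2.2 c n hcn]
      refine (PBad_letter m2 c n (GBad_upd_length ω.2.1 m1 c) ?_ ?_).symm
      · rintro ⟨rfl, hn1, hn2⟩
        exact hcn (hS1 n (by omega) (by zify at hj hn2; linarith))
      · rintro ⟨rfl, hn1, hn2⟩
        exact hcn (hS2 n (by omega) (by zify at hj hn2; linarith)))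
    (by
      intro i j hij ω ω' hκ
      have hi := hblock i
      have hj := hblock j
      have hij' : (i : ℕ) * K + K ≤ (j : ℕ) * K ∨ (j : ℕ) * K + K ≤ (i : ℕ) * K := by
        rcases lt_or_gt_of_ne (fun h => hij (Fin.ext h) : (i : ℕ) ≠ j) with h | h
        · left; exact hlt i j h
        · right; exact hlt j i h
      have qa : ∀ k, k ≤ K → ab ((ω.1 a).take (t + i * K + k)) =
          ab ((ω'.1 a).take (t + i * K + k)) := by
        intro k hk
        apply hκ a
        refine ⟨fun _ => ?_, fun hab => ?_⟩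
        · rcases hij' with h | h
          · left; omega
          · right; omega
        · rcases hsep hab with h | h
          · left; omega
          · right; omega
      have qb : ∀ k, k ≤ K → ab ((ω.1 b).take (t' + i * K + k)) =
          ab ((ω'.1 b).take (t' + i * K + k)) := by
        intro k hk
        apply hκ b
        refine ⟨fun hba => ?_, fun _ => ?_⟩
        · rcases hsep hba.symm with h | h
          · right; omega
          · left; omega
        · rcases hij' with h | h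
          · left; omega
          · right; omega
      unfold GBad_bad
      apply not_congr
      apply exists_congr
      intro k
      constructor
      · rintro ⟨hk, e1, e2⟩
        refine ⟨hk, ?_, ?_⟩
        · rw [← qa k (by omega), ← qb k (by omega)]; exact e1
        · rw [← qa (k + 1) (by omega), ← qb (k + 1) (by omega)]; exact e2
      · rintro ⟨hk, e1, e2⟩
        refine ⟨hk, ?_, ?_⟩
        · rw [qa k (by omega), qb k (by omega)]; exact e1
        · rw [qa (k + 1) (by omega), qb (k + 1) (by omega)]; exact e2)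
  have hcard : (Fintype.card {σ // σ ∈ SubPos u A B σ₀ S} : ℝ) =
      ((SubPos u A B σ₀ S).ncard : ℝ) := by
    rw [← Nat.card_eq_fintype_card]
    exact_mod_cast Nat.card_coe_set_eq (SubPos u A B σ₀ S)
  rw [hcard] at key
  push_cast at key
  refine le_trans ?_ key
  have himg : {σ | σ ∈ SubPos u A B σ₀ S ∧ ¬ ∃ e, e ∈ edges 0 (σ a) ∧ e ∈ edges s (σ b)} ⊆
      Subtype.val '' {ω : {σ // σ ∈ SubPos u A B σ₀ S} |
        ∀ j : Fin J, GBad_bad a b K (t + j * K) (t' + j * K) s ω.1} := by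
    rintro σ ⟨hσ, hno⟩
    refine ⟨⟨σ, hσ⟩, ?_, rfl⟩
    intro j
    rintro ⟨k, hk, e1, e2⟩
    apply hno
    have hj := hblock j
    have hA := hlenA σ hσ.1
    have hB := hlenB σ hσ.1
    have hka : t + j * K + k < (σ a).length := by omega
    have hkb : t' + j * K + k < (σ b).length := by omega
    rw [← add_assoc, ← add_assoc, GBad_take_succ _ _ hka, GBad_take_succ _ _ hkb, e1,
      add_assoc] at e2
    have e3 := GBad_ev_inj (add_left_cancel (add_left_cancel e2))
    refine ⟨(0 + ab ((σ a).take (t + j * K + k)), (σ a)[t + j * K + k]), ?_, ?_⟩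
    · exact mem_edges.2 ⟨_, hka, rfl⟩
    · refine mem_edges.2 ⟨_, hkb, ?_⟩
      rw [zero_add, e1, e3]
  have hle := Set.ncard_le_ncard himg (Set.toFinite _)
  rw [Set.ncard_image_of_injective _ Subtype.val_injective] at hle
  exact_mod_cast hle

end Pool.Agent.H812R2.PI
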