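import Pool.Agent.H812R2.PI.PBad
import Pool.Agent.H812R2.PI.JList
import Pool.Agent.H812R2.PI.GFin

namespace Pool.Agent.H812R2.PI
open scoped BigOperators

theorem PFin_compList {d : ℕ} (σ : Fin d → List (Fin d)) (n : ℕ) :
    compList (List.replicate n σ) = iter σ n := by
  induction n with
  | zero => funext a; simp [compList, iter_zero]
  | succ n ih =>
    rw [List.replicate_succ, compList, ih]
    funext a
    rw [iter_succ]; rfl

/-- a bound for the prefixes of `σ` -/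
theorem PFin_bd {d : ℕ} {M : Matrix (Fin d) (Fin d) ℤ} (P : PD M) (σ : Fin d → List (Fin d)) :
    ∃ Bs : ℝ, 0 ≤ Bs ∧ ∀ a k, P.N (rv (ab ((σ a).take k))) ≤ Bs := by
  refine ⟨∑ a, ∑ k ∈ Finset.range ((σ a).length + 1), P.N (rv (ab ((σ a).take k))),
    Finset.sum_nonneg fun a _ => Finset.sum_nonneg fun k _ => P.N_nonneg _, fun a k => ?_⟩
  have key : ∀ k, k ≤ (σ a).length → P.N (rv (ab ((σ a).take k))) ≤
      ∑ a, ∑ k ∈ Finset.range ((σ a).length + 1), P.N (rv (ab ((σ a).take k))) := by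
    intro k hk
    have h1 : P.N (rv (ab ((σ a).take k))) ≤
        ∑ k ∈ Finset.range ((σ a).length + 1), P.N (rv (ab ((σ a).take k))) :=
      Finset.single_le_sum (f := fun k => P.N (rv (ab ((σ a).take k))))
        (fun k _ => P.N_nonneg _) (Finset.mem_range.mpr (by omega))
    refine h1.trans ?_
    exact Finset.single_le_sum
      (f := fun a => ∑ k ∈ Finset.range ((σ a).length + 1), P.N (rv (ab ((σ a).take k))))
      (fun a _ => Finset.sum_nonneg fun k _ => P.N_nonneg _) (Finset.mem_univ a)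
  rcases le_or_gt k (σ a).length with hk | hk
  · exact key k hk
  · rw [List.take_of_length_le hk.le]
    have := key (σ a).length le_rfl
    rwa [List.take_length] at this

/-- the iterates of `σ` have uniformly bounded discrepancy -/
theorem PFin_iter {d : ℕ} (σ : Fin d → List (Fin d)) (P : PD (inc σ)) :
    ∃ R : ℝ, ∀ B ≥ R, ∀ n, iter σ n ∈ SubSet P.u ((inc σ) ^ n) B := by
  obtain ⟨Bs, hBs0, hBs⟩ := PFin_bd P σ
  set R0 : ℝ := Bs / (1 - P.rho) + ∑ a, P.N (rv (ev a)) with hR0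
  have hrho : 0 < 1 - P.rho := by have := P.rho_lt; linarith
  have hR00 : 0 ≤ R0 := by
    have h1 : 0 ≤ Bs / (1 - P.rho) := div_nonneg hBs0 hrho.le
    have h2 : 0 ≤ ∑ a, P.N (rv (ev a)) := Finset.sum_nonneg fun a _ => P.N_nonneg _
    linarith
  have hc := P.c_pos
  refine ⟨d * (P.c * R0), fun B hB n => ⟨inc_iter σ n, fun a k => ?_⟩⟩
  have hd : (1 : ℝ) ≤ d := by exact_mod_cast (Fin.pos a)
  have h1 : P.N (rv (ab ((iter σ n a).take k))) ≤ Bs / (1 - P.rho) + P.N (rv (ev a)) := by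
    have := compList_prefix P (List.replicate n σ) Bs hBs0
      (fun τ hτ => by rw [List.eq_of_mem_replicate hτ]; exact ⟨rfl, hBs⟩) a k
    rwa [PFin_compList] at this
  have h2 : P.N (rv (ab ((iter σ n a).take k))) ≤ R0 := by
    refine h1.trans ?_
    have : P.N (rv (ev a)) ≤ ∑ a, P.N (rv (ev a)) :=
      Finset.single_le_sum (f := fun a => P.N (rv (ev a))) (fun a _ => P.N_nonneg _)
        (Finset.mem_univ a)
    linarith
  have h3 := GFin_N_dis P (ab ((iter σ n a).take k))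
  have h4 : P.c * P.N (rv (ab ((iter σ n a).take k))) ≤ P.c * R0 :=
    mul_le_mul_of_nonneg_left h2 hc.le
  have h5 : 0 ≤ P.c * P.N (rv (ab ((iter σ n a).take k))) := mul_nonneg hc.le (P.N_nonneg _)
  have h6 : (P.c * P.N (rv (ab ((iter σ n a).take k)))) ^ 2 ≤ (P.c * R0) ^ 2 :=
    pow_le_pow_left₀ h5 h4 2
  have h7 : 0 ≤ P.c * R0 := mul_nonneg hc.le hR00
  have h8 : (d : ℝ) * (P.c * R0) ^ 2 ≤ (d * (P.c * R0)) ^ 2 := by
    have : (d * (P.c * R0)) ^ 2 = d * (d * (P.c * R0) ^ 2) := by ring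
    rw [this]
    have h9 : 0 ≤ (d : ℝ) * (P.c * R0) ^ 2 := by positivity
    nlinarith
  have h10 : (d * (P.c * R0)) ^ 2 ≤ B ^ 2 :=
    pow_le_pow_left₀ (by positivity) hB 2
  have h11 : (d : ℝ) * (P.c * P.N (rv (ab ((iter σ n a).take k)))) ^ 2 ≤ d * (P.c * R0) ^ 2 :=
    mul_le_mul_of_nonneg_left h6 (by positivity)
  linarith

/-- Every power of a unimodular irreducible Pisot substitution can be changed in boundedly many
places so that it satisfies the Pisot conjecture. -/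
theorem perturbation {m : ℕ} (σ : Fin (m+1) → List (Fin (m+1))) (hM : PisotMat (inc σ)) :
    ∃ C n₀ : ℕ, ∀ n ≥ n₀, ∃ τ : Fin (m+1) → List (Fin (m+1)), inc τ = (inc σ) ^ n ∧
      (∀ a, {t : ℕ | (τ a)[t]? ≠ (iter σ n a)[t]?}.ncard ≤ C) ∧ SemiConjToral τ := by
  classical
  have hnn : ∀ i j, 0 ≤ (inc σ) i j := fun i j => by simp [inc]
  obtain ⟨lam, u, hlam, hu, husum⟩ := exists_u (inc σ) hnn hM
  obtain ⟨P, rfl, hPlam⟩ := exists_PD (inc σ) hnn hM lam hlam u hu husum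
  have hdet : IsUnit (inc σ).det := by
    rcases hM.2.1 with h | h <;> rw [h] <;> simp
  obtain ⟨B1, hB1⟩ := surgery P.u P.u_pos P.u_sum
  obtain ⟨R, hR⟩ := PFin_iter σ P
  set B : ℝ := max (max B1 R) 0 with hBdef
  have hBB1 : B ≥ B1 := le_trans (le_max_left _ _) (le_max_left _ _)
  have hBR : B ≥ R := le_trans (le_max_right _ _) (le_max_left _ _)
  have hB0 : 0 ≤ B := le_max_right _ _
  obtain ⟨K, hK, hS⟩ := hB1 B hBB1
  set D : ℝ := (16 * P.c ^ 2 + 4) * (P.c * B) with hD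
  have hWfin := window_finite P D (∑ j, P.ell j)
  set W := hWfin.toFinset with hW
  set S : Finset (Fin (m+1) × Fin (m+1) × (Fin (m+1) → ℤ)) :=
    Finset.univ ×ˢ (Finset.univ ×ˢ W) with hSdef
  set q : ℝ := 1 / (((m + 1 : ℕ) : ℝ) ^ (2 * K)) with hq
  have hd1 : (1:ℝ) ≤ ((m + 1 : ℕ) : ℝ) ^ (2 * K) := one_le_pow₀ (by exact_mod_cast Nat.succ_pos m)
  have hq0 : 0 < q := by rw [hq]; positivity
  have hq1 : q ≤ 1 := by rw [hq]; exact (div_le_one (by positivity)).mpr hd1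
  obtain ⟨J, hJ⟩ := exists_pow_lt_of_lt_one (show (0:ℝ) < 1 / ((S.card : ℝ) + 1) by positivity)
    (show 1 - q < 1 by linarith)
  have hSJ : (S.card : ℝ) * (1 - q) ^ J < 1 := by
    rw [lt_div_iff₀ (by positivity)] at hJ
    have : 0 ≤ (1 - q) ^ J := pow_nonneg (by linarith) J
    nlinarith
  have hlamt : Filter.Tendsto (fun n : ℕ => P.lam ^ n) Filter.atTop Filter.atTop :=
    tendsto_pow_atTop_atTop_of_one_lt P.lam_gt
  -- geometry of the states
  have hgeom : ∀ᶠ n : ℕ in Filter.atTop, ∀ t ∈ S,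
      (0 < P.OV (0, t.1) (t.2.2, t.2.1) ∧ ¬ (t.2.2 = 0 ∧ t.1 = t.2.1)) →
      ∃ T : ℤ, dis P.u (((inc σ) ^ n).mulVec t.2.2) ≤ 1 ∧ 0 ≤ T ∧
        T + K * J ≤ ∑ i, ((inc σ) ^ n) i t.1 ∧ 0 ≤ T - ∑ i, (((inc σ) ^ n).mulVec t.2.2) i ∧
        T - ∑ i, (((inc σ) ^ n).mulVec t.2.2) i + K * J ≤ ∑ i, ((inc σ) ^ n) i t.2.1 ∧
        (t.1 = t.2.1 → (K * J : ℤ) ≤ |∑ i, (((inc σ) ^ n).mulVec t.2.2) i|) := by
    rw [Filter.eventually_all_finset]
    intro t _
    by_cases hcond : 0 < P.OV (0, t.1) (t.2.2, t.2.1) ∧ ¬ (t.2.2 = 0 ∧ t.1 = t.2.1)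
    swap
    · exact Filter.Eventually.of_forall fun n h => absurd h hcond
    obtain ⟨c, hc, n0, hgeo⟩ := geom P t.1 t.2.1 t.2.2 hcond.1 hcond.2
    filter_upwards [Filter.eventually_ge_atTop n0, hlamt.eventually_ge_atTop ((K * J : ℕ) / c)]
      with n hn hbig _
    obtain ⟨hdis, hJ'⟩ := hgeo n hn
    have h1 : ((K * J : ℕ) : ℝ) ≤ c * P.lam ^ n := by
      rw [div_le_iff₀ hc] at hbig
      linarith
    obtain ⟨T, t1, t2, t3, t4, t5⟩ := hJ' (K * J) h1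
    push_cast at t2 t4 t5
    exact ⟨T, hdis, t1, t2, t3, t4, t5⟩
  have hrho : ∀ᶠ n : ℕ in Filter.atTop, P.rho ^ n ≤ 1 / 2 := by
    have h := tendsto_pow_atTop_nhds_zero_of_lt_one P.rho_nonneg P.rho_lt
    exact (h.eventually (gt_mem_nhds (show (0:ℝ) < 1/2 by norm_num))).mono fun n hn => hn.le
  obtain ⟨n0, hn0⟩ := Filter.eventually_atTop.mp
    (hgeom.and (hrho.and (Filter.eventually_ge_atTop 1)))
  refine ⟨S.card * (K * J + K * J), n0, fun n hn => ?_⟩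
  obtain ⟨hg, hr, hn1⟩ := hn0 n hn
  -- the numbers T
  have hg' : ∀ t : Fin (m+1) × Fin (m+1) × (Fin (m+1) → ℤ), ∃ T : ℤ, t ∈ S →
      (0 < P.OV (0, t.1) (t.2.2, t.2.1) ∧ ¬ (t.2.2 = 0 ∧ t.1 = t.2.1)) →
      dis P.u (((inc σ) ^ n).mulVec t.2.2) ≤ 1 ∧ 0 ≤ T ∧
        T + K * J ≤ ∑ i, ((inc σ) ^ n) i t.1 ∧ 0 ≤ T - ∑ i, (((inc σ) ^ n).mulVec t.2.2) i ∧
        T - ∑ i, (((inc σ) ^ n).mulVec t.2.2) i + K * J ≤ ∑ i, ((inc σ) ^ n) i t.2.1 ∧
        (t.1 = t.2.1 → (K * J : ℤ) ≤ |∑ i, (((inc σ) ^ n).mulVec t.2.2) i|) := by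
    intro t
    by_cases h : t ∈ S ∧ (0 < P.OV (0, t.1) (t.2.2, t.2.1) ∧ ¬ (t.2.2 = 0 ∧ t.1 = t.2.1))
    · obtain ⟨T, hT⟩ := hg t h.1 h.2
      exact ⟨T, fun _ _ => hT⟩
    · exact ⟨0, fun h1 h2 => absurd ⟨h1, h2⟩ h⟩
  choose T hT using hg'
  set s : (Fin (m+1) × Fin (m+1) × (Fin (m+1) → ℤ)) → ℤ :=
    fun t => ∑ i, (((inc σ) ^ n).mulVec t.2.2) i with hs
  set Pos : Set (Fin (m+1) × ℕ) := {x | ∃ t ∈ S,
    (0 < P.OV (0, t.1) (t.2.2, t.2.1) ∧ ¬ (t.2.2 = 0 ∧ t.1 = t.2.1)) ∧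
    ((x.1 = t.1 ∧ T t ≤ x.2 ∧ (x.2 : ℤ) < T t + K * J) ∨
     (x.1 = t.2.1 ∧ T t - s t ≤ x.2 ∧ (x.2 : ℤ) < T t - s t + K * J))} with hPos
  set Om := SubPos P.u ((inc σ) ^ n) B (iter σ n) Pos with hOm
  have hOmsub : Om ⊆ SubSet P.u ((inc σ) ^ n) B := fun τ hτ => hτ.1
  have hOmfin : Om.Finite := (subSet_finite P.u ((inc σ) ^ n) B).subset hOmsub
  have hOmne : iter σ n ∈ Om := ⟨hR B hBR n, fun c t _ => rfl⟩
  have hOmpos : 0 < (Om.ncard : ℝ) := by
    exact_mod_cast (Set.ncard_pos hOmfin).mpr ⟨_, hOmne⟩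
  -- some element of Om is bad for no state
  obtain ⟨τ, hτ, hτbad⟩ : ∃ τ ∈ Om, ∀ t ∈ S, τ ∉ BadSet P B n t.1 t.2.1 t.2.2 := by
    by_contra hcon
    push Not at hcon
    have hcov : Om ⊆ ⋃ t ∈ S, {τ | τ ∈ Om ∧ τ ∈ BadSet P B n t.1 t.2.1 t.2.2} := by
      intro τ hτ
      obtain ⟨t, ht, hb⟩ := hcon τ hτ
      simp only [Set.mem_iUnion]
      exact ⟨t, ht, hτ, hb⟩
    have hbfin : ∀ t ∈ S, ({τ | τ ∈ Om ∧ τ ∈ BadSet P B n t.1 t.2.1 t.2.2} :
        Set (Fin (m+1) → List (Fin (m+1)))).Finite := fun t _ => hOmfin.subset fun τ h => h.1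
    have h1 : Om.ncard ≤
        (⋃ t ∈ S, {τ | τ ∈ Om ∧ τ ∈ BadSet P B n t.1 t.2.1 t.2.2}).ncard :=
      Set.ncard_le_ncard hcov (Set.Finite.biUnion S.finite_toSet hbfin)
    have h2 : (⋃ t ∈ S, {τ | τ ∈ Om ∧ τ ∈ BadSet P B n t.1 t.2.1 t.2.2}).ncard ≤
        ∑ t ∈ S, ({τ | τ ∈ Om ∧ τ ∈ BadSet P B n t.1 t.2.1 t.2.2} :
          Set (Fin (m+1) → List (Fin (m+1)))).ncard := by
      have : ∀ S' : Finset (Fin (m+1) × Fin (m+1) × (Fin (m+1) → ℤ)),
          (⋃ t ∈ S', {τ | τ ∈ Om ∧ τ ∈ BadSet P B n t.1 t.2.1 t.2.2}).ncard ≤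
            ∑ t ∈ S', ({τ | τ ∈ Om ∧ τ ∈ BadSet P B n t.1 t.2.1 t.2.2} :
              Set (Fin (m+1) → List (Fin (m+1)))).ncard := by
        intro S'
        induction S' using Finset.induction_on with
        | empty => simp
        | insert a s ha ih =>
          rw [Finset.sum_insert ha, Finset.set_biUnion_insert]
          exact le_trans (Set.ncard_union_le _ _) (Nat.add_le_add_left ih _)
      exact this S
    have h3 : ∀ t ∈ S, (({τ | τ ∈ Om ∧ τ ∈ BadSet P B n t.1 t.2.1 t.2.2} :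
          Set (Fin (m+1) → List (Fin (m+1)))).ncard : ℝ) ≤ (1 - q) ^ J * (Om.ncard : ℝ) := by
      intro t ht
      by_cases hcond : 0 < P.OV (0, t.1) (t.2.2, t.2.1) ∧ ¬ (t.2.2 = 0 ∧ t.1 = t.2.1)
      swap
      · have : ({τ | τ ∈ Om ∧ τ ∈ BadSet P B n t.1 t.2.1 t.2.2} :
          Set (Fin (m+1) → List (Fin (m+1)))) = ∅ := by
          ext τ
          simp only [BadSet, Set.mem_ofPred_eq, Set.mem_empty_iff_false, iff_false]
          exact fun h => hcond h.2.1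
        rw [this]
        simp only [Set.ncard_empty, Nat.cast_zero]
        exact mul_nonneg (pow_nonneg (by linarith) J) hOmpos.le
      obtain ⟨hdis, t1, t2, t3, t4, t5⟩ := hT t ht hcond
      have hbc := bad_count_pos P.u ((inc σ) ^ n) B K hK hS (iter σ n) Pos t.1 t.2.1
        (((inc σ) ^ n).mulVec t.2.2) hdis (T t) J t1 t2 t3 t4 t5
        (fun x hx1 hx2 => ⟨t, ht, hcond, Or.inl ⟨rfl, hx1, hx2⟩⟩)
        (fun x hx1 hx2 => ⟨t, ht, hcond, Or.inr ⟨rfl, hx1, hx2⟩⟩)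
      refine le_trans ?_ hbc
      have hsub : ({τ | τ ∈ Om ∧ τ ∈ BadSet P B n t.1 t.2.1 t.2.2} :
          Set (Fin (m+1) → List (Fin (m+1)))) ⊆
          {σ' | σ' ∈ Om ∧ ¬ ∃ e, e ∈ edges 0 (σ' t.1) ∧
            e ∈ edges (((inc σ) ^ n).mulVec t.2.2) (σ' t.2.1)} := fun τ h => ⟨h.1, h.2.2.2⟩
      exact_mod_cast Set.ncard_le_ncard hsub (hOmfin.subset fun τ h => h.1)
    have h4 : (Om.ncard : ℝ) ≤ S.card * ((1 - q) ^ J * (Om.ncard : ℝ)) := by
      have h5 : (Om.ncard : ℝ) ≤ ∑ t ∈ S, (({τ | τ ∈ Om ∧ τ ∈ BadSet P B n t.1 t.2.1 t.2.2} :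
          Set (Fin (m+1) → List (Fin (m+1)))).ncard : ℝ) := by
        exact_mod_cast le_trans h1 h2
      refine h5.trans ((Finset.sum_le_sum h3).trans ?_)
      rw [Finset.sum_const, nsmul_eq_mul]
    nlinarith
  have hτS := hOmsub hτ
  refine ⟨τ, hτS.1, fun a => ?_, ?_⟩
  · -- number of changes
    set F : Finset ℕ := S.biUnion (fun t =>
      (Finset.range (K * J)).image (fun i => (T t).toNat + i) ∪
      (Finset.range (K * J)).image (fun i => (T t - s t).toNat + i)) with hF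
    have hsub : {t : ℕ | (τ a)[t]? ≠ (iter σ n a)[t]?} ⊆ (F : Set ℕ) := by
      intro x hx
      have hx1 : (a, x) ∈ Pos := by
        by_contra hno
        exact hx (hτ.2 a x hno)
      obtain ⟨t, ht, hcond, h⟩ := hx1
      obtain ⟨-, t1, -, t3, -, -⟩ := hT t ht hcond
      simp only [hF, Finset.coe_biUnion, Set.mem_iUnion, Finset.mem_coe, Finset.coe_union]
      refine ⟨t, ht, ?_⟩
      rcases h with ⟨-, h1, h2⟩ | ⟨-, h1, h2⟩
      · left
        simp only [Finset.coe_image, Set.mem_image, Finset.mem_coe, Finset.mem_range]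
        refine ⟨x - (T t).toNat, ?_, ?_⟩
        · have : ((K * J : ℕ) : ℤ) = K * J := by push_cast; ring
          omega
        · omega
      · right
        simp only [Finset.coe_image, Set.mem_image, Finset.mem_coe, Finset.mem_range]
        refine ⟨x - (T t - s t).toNat, ?_, ?_⟩
        · have : ((K * J : ℕ) : ℤ) = K * J := by push_cast; ring
          simp only at h1 h2
          omega
        · simp only at h1 h2
          omega
    have h1 := Set.ncard_le_ncard hsub F.finite_toSet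
    rw [Set.ncard_coe_finset] at h1
    refine h1.trans ?_
    refine Finset.card_biUnion_le.trans ?_
    rw [← smul_eq_mul]
    refine Finset.sum_le_card_nsmul _ _ _ fun t _ => ?_
    refine (Finset.card_union_le _ _).trans ?_
    exact Nat.add_le_add (Finset.card_image_le.trans (by simp))
      (Finset.card_image_le.trans (by simp))
  · refine GFin_semi P hdet B D hB0 le_rfl n hn1 hr τ hτS ?_
    by_contra hUC
    obtain ⟨a, b, v, h1, h2, h3⟩ := GFin_coverUC P B D n hn1 τ hτS hUC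
    refine hτbad (a, b, v) ?_ h3
    simp only [hSdef, Finset.mem_product, Finset.mem_univ, true_and, hW, Set.Finite.mem_toFinset,
      Set.mem_ofPred_eq]
    exact ⟨h1, h2⟩

end Pool.Agent.H812R2.PI
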