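import Pool.Agent.H812R2.PI.Basic

namespace Pool.Agent.H812R2.PI
open scoped BigOperators
variable {d : ℕ}

theorem SRec_nonempty {M : Matrix (Fin d) (Fin d) ℤ} (P : PD M) : Nonempty (Fin d) := by
  by_contra hne
  rw [not_nonempty_iff] at hne
  have := P.u_sum
  simp at this

/-- images are nonempty -/
theorem subst_ne_nil {σ : Fin d → List (Fin d)} (P : PD (inc σ)) (a : Fin d) : σ a ≠ [] := by
  intro h
  have h1 := P.ell_M a
  have h2 : ∑ i, P.ell i * ((inc σ i a : ℤ) : ℝ) = 0 := by
    refine Finset.sum_eq_zero fun i _ => ?_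
    simp [inc, h]
  rw [h2] at h1
  have h3 := P.ell_pos a
  have h4 := P.lam_gt
  have h5 : 0 < P.lam * P.ell a := by positivity
  linarith

/-- growth of the lengths -/
theorem length_iter_bounds {σ : Fin d → List (Fin d)} (P : PD (inc σ)) :
    ∃ c C : ℝ, 0 < c ∧ 0 < C ∧ ∀ n a, c * P.lam ^ n ≤ ((iter σ n a).length : ℝ) ∧
      ((iter σ n a).length : ℝ) ≤ C * P.lam ^ n := by
  have hne := SRec_nonempty P
  obtain ⟨i, _, hi⟩ := Finset.exists_min_image (Finset.univ : Finset (Fin d)) P.ell
    Finset.univ_nonempty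
  obtain ⟨j, _, hj⟩ := Finset.exists_max_image (Finset.univ : Finset (Fin d)) P.ell
    Finset.univ_nonempty
  have hi0 := P.ell_pos i
  have hj0 := P.ell_pos j
  have hlam := P.lam_gt
  refine ⟨P.ell i / P.ell j, P.ell j / P.ell i, by positivity, by positivity, fun n a => ?_⟩
  have h1 := ht_iter P n a
  have h2 := ht_ab_le P (P.ell j) (fun b => hj b (Finset.mem_univ _)) (iter σ n a)
  have h3 := le_ht_ab P (P.ell i) (fun b => hi b (Finset.mem_univ _)) (iter σ n a)
  rw [h1] at h2 h3
  have hp : 0 < P.lam ^ n := by positivity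
  have h4 := hi a (Finset.mem_univ _)
  have h5 := hj a (Finset.mem_univ _)
  constructor
  · rw [div_mul_eq_mul_div, div_le_iff₀ hj0]
    have := mul_le_mul_of_nonneg_left h4 hp.le
    linarith
  · rw [div_mul_eq_mul_div, le_div_iff₀ hi0]
    have := mul_le_mul_of_nonneg_left h5 hp.le
    linarith

theorem SRec_len {σ : Fin d → List (Fin d)} (P : PD (inc σ)) (b : Fin d) (B : ℝ) :
    ∀ᶠ n : ℕ in Filter.atTop, B < ((iter σ n b).length : ℝ) := by
  obtain ⟨c, C, hc, hC, hcC⟩ := length_iter_bounds P
  have h1 : Filter.Tendsto (fun n : ℕ => c * P.lam ^ n) Filter.atTop Filter.atTop :=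
    Filter.Tendsto.const_mul_atTop hc (tendsto_pow_atTop_atTop_of_one_lt P.lam_gt)
  filter_upwards [h1.eventually (Filter.eventually_gt_atTop B)] with n hn
  exact hn.trans_le (hcC n b).1

theorem primitive {σ : Fin d → List (Fin d)} (P : PD (inc σ)) :
    ∃ k, 1 ≤ k ∧ ∀ n, k ≤ n → ∀ a b, a ∈ iter σ n b := by
  have key : ∀ a b : Fin d, ∀ᶠ n : ℕ in Filter.atTop, a ∈ iter σ n b := by
    intro a b
    filter_upwards [SRec_len P b (P.c * P.N (rv (ev b)) / P.u a)] with n hn
    have h1 : ab (iter σ n b) = ((inc σ) ^ n).mulVec (ev b) := by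
      rw [ab_subst, inc_iter]
    have h2 := P.le_cN (rv (ab (iter σ n b))) a
    have h3 := N_pow_mulVec P n (ev b)
    rw [← h1] at h3
    have h4 : P.rho ^ n ≤ 1 := pow_le_one₀ P.rho_nonneg P.rho_lt.le
    have h5 : ∑ j, rv (ab (iter σ n b)) j = ((iter σ n b).length : ℝ) := by
      have := ab_sum (iter σ n b)
      have h6 := congrArg (fun z : ℤ => (z : ℝ)) this
      simp only [Int.cast_sum, Int.cast_natCast] at h6
      exact h6
    rw [h5] at h2
    have h6 := (abs_le.mp h2).1
    have hu := P.u_pos a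
    rw [div_lt_iff₀ hu] at hn
    have hN0 := P.N_nonneg (rv (ev b))
    have h7 : P.N (rv (ab (iter σ n b))) ≤ P.N (rv (ev b)) := by nlinarith
    have h8 := mul_le_mul_of_nonneg_left h7 P.c_pos.le
    have h9 : 0 < rv (ab (iter σ n b)) a := by linarith
    have h10 : (0 : ℝ) < ((iter σ n b).count a : ℝ) := by
      have : rv (ab (iter σ n b)) a = ((iter σ n b).count a : ℝ) := by simp [rv, ab]
      rw [← this]
      exact h9
    exact List.count_pos_iff.mp (by exact_mod_cast h10)
  have h1 : ∀ᶠ n : ℕ in Filter.atTop, ∀ a b : Fin d, a ∈ iter σ n b := by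
    rw [Filter.eventually_all]
    intro a
    rw [Filter.eventually_all]
    exact key a
  obtain ⟨k, hk⟩ := Filter.eventually_atTop.mp h1
  exact ⟨max 1 k, le_max_left _ _, fun n hn => hk n ((le_max_right _ _).trans hn)⟩

/-- a long factor of a concatenation contains one of the words -/
theorem SRec_factor (τ : Fin d → List (Fin d)) (Lm : ℕ) (hτ : ∀ b, (τ b).length ≤ Lm)
    (z : List (Fin d)) (hz : 2 * Lm + 1 ≤ z.length) (y : List (Fin d)) (h : z <:+: ext τ y) :
    ∃ b, τ b <:+: z := by
  induction y with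
  | nil =>
    have h1 := h.length_le
    simp [ext] at h1
    subst h1
    simp at hz
  | cons b y ih =>
    obtain ⟨s, t, hst⟩ := h
    rw [ext_cons, List.append_assoc] at hst
    rcases List.append_eq_append_iff.mp hst with ⟨a', h1, h2⟩ | ⟨c', h1, h2⟩
    · rcases List.append_eq_append_iff.mp h2 with ⟨a2, h3, h4⟩ | ⟨c2, h3, h4⟩
      · exfalso
        have h5 := congrArg List.length h1
        have h6 := congrArg List.length h3
        rw [List.length_append] at h5 h6
        have := hτ b
        omega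
      · have h5 := congrArg List.length h1
        have h6 := congrArg List.length h3
        rw [List.length_append] at h5 h6
        have h7 := hτ b
        cases y with
        | nil =>
          have h8 := congrArg List.length h4
          simp [ext] at h8
          omega
        | cons b' y' =>
          rw [ext_cons] at h4
          rcases List.append_eq_append_iff.mp h4 with ⟨a3, h8, h9⟩ | ⟨c3, h8, h9⟩
          · refine ⟨b', a', a3, ?_⟩
            rw [h3, h8, List.append_assoc]
          · exfalso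
            have h10 := congrArg List.length h8
            rw [List.length_append] at h10
            have := hτ b'
            omega
    · refine ih ⟨c', t, ?_⟩
      rw [h2, List.append_assoc]

theorem lang_recurrent {σ : Fin d → List (Fin d)} (P : PD (inc σ)) (w : List (Fin d))
    (hw : w ∈ lang σ) : ∃ L : ℕ, ∀ z ∈ lang σ, L ≤ z.length → w <:+: z := by
  obtain ⟨n, hn, a, hwa⟩ := hw
  obtain ⟨k, hk, hprim⟩ := primitive P
  have hq : ∀ b, w <:+: iter σ (n + k) b := by
    intro b
    refine hwa.trans ?_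
    obtain ⟨s, t, hst⟩ := List.append_of_mem (hprim k le_rfl a b)
    rw [iter_add, hst, ext_append, ext_cons]
    exact ⟨_, _, by rw [List.append_assoc]⟩
  obtain ⟨Lm, hLm⟩ : ∃ Lm, Lm = ∑ b, (iter σ (n + k) b).length := ⟨_, rfl⟩
  have hLm' : ∀ b, (iter σ (n + k) b).length ≤ Lm := by
    intro b
    rw [hLm]
    exact Finset.single_le_sum (f := fun b => (iter σ (n + k) b).length)
      (fun i _ => Nat.zero_le _) (Finset.mem_univ b)
  refine ⟨2 * Lm + 1 + ∑ r ∈ Finset.range (n + k), ∑ b, (iter σ r b).length, ?_⟩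
  rintro z ⟨r, hr, c, hz⟩ hzl
  rcases le_or_gt (n + k) r with h1 | h1
  · obtain ⟨e, rfl⟩ := Nat.exists_eq_add_of_le h1
    rw [iter_add] at hz
    obtain ⟨b, hb⟩ := SRec_factor (iter σ (n + k)) Lm hLm' z (by omega) _ hz
    exact (hq b).trans hb
  · exfalso
    have h2 := hz.length_le
    have h3 : (iter σ r c).length ≤ ∑ b, (iter σ r b).length :=
      Finset.single_le_sum (f := fun b => (iter σ r b).length)
        (fun i _ => Nat.zero_le _) (Finset.mem_univ c)
    have h4 : ∑ b, (iter σ r b).length ≤ ∑ r ∈ Finset.range (n + k), ∑ b, (iter σ r b).length :=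
      Finset.single_le_sum (f := fun r => ∑ b, (iter σ r b).length)
        (fun i _ => Nat.zero_le _) (Finset.mem_range.mpr h1)
    omega

end Pool.Agent.H812R2.PI
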