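import Pool.Agent.H812R2.PI.SRec

namespace Pool.Agent.H812R2.PI
open scoped BigOperators
variable {d : ℕ}

theorem STop_nhds (y : ℤ → Fin d) (s : Set (ℤ → Fin d)) (hs : s ∈ nhds y) :
    ∃ n : ℕ, ∀ z : ℤ → Fin d, (∀ t : ℤ, |t| ≤ n → z t = y t) → z ∈ s := by
  rw [nhds_pi, Filter.mem_pi] at hs
  obtain ⟨I, hI, t, ht, hsub⟩ := hs
  obtain ⟨n, hn⟩ : ∃ n : ℕ, ∀ i ∈ I, |i| ≤ n := by
    obtain ⟨B, hB⟩ := (hI.image (fun i : ℤ => |i|)).bddAbove
    refine ⟨B.toNat, fun i hi => ?_⟩
    have : |i| ≤ B := hB (Set.mem_image_of_mem _ hi)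
    omega
  refine ⟨n, fun z hz => hsub ?_⟩
  intro i hi
  rw [hz i (hn i hi)]
  exact mem_of_mem_nhds (ht i)

theorem STop_ev (y : ℤ → Fin d) (I : Finset ℤ) : ∀ᶠ z : ℤ → Fin d in nhds y, ∀ t ∈ I, z t = y t := by
  rw [Filter.eventually_all_finset]
  intro t _
  have h1 : {y t} ∈ nhds (y t) := (isOpen_discrete _).mem_nhds rfl
  exact (continuous_apply t).continuousAt.eventually h1

theorem X_closed (σ : Fin d → List (Fin d)) : IsClosed (X σ) := by
  have h : X σ = ⋂ (m : ℤ), ⋂ (n : ℕ), {x | win x m n ∈ lang σ} := by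
    ext x
    simp [X]
  rw [h]
  refine isClosed_iInter fun m => isClosed_iInter fun n => ?_
  have hc : Continuous (fun x : ℤ → Fin d => (fun k : Fin n => x (m + (k : ℕ)))) :=
    continuous_pi fun k => continuous_apply _
  exact (isClosed_discrete {f : Fin n → Fin d | List.ofFn f ∈ lang σ}).preimage hc

theorem X_compact (σ : Fin d → List (Fin d)) : IsCompact (X σ) :=
  (X_closed σ).isCompact

theorem X_nonempty {σ : Fin d → List (Fin d)} (P : PD (inc σ)) : (X σ).Nonempty := by
  classical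
  -- a letter
  obtain ⟨a⟩ : Nonempty (Fin d) := by
    by_contra hne
    rw [not_nonempty_iff] at hne
    have := P.u_sum
    simp at this
  obtain ⟨c, C, hc, hC, hcC⟩ := length_iter_bounds P
  -- lengths tend to infinity
  have hlen : ∀ B : ℕ, ∀ᶠ n : ℕ in Filter.atTop, B ≤ (iter σ n a).length := by
    intro B
    have h1 : Filter.Tendsto (fun n : ℕ => c * P.lam ^ n) Filter.atTop Filter.atTop :=
      Filter.Tendsto.const_mul_atTop hc (tendsto_pow_atTop_atTop_of_one_lt P.lam_gt)
    filter_upwards [h1.eventually (Filter.eventually_ge_atTop (B : ℝ))] with n hn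
    exact_mod_cast hn.trans (hcC n a).1
  -- the sequence
  let f : ℕ → ℤ → Fin d := fun n k =>
    (iter σ n a).getD (k + ((iter σ n a).length / 2 : ℕ)).toNat a
  obtain ⟨x, hx⟩ : ∃ x, MapClusterPt x Filter.atTop f :=
    exists_clusterPt_of_compactSpace (Filter.map f Filter.atTop)
  refine ⟨x, fun m n => ?_⟩
  have h1 := (mapClusterPt_iff_frequently.mp hx) _ (STop_ev x (Finset.Ico m (m + n)))
  have h2 := (h1.and_eventually ((hlen (2 * (m.natAbs + n) + 2)).and
    (Filter.eventually_ge_atTop 1))).exists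
  obtain ⟨N, hN1, hN2, hN3⟩ := h2
  refine ⟨N, hN3, a, ?_⟩
  obtain ⟨W, hW⟩ : ∃ W, W = iter σ N a := ⟨_, rfl⟩
  rw [← hW] at hN2
  have hN1' : ∀ t ∈ Finset.Ico m (m + n), f N t = x t := hN1
  obtain ⟨j, hj⟩ : ∃ j : ℕ, (j : ℤ) = m + (W.length / 2 : ℕ) :=
    ⟨(m + (W.length / 2 : ℕ)).toNat, by omega⟩
  have hjn : j + n ≤ W.length := by omega
  have h3 : win x m n = (W.drop j).take n := by
    apply List.ext_getElem
    · rw [win_length, List.length_take, List.length_drop]
      omega
    · intro i h4 h5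
      rw [win_getElem, List.getElem_take, List.getElem_drop]
      rw [win_length] at h4
      have h6 := hN1' (m + i) (by rw [Finset.mem_Ico]; omega)
      rw [← h6]
      simp only [f]
      rw [← hW]
      have h7 : (m + (i : ℤ) + ((W.length / 2 : ℕ) : ℤ)).toNat = j + i := by omega
      rw [h7, List.getD_eq_getElem _ _ (by omega)]
  rw [h3, ← hW]
  exact ((List.take_prefix _ _).isInfix).trans (List.drop_suffix _ _).isInfix

/-- forward orbits are dense -/
theorem X_minimal {σ : Fin d → List (Fin d)} (P : PD (inc σ)) {x y : ℤ → Fin d}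
    (hx : x ∈ X σ) (hy : y ∈ X σ) (n : ℕ) :
    ∃ k : ℕ, ∀ t : ℤ, |t| ≤ n → x (k + t) = y t := by
  obtain ⟨L, hL⟩ := lang_recurrent P _ (hy (-n) (2 * n + 1))
  obtain ⟨s, r, hsr⟩ := hL (win x 0 L) (hx 0 L) (by rw [win_length])
  refine ⟨s.length + n, fun t ht => ?_⟩
  have ht' := abs_le.mp ht
  obtain ⟨i, hi⟩ : ∃ i : ℕ, (i : ℤ) = n + t := ⟨(n + t).toNat, by omega⟩
  have hlen : s.length + (2 * n + 1) + r.length = L := by
    have := congrArg List.length hsr
    simp only [List.length_append, win_length] at this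
    exact this
  have h1 : (win x 0 L)[s.length + i]'(by rw [win_length]; omega) = x (0 + ((s.length + i : ℕ) : ℤ)) :=
    win_getElem x 0 L (s.length + i) (by rw [win_length]; omega)
  have h2 : (win y (-n) (2 * n + 1))[i]'(by rw [win_length]; omega) = y (-n + (i : ℤ)) :=
    win_getElem y (-n) (2 * n + 1) i (by rw [win_length]; omega)
  have h3 : (win x 0 L)[s.length + i]'(by rw [win_length]; omega) =
      (win y (-n) (2 * n + 1))[i]'(by rw [win_length]; omega) := by
    have h4 : (s ++ win y (-n) (2 * n + 1) ++ r)[s.length + i]'(by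
        simp only [List.length_append, win_length]; omega) =
        (win y (-n) (2 * n + 1))[i]'(by rw [win_length]; omega) := by
      rw [List.getElem_append_left (by simp only [List.length_append, win_length]; omega),
        List.getElem_append_right (by omega)]
      congr 1
      omega
    rw [← h4]
    congr 1
    exact hsr.symm
  rw [h1, h2] at h3
  have e1 : ((s.length + n : ℕ) : ℤ) + t = 0 + ((s.length + i : ℕ) : ℤ) := by
    push_cast
    omega
  have e2 : t = -(n : ℤ) + i := by omega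
  rw [e1, h3, ← e2]

/-- a semicontinuous invariant function is constant -/
theorem const_of_inv {σ : Fin d → List (Fin d)} (P : PD (inc σ)) (g : (ℤ → Fin d) → ℝ)
    (hg : LowerSemicontinuousOn g (X σ)) (hinv : ∀ x ∈ X σ, g (sh x) = g x) :
    ∀ x ∈ X σ, ∀ y ∈ X σ, g x = g y := by
  have hshift : ∀ x ∈ X σ, ∀ k : ℕ, g (shZ k x) = g x := by
    intro x hx k
    induction k with
    | zero => simp [shZ_zero]
    | succ k ih =>
      rw [← ih, ← hinv (shZ k x) (shZ_mem hx k), sh_eq_shZ, shZ_add]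
      congr 2
      push_cast
      ring
  have key : ∀ x ∈ X σ, ∀ y ∈ X σ, g y ≤ g x := by
    intro x hx y hy
    by_contra hcon
    push Not at hcon
    have h1 := hg y hy (g x) hcon
    rw [eventually_nhdsWithin_iff] at h1
    obtain ⟨n, hn⟩ := STop_nhds y _ h1
    obtain ⟨k, hk⟩ := X_minimal P hx hy n
    have h2 := hn (shZ k x) (fun t ht => by
      rw [← hk t ht]
      simp [shZ, add_comm]) (shZ_mem hx k)
    have h3 : g x < g (shZ k x) := h2
    rw [hshift x hx k] at h3
    exact lt_irrefl _ h3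
  intro x hx y hy
  exact le_antisymm (key y hy x hx) (key x hx y hy)

end Pool.Agent.H812R2.PI
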