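import Pool.Agent.H812R2.PI.Basic

namespace Pool.Agent.H812R2.PI
open scoped BigOperators
variable {d : ℕ}

/-- additivity of the overlap in one interval -/
theorem ovl_add (a b x y z : ℝ) (hxy : x ≤ y) (hyz : y ≤ z) (hab : a ≤ b) :
    ovl a b x z = ovl a b x y + ovl a b y z := by
  unfold ovl
  rcases le_total a x with h1 | h1 <;> rcases le_total a y with h2 | h2 <;>
    rcases le_total b y with h3 | h3 <;> rcases le_total b z with h4 | h4 <;>
    simp only [h1, h2, h3, h4, max_eq_left, max_eq_right, min_eq_left, min_eq_right] <;>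
    simp only [max_def] <;> split_ifs <;> linarith

theorem ovl_comm (a b c e : ℝ) : ovl a b c e = ovl c e a b := by
  unfold ovl; rw [min_comm, max_comm a c]

theorem UTot_ovl_self (a b x : ℝ) (hab : a ≤ b) : ovl a b x x = 0 := by
  unfold ovl
  apply max_eq_left
  have h1 := min_le_right b x
  have h2 := le_max_right a x
  linarith

theorem UTot_ht_nonneg {M : Matrix (Fin d) (Fin d) ℤ} (P : PD M) (w : List (Fin d)) :
    0 ≤ P.ht (ab w) := by
  have := le_ht_ab P 0 (fun i => (P.ell_pos i).le) w
  simpa using this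

/-- total overlap of an interval with the edges of a path -/
theorem sum_ovl_edges {M : Matrix (Fin d) (Fin d) ℤ} (P : PD M) (a b : ℝ) (hab : a ≤ b)
    (z : Fin d → ℤ) (w : List (Fin d)) :
    ((edges z w).map (fun f => ovl a b (P.ht f.1) (P.ht f.1 + P.ell f.2))).sum =
      ovl a b (P.ht z) (P.ht z + P.ht (ab w)) := by
  induction w generalizing z with
  | nil => simp [edges, ab_nil, ht_zero, UTot_ovl_self a b _ hab]
  | cons c w ih =>
    simp only [edges, List.map_cons, List.sum_cons]
    rw [ih, ab_cons, ht_add, ht_add, ht_ev]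
    have h1 := P.ell_pos c
    have h2 := UTot_ht_nonneg P w
    rw [← ovl_add a b (P.ht z) (P.ht z + P.ell c) (P.ht z + P.ell c + P.ht (ab w))
      (by linarith) (by linarith) hab]
    congr 1; ring

/-- total overlap of two paths -/
theorem sum_OV_edges {M : Matrix (Fin d) (Fin d) ℤ} (P : PD M)
    (z₁ z₂ : Fin d → ℤ) (w₁ w₂ : List (Fin d)) :
    ((edges z₁ w₁).map (fun e => ((edges z₂ w₂).map (fun f => P.OV e f)).sum)).sum =
      ovl (P.ht z₁) (P.ht z₁ + P.ht (ab w₁)) (P.ht z₂) (P.ht z₂ + P.ht (ab w₂)) := by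
  have h1 : ∀ e : (Fin d → ℤ) × Fin d, ((edges z₂ w₂).map (fun f => P.OV e f)).sum =
      ovl (P.ht z₂) (P.ht z₂ + P.ht (ab w₂)) (P.ht e.1) (P.ht e.1 + P.ell e.2) := by
    intro e
    rw [ovl_comm]
    exact sum_ovl_edges P _ _ (by linarith [P.ell_pos e.2]) z₂ w₂
  simp only [h1]
  rw [sum_ovl_edges P _ _ (by linarith [UTot_ht_nonneg P w₂]), ovl_comm]

/-- heights along a path -/
theorem UTot_ht_take {M : Matrix (Fin d) (Fin d) ℤ} (P : PD M) (w : List (Fin d)) (k l : ℕ)
    (hkl : k < l) (hk : k < w.length) :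
    P.ht (ab (w.take k)) + P.ell w[k] ≤ P.ht (ab (w.take l)) := by
  have h1 : w.take l = w.take (k+1) ++ (w.drop (k+1)).take (l - (k+1)) := by
    rw [← List.take_add]; congr 1; omega
  rw [h1, ab_append, ht_add, List.take_succ_eq_append_getElem hk, ab_append, ht_add, ab_single,
    ht_ev]
  have := UTot_ht_nonneg P ((w.drop (k+1)).take (l - (k+1)))
  linarith

/-- two distinct edges of the same path do not overlap -/
theorem OV_same_path {M : Matrix (Fin d) (Fin d) ℤ} (P : PD M) (z : Fin d → ℤ)
    (w : List (Fin d)) {e f : (Fin d → ℤ) × Fin d} (he : e ∈ edges z w) (hf : f ∈ edges z w)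
    (hne : e ≠ f) : P.OV e f = 0 := by
  obtain ⟨k, hk, rfl⟩ := mem_edges.1 he
  obtain ⟨l, hl, rfl⟩ := mem_edges.1 hf
  unfold PD.OV ovl
  apply max_eq_left
  simp only [ht_add]
  rcases lt_trichotomy k l with h | h | h
  · have h1 := UTot_ht_take P w k l h hk
    have h2 := min_le_left (P.ht z + P.ht (ab (w.take k)) + P.ell w[k])
      (P.ht z + P.ht (ab (w.take l)) + P.ell w[l])
    have h3 := le_max_right (P.ht z + P.ht (ab (w.take k))) (P.ht z + P.ht (ab (w.take l)))
    linarith
  · subst h; exact absurd rfl hne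
  · have h1 := UTot_ht_take P w l k h hl
    have h2 := min_le_right (P.ht z + P.ht (ab (w.take k)) + P.ell w[k])
      (P.ht z + P.ht (ab (w.take l)) + P.ell w[l])
    have h3 := le_max_left (P.ht z + P.ht (ab (w.take k))) (P.ht z + P.ht (ab (w.take l)))
    linarith

/-- edges of an inflated path -/
theorem edges_ext (τ : Fin d → List (Fin d)) (z : Fin d → ℤ) (w : List (Fin d)) :
    edges ((inc τ).mulVec z) (ext τ w) =
      (edges z w).flatMap (fun e => edges ((inc τ).mulVec e.1) (τ e.2)) := by
  induction w generalizing z with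
  | nil => simp [edges, ext]
  | cons a w ih =>
    rw [ext_cons, edges_append, ab_subst, ← Matrix.mulVec_add, ih]
    simp [edges]

theorem UTot_OV_translate {M : Matrix (Fin d) (Fin d) ℤ} (P : PD M) (t : Fin d → ℤ)
    (e f : (Fin d → ℤ) × Fin d) : P.OV (e.1 + t, e.2) (f.1 + t, f.2) = P.OV e f := by
  unfold PD.OV ovl
  simp only [ht_add]
  congr 1
  rw [max_add_add_right, show P.ht e.1 + P.ht t + P.ell e.2 = (P.ht e.1 + P.ell e.2) + P.ht t by ring,
    show P.ht f.1 + P.ht t + P.ell f.2 = (P.ht f.1 + P.ell f.2) + P.ht t by ring,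
    min_add_add_right]
  ring

/-- translation invariance -/
theorem Unc_translate {M : Matrix (Fin d) (Fin d) ℤ} (P : PD M) (t z₁ z₂ : Fin d → ℤ)
    (w₁ w₂ : List (Fin d)) : P.Unc (z₁ + t) w₁ (z₂ + t) w₂ = P.Unc z₁ w₁ z₂ w₂ := by
  unfold PD.Unc
  rw [edges_translate, edges_translate, List.map_map]
  congr 1
  apply List.map_congr_left
  intro e _
  simp only [Function.comp_apply, List.map_map]
  congr 1
  apply List.map_congr_left
  intro f _
  simp only [Function.comp_apply]
  rw [UTot_OV_translate]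
  by_cases h : e = f
  · subst h; simp
  · have : ¬ ((e.1 + t, e.2) = (f.1 + t, f.2)) := by
      intro h'
      apply h
      have h1 := congrArg Prod.fst h'
      have h2 := congrArg Prod.snd h'
      simp only at h1 h2
      exact Prod.ext (add_right_cancel h1) h2
    rw [if_neg h, if_neg this]

end Pool.Agent.H812R2.PI
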